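import Pool.Agent.TPK.Targets7
import Pool.Agent.EllTw.FIN

set_option autoImplicit false

/-! TPK-ZTW: from blocks to the interval, `k` structured functions. -/

namespace Pool.Agent.TPK.ZTW_

open Finset Filter Pool.Agent.Ell Pool.Agent.Ell.KeyA Pool.Agent.Ell.KeyE Pool.Agent.EllTw
  Pool.Agent.EllTw.FIN_ Pool.Agent.TPM Pool.Agent.TPX
open scoped BigOperators ComplexConjugate

theorem norm_Wk {k : ℕ} (a : Fin k → ℤ) (g : Fin k → ℕ → ℂ) (hg : ∀ j, MB (g j))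
    (n : ℕ) : ‖Wk a g n‖ ≤ 1 := by
  unfold Wk
  rw [norm_prod]
  exact Finset.prod_le_one (fun _ _ => norm_nonneg _) fun j _ => (hg j).bd _

theorem norm_nit_ch {r : ℕ} (χ : DirichletCharacter ℂ r) (t : ℝ) (n : ℕ) :
    ‖χ (n : ZMod r) * nit t n‖ ≤ 1 := by
  rw [norm_mul]
  exact mul_le_one₀ (DirichletCharacter.norm_le_one χ _) (norm_nonneg _) (norm_nit _ _)

/-- the terms of the distance are nonnegative -/
theorem term_nonneg {r : ℕ} (χ : DirichletCharacter ℂ r) (f : ℕ → ℂ) (hf : MB f) (t : ℝ)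
    (p : ℕ) : 0 ≤ (1 - (f p * conj (χ (p : ZMod r) * nit t p)).re) / (p : ℝ) := by
  refine div_nonneg ?_ (Nat.cast_nonneg _)
  have h1 : ‖f p * conj (χ (p : ZMod r) * nit t p)‖ ≤ 1 := by
    rw [norm_mul, RCLike.norm_conj]
    exact mul_le_one₀ (hf.bd _) (norm_nonneg _) (norm_nit_ch χ t p)
  have h2 := (Complex.re_le_norm (f p * conj (χ (p : ZMod r) * nit t p))).trans h1
  linarith

/-- the distance decreases with the lower end -/
theorem dist2_anti {r : ℕ} (χ : DirichletCharacter ℂ r) (f : ℕ → ℂ) (hf : MB f) (t y y' x : ℝ)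
    (h : y ≤ y') : dist2 f χ t y' x ≤ dist2 f χ t y x := by
  unfold dist2
  refine Finset.sum_le_sum_of_subset_of_nonneg ?_ (fun p _ _ => term_nonneg χ f hf t p)
  intro p hp
  rw [Finset.mem_filter] at hp ⊢
  exact ⟨hp.1, hp.2.1, lt_of_le_of_lt h hp.2.2⟩

/-- a larger constant `A` is a stronger hypothesis -/
theorem dist2_mono {r : ℕ} (χ : DirichletCharacter ℂ r) (f : ℕ → ℂ) (hf : MB f) (t A A' : ℝ)
    (x : ℕ) (hx : 1 ≤ x) (hA : 1 ≤ A) (hAA : A ≤ A')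
    (h : dist2 f χ t ((x : ℝ) ^ (1 / A')) x ≤ 1 / A') :
    dist2 f χ t ((x : ℝ) ^ (1 / A)) x ≤ 1 / A := by
  have hx1 : (1 : ℝ) ≤ x := by exact_mod_cast hx
  have h1 : 1 / A' ≤ 1 / A := one_div_le_one_div_of_le (by linarith) hAA
  exact (dist2_anti χ f hf t _ _ x (Real.rpow_le_rpow_of_exponent_le hx1 h1)).trans (h.trans h1)

/-- `T_ZBL` for one pair of primes and given constants -/
def Zb1 (k : ℕ) (a : Fin k → ℤ) (p p' : ℕ) (C δ κ0 v : ℝ) (K X : ℕ)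
    (B A : ℝ) : Prop :=
  ∀ x N : ℕ, X ≤ x → κ0 * x ≤ N → N ≤ x →
  ∀ y1 y2 : ℕ, N ≤ y1 → y1 ≤ y2 → y2 ≤ 2 * N → p * y2 ≤ x → p' * y2 ≤ x →
  ∀ (β : ℕ → ℂ) (S : Finset (PK k)) (g : PK k → Fin k → ℕ → ℂ), (∀ m, ‖β m‖ ≤ 1) →
  (∀ e ∈ S, (∀ j, 1 ≤ e.q j ∧ |e.t j| ≤ (x : ℝ) ^ C ∧ MB (g e j) ∧
    dist2 (g e j) (e.χ j) (e.t j) ((x : ℝ) ^ (1 / A)) x ≤ 1 / A) ∧
    δ * x < ‖∑ m ∈ Finset.Ioc y1 y2, β m * (Wk a (g e) (p * m) *
      conj (Wk a (g e) (p' * m)))‖) →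
  (∀ e ∈ S, ∀ e' ∈ S, ((Nat.lcm (Finset.univ.lcm e.q) (Finset.univ.lcm e'.q) : ℕ) : ℝ) ≤
    (x : ℝ) ^ v) →
  (∀ e ∈ S, ∀ e' ∈ S, e ≠ e' → (∀ j, Same (e.χ j) (e'.χ j)) →
    ∃ l ∈ Finset.Icc 1 k, B * (x : ℝ) ^ l < |tau a (fun j => e.t j - e'.t j) l|) →
  S.card ≤ K

theorem Zb1.mono {k : ℕ} {a : Fin k → ℤ} {p p' : ℕ} {C δ κ0 : ℝ} {K X K' X' : ℕ}
    {B v B' A A' : ℝ} (h : Zb1 k a p p' C δ κ0 v K X B A) (hK : K ≤ K') (hX : X ≤ X')
    (hX1 : 1 ≤ X') (hB : B ≤ B') (hA : 1 ≤ A) (hAA : A ≤ A') :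
    Zb1 k a p p' C δ κ0 v K' X' B' A' := by
  intro x N hx h0 h0' y1 y2 h1 h2 h3 h3a h3b β S g h4 h5 h7 h6
  refine (h x N (hX.trans hx) h0 h0' y1 y2 h1 h2 h3 h3a h3b β S g h4 ?_ h7 ?_).trans hK
  · intro e he
    obtain ⟨g1, g5⟩ := h5 e he
    refine ⟨fun j => ⟨(g1 j).1, (g1 j).2.1, (g1 j).2.2.1, ?_⟩, g5⟩
    exact dist2_mono _ _ (g1 j).2.2.1 _ A A' x (hX1.trans hx) hA hAA (g1 j).2.2.2
  · intro e he e' he' hne hs
    obtain ⟨l, hl, hl2⟩ := h6 e he e' he' hne hs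
    exact ⟨l, hl, lt_of_le_of_lt (mul_le_mul_of_nonneg_right hB (by positivity)) hl2⟩

/-- uniform constants for a finite set of pairs -/
theorem blk_unif (hB : T_ZBL) (k : ℕ) (a : Fin k → ℤ) (C δ κ0 θ : ℝ) (hk : 1 ≤ k)
    (ha : Function.Injective a) (ha0 : ∀ j, a j ≠ 0) (hC : 0 < C) (hδ : 0 < δ) (hκ : 0 < κ0)
    (hθ : 0 < θ)
    (Q : Finset (ℕ × ℕ)) (hQ : ∀ pr ∈ Q, pr.1.Prime ∧ pr.2.Prime ∧ pr.1 ≠ pr.2 ∧
      (∀ j, |a j| < (pr.1 : ℤ)) ∧ ∀ j, |a j| < (pr.2 : ℤ)) :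
    ∃ (K X : ℕ) (B A : ℝ), 1 ≤ X ∧ 0 ≤ B ∧ 1 ≤ A ∧
      ∀ pr ∈ Q, Zb1 k a pr.1 pr.2 C δ κ0 (1 - θ) K X B A := by
  classical
  induction Q using Finset.induction_on with
  | empty => exact ⟨0, 1, 0, 1, le_rfl, le_rfl, le_rfl, by simp⟩
  | insert pr Q hpr ih =>
    obtain ⟨K, X, B, A, hX, hB0, hA1, H⟩ := ih (fun pr' h => hQ pr' (Finset.mem_insert_of_mem h))
    obtain ⟨h1, h2, h3, h4, h5⟩ := hQ pr (Finset.mem_insert_self _ _)
    obtain ⟨K', X', B', A', hB0', hA1', H'⟩ :=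
      hB k a pr.1 pr.2 C δ κ0 θ hk ha ha0 h1 h2 h3 h4 h5 hC hδ hκ hθ
    refine ⟨max K K', max X X', max B B', max A A', le_max_of_le_left hX,
      le_max_of_le_left hB0, le_max_of_le_left hA1, ?_⟩
    intro pr' hpr'
    rcases Finset.mem_insert.mp hpr' with h | h
    · subst h
      exact Zb1.mono H' (le_max_right _ _) (le_max_right _ _) (le_max_of_le_left hX)
        (le_max_right _ _) hA1' (le_max_right _ _)
    · exact (H pr' h).mono (le_max_left _ _) (le_max_left _ _) (le_max_of_le_left hX)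
        (le_max_left _ _) hA1 (le_max_left _ _)

theorem core (hK : T_KAT) (hB : T_ZBL) (k : ℕ) (a : Fin k → ℤ) (C ε θ : ℝ) (hk : 1 ≤ k)
    (ha : Function.Injective a) (ha0 : ∀ j, a j ≠ 0) (hC : 0 < C) (hε : 0 < ε) (hθ : 0 < θ) :
    ∃ (J X : ℕ) (B A : ℝ), 1 ≤ A ∧ ∀ x : ℕ, X ≤ x → ∀ D : ℕ → ℂ, (∀ n, ‖D n‖ ≤ 1) →
    ∀ S : Finset (PK k),
    (∀ e ∈ S, (∀ j, 1 ≤ e.q j ∧ |e.t j| ≤ (x : ℝ) ^ C) ∧
      ∃ (f : ℕ → ℂ) (g : Fin k → ℕ → ℂ), MB f ∧ (∀ j, MB (g j) ∧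
        dist2 (g j) (e.χ j) (e.t j) ((x : ℝ) ^ (1 / A)) x ≤ 1 / A) ∧
        ε * x < ‖∑ m ∈ Finset.Icc 1 x, f m * (D m * Wk a g m)‖) →
    (∀ e ∈ S, ∀ e' ∈ S, ((Nat.lcm (Finset.univ.lcm e.q) (Finset.univ.lcm e'.q) : ℕ) : ℝ) ≤
      (x : ℝ) ^ (1 - θ)) →
    (∀ e ∈ S, ∀ e' ∈ S, e ≠ e' → (∀ j, Same (e.χ j) (e'.χ j)) →
      ∃ l ∈ Finset.Icc 1 k, B * (x : ℝ) ^ l < |tau a (fun j => e.t j - e'.t j) l|) →
    S.card ≤ J := by
  classical
  obtain ⟨P, δ, X1, hP, hδ, hKat⟩ := hK ε (∑ j, (a j).natAbs) hε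
  have haP : ∀ p ∈ P, ∀ j, |a j| < (p : ℤ) := by
    intro p hp j
    have h1 := (hP p hp).2
    have h2 : (a j).natAbs ≤ ∑ j, (a j).natAbs :=
      Finset.single_le_sum (f := fun j => (a j).natAbs) (fun _ _ => Nat.zero_le _)
        (Finset.mem_univ j)
    have h3 : |a j| = ((a j).natAbs : ℤ) := Int.abs_eq_natAbs _
    rw [h3]
    exact_mod_cast lt_of_le_of_lt h2 h1
  -- the number of blocks
  obtain ⟨I, hI1, hI2⟩ : ∃ I : ℕ, 1 ≤ I ∧ 1 / (2 : ℝ) ^ I ≤ δ / 4 := by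
    obtain ⟨n, hn⟩ := exists_pow_lt_of_lt_one (show (0 : ℝ) < δ / 4 by positivity)
      (show (1 / 2 : ℝ) < 1 by norm_num)
    refine ⟨n + 1, by omega, ?_⟩
    rw [one_div_pow] at hn
    refine le_trans ?_ hn.le
    exact one_div_le_one_div_of_le (by positivity) (pow_le_pow_right₀ (by norm_num) (by omega))
  have hI0 : (0 : ℝ) < I := by exact_mod_cast hI1
  set δ' := δ / (2 * I) with hδ'
  have hδ'0 : 0 < δ' := by positivity
  set Q := (P ×ˢ P).filter (fun pr => pr.1 ≠ pr.2) with hQ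
  set Pm := ∑ p ∈ P, p + 1 with hPm
  have hPle : ∀ p ∈ P, p ≤ Pm := fun p hp =>
    (Finset.single_le_sum (f := fun p => p) (fun _ _ => Nat.zero_le _) hp).trans (Nat.le_succ _)
  have hPm1 : 1 ≤ Pm := by omega
  set κ : ℝ := 1 / (4 * (Pm : ℝ) * 2 ^ I) with hκ
  have hPm0 : (0 : ℝ) < Pm := by exact_mod_cast hPm1
  have hκ0 : 0 < κ := by positivity
  obtain ⟨K, X2, B, A, hX21, hB0, hA1, HB⟩ := blk_unif hB k a C δ' κ θ hk ha ha0
    hC hδ'0 hκ0 hθ Q (by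
      intro pr hpr
      rw [hQ, Finset.mem_filter, Finset.mem_product] at hpr
      exact ⟨(hP _ hpr.1.1).1, (hP _ hpr.1.2).1, hpr.2, haP _ hpr.1.1, haP _ hpr.1.2⟩)
  refine ⟨K * (Q ×ˢ Finset.range I).card, max X1 (max X2 (max (2 * Pm * 2 ^ I)
    ⌈4 * I / δ⌉₊)), B, A, hA1, ?_⟩
  intro x hx D hD S hS hlcm hsep
  have hxX1 : X1 ≤ x := (le_max_left _ _).trans hx
  have hx' := (le_max_right _ _).trans hx
  have hxX2 : X2 ≤ x := (le_max_left _ _).trans hx'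
  have hx3 := (le_max_right _ _).trans hx'
  have hx4 : 2 * Pm * 2 ^ I ≤ x := (le_max_left _ _).trans hx3
  have hx5 : 4 * (I : ℝ) / δ ≤ x := (Nat.le_ceil _).trans (by
    exact_mod_cast (le_max_right _ _).trans hx3)
  have hx1 : 1 ≤ x := hX21.trans hxX2
  have hx1' : (1 : ℝ) ≤ x := by exact_mod_cast hx1
  choose! F G hFG using fun e he => (hS e he).2
  -- the part of `S` for a pair of primes and a block
  let lo : ℕ × ℕ → ℕ → ℕ := fun pr i => x / max pr.1 pr.2 / 2 ^ (i + 1) + 1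
  let hi : ℕ × ℕ → ℕ → ℕ := fun pr i => x / max pr.1 pr.2 / 2 ^ i
  let β : ℕ × ℕ → ℕ → ℂ := fun pr m => D (pr.1 * m) * conj (D (pr.2 * m))
  let T : (ℕ × ℕ) × ℕ → Finset (PK k) := fun z => S.filter (fun e =>
    δ' * x < ‖∑ m ∈ Finset.Ioc (lo z.1 z.2) (hi z.1 z.2),
      β z.1 m * (Wk a (G e) (z.1.1 * m) * conj (Wk a (G e) (z.1.2 * m)))‖)
  have hcov : S ⊆ (Q ×ˢ Finset.range I).biUnion T := by
    intro e he
    obtain ⟨hf, hg, hbad⟩ := hFG e he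
    have hH : ∀ n, ‖D n * Wk a (G e) n‖ ≤ 1 := by
      intro n
      rw [norm_mul]
      exact mul_le_one₀ (hD n) (norm_nonneg _) (norm_Wk a _ (fun j => (hg j).1) n)
    have hex : ∃ p ∈ P, ∃ q ∈ P, p ≠ q ∧ δ * x < ‖∑ m ∈ Finset.Icc 1 (x / max p q),
        (D (p * m) * Wk a (G e) (p * m)) *
          conj (D (q * m) * Wk a (G e) (q * m))‖ := by
      by_contra hcon
      push Not at hcon
      have := hKat x hxX1 (F e) (fun n => D n * Wk a (G e) n) hf hH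
        (fun p hp q hq hpq => hcon p hp q hq hpq)
      linarith
    obtain ⟨p, hp, q, hq, hpq, hlarge⟩ := hex
    have hM : x / max p q ≤ x := Nat.div_le_self _ _
    obtain ⟨i, hi', hib⟩ := block_exists (fun m => (D (p * m) * Wk a (G e) (p * m)) *
      conj (D (q * m) * Wk a (G e) (q * m))) (by
        intro m
        rw [norm_mul, RCLike.norm_conj]
        exact mul_le_one₀ (hH _) (norm_nonneg _) (hH _)) (x / max p q) x I δ hδ hI1 hI2 hM hx5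
        hlarge
    rw [Finset.mem_biUnion]
    refine ⟨((p, q), i), ?_, ?_⟩
    · rw [Finset.mem_product, hQ, Finset.mem_filter, Finset.mem_product]
      exact ⟨⟨⟨hp, hq⟩, hpq⟩, hi'⟩
    · rw [Finset.mem_filter]
      refine ⟨he, ?_⟩
      have e1 : ∑ m ∈ Finset.Ioc (x / max p q / 2 ^ (i + 1) + 1) (x / max p q / 2 ^ i),
          (D (p * m) * Wk a (G e) (p * m)) * conj (D (q * m) * Wk a (G e) (q * m)) =
          ∑ m ∈ Finset.Ioc (lo (p, q) i) (hi (p, q) i),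
            β (p, q) m * (Wk a (G e) (p * m) * conj (Wk a (G e) (q * m))) := by
        refine Finset.sum_congr rfl (fun m _ => ?_)
        simp only [β, map_mul]
        ring
      rw [← e1]
      exact hib
  refine (Finset.card_le_card hcov).trans ?_
  refine Finset.card_biUnion_le_card_mul _ _ _ (fun z hz => ?_) |>.trans (by rw [mul_comm])
  obtain ⟨⟨p, q⟩, i⟩ := z
  rw [Finset.mem_product, hQ, Finset.mem_filter, Finset.mem_product] at hz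
  obtain ⟨⟨⟨hp, hq⟩, hpq⟩, hi'⟩ := hz
  simp only at hp hq hpq hi'
  rw [Finset.mem_range] at hi'
  rcases (T ((p, q), i)).eq_empty_or_nonempty with hemp | hne
  · rw [hemp]
    simp
  have hpm : 1 ≤ max p q := (hP p hp).1.one_le.trans (le_max_left _ _)
  have hpm2 : max p q ≤ Pm := max_le (hPle p hp) (hPle q hq)
  have hlo : κ * x ≤ (lo (p, q) i : ℝ) := by
    refine block_size (x / max p q) x Pm I i hi' hPm1 ?_ hx4
    exact Nat.div_le_div_left hpm2 hpm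
  have hhl : hi (p, q) i ≤ 2 * lo (p, q) i := by
    change x / max p q / 2 ^ i ≤ 2 * (x / max p q / 2 ^ (i + 1) + 1)
    have : x / max p q / 2 ^ (i + 1) = x / max p q / 2 ^ i / 2 := by
      rw [Nat.div_div_eq_div_mul (x / max p q), pow_succ]
    rw [this]
    omega
  have hlh : lo (p, q) i ≤ hi (p, q) i := by
    obtain ⟨e, he⟩ := hne
    by_contra hcon
    push Not at hcon
    rw [Finset.mem_filter] at he
    have h1 := he.2
    simp only at h1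
    rw [Finset.Ioc_eq_empty_of_le hcon.le, Finset.sum_empty, norm_zero] at h1
    have : 0 ≤ δ' * x := by positivity
    linarith
  have hlox : lo (p, q) i ≤ x := hlh.trans ((Nat.div_le_self _ _).trans (Nat.div_le_self _ _))
  have hhi : max p q * hi (p, q) i ≤ x :=
    (Nat.mul_le_mul_left _ (Nat.div_le_self _ _)).trans (Nat.mul_div_le x (max p q))
  refine HB (p, q) (by
    rw [hQ, Finset.mem_filter, Finset.mem_product]
    exact ⟨⟨hp, hq⟩, hpq⟩) x (lo (p, q) i) hxX2 hlo hlox (lo (p, q) i) (hi (p, q) i) le_rfl hlh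
    hhl ((Nat.mul_le_mul_right _ (le_max_left p q)).trans hhi)
    ((Nat.mul_le_mul_right _ (le_max_right p q)).trans hhi)
    (β (p, q)) (T ((p, q), i)) G ?_ ?_ ?_ ?_
  · intro m
    change ‖D (p * m) * conj (D (q * m))‖ ≤ 1
    rw [norm_mul, RCLike.norm_conj]
    exact mul_le_one₀ (hD _) (norm_nonneg _) (hD _)
  · intro e he
    rw [Finset.mem_filter] at he
    obtain ⟨g1, -⟩ := hS e he.1
    obtain ⟨-, hg, -⟩ := hFG e he.1
    exact ⟨fun j => ⟨(g1 j).1, (g1 j).2, (hg j).1, (hg j).2⟩, he.2⟩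
  · intro e he e' he'
    rw [Finset.mem_filter] at he he'
    exact hlcm e he.1 e' he'.1
  · intro e he e' he' hne' hsame
    rw [Finset.mem_filter] at he he'
    exact hsep e he.1 e' he'.1 hne' hsame

end Pool.Agent.TPK.ZTW_

namespace Pool.Agent.TPK

open Finset Filter Pool.Agent.Ell Pool.Agent.Ell.KeyA Pool.Agent.Ell.KeyE Pool.Agent.EllTw
  Pool.Agent.TPM Pool.Agent.TPX
open scoped BigOperators ComplexConjugate

theorem prove_ZTW (h1 : T_KAT) (h2 : T_ZBL) : T_ZTW := by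
  intro k a C ε θ hk ha ha0 hC hε hθ
  exact ZTW_.core h1 h2 k a C ε θ hk ha ha0 hC hε hθ

end Pool.Agent.TPK
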