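import Pool.Agent.TPK.Targets5

set_option autoImplicit false

/-! MP_f3f922_nt: bounds for complete sums of products of multiplicative characters of linear
factors modulo a prime (Stepanov's method, L-functions over `F_ℓ[X]`, Gowers norms), so that no
condition on the conductors is needed. -/

namespace Pool.Agent.TPK

open Finset Filter Pool.Agent.Ell Pool.Agent.TPM Pool.Agent.TPX
open scoped BigOperators ComplexConjugate Polynomial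

/-! ### L-functions -/

/-- the monic polynomial of degree `D` with lower coefficients `c` -/
noncomputable def mono {F : Type} [Field F] (D : ℕ) (c : Fin D → F) : F[X] :=
  Polynomial.X ^ D + ∑ i, Polynomial.C (c i) * Polynomial.X ^ (i : ℕ)

/-- the completely multiplicative function on monic polynomials; its value at `X - x` is
`∏ χ_s(x + b_s)` -/
noncomputable def LG {ℓ R : ℕ} (χ : Fin R → DirichletCharacter ℂ ℓ) (b : Fin R → ZMod ℓ)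
    (g : (ZMod ℓ)[X]) : ℂ :=
  ∏ s, χ s ((-1) ^ g.natDegree * g.eval (-b s))

/-- the sum over the monic polynomials of degree `D` -/
noncomputable def LA {ℓ R : ℕ} [Fact ℓ.Prime] (χ : Fin R → DirichletCharacter ℂ ℓ)
    (b : Fin R → ZMod ℓ) (D : ℕ) : ℂ :=
  ∑ c : Fin D → ZMod ℓ, LG χ b (mono D c)

open Classical in
/-- the sum over the powers of monic irreducible polynomials of total degree `ν` -/
noncomputable def LP {ℓ R : ℕ} [Fact ℓ.Prime] (χ : Fin R → DirichletCharacter ℂ ℓ)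
    (b : Fin R → ZMod ℓ) (ν : ℕ) : ℂ :=
  ∑ d ∈ ν.divisors, ∑ c ∈ (Finset.univ : Finset (Fin d → ZMod ℓ)).filter
    (fun c => Irreducible (mono d c)), (d : ℂ) * LG χ b (mono d c) ^ (ν / d)

/-- the character sum over a finite extension -/
noncomputable def NS {ℓ R : ℕ} (χ : Fin R → DirichletCharacter ℂ ℓ) (b : Fin R → ZMod ℓ)
    (K : Type) [Field K] [Fintype K] [Algebra (ZMod ℓ) K] : ℂ :=
  ∑ x : K, ∏ s, χ s (Algebra.norm (ZMod ℓ) (x + algebraMap (ZMod ℓ) K (b s)))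

/-- TPK-WL1. The coefficients of the L-function vanish from degree `R` on.
PROOF. `χ s₀ ≠ 1`, `y` a unit with `χ s₀ y ≠ 1`; `P` = the polynomial of degree `< R` with
`P(-b s₀) = 1`, `P(-b s) = 0` for `s ≠ s₀` (Lagrange). `g ↦ g + (y - 1) g(-b s₀) P` is a bijection of
the monic polynomials of degree `D ≥ R` (inverse with `y⁻¹`), it multiplies the value at `-b s₀` by
`y` and fixes the other values, so `LA = χ s₀ y * LA`. -/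
def T_WL1 : Prop := ∀ (ℓ R : ℕ) [Fact ℓ.Prime] (χ : Fin R → DirichletCharacter ℂ ℓ)
  (b : Fin R → ZMod ℓ) (D : ℕ), Function.Injective b → (∃ s, χ s ≠ 1) → R ≤ D → LA χ b D = 0

/-- TPK-WL2. Newton's identity.
PROOF. For `g` monic of degree `D`: `D = ∑ deg P` over the pairs `(P, e)`, `P` monic irreducible,
`e ≥ 1`, `P ^ e ∣ g` (unique factorization). So `D LA(D) = ∑ (P, e), deg P ∑ (g : P ^ e ∣ g), LG g`, and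
`g = P ^ e g'` with `g'` monic of degree `D - e deg P`, `LG g = LG(P) ^ e LG(g')` (`LG` is completely
multiplicative). Group by `ν = e deg P`. -/
def T_WL2 : Prop := ∀ (ℓ R : ℕ) [Fact ℓ.Prime] (χ : Fin R → DirichletCharacter ℂ ℓ)
  (b : Fin R → ZMod ℓ) (D : ℕ),
  (D : ℂ) * LA χ b D = ∑ ν ∈ Finset.Icc 1 D, LP χ b ν * LA χ b (D - ν)

/-- TPK-WL3. Points of the extension and irreducible polynomials.
PROOF. Sort `x : K` by its minimal polynomial `P` (monic irreducible of degree `d ∣ ν`); each `P` of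
degree `d ∣ ν` has exactly `d` roots in `K` (it divides `X ^ (ℓ ^ ν) - X`, separable, split). The
characteristic polynomial of `x` is `P ^ (ν / d)`, so
`N(x + b) = (-1) ^ ν P(-b) ^ (ν / d) = ((-1) ^ d P(-b)) ^ (ν / d)`, hence
`∏ χ_s(N(x + b_s)) = LG(P) ^ (ν / d)`. -/
def T_WL3 : Prop := ∀ (ℓ R : ℕ) [Fact ℓ.Prime] (χ : Fin R → DirichletCharacter ℂ ℓ)
  (b : Fin R → ZMod ℓ) (ν : ℕ) (K : Type) [Field K] [Fintype K] [Algebra (ZMod ℓ) K],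
  1 ≤ ν → Fintype.card K = ℓ ^ ν → NS χ b K = LP χ b ν

/-- TPK-WL4. From bounds for the even power sums to a bound for the first one.
PROOF. `P(T) = ∑ (D < R), A_D T^D = ∏ (1 - α_i T)` over `ℂ`, at most `R - 1` factors. The recursion
determines `S` from `A`, and `- ∑ α_i ^ ν` satisfies it (logarithmic derivative), so
`S_ν = - ∑ α_i ^ ν`. If `|α_i| > ρ` for some `i`, then `∑ (α_i^2)^μ` cannot be `O(ρ^(2μ))` (average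
`|∑ (α_i^2 / r^2)^μ|^2` over `μ ≤ N`, `r = max |α_i|`: the limit is at least `1`; or compare the poles
of the rational function `∑ S_{2μ} w^μ`). So all `|α_i| ≤ ρ`, `|S_1| ≤ (R - 1) ρ`. -/
def T_WL4 : Prop := ∀ (R : ℕ) (A S : ℕ → ℂ) (ρ : ℝ), A 0 = 1 → (∀ D, R ≤ D → A D = 0) →
  (∀ D : ℕ, (D : ℂ) * A D = ∑ ν ∈ Finset.Icc 1 D, S ν * A (D - ν)) → 0 < ρ →
  (∃ (C : ℝ) (μ₀ : ℕ), ∀ μ, μ₀ ≤ μ → ‖S (2 * μ)‖ ≤ C * ρ ^ (2 * μ)) → ‖S 1‖ ≤ R * ρ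

/-! ### Stepanov's method -/

/-- TPK-WS1. Values of a character at norms.
PROOF. `d = orderOf χ`, `q = card K`. For `y ≠ 0` in `K`, `N(y) = y ^ ((q-1)/(ℓ-1))`
(`FiniteField.algebraMap_norm_eq_pow` or similar), so `y ^ ((q-1)/d)` is the image of
`N(y) ^ ((ℓ-1)/d)`. `χ(t) = 1` if `t ^ ((ℓ-1)/d) = 1` (`t` is a `d`-th power, cyclic group), so `χ(t)`
depends only on `t ^ ((ℓ-1)/d)`, which takes all `d` values of `{c | c^d = 1}`; this defines `ψ` (and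
`ψ c = 0`, say, if `c ^ d ≠ 1`; the `d` solutions of `c^d = 1` in `K` lie in `ZMod ℓ` as
`d ∣ ℓ - 1`), a nontrivial character of this group, so its sum is `0`. -/
def T_WS1 : Prop := ∀ (ℓ : ℕ) [Fact ℓ.Prime] (χ : DirichletCharacter ℂ ℓ), χ ≠ 1 →
  ∃ d : ℕ, 2 ≤ d ∧ d ∣ ℓ - 1 ∧ ∀ (K : Type) [Field K] [Fintype K] [DecidableEq K]
  [Algebra (ZMod ℓ) K], ∃ ψ : K → ℂ, (∀ c, ‖ψ c‖ ≤ 1) ∧
    ∑ c ∈ (Finset.univ : Finset K).filter (fun c => c ^ d = 1), ψ c = 0 ∧ ψ 1 = 1 ∧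
    (∀ c c' : K, c ^ d = 1 → c' ^ d = 1 → ψ (c * c') = ψ c * ψ c') ∧
    ∀ y : K, y ≠ 0 → χ (Algebra.norm (ZMod ℓ) y) = ψ (y ^ ((Fintype.card K - 1) / d))

/-- `∏ (X + β_s) ^ (e_s)` -/
noncomputable def FF {K : Type} [Field K] {R : ℕ} (e : Fin R → ℕ) (β : Fin R → K) : K[X] :=
  ∏ s, (Polynomial.X + Polynomial.C (β s)) ^ e s

/-- a polynomial of degree `< K0` -/
noncomputable def kp {K : Type} [Field K] {K0 : ℕ} (k : Fin K0 → K) : K[X] :=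
  ∑ t, Polynomial.C (k t) * Polynomial.X ^ (t : ℕ)

/-- the auxiliary polynomial `∑ k_ij(X) F(X) ^ (i m0 (M + 1)) X ^ (M^2 j)`;
`m0 (M + 1) = (M^2 - 1) / d` -/
noncomputable def RR {K : Type} [Field K] {R d J K0 : ℕ} (e : Fin R → ℕ) (β : Fin R → K)
    (M m0 : ℕ) (k : Fin d → Fin J → Fin K0 → K) : K[X] :=
  ∑ i : Fin d, ∑ j : Fin J, kp (k i j) * FF e β ^ ((i : ℕ) * (m0 * (M + 1))) * Polynomial.X ^ (M ^ 2 * (j : ℕ))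

/-- the polynomial `∑ c^i k_ij(X) F(X)^(i m0) F(T)^((d-1-i) m0) T^j` in `K[T][X]` -/
noncomputable def PSI {K : Type} [Field K] {R d J K0 : ℕ} (e : Fin R → ℕ) (β : Fin R → K)
    (m0 : ℕ) (c : K) (k : Fin d → Fin J → Fin K0 → K) : K[X][X] :=
  ∑ i : Fin d, ∑ j : Fin J, Polynomial.C (Polynomial.C (c ^ (i : ℕ)) * FF e β ^ ((d - 1 - (i : ℕ)) * m0) *
    Polynomial.X ^ (j : ℕ)) * (kp (k i j) * FF e β ^ ((i : ℕ) * m0)).map Polynomial.C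

/-- TPK-WP1. Reduction modulo `X^M - T^M` does not increase the total degree.
PROOF. The remainder is linear in `P` (`Polynomial.modByMonicHom`), and that of `T^b X^a` is
`T^(b + M (a / M)) X^(a % M)`. -/
def T_WP1 : Prop := ∀ (K : Type) [Field K] (M B : ℕ) (P : K[X][X]), 1 ≤ M →
  (∀ a b, (P.coeff a).coeff b ≠ 0 → a + b ≤ B) →
  ∀ a b, ((P %ₘ (Polynomial.X ^ M - Polynomial.C (Polynomial.X ^ M))).coeff a).coeff b ≠ 0 →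
    a + b ≤ B

/-- TPK-WP2 (from `T_WP1`). Existence of the auxiliary polynomial (linear algebra).
PROOF. `PSI` has total degree `≤ B = (K0 - 1) + (J - 1) + E (d - 1) m0`, `E = ∑ e_s`,
`B + 1 ≤ K0 + J + E M - 1` (`d m0 + 1 = M`); `K0, J, d ≥ 1` by the inequality. By `T_WP1` the
remainder modulo `X^M - T^M` has at most `M (B + 1) < d K0 J` coefficients (`a < M`, `b ≤ B`),
which are linear in `k`; so some `k ≠ 0` gives remainder `0` (`LinearMap.ker_ne_bot_of_finrank_lt` or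
`LinearMap.exists_ne_zero_of_finrank_lt`). -/
def T_WP2 : Prop := ∀ (K : Type) [Field K] (R d J K0 M m0 : ℕ) (e : Fin R → ℕ) (β : Fin R → K)
  (c : K), d * m0 + 1 = M → M * (K0 + J + (∑ s, e s) * M) < d * K0 * J →
  ∃ k : Fin d → Fin J → Fin K0 → K, k ≠ 0 ∧
    (Polynomial.X ^ M - Polynomial.C (Polynomial.X ^ M)) ∣ PSI e β m0 c k

/-- TPK-WP3. High order of vanishing.
PROOF. `M = ℓ ^ μ`, `card K = M^2`. Modulo `(X - x)^M = X^M - x^M` (characteristic `ℓ`):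
`X^(M^2 j) = x^(M^2 j) = x^j`, `F(X)^M = F(x)^M`, so `F(X)^(m0 (M+1) i) = F(X)^(i m0) F(x)^(i M m0) =
F(X)^(i m0) c^i F(x)^(-i m0)` as `F(x)^(m0 (M+1)) = c`. So `F(x)^((d-1) m0) RR` is congruent to `PSI`
with `T = x`, which is divisible by `X^M - x^M` (apply `Polynomial.map (evalRingHom x)`);
`F(x) ≠ 0`. -/
def T_WP3 : Prop := ∀ (ℓ μ : ℕ) [Fact ℓ.Prime] (K : Type) [Field K] [Fintype K] [CharP K ℓ]
  (R d J K0 m0 : ℕ) (e : Fin R → ℕ) (β : Fin R → K) (c x : K) (k : Fin d → Fin J → Fin K0 → K),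
  Fintype.card K = (ℓ ^ μ) ^ 2 → 1 ≤ d → d * m0 + 1 = ℓ ^ μ → c ≠ 0 → (FF e β).eval x ≠ 0 →
  (FF e β).eval x ^ (m0 * (ℓ ^ μ + 1)) = c →
  (Polynomial.X ^ (ℓ ^ μ) - Polynomial.C (Polynomial.X ^ (ℓ ^ μ))) ∣ PSI e β m0 c k →
  (Polynomial.X - Polynomial.C x) ^ (ℓ ^ μ) ∣ RR e β (ℓ ^ μ) m0 k

/-- TPK-WP4. The auxiliary polynomial is not `0`.
PROOF. `q = M^2 = card K`, `M = ℓ ^ μ`. Substitute `X - β`, `β = β_{s₀}`: `X^(q j)` becomes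
`(X^q - β)^j`, `F` becomes `X^e U`, `e = e_{s₀}`, `U(0) ≠ 0` (`β` injective), `k_ij` becomes some
`k'_ij` of degree `< K0`. So `0 = ∑_i X^(i e m0 (M+1)) U^(i m0 (M+1)) H_i`,
`H_i = ∑_j k'_ij(X) (X^q - β)^j`. If `k_ij ≠ 0` for some `j` then `H_i ≠ 0` (the degrees
`q j + deg k'_ij` are distinct, `K0 ≤ q`). All exponents of `H_i` are `< K0` modulo `q`. So the order
at `0` of the `i`-th term (if `H_i ≠ 0`) is `i e (q-1)/d + q j' + o`, `o < K0`, `(q-1)/d = m0 (M+1)`.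
With `i e = d t + ρ`, `ρ < d`, `t < e ≤ d`: it is `q (t + j') + ρ (q-1)/d - t + o`. As
`K0 + d ≤ (q-1)/d`, the numbers `ρ (q-1)/d - t + o` for distinct `ρ` are distinct modulo `q`, and
`ρ` determines `i` (`e` prime to `d`). So the orders are distinct and the sum is not `0`. -/
def T_WP4 : Prop := ∀ (ℓ μ : ℕ) [Fact ℓ.Prime] (K : Type) [Field K] [Fintype K] [CharP K ℓ]
  (R d J K0 m0 : ℕ) (e : Fin R → ℕ) (β : Fin R → K) (s₀ : Fin R)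
  (k : Fin d → Fin J → Fin K0 → K), Fintype.card K = (ℓ ^ μ) ^ 2 → d * m0 + 1 = ℓ ^ μ → 2 ≤ d →
  Function.Injective β → Nat.Coprime (e s₀) d → e s₀ ≤ d → K0 + d ≤ m0 * (ℓ ^ μ + 1) →
  RR e β (ℓ ^ μ) m0 k = 0 → k = 0

/-- TPK-WP5 (from `T_WP2`, `T_WP3`, `T_WP4`). Stepanov's bound.
PROOF. `M = ℓ ^ μ`, `q = M^2`, `m0 = (M - 1) / d`, `(q - 1) / d = m0 (M + 1)`, `E = ∑ e_s`,
`J = m0 + E + 2`, `K0 = m0 (M + 1) - d`. For large `M`: `M (K0 + J + E M) < d K0 J` (left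
`≤ m0 q + M m0 + 2 M (E + 2) + E q`..., right `(q - 1 - d^2)(m0 + E + 2)`, `d m0 = M - 1`, `d ≥ 2`). So
there is `k ≠ 0` with `RR ≠ 0` divisible by `(X - x)^M` for each `x` of the set (`c ≠ 0`, `e_s ≥ 1`, so
`F(x) ≠ 0`); so `card * M ≤ natDegree RR ≤ K0 + E (d-1) m0 (M+1) + q (J - 1) ≤ q (E + J)`,
`card ≤ M (m0 + 2 E + 2) ≤ q / d + (2 E + 2) M`. -/
def T_WP5 : Prop := ∀ (ℓ : ℕ) [Fact ℓ.Prime] (R d : ℕ) (e : Fin R → ℕ) (b : Fin R → ZMod ℓ)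
  (s₀ : Fin R), 2 ≤ d → d ∣ ℓ - 1 → Function.Injective b → (∀ s, 1 ≤ e s) → e s₀ ≤ d →
  Nat.Coprime (e s₀) d → ∃ (C : ℝ) (μ₀ : ℕ), ∀ μ, μ₀ ≤ μ → ∀ (K : Type) [Field K] [Fintype K]
  [DecidableEq K] [Algebra (ZMod ℓ) K], Fintype.card K = ℓ ^ (2 * μ) → ∀ c : K, c ^ d = 1 →
  (((Finset.univ : Finset K).filter (fun x => ∏ s, (x + algebraMap (ZMod ℓ) K (b s)) ^
    (e s * ((ℓ ^ (2 * μ) - 1) / d)) = c)).card : ℝ) ≤ (ℓ : ℝ) ^ (2 * μ) / d + C * (ℓ : ℝ) ^ μ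

/-- TPK-WS3 (from `T_WS1`, `T_WP5`). The character sum over large extensions.
PROOF. `e_s = 1` or `d - 1` (`χ⁻¹(N y) = ψ(y^((q-1)/d))^(d-1)`). For `x` with all `x + b_s ≠ 0` the
product is `ψ(G(x))`, `G(x) = ∏ (x + b_s)^(e_s (q-1)/d)`, `G(x)^d = 1`; the other (at most `R`) `x`
give `0`. `N(c) = card {x | G(x) = c}`, `∑ (c^d = 1), N(c) ≥ q - R`, there are exactly `d` such
`c` (`d ∣ q - 1`), so `|N(c) - q/d| ≤ R + d C ℓ^μ` and the sum is `∑ (N(c) - q/d) ψ(c)`. -/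
def T_WS3 : Prop := ∀ (ℓ R : ℕ) [Fact ℓ.Prime] (χ : DirichletCharacter ℂ ℓ) (ε : Fin R → Bool)
  (b : Fin R → ZMod ℓ), χ ≠ 1 → 1 ≤ R → Function.Injective b →
  ∃ (C : ℝ) (μ₀ : ℕ), ∀ μ, μ₀ ≤ μ → ∀ (K : Type) [Field K] [Fintype K] [Algebra (ZMod ℓ) K],
  Fintype.card K = ℓ ^ (2 * μ) →
  ‖NS (fun s => if ε s then χ else χ⁻¹) b K‖ ≤ C * (ℓ : ℝ) ^ μ

/-- TPK-WW (from `T_WL1`, `T_WL2`, `T_WL3`, `T_WL4`, `T_WS3`). Weil's bound.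
PROOF. `T_WL4` with `A = LA`, `S = LP`, `ρ = √ℓ`; `LP 1 = NS` over `K = ZMod ℓ` (`Algebra.norm_self`),
`LP (2 μ) = NS` over `GaloisField ℓ (2 μ)`. `LA 0 = 1`. -/
def T_WW : Prop := ∀ (ℓ R : ℕ) [Fact ℓ.Prime] (χ : DirichletCharacter ℂ ℓ) (ε : Fin R → Bool)
  (b : Fin R → ZMod ℓ), χ ≠ 1 → 1 ≤ R → Function.Injective b →
  ‖∑ n : ZMod ℓ, ∏ s, (if ε s then χ else χ⁻¹) (n + b s)‖ ≤ R * Real.sqrt ℓ

/-! ### Gowers norms -/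

/-- `GU s f` = `ℓ ^ (s + 2)` times the `2 ^ (s + 1)`-th power of the `U ^ (s + 1)` norm -/
noncomputable def GU {ℓ : ℕ} [Fact ℓ.Prime] : ℕ → (ZMod ℓ → ℂ) → ℝ
  | 0, f => ‖∑ n, f n‖ ^ 2
  | (s + 1), f => ∑ u : ZMod ℓ, GU s (fun n => f (n + u) * conj (f n))

/-- TPK-WG. Gowers-Cauchy-Schwarz for the forms `h`, `n + b_i h`.
PROOF. Induction on `s`. `s = 0`: the sum is `(∑ A) (∑ f)`. Step: Cauchy-Schwarz over `h`: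
`|T|^2 ≤ ℓ ∑_u |T_u|`, `T_u = ∑ (h, n), ∏_i Δ_u f_i(n + b_i h)`, `Δ_u f(n) = f(n+u) conj f(n)`. Shift
`n → n - b_0 h`: `T_u = ∑ (n, h), Δ_u f_0(n) ∏ (i ≥ 1), Δ_u f_i(n + b'_i h)`, `b'_i = b_i - b_0 ≠ 0`,
distinct; `n + b'_i h = b'_i (h + n / b'_i)`, so with the roles of `n` and `h` exchanged this is the
same kind of sum with the functions `y ↦ Δ_u f_i(b'_i y)` and the distinct numbers `1 / b'_i`. `GU`
is invariant under dilations. So `|T_u|^(2^(s+1)) ℓ^(s+2) ≤ ℓ^(2^(s+2)) GU s (Δ_u f_last)`, and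
`|T|^(2^(s+2)) ≤ (ℓ ∑_u |T_u|)^(2^(s+1)) ≤ ℓ^(2^(s+2) - 1) ∑_u |T_u|^(2^(s+1))`. -/
def T_WG : Prop := ∀ (s ℓ : ℕ) [Fact ℓ.Prime] (A : ZMod ℓ → ℂ) (f : Fin (s + 1) → ZMod ℓ → ℂ)
  (b : Fin (s + 1) → ZMod ℓ), (∀ h, ‖A h‖ ≤ 1) → (∀ i n, ‖f i n‖ ≤ 1) → Function.Injective b →
  ‖∑ n : ZMod ℓ, ∑ h : ZMod ℓ, A h * ∏ i, f i (n + b i * h)‖ ^ (2 ^ (s + 1)) *
    (ℓ : ℝ) ^ (s + 2) ≤ (ℓ : ℝ) ^ (2 ^ (s + 2)) * GU s (f (Fin.last s))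

open Classical in
/-- TPK-WI. The iterated differences.
PROOF. Induction on `s` (`Fin.consEquiv` or `Fin.cons` for `u`, subsets of `Fin (s + 1)` split by
`0 ∈ ω`). -/
def T_WI : Prop := ∀ (s ℓ : ℕ) [Fact ℓ.Prime] (f : ZMod ℓ → ℂ),
  GU s f = ∑ u : Fin s → ZMod ℓ, ‖∑ n : ZMod ℓ, ∏ ω : Finset (Fin s),
    (if Even (s - ω.card) then f (n + ∑ i ∈ ω, u i) else conj (f (n + ∑ i ∈ ω, u i)))‖ ^ 2

/-- TPK-WH (from `T_WW`, `T_WI`). Gowers norms of a nontrivial character.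
PROOF. If the `2^s` points `∑ (i ∈ ω), u_i` are distinct then the inner sum is `≤ 2^s √ℓ` by `T_WW`
(`conj (χ y) = χ⁻¹ y`; enumerate the subsets by `Fin (2^s)`), so these `u` contribute
`≤ 4^s ℓ^(s+1)`. If two of them coincide, some `u_i` is determined by the others: at most
`4^s ℓ^(s-1)` such `u`, each contributes `≤ ℓ^2`. `C = 2 * 4^s`. -/
def T_WH : Prop := ∀ s : ℕ, ∃ C : ℝ, 0 < C ∧ ∀ (ℓ : ℕ) [Fact ℓ.Prime]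
  (χ : DirichletCharacter ℂ ℓ), χ ≠ 1 → GU s (fun n => χ n) ≤ C * (ℓ : ℝ) ^ (s + 1)

/-- TPK-WJ (from `T_WG`, `T_WH`). Products of arbitrary characters of linear factors.
PROOF. Permute so that the last character is nontrivial, `r = s + 1`. `A(h) = conj ∏ χ_i(h)`. For
`h ≠ 0`, `n = h n'`: `∑_n ∏ χ_i(n + b_i h) = ∏ χ_i(h) S`; `A(0) = 0`. So `T = (ℓ - 1) S`, and `T_WG`,
`T_WH` give `|T|^(2^r) ℓ^(s+2) ≤ ℓ^(2^(r+1)) C ℓ^(s+1)`, `|S|^(2^r) ≤ 2^(2^r) C ℓ^(2^r - 1)`. -/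
def T_WJ : Prop := ∀ r : ℕ, 1 ≤ r → ∃ C : ℝ, 0 < C ∧ ∀ (ℓ : ℕ) [Fact ℓ.Prime]
  (χ : Fin r → DirichletCharacter ℂ ℓ) (b : Fin r → ZMod ℓ), Function.Injective b →
  (∃ s, χ s ≠ 1) → ‖∑ n : ZMod ℓ, ∏ s, χ s (n + b s)‖ ^ (2 ^ r) ≤ C * (ℓ : ℝ) ^ (2 ^ r - 1)

/-! ### The application -/

/-- TPK-KCJ (from `T_WJ`). The mean at a large prime if all exponents are at most `1`.
PROOF. As `Pool/Agent/TPK/KC2.lean`, `KCA.lean`: if `ℓ` divides none of the `2 k` numbers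
`p m + a_j`, `p' m + a_j` then `Lk = ∏ θ_j(p m + a_j) conj θ_j(p' m + a_j)`. So
`|mean - (1/ℓ) ∑ (m mod ℓ), ∏ ..| ≤ 4 k / ℓ`, and the complete sum is a unimodular multiple of
`∑_m ∏_j θ_j(m + a_j / p) θ_j⁻¹(m + a_j / p')`: `T_WJ` with `r = 2 k`. For `ℓ > z0` the `2 k` points
`a_j / p`, `a_j / p'` are distinct mod `ℓ` (`a_i ≠ a_j`, `a_j (p - p') ≠ 0`, `p' a_i ≠ p a_j`, as
`p ∤ a_i`). A primitive character mod `ℓ ^ 1` is not `1`. `(x + y)^n ≤ 2^(n-1) (x^n + y^n)`. -/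
def T_KCJ : Prop := ∀ (k : ℕ) (a : Fin k → ℤ) (p p' : ℕ), Function.Injective a → (∀ j, a j ≠ 0) →
  p.Prime → p'.Prime → p ≠ p' → (∀ j, |a j| < (p : ℤ)) → (∀ j, |a j| < (p' : ℤ)) →
  ∃ (K : ℝ) (z0 : ℕ), 0 < K ∧ ∀ (ℓ i c κ : ℕ) (φ : Fin k → DirichletCharacter ℂ (ℓ ^ κ))
  (θ : Fin k → DirichletCharacter ℂ (ℓ ^ c)) (j₁ : Fin k) (f : Fin k → ℕ → ℂ)
  (t : Fin k → ℝ), ℓ.Prime → z0 < ℓ → c = 1 → 1 ≤ κ → (θ j₁).IsPrimitive →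
  (∀ j, ∀ n : ℤ, ¬ (ℓ : ℤ) ∣ n → φ j (n : ZMod (ℓ ^ κ)) = θ j (n : ZMod (ℓ ^ c))) →
  (∀ j, MB (f j)) →
  ‖mean (ℓ ^ i * ℓ ^ κ) (Lk f φ t (ℓ ^ i) a p p')‖ ^ (2 ^ (2 * k)) ≤ K / ℓ

/-- the mean is small -/
def T_KM6 : Prop := ∀ (k : ℕ) (a : Fin k → ℤ) (p p' : ℕ) (η : ℝ), Function.Injective a →
  (∀ j, a j ≠ 0) → p.Prime → p'.Prime → p ≠ p' → (∀ j, |a j| < (p : ℤ)) →
  (∀ j, |a j| < (p' : ℤ)) → 0 < η → ∃ z0 : ℕ, ∀ z V : ℕ, z0 ≤ z → ∃ R : ℕ,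
  ∀ (Y M : ℕ) (q : Fin k → ℕ) (χ : ∀ j, DirichletCharacter ℂ (q j))
  (Ψ : Fin k → DirichletCharacter ℂ M) (f : Fin k → ℕ → ℂ) (t : Fin k → ℝ), 1 ≤ M →
  (∀ j, (χ j).IsPrimitive ∧ Ind (χ j) (Ψ j)) → (∃ j, R < q j) → (∀ j, MB (f j)) →
  ‖mean (DY z V Y M * M) (Lk f Ψ t (DY z V Y M) a p p')‖ ≤ η

/-- one dyadic block -/
def T_KBL6 : Prop := ∀ (k : ℕ) (a : Fin k → ℤ) (p p' : ℕ) (C1 η θ : ℝ), 1 ≤ k →
  Function.Injective a → (∀ j, a j ≠ 0) → p.Prime → p'.Prime → p ≠ p' →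
  (∀ j, |a j| < (p : ℤ)) → (∀ j, |a j| < (p' : ℤ)) → 0 < C1 → 0 < η → 0 < θ → θ < 1 →
  ∃ (s κ B : ℝ) (z0 : ℕ), 1 ≤ s ∧ 0 < κ ∧ 0 < B ∧ ∀ z V : ℕ, z0 ≤ z → ∃ R N0 : ℕ,
  ∀ (N w M Y : ℕ) (q : Fin k → ℕ) (χ : ∀ j, DirichletCharacter ℂ (q j))
  (Ψ : Fin k → DirichletCharacter ℂ M) (f : Fin k → ℕ → ℂ) (t : Fin k → ℝ), N0 ≤ N →
  (w : ℝ) ^ s ≤ N → 1 ≤ M → (M : ℝ) ≤ (N : ℝ) ^ (1 - θ) → (Y : ℝ) ≤ κ * Real.log N →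
  (∀ j, (χ j).IsPrimitive ∧ Ind (χ j) (Ψ j)) → ((∃ j, R < q j) ∨ B ≤ Lam a t N) →
  (∀ j, MB (f j)) → (∀ j, |t j| ≤ (N : ℝ) ^ C1) →
  ∀ x y : ℕ, N ≤ x → x ≤ y → y ≤ 2 * N →
  ‖∑ m ∈ Finset.Ioc x y, Gk f Ψ t (DY z V Y M) z w a (p * m) *
    conj (Gk f Ψ t (DY z V Y M) z w a (p' * m))‖ ≤ η * N

/-- the cross sums up to any `M1 ≤ x` -/
def T_KCR6 : Prop := ∀ (k : ℕ) (a : Fin k → ℤ) (p p' : ℕ) (C1 η θ : ℝ), 1 ≤ k →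
  Function.Injective a → (∀ j, a j ≠ 0) → p.Prime → p'.Prime → p ≠ p' →
  (∀ j, |a j| < (p : ℤ)) → (∀ j, |a j| < (p' : ℤ)) → 0 < C1 → 0 < η → 0 < θ → θ < 1 →
  ∃ (κ B : ℝ) (z0 : ℕ), 0 < κ ∧ 0 < B ∧ ∀ z V : ℕ, z0 ≤ z → ∃ (R : ℕ) (A0 : ℝ), 1 ≤ A0 ∧
  ∀ A : ℝ, A0 ≤ A → ∃ X : ℕ,
  ∀ (x M Y : ℕ) (q : Fin k → ℕ) (χ : ∀ j, DirichletCharacter ℂ (q j))
  (Ψ : Fin k → DirichletCharacter ℂ M) (f : Fin k → ℕ → ℂ) (t : Fin k → ℝ), X ≤ x →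
  1 ≤ M → (M : ℝ) ≤ (x : ℝ) ^ (1 - θ) → (Y : ℝ) ≤ κ * Real.log x →
  (∀ j, (χ j).IsPrimitive ∧ Ind (χ j) (Ψ j)) →
  ((∃ j, R < q j) ∨ ∃ j, B * (x : ℝ) ^ k < |t j|) →
  (∀ j, MB (f j)) → (∀ j, |t j| ≤ (x : ℝ) ^ C1) → ∀ M1 : ℕ, M1 ≤ x →
  ‖∑ m ∈ Finset.Icc 1 M1, Gk f Ψ t (DY z V Y M) z ⌊(x : ℝ) ^ (1 / A)⌋₊ a (p * m) *
    conj (Gk f Ψ t (DY z V Y M) z ⌊(x : ℝ) ^ (1 / A)⌋₊ a (p' * m))‖ ≤ η * x

/-- the theorem with all characters mod `M` -/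
def T_KLC6 : Prop := ∀ (k : ℕ) (a : Fin k → ℤ) (C1 ε θ : ℝ), 1 ≤ k → Function.Injective a →
  (∀ j, a j ≠ 0) → 0 < C1 → 0 < ε → 0 < θ → θ < 1 →
  ∃ (R X : ℕ) (A : ℝ), 1 ≤ A ∧
  ∀ (x M : ℕ) (q : Fin k → ℕ) (χ : ∀ j, DirichletCharacter ℂ (q j))
  (Ψ : Fin k → DirichletCharacter ℂ M) (f : Fin k → ℕ → ℂ) (g : ℕ → ℂ) (t : Fin k → ℝ), X ≤ x →
  1 ≤ M → (M : ℝ) ≤ (x : ℝ) ^ (1 - θ) →
  (∀ j, (χ j).IsPrimitive ∧ Ind (χ j) (Ψ j)) →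
  ((∃ j, R < q j) ∨ ∃ j, (R : ℝ) * (x : ℝ) ^ k < |t j|) →
  (∀ j, MB (f j)) → MB g → (∀ j, |t j| ≤ (x : ℝ) ^ C1) →
  (∀ j, dist2 (f j) (Ψ j) (t j) ((x : ℝ) ^ (1 / A)) x ≤ 1 / A) →
  ‖∑ n ∈ Finset.Icc 1 x, g n * ∏ j, f j (sh (a j) n)‖ ≤ ε * x

/-- the final theorem -/
def T_KFI6 : Prop := ∀ (k : ℕ) (h : Fin (k + 1) → ℕ), 1 ≤ k → Function.Injective h →
    ∀ (C : ℕ) (ε θ : ℝ), 0 < ε → 0 < θ →
    ∃ (δ : ℝ) (R : ℕ) (X : ℝ), 0 < δ ∧ ∀ x : ℝ, X ≤ x →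
    ∀ f : Fin (k + 1) → ArithmeticFunction ℂ,
      (∀ i, (f i).IsMultiplicative) → (∀ i n, ‖f i n‖ ≤ 1) →
      ∀ (j₀ : Fin (k + 1)) (q : Fin (k + 1) → ℕ) (χ : ∀ j, DirichletCharacter ℂ (q j))
        (t : Fin (k + 1) → ℝ),
      (∀ j, j ≠ j₀ → 1 ≤ q j ∧ (χ j).IsPrimitive ∧ |t j| ≤ x ^ C ∧
        ∑ p ∈ (Finset.Iic ⌊x⌋₊).filter (fun p : ℕ => p.Prime ∧ x ^ δ < p),
          (1 - (f j p * (starRingEnd ℂ) (χ j (p : ZMod (q j)) *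
            (p : ℂ) ^ ((t j : ℂ) * Complex.I))).re) / (p : ℝ) ≤ δ) →
      (((Finset.univ.erase j₀).lcm q : ℕ) : ℝ) ≤ x ^ (1 - θ) →
      (∃ j, j ≠ j₀ ∧ (R < q j ∨ R * x ^ k < |t j|)) →
      ‖∑ n ∈ Finset.Icc 1 ⌊x⌋₊, ∏ i, f i (n + h i)‖ / x ≤ ε

end Pool.Agent.TPK
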