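import Pool.Agent.TPK.OA2

set_option autoImplicit false

/-! MP_f3f922_nt: all functions but one structured on the large primes; either the hypothesis of Q1
for `f 0`, or structure outside its range. -/

namespace Pool.Agent.TPK

open Finset Filter Pool.Agent.Ell Pool.Agent.TPM Pool.Agent.TPX
open scoped BigOperators ComplexConjugate

/-- the merged theorem -/
def T_OA3 : Prop := ∀ (k : ℕ) (h : Fin (k + 1) → ℕ), 1 ≤ k → Function.Injective h →
    ∀ (C : ℕ) (ε θ : ℝ), 0 < ε → 0 < θ →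
    ∃ δ : ℝ, 0 < δ ∧ ∃ A₀ : ℝ, ∀ A : ℝ, 2 ≤ A → A₀ ≤ A → ∀ x : ℝ, A ≤ x →
    ∀ f : Fin (k + 1) → ArithmeticFunction ℂ,
      (∀ i, (f i).IsMultiplicative) → (∀ i n, ‖f i n‖ ≤ 1) →
      ∀ (j₀ : Fin (k + 1)) (q : Fin (k + 1) → ℕ) (χ : ∀ j, DirichletCharacter ℂ (q j))
        (t : Fin (k + 1) → ℝ),
      (∀ j, j ≠ j₀ → 1 ≤ q j ∧ |t j| ≤ x ^ C ∧
        ∑ p ∈ (Finset.Iic ⌊x⌋₊).filter (fun p : ℕ => p.Prime ∧ x ^ δ < p),
          (1 - (f j p * (starRingEnd ℂ) (χ j (p : ZMod (q j)) *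
            (p : ℂ) ^ ((t j : ℂ) * Complex.I))).re) / (p : ℝ) ≤ δ) →
      (((Finset.univ.erase j₀).lcm q : ℕ) : ℝ) ≤ x ^ (1 - θ) →
      ((∀ r : ℕ, 1 ≤ r → (r : ℝ) ≤ A → ∀ ψ : DirichletCharacter ℂ r, ∀ s : ℝ,
          |s| ≤ A * x ^ k →
          A ≤ Real.sqrt (∑ p ∈ (Finset.Iic ⌊x⌋₊).filter Nat.Prime,
            (1 - (f 0 p * (starRingEnd ℂ) (ψ (p : ZMod r) *
              (p : ℂ) ^ ((s : ℂ) * Complex.I))).re) / (p : ℝ))) ∨
        ∃ j, j ≠ j₀ ∧ (A < (χ j).conductor ∨ A * x ^ k < |t j|)) →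
      ‖∑ n ∈ Finset.Icc 1 ⌊x⌋₊, ∏ i, f i (n + h i)‖ / x ≤ ε

open OA2_ in
theorem prove_OA3 (h1 : T_KFI6) (h2 : T_ONE) : T_OA3 := by
  classical
  intro k h hk hh C ε θ hε hθ
  obtain ⟨δ1, R, X1, hδ1, H1⟩ := h1 k h hk hh C ε θ hε hθ
  obtain ⟨A1, H2⟩ := h2 k h hk hh (max C R) ε hε
  obtain ⟨A2, hA2⟩ : ∃ A2 : ℝ, A2 = max A1 2 := ⟨_, rfl⟩
  have hA21 : A1 ≤ A2 := hA2 ▸ le_max_left _ _
  have hA22 : 2 ≤ A2 := hA2 ▸ le_max_right _ _
  have hA20 : 0 < A2 := by linarith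
  obtain ⟨δ2, hδ2⟩ : ∃ δ2 : ℝ, δ2 = min δ1 (1 / A2) := ⟨_, rfl⟩
  have hδ20 : 0 < δ2 := by rw [hδ2]; exact lt_min hδ1 (by positivity)
  have hδ21 : δ2 ≤ δ1 := by rw [hδ2]; exact min_le_left _ _
  have hδ22 : δ2 ≤ 1 / A2 := by rw [hδ2]; exact min_le_right _ _
  obtain ⟨X2, hX2, H3⟩ := prim δ2 hδ20
  refine ⟨δ2 / 2, by positivity, max (max (max A2 X1) X2) R, ?_⟩
  intro A hA hAA0 x hAx f hf hb j₀ q χ t hall hlcm hQ0
  have hAA : max (max A2 X1) X2 ≤ A := (le_max_left _ _).trans hAA0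
  have hRA : (R : ℝ) ≤ A := (le_max_right _ _).trans hAA0
  have hx2 : X2 ≤ x := ((le_max_right _ _).trans hAA).trans hAx
  have hx1 : X1 ≤ x := ((le_max_right _ _).trans ((le_max_left _ _).trans hAA)).trans hAx
  have hAA2 : A2 ≤ A := (le_max_left _ _).trans ((le_max_left _ _).trans hAA)
  have hx : (1 : ℝ) ≤ x := by linarith
  have hx0 : (0 : ℝ) < x := by linarith
  have hqle : ∀ j, j ≠ j₀ → (q j : ℝ) ≤ x := by
    intro j hj
    have hd : q j ∣ (Finset.univ.erase j₀).lcm q :=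
      Finset.dvd_lcm (Finset.mem_erase.2 ⟨hj, Finset.mem_univ _⟩)
    have hpos : 0 < (Finset.univ.erase j₀).lcm q := by
      rw [Nat.pos_iff_ne_zero, Ne, Finset.lcm_eq_zero_iff]
      rintro ⟨i, hi, hi0⟩
      have hi' := Finset.mem_coe.1 hi
      have := (hall i (Finset.ne_of_mem_erase hi')).1
      omega
    have h3 : (q j : ℝ) ≤ (((Finset.univ.erase j₀).lcm q : ℕ) : ℝ) := by
      exact_mod_cast Nat.le_of_dvd hpos hd
    refine h3.trans (hlcm.trans ?_)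
    calc x ^ (1 - θ) ≤ x ^ (1 : ℝ) := Real.rpow_le_rpow_of_exponent_le hx (by linarith)
      _ = x := Real.rpow_one x
  -- the primitive characters
  have hprim : ∀ j, j ≠ j₀ → TS (f j) (χ j).primitiveCharacter (t j) δ2 x ≤ δ2 := by
    intro j hj
    refine H3 x (q j) (χ j) (fun n => f j n) (t j) hx2 (hall j hj).1 (hqle j hj) (hb j) ?_
    refine (mono_tail (fun n => f j n) (hb j) (χ j) (t j) (δ2 / 2) δ2 x hx (by linarith)).trans ?_
    exact (hall j hj).2.2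
  have hcon1 : ∀ j, j ≠ j₀ → 1 ≤ (χ j).conductor := by
    intro j hj
    have : 0 < (χ j).conductor :=
      Nat.pos_of_dvd_of_pos (χ j).conductor_dvd_level (by have := (hall j hj).1; omega)
    omega
  by_cases hbig : ∃ j, j ≠ j₀ ∧ (R < (χ j).conductor ∨ R * x ^ k < |t j|)
  · refine H1 x hx1 f hf hb j₀ (fun j => (χ j).conductor)
      (fun j => (χ j).primitiveCharacter) t ?_ ?_ hbig
    · intro j hj
      refine ⟨hcon1 j hj, (χ j).primitiveCharacter_isPrimitive, (hall j hj).2.1, ?_⟩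
      exact (mono_tail (fun n => f j n) (hb j) _ (t j) δ2 δ1 x hx hδ21).trans
        ((hprim j hj).trans hδ21)
    · refine le_trans ?_ hlcm
      have hdvd : (Finset.univ.erase j₀).lcm (fun j => (χ j).conductor) ∣
          (Finset.univ.erase j₀).lcm q := by
        refine Finset.lcm_dvd fun j hj => ?_
        exact (χ j).conductor_dvd_level.trans (Finset.dvd_lcm hj)
      have hpos : 0 < (Finset.univ.erase j₀).lcm q := by
        rw [Nat.pos_iff_ne_zero, Ne, Finset.lcm_eq_zero_iff]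
        rintro ⟨i, hi, hi0⟩
        have hi' := Finset.mem_coe.1 hi
        have := (hall i (Finset.ne_of_mem_erase hi')).1
        omega
      exact_mod_cast Nat.le_of_dvd hpos hdvd
  · push Not at hbig
    have hQ := hQ0.resolve_right (by
      rintro ⟨j, hj, hjA⟩
      have hb1 := hbig j hj
      rcases hjA with hjA | hjA
      · have : ((χ j).conductor : ℝ) ≤ R := by exact_mod_cast hb1.1
        linarith
      · have : (R : ℝ) * x ^ k ≤ A * x ^ k := mul_le_mul_of_nonneg_right hRA (by positivity)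
        linarith [hb1.2])
    refine H2 A2 hA22 hA21 x (hAA2.trans hAx) f hf hb ?_ ⟨j₀, fun j hj => ?_⟩
    · intro r hr hrA ψ s hs
      refine hAA2.trans (hQ r hr (hrA.trans hAA2) ψ s (hs.trans ?_))
      exact mul_le_mul_of_nonneg_right hAA2 (by positivity)
    · refine ⟨(χ j).conductor, hcon1 j hj, (hbig j hj).1.trans (le_max_right _ _),
        (χ j).primitiveCharacter, t j, ?_, ?_⟩
      · refine (hall j hj).2.1.trans ?_
        exact pow_le_pow_right₀ hx (le_max_left _ _)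
      · exact (mono_tail (fun n => f j n) (hb j) _ (t j) δ2 (1 / A2) x hx hδ22).trans
          ((hprim j hj).trans hδ22)

end Pool.Agent.TPK
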