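import Pool.Agent.TPK.Targets
import Pool.Agent.TPX.BLW

set_option autoImplicit false

/-! `k` functions structured on the large primes (MP_f3f922_nt): one dyadic block. -/

namespace Pool.Agent.TPK

open Finset Filter Pool.Agent.Ell Pool.Agent.TPM Pool.Agent.TPX
open scoped BigOperators ComplexConjugate

namespace KBLaux

open Pool.Agent.Ell.KeyA Pool.Agent.Ell.KeyB Pool.Agent.Ell.KeyC TPM.BLKaux

lemma ph_prod {k : ℕ} (a : Fin k → ℤ) (t : Fin k → ℝ) (n : ℕ) :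
    ∏ j, ph (fun _ : Fin 1 => a j) (fun _ => t j) n = ph a t n := by
  simp [ph]

lemma lf_prod {k : ℕ} (ℓ : ℕ) (α : Fin k → ZMod ℓ) (v : Fin k → ℂ) (m : ℕ) :
    ∏ j, lf ℓ (fun _ : Fin 1 => α j) (fun _ => v j) m = lf ℓ α v m := by
  unfold lf
  exact Finset.prod_congr rfl (fun j _ => Fin.prod_univ_one _)

/-- the product of the structured functions at `p m` -/
lemma Gk_eq {k M : ℕ} (f : Fin k → ℕ → ℂ) (Ψ : Fin k → DirichletCharacter ℂ M) (t : Fin k → ℝ)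
    (D z w : ℕ) (a : Fin k → ℤ) (p m : ℕ) (hm : 1 ≤ m) (hp : ∀ j, |a j| < (p : ℤ))
    (hpp : ∀ ℓ ∈ prs z w, ¬ ℓ ∣ p) :
    Gk f Ψ t D z w a (p * m) = ph a t (p * m) *
      ((∏ j, xz (f j) (Ψ j) (t j) D ((p : ℤ) * m + a j)) *
        ∏ ℓ ∈ prs z w, lf ℓ (fun j => al ℓ p (a j)) (fun j => zt (f j) (Ψ j) (t j) ℓ) m) := by
  unfold Gk
  rw [Finset.prod_congr rfl (fun j _ => Gf_eq (f j) (Ψ j) (t j) D z w (a j) p m hm (hp j) hpp),
    Finset.prod_mul_distrib, Finset.prod_mul_distrib, ph_prod, Finset.prod_comm]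
  congr 2
  exact Finset.prod_congr rfl (fun ℓ _ => lf_prod ℓ _ _ m)

end KBLaux

open Pool.Agent.Ell.KeyA Pool.Agent.Ell.KeyB Pool.Agent.Ell.KeyC TPM.BLKaux TPX.BLWaux KBLaux in
theorem prove_KBL (h1 : T_MSW) (h2 : T_EQW) (h3 : T_KMN) (h4 : T_XZ) (h5 : T_XZW) : T_KBL := by
  classical
  intro k a p p' C C1 η θ hk1 hinj ha hp hp' hpp hpa hpa' hC1 hη hθ hθ1
  obtain ⟨c1, N1, hc1, hc14, hEQ⟩ := h2 k a p p' C1 (θ / 2) hk1
    hinj ha hp.one_le hp'.one_le hpp hC1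
    (by positivity) (by linarith)
  obtain ⟨c0, hc0d⟩ : ∃ c0 : ℝ, c0 = min c1 (θ / 4) := ⟨_, rfl⟩
  have hc0 : 0 < c0 := by rw [hc0d]; exact lt_min hc1 (by positivity)
  have hc01 : c0 ≤ c1 := by rw [hc0d]; exact min_le_left _ _
  have hc0θ : c0 ≤ θ / 4 := by rw [hc0d]; exact min_le_right _ _
  have hc04 : c0 ≤ 1 / 4 := hc01.trans hc14
  obtain ⟨s, N3, hs, hMSU⟩ := h1 (2 * k) c0 (1 - θ / 2) (η / 2) (by omega) hc0 hc04
    (by positivity)
  obtain ⟨z1, hMN⟩ := h3 k a p p' C (η / 2) ha hp hp' hpp (by positivity)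
  refine ⟨s, θ / 16, max (4 * k) (max p (max p' z1)), hs, by positivity, ?_⟩
  intro z V hz
  have hz4 : 4 * k ≤ z := le_trans (le_max_left _ _) hz
  have hzp : p ≤ z := le_trans (le_trans (le_max_left _ _) (le_max_right _ _)) hz
  have hzp' : p' ≤ z := le_trans (le_trans (le_trans (le_max_left _ _) (le_max_right _ _))
    (le_max_right _ _)) hz
  have hz1 : z1 ≤ z := le_trans (le_trans (le_trans (le_max_right _ _) (le_max_right _ _))
    (le_max_right _ _)) hz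
  obtain ⟨R, hR⟩ := hMN z V hz1
  refine ⟨R, max N1 (max N3 (max 1 ⌈(Rep.Q1 z V : ℝ) ^ (16 / θ)⌉₊)), ?_⟩
  intro N w M Y q χ Ψ f t hN hw hM hMN' hY hχ hgcd hbig hf ht x y hNx hxy hyN
  have hN1 : N1 ≤ N := le_trans (le_max_left _ _) hN
  have hN3 : N3 ≤ N := le_trans (le_trans (le_max_left _ _) (le_max_right _ _)) hN
  have hN4 : 1 ≤ N := le_trans (le_trans (le_trans (le_max_left _ _) (le_max_right _ _))
    (le_max_right _ _)) hN
  have hN5 : ⌈(Rep.Q1 z V : ℝ) ^ (16 / θ)⌉₊ ≤ N := le_trans (le_trans (le_trans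
    (le_max_right _ _) (le_max_right _ _)) (le_max_right _ _)) hN
  have hNpos : (0 : ℝ) < N := by exact_mod_cast hN4
  obtain ⟨hD1, hD2, hD3, -⟩ := h5 z V Y M hM
  have hxz := fun j => h4.2 M (Ψ j) (f j) (t j) (DY z V Y M) (hf j) hD1
  have hmodb := BLWaux.mod_bound θ c0 hθ hc0θ (Rep.Q1 z V) (DY z V Y M) M Y N hN4 hN5 hD2 hMN' hY
  have hmnr := hR Y M q χ Ψ f t hM hχ hgcd hbig hf
  set D := DY z V Y M with hD
  have hmem : ∀ ℓ ∈ prs z w, z < ℓ ∧ ℓ.Prime := by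
    intro ℓ hℓ
    simp only [prs, Finset.mem_filter, Finset.mem_Ioc] at hℓ
    exact ⟨hℓ.1.1, hℓ.2⟩
  have hnp : ∀ ℓ ∈ prs z w, ¬ ℓ ∣ p := by
    intro ℓ hℓ h
    have := Nat.le_of_dvd hp.pos h
    have := (hmem ℓ hℓ).1
    omega
  have hnp' : ∀ ℓ ∈ prs z w, ¬ ℓ ∣ p' := by
    intro ℓ hℓ h
    have := Nat.le_of_dvd hp'.pos h
    have := (hmem ℓ hℓ).1
    omega
  set E : ℕ → ℂ := fun m => ei (PF a t p p' 0 m) with hE
  set al2 : ∀ ℓ : ℕ, Fin k ⊕ Fin k → ZMod ℓ := fun ℓ =>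
    Sum.elim (fun j => al ℓ p (a j)) (fun j => al ℓ p' (a j)) with hal2
  set v2 : ℕ → Fin k ⊕ Fin k → ℂ := fun ℓ =>
    Sum.elim (fun j => zt (f j) (Ψ j) (t j) ℓ) (fun j => conj (zt (f j) (Ψ j) (t j) ℓ)) with hv2
  set u : ℕ → ℕ → ℂ := fun ℓ m => lf ℓ (al2 ℓ) (v2 ℓ) m - 1 with hu
  have hv2b : ∀ ℓ : ℕ, 1 ≤ ℓ → ∀ i, ‖v2 ℓ i‖ ≤ 1 := by
    intro ℓ hℓ i
    rcases i with j | j
    · exact (hxz j).2.1 ℓ hℓ
    · simp only [hv2, Sum.elim_inr, RCLike.norm_conj]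
      exact (hxz j).2.1 ℓ hℓ
  have hE1 : ∀ m, ‖E m‖ ≤ 1 := fun m => (norm_ei _).le
  have hyxN : y ≤ x + N := by omega
  -- the periodic part
  have hLper : Per (D * M) (Lk f Ψ t D a p p') := by
    intro m
    unfold Lk
    exact Finset.prod_congr rfl (fun j _ => (hxz j).2.2.2.1 (a j) p p' m)
  have hLn : ∀ m, ‖Lk f Ψ t D a p p' m‖ ≤ 1 := by
    intro m
    unfold Lk
    exact norm_prod_le_one _ _ (fun j _ => (hxz j).2.2.2.2.1 (a j) p p' m)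
  -- the local functions
  have hloc : ∀ ℓ ∈ prs z w, Per ℓ (u ℓ) ∧
      ((Finset.univ : Finset (Fin k ⊕ Fin k)).image (fun i => (al2 ℓ i).val)).card ≤ 2 * k ∧
      ∀ m, ‖1 + u ℓ m‖ ≤ 1 ∧ (u ℓ m ≠ 0 →
        m % ℓ ∈ (Finset.univ : Finset (Fin k ⊕ Fin k)).image (fun i => (al2 ℓ i).val)) := by
    intro ℓ hℓ
    have hℓ' := (hmem ℓ hℓ).1
    have : NeZero ℓ := ⟨by omega⟩
    refine ⟨per_lf ℓ (al2 ℓ) (v2 ℓ), ?_, ?_⟩
    · refine Finset.card_image_le.trans (le_of_eq ?_)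
      simp [two_mul]
    · intro m
      refine ⟨?_, ?_⟩
      · have : 1 + u ℓ m = lf ℓ (al2 ℓ) (v2 ℓ) m := by simp only [hu]; ring
        rw [this]
        exact norm_lf ℓ (al2 ℓ) (v2 ℓ) (hv2b ℓ (by omega)) m
      · intro hne
        by_contra hcon
        apply hne
        have hno : ∀ i, ¬ ((m : ZMod ℓ) = al2 ℓ i) := by
          intro i hi
          apply hcon
          rw [Finset.mem_image]
          refine ⟨i, Finset.mem_univ _, ?_⟩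
          rw [← hi, ZMod.val_natCast]
        have : lf ℓ (al2 ℓ) (v2 ℓ) m = 1 := by
          unfold lf
          refine Finset.prod_eq_one (fun i _ => ?_)
          rw [if_neg (hno i)]
        simp [hu, this]
  have hzero : ∀ ℓ ∈ prs z w, ℓ ∣ D * M → ∀ m, u ℓ m = 0 := by
    intro ℓ hℓ hdvd m
    obtain ⟨hzl, hlp⟩ := hmem ℓ hℓ
    have hlr : ℓ ∣ M := by
      rcases (Nat.Prime.dvd_mul hlp).1 hdvd with h | h
      · exact ((hD3 ℓ hlp hzl).1.1 h).1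
      · exact h
    have hzt : ∀ j, zt (f j) (Ψ j) (t j) ℓ = 1 := by
      intro j
      unfold zt
      rw [if_pos hlr]
    have hv1 : ∀ i, v2 ℓ i = 1 := by
      intro i
      rcases i with j | j
      · simp [hv2, hzt]
      · simp [hv2, hzt]
    have : lf ℓ (al2 ℓ) (v2 ℓ) m = 1 := by
      unfold lf
      refine Finset.prod_eq_one (fun i _ => ?_)
      rw [hv1 i]
      simp
    simp [hu, this]
  have hq0 : 1 ≤ D * M := Nat.mul_pos hD1 hM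
  have hmain := hMSU N z w (D * M) hN3 (by omega) hw hq0 hmodb E x y hE1 hxy hyxN
    (fun q ξ hq hqN hper hξ => (hEQ N t hN1 ht q ξ hq hqN hper hξ x y hNx
      hxy hyN).trans (Real.rpow_le_rpow_of_exponent_le (by exact_mod_cast hN4) (by linarith)))
    (Lk f Ψ t D a p p') u
    (fun ℓ => (Finset.univ : Finset (Fin k ⊕ Fin k)).image (fun i => (al2 ℓ i).val))
    hLper hLn hloc hzero
  -- the sum in question
  have hsum : ∑ m ∈ Finset.Ioc x y, Gk f Ψ t D z w a (p * m) *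
      conj (Gk f Ψ t D z w a (p' * m)) =
      ∑ m ∈ Finset.Ioc x y, E m * (Lk f Ψ t D a p p' m * ∏ ℓ ∈ prs z w, (1 + u ℓ m)) := by
    refine Finset.sum_congr rfl (fun m hm => ?_)
    rw [Finset.mem_Ioc] at hm
    have hm1 : 1 ≤ m := by omega
    rw [Gk_eq f Ψ t D z w a p m hm1 hpa hnp, Gk_eq f Ψ t D z w a p' m hm1 hpa' hnp']
    have hph := ph_cross a t p p' m hm1 hpa hpa'
    have hE' : E m = ei (PF a t p p' 0 m) := rfl
    rw [hE', ← hph]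
    have hprod : ∏ ℓ ∈ prs z w, (1 + u ℓ m) =
        (∏ ℓ ∈ prs z w, lf ℓ (fun j => al ℓ p (a j)) (fun j => zt (f j) (Ψ j) (t j) ℓ) m) *
        conj (∏ ℓ ∈ prs z w, lf ℓ (fun j => al ℓ p' (a j))
          (fun j => zt (f j) (Ψ j) (t j) ℓ) m) := by
      rw [map_prod, ← Finset.prod_mul_distrib]
      refine Finset.prod_congr rfl (fun ℓ _ => ?_)
      rw [conj_lf, lf_mul]
      simp only [hu, hal2, hv2]
      ring
    have hLk : Lk f Ψ t D a p p' m = (∏ j, xz (f j) (Ψ j) (t j) D ((p : ℤ) * m + a j)) *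
        conj (∏ j, xz (f j) (Ψ j) (t j) D ((p' : ℤ) * m + a j)) := by
      unfold Lk Lm
      rw [Finset.prod_mul_distrib, map_prod]
    rw [hprod, hLk]
    simp only [map_mul]
    ring
  rw [hsum]
  -- the main term
  have hprodn : ‖∏ ℓ ∈ prs z w, (1 + mean ℓ (u ℓ))‖ ≤ 1 := by
    refine norm_prod_le_one _ _ (fun ℓ hℓ => ?_)
    have := (hmem ℓ hℓ).2.one_le
    exact MSaux.norm_one_add_mean_le this (u ℓ) (fun m => ((hloc ℓ hℓ).2.2 m).1)
  have hSEn : ‖∑ m ∈ Finset.Ioc x y, E m‖ ≤ N := by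
    refine (norm_sum_le _ _).trans ?_
    refine (Finset.sum_le_sum (fun m _ => hE1 m)).trans ?_
    simp only [Finset.sum_const, Nat.card_Ioc, nsmul_eq_mul, mul_one]
    have : y - x ≤ N := by omega
    exact_mod_cast this
  have hterm : ‖mean (D * M) (Lk f Ψ t D a p p') * (∏ ℓ ∈ prs z w, (1 + mean ℓ (u ℓ))) *
      ∑ m ∈ Finset.Ioc x y, E m‖ ≤ η / 2 * N := by
    rw [norm_mul, norm_mul]
    calc ‖mean (D * M) (Lk f Ψ t D a p p')‖ * ‖∏ ℓ ∈ prs z w, (1 + mean ℓ (u ℓ))‖ *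
          ‖∑ m ∈ Finset.Ioc x y, E m‖ ≤ (η / 2 * 1) * N :=
          mul_le_mul (mul_le_mul hmnr hprodn (norm_nonneg _) (by positivity)) hSEn
            (norm_nonneg _) (by positivity)
      _ = η / 2 * N := by ring
  set S1 := ∑ m ∈ Finset.Ioc x y, E m * (Lk f Ψ t D a p p' m * ∏ ℓ ∈ prs z w, (1 + u ℓ m))
    with hS1
  set S2 := mean (D * M) (Lk f Ψ t D a p p') * (∏ ℓ ∈ prs z w, (1 + mean ℓ (u ℓ))) *
      ∑ m ∈ Finset.Ioc x y, E m with hS2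
  calc ‖S1‖ = ‖(S1 - S2) + S2‖ := by rw [sub_add_cancel]
    _ ≤ ‖S1 - S2‖ + ‖S2‖ := norm_add_le _ _
    _ ≤ η / 2 * N + η / 2 * N := add_le_add hmain hterm
    _ = η * N := by ring

end Pool.Agent.TPK
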