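import Pool.Agent.TPK.Targets
import Pool.Agent.TPY.CA

set_option autoImplicit false

/-! TPK-KCA: the mean at a prime where only one character is nontrivial. -/

namespace Pool.Agent.TPK

open Finset Filter Pool.Agent.Ell Pool.Agent.TPM Pool.Agent.TPX
open scoped BigOperators ComplexConjugate

namespace KCA_

/-- indicator of `ℓ ∣ p m + a` -/
noncomputable def ind (ℓ p : ℕ) (a : ℤ) (m : ℕ) : ℝ :=
  if (ℓ : ℤ) ∣ (p : ℤ) * (m : ℤ) + a then (1 : ℝ) else 0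

lemma ind_nonneg (ℓ p : ℕ) (a : ℤ) (m : ℕ) : 0 ≤ ind ℓ p a m := by
  unfold ind
  split_ifs <;> norm_num

lemma ind_one {ℓ p : ℕ} {a : ℤ} {m : ℕ} (h : (ℓ : ℤ) ∣ (p : ℤ) * (m : ℤ) + a) :
    ind ℓ p a m = 1 := by
  unfold ind
  rw [if_pos h]

lemma norm_Lm_le {r : ℕ} (f : ℕ → ℂ) (hf : MB f) (ψ : DirichletCharacter ℂ r) (t : ℝ) (D : ℕ)
    (a : ℤ) (p p' m : ℕ) : ‖Lm f ψ t D a p p' m‖ ≤ 1 := by
  unfold Lm
  rw [norm_mul, RCLike.norm_conj]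
  exact mul_le_one₀ (XZ_.norm_xz hf _) (norm_nonneg _) (XZ_.norm_xz hf _)

lemma norm_Lk_le {k r : ℕ} (f : Fin k → ℕ → ℂ) (hf : ∀ j, MB (f j))
    (ψ : Fin k → DirichletCharacter ℂ r) (t : Fin k → ℝ) (D : ℕ)
    (a : Fin k → ℤ) (p p' m : ℕ) : ‖Lk f ψ t D a p p' m‖ ≤ 1 := by
  unfold Lk
  rw [norm_prod]
  exact Finset.prod_le_one (fun _ _ => norm_nonneg _)
    (fun j _ => norm_Lm_le (f j) (hf j) _ _ _ _ _ _ _)

lemma norm_th {r : ℕ} (ψ : DirichletCharacter ℂ r) (a : ℤ) (n n' : ℕ) :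
    ‖EllTw.ch ψ a n * conj (EllTw.ch ψ a n')‖ ≤ 1 := by
  unfold EllTw.ch
  rw [norm_mul, RCLike.norm_conj]
  exact mul_le_one₀ (DirichletCharacter.norm_le_one _ _) (norm_nonneg _)
    (DirichletCharacter.norm_le_one _ _)

lemma pt {k ℓ i c κ p p' : ℕ} (hℓ : ℓ.Prime) (a : Fin k → ℤ)
    (φ : Fin k → DirichletCharacter ℂ (ℓ ^ κ)) (φ' : DirichletCharacter ℂ (ℓ ^ c)) (j₁ : Fin k)
    (f : Fin k → ℕ → ℂ) (t : Fin k → ℝ)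
    (h1 : ∀ n : ℤ, ¬ (ℓ : ℤ) ∣ n → φ j₁ (n : ZMod (ℓ ^ κ)) = φ' (n : ZMod (ℓ ^ c)))
    (h2 : ∀ j, j ≠ j₁ → ∀ n : ℤ, ¬ (ℓ : ℤ) ∣ n → φ j (n : ZMod (ℓ ^ κ)) = 1)
    (hf : ∀ j, MB (f j)) (m : ℕ) :
    ‖Lk f φ t (ℓ ^ i) a p p' m -
      EllTw.ch φ' (a j₁) (p * m) * conj (EllTw.ch φ' (a j₁) (p' * m))‖ ≤
      2 * ∑ j, (ind ℓ p (a j) m + ind ℓ p' (a j) m) := by
  by_cases h : ∀ j, ¬ (ℓ : ℤ) ∣ (p : ℤ) * (m : ℤ) + a j ∧ ¬ (ℓ : ℤ) ∣ (p' : ℤ) * (m : ℤ) + a j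
  · have hL : ∀ j, Lm (f j) (φ j) (t j) (ℓ ^ i) (a j) p p' m =
        φ j (((p : ℤ) * (m : ℤ) + a j : ℤ) : ZMod (ℓ ^ κ)) *
        conj (φ j (((p' : ℤ) * (m : ℤ) + a j : ℤ) : ZMod (ℓ ^ κ))) := by
      intro j
      unfold Lm
      rw [TPY.CA_.xz_unit hℓ (φ j) (hf j) (t j) (h j).1,
        TPY.CA_.xz_unit hℓ (φ j) (hf j) (t j) (h j).2]
    have hP : Lk f φ t (ℓ ^ i) a p p' m =
        EllTw.ch φ' (a j₁) (p * m) * conj (EllTw.ch φ' (a j₁) (p' * m)) := by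
      unfold Lk
      rw [Finset.prod_eq_single j₁]
      · rw [hL, h1 _ (h j₁).1, h1 _ (h j₁).2]
        unfold EllTw.ch
        push_cast
        rfl
      · intro j _ hj
        rw [hL, h2 j hj _ (h j).1, h2 j hj _ (h j).2, map_one, mul_one]
      · intro hn
        exact absurd (Finset.mem_univ _) hn
    rw [hP, sub_self, norm_zero]
    have := Finset.sum_nonneg (s := (Finset.univ : Finset (Fin k)))
      (f := fun j => ind ℓ p (a j) m + ind ℓ p' (a j) m)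
      (fun j _ => add_nonneg (ind_nonneg _ _ _ _) (ind_nonneg _ _ _ _))
    linarith
  · have hS : (1 : ℝ) ≤ ∑ j, (ind ℓ p (a j) m + ind ℓ p' (a j) m) := by
      push Not at h
      obtain ⟨j, hj⟩ := h
      have h3 : (1 : ℝ) ≤ ind ℓ p (a j) m + ind ℓ p' (a j) m := by
        by_cases h4 : (ℓ : ℤ) ∣ (p : ℤ) * (m : ℤ) + a j
        · rw [ind_one h4]
          linarith [ind_nonneg ℓ p' (a j) m]
        · rw [ind_one (hj h4)]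
          linarith [ind_nonneg ℓ p (a j) m]
      refine h3.trans ?_
      exact Finset.single_le_sum (f := fun j => ind ℓ p (a j) m + ind ℓ p' (a j) m)
        (fun j _ => add_nonneg (ind_nonneg _ _ _ _) (ind_nonneg _ _ _ _)) (Finset.mem_univ j)
    have h5 := norm_sub_le (Lk f φ t (ℓ ^ i) a p p' m)
      (EllTw.ch φ' (a j₁) (p * m) * conj (EllTw.ch φ' (a j₁) (p' * m)))
    have h6 := norm_Lk_le f hf φ t (ℓ ^ i) a p p' m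
    have h7 := norm_th φ' (a j₁) (p * m) (p' * m)
    linarith

lemma core {k ℓ i c κ p p' : ℕ} (hℓ : ℓ.Prime) (hc : 1 ≤ c) (hcκ : c ≤ κ)
    (hp : ¬ ℓ ∣ p) (hp' : ¬ ℓ ∣ p') (a : Fin k → ℤ)
    (φ : Fin k → DirichletCharacter ℂ (ℓ ^ κ)) (φ' : DirichletCharacter ℂ (ℓ ^ c)) (j₁ : Fin k)
    (f : Fin k → ℕ → ℂ) (t : Fin k → ℝ)
    (h1 : ∀ n : ℤ, ¬ (ℓ : ℤ) ∣ n → φ j₁ (n : ZMod (ℓ ^ κ)) = φ' (n : ZMod (ℓ ^ c)))
    (h2 : ∀ j, j ≠ j₁ → ∀ n : ℤ, ¬ (ℓ : ℤ) ∣ n → φ j (n : ZMod (ℓ ^ κ)) = 1)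
    (hf : ∀ j, MB (f j)) (K0 : ℝ)
    (hK : ‖∑ m ∈ Finset.range (ℓ ^ c), EllTw.ch φ' (a j₁) (p * m) *
      conj (EllTw.ch φ' (a j₁) (p' * m))‖ ≤ K0) :
    ‖mean (ℓ ^ i * ℓ ^ κ) (Lk f φ t (ℓ ^ i) a p p')‖ ≤ (K0 + 4 * k) / ℓ := by
  have hℓ0 : (0 : ℝ) < ℓ := by exact_mod_cast hℓ.pos
  have hℓ1 : (1 : ℝ) ≤ ℓ := by exact_mod_cast hℓ.one_lt.le
  have hNZ : NeZero (ℓ ^ c) := ⟨pow_ne_zero _ hℓ.ne_zero⟩
  have hK0 : 0 ≤ K0 := (norm_nonneg _).trans hK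
  obtain ⟨l, hl⟩ : ∃ l, i + κ = l + 1 := ⟨i + κ - 1, by omega⟩
  obtain ⟨d, hd⟩ : ∃ d, i + κ = c + d := ⟨i + κ - c, by omega⟩
  have e1 : ℓ ^ i * ℓ ^ κ = ℓ * ℓ ^ l := by rw [← pow_add, hl, pow_succ']
  have e2 : ℓ ^ i * ℓ ^ κ = ℓ ^ c * ℓ ^ d := by rw [← pow_add, hd, pow_add]
  set Θ : ℕ → ℂ := fun m => EllTw.ch φ' (a j₁) (p * m) *
    conj (EllTw.ch φ' (a j₁) (p' * m)) with hΘ
  have hz : ((ℓ : ZMod (ℓ ^ c)) ^ c) = 0 := by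
    have := ZMod.natCast_self (ℓ ^ c)
    push_cast at this
    exact this
  have hch : ∀ p m : ℕ, EllTw.ch φ' (a j₁) (p * (m + ℓ ^ c)) = EllTw.ch φ' (a j₁) (p * m) := by
    intro p m
    unfold EllTw.ch
    congr 1
    push_cast
    rw [hz, add_zero]
  have hper : Per (ℓ ^ c) Θ := by
    intro m
    simp only [hΘ]
    rw [hch, hch]
  have hS : ∑ m ∈ range (ℓ ^ i * ℓ ^ κ), Θ m =
      ((ℓ ^ d : ℕ) : ℂ) * ∑ m ∈ range (ℓ ^ c), Θ m := by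
    rw [e2, EllTw.MEAN_.sum_range_mul_per hper]
  have hfin : ‖∑ m ∈ range (ℓ ^ i * ℓ ^ κ), (Lk f φ t (ℓ ^ i) a p p' m - Θ m)‖ ≤
      4 * k * (ℓ : ℝ) ^ l := by
    refine (norm_sum_le _ _).trans
      ((Finset.sum_le_sum fun m _ => pt (i := i) hℓ a φ φ' j₁ f t h1 h2 hf m).trans ?_)
    rw [← Finset.mul_sum, Finset.sum_comm, e1]
    have h3 : ∀ j : Fin k, ∑ m ∈ range (ℓ * ℓ ^ l), (ind ℓ p (a j) m + ind ℓ p' (a j) m) ≤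
        2 * (ℓ : ℝ) ^ l := by
      intro j
      rw [Finset.sum_add_distrib]
      have g1 := MEA_.count hℓ p 0 1 l (a j) hp hℓ.not_dvd_one
      have g2 := MEA_.count hℓ p' 0 1 l (a j) hp' hℓ.not_dvd_one
      simp only [zero_add, one_mul] at g1 g2
      unfold ind
      linarith
    have h4 := Finset.sum_le_sum (s := (Finset.univ : Finset (Fin k))) fun j _ => h3 j
    rw [Finset.sum_const, Finset.card_univ, Fintype.card_fin, nsmul_eq_mul] at h4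
    linarith
  rw [Finset.sum_sub_distrib, hS] at hfin
  have hb : ‖((ℓ ^ d : ℕ) : ℂ) * ∑ m ∈ range (ℓ ^ c), Θ m‖ ≤ (ℓ : ℝ) ^ l * K0 := by
    rw [norm_mul, Complex.norm_natCast]
    push_cast
    exact mul_le_mul (pow_le_pow_right₀ hℓ1 (by omega)) hK (norm_nonneg _) (by positivity)
  have htri := norm_sub_norm_le (∑ m ∈ range (ℓ ^ i * ℓ ^ κ), Lk f φ t (ℓ ^ i) a p p' m)
    (((ℓ ^ d : ℕ) : ℂ) * ∑ m ∈ range (ℓ ^ c), Θ m)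
  unfold mean
  rw [norm_div, Complex.norm_natCast]
  have e3 : ((ℓ ^ i * ℓ ^ κ : ℕ) : ℝ) = ℓ * (ℓ : ℝ) ^ l := by
    rw [e1]
    push_cast
    ring
  rw [e3, div_le_div_iff₀ (by positivity) hℓ0]
  have h6 : ‖∑ m ∈ range (ℓ ^ i * ℓ ^ κ), Lk f φ t (ℓ ^ i) a p p' m‖ ≤
      (K0 + 4 * k) * (ℓ : ℝ) ^ l := by linarith
  calc _ ≤ (K0 + 4 * k) * (ℓ : ℝ) ^ l * ℓ := mul_le_mul_of_nonneg_right h6 hℓ0.le
    _ = _ := by ring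

end KCA_

theorem prove_KCA (h1 : EllTw.T_RAM) : T_KCA := by
  intro k a p p' ha hp hp' hne
  have h2 : ∀ j, ∃ K : ℝ, ∀ (r : ℕ) (ψ : DirichletCharacter ℂ r), 1 ≤ r → ψ.IsPrimitive →
      ‖∑ m ∈ Finset.range r, EllTw.ch ψ (a j) (p * m) *
        conj (EllTw.ch ψ (a j) (p' * m))‖ ≤ K := fun j => h1 (a j) p p' (ha j) hp hp' hne
  choose K0 hK0 using h2
  have hnn : 0 ≤ ∑ j, |K0 j| := Finset.sum_nonneg fun j _ => abs_nonneg _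
  refine ⟨∑ j, |K0 j| + 4 * k + 1, by positivity, ?_⟩
  intro ℓ i c κ φ φ' j₁ f t hℓ hc hcκ hφ h3 h4 hf hlp hlp'
  have hℓ0 : (0 : ℝ) < ℓ := by exact_mod_cast hℓ.pos
  have h5 : |K0 j₁| ≤ ∑ j, |K0 j| :=
    Finset.single_le_sum (f := fun j => |K0 j|) (fun j _ => abs_nonneg _) (Finset.mem_univ j₁)
  refine (KCA_.core hℓ hc hcκ hlp hlp' a φ φ' j₁ f t h3 h4 hf (∑ j, |K0 j|) ?_).trans ?_
  · exact ((hK0 j₁ (ℓ ^ c) φ' (Nat.one_le_iff_ne_zero.2 (pow_ne_zero _ hℓ.ne_zero)) hφ).trans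
      (le_abs_self _)).trans h5
  · rw [div_le_div_iff_of_pos_right hℓ0]
    linarith

end Pool.Agent.TPK
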