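import Pool.Agent.TPK.Targets
import Pool.Agent.TPM.MEB
import Pool.Agent.TPM.XZ
import Pool.Agent.EllTw.MEAN

set_option autoImplicit false

/-! TPK-KCB: the mean of the cross product of `k` structured functions at a bounded prime. -/

namespace Pool.Agent.TPK

open Finset Filter Pool.Agent.Ell Pool.Agent.TPM Pool.Agent.TPX
open scoped BigOperators ComplexConjugate

namespace KCB_

/-- the determinant does not vanish -/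
lemma det_ne {a : ℤ} {p p' D P m0 : ℕ} (ha : a ≠ 0) (hpp : p ≠ p') (hD : 1 ≤ D) (hP : 1 ≤ P)
    (hDP : D ∣ P) :
    let n0 : ℤ := (p : ℤ) * m0 + a
    let n0' : ℤ := (p' : ℤ) * m0 + a
    (n0 / (Int.gcd n0 D : ℤ)) * ((p' : ℤ) * ((P : ℤ) / (Int.gcd n0' D : ℤ))) -
      (n0' / (Int.gcd n0' D : ℤ)) * ((p : ℤ) * ((P : ℤ) / (Int.gcd n0 D : ℤ))) ≠ 0 := by
  intro n0 n0'
  have hDP' : (D : ℤ) ∣ (P : ℤ) := Int.natCast_dvd_natCast.2 hDP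
  have he := MEB_.gcd_pos hD n0
  have he' := MEB_.gcd_pos hD n0'
  obtain ⟨u, hu⟩ : ((Int.gcd n0 D : ℕ) : ℤ) ∣ n0 := Int.gcd_dvd_left _ _
  obtain ⟨v, hv⟩ : ((Int.gcd n0 D : ℕ) : ℤ) ∣ (P : ℤ) := (Int.gcd_dvd_right _ _).trans hDP'
  obtain ⟨u', hu'⟩ : ((Int.gcd n0' D : ℕ) : ℤ) ∣ n0' := Int.gcd_dvd_left _ _
  obtain ⟨v', hv'⟩ : ((Int.gcd n0' D : ℕ) : ℤ) ∣ (P : ℤ) := (Int.gcd_dvd_right _ _).trans hDP'
  set e : ℤ := ((Int.gcd n0 D : ℕ) : ℤ) with hedef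
  set e' : ℤ := ((Int.gcd n0' D : ℕ) : ℤ) with hedef'
  have he0 : e ≠ 0 := by
    rw [hedef]; exact_mod_cast he.ne'
  have he0' : e' ≠ 0 := by
    rw [hedef']; exact_mod_cast he'.ne'
  have e1 : n0 / e = u := by
    rw [hu]; exact Int.mul_ediv_cancel_left _ he0
  have e2 : (P : ℤ) / e = v := by
    rw [hv]; exact Int.mul_ediv_cancel_left _ he0
  have e3 : n0' / e' = u' := by
    rw [hu']; exact Int.mul_ediv_cancel_left _ he0'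
  have e4 : (P : ℤ) / e' = v' := by
    rw [hv']; exact Int.mul_ediv_cancel_left _ he0'
  rw [e1, e2, e3, e4]
  intro h
  have key : e * e' * (u * ((p' : ℤ) * v') - u' * ((p : ℤ) * v)) =
      (P : ℤ) * a * ((p' : ℤ) - p) := by
    have : e * e' * (u * ((p' : ℤ) * v') - u' * ((p : ℤ) * v)) =
        (e * u) * p' * (e' * v') - (e' * u') * p * (e * v) := by ring
    rw [this, ← hu, ← hv', ← hu', ← hv]
    simp only [n0, n0']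
    ring
  rw [h, mul_zero] at key
  have hP0 : (P : ℤ) ≠ 0 := by exact_mod_cast (by omega : P ≠ 0)
  have hp0 : (p' : ℤ) - p ≠ 0 := by
    intro h0
    apply hpp
    have : (p : ℤ) = p' := by linarith
    exact_mod_cast this
  exact (mul_ne_zero (mul_ne_zero hP0 ha) hp0) key.symm

lemma div_ne {D P : ℕ} (hD : 1 ≤ D) (hP : 1 ≤ P) (hDP : D ∣ P) (n : ℤ) :
    (P : ℤ) / (Int.gcd n D : ℤ) ≠ 0 := by
  have he0 : ((Int.gcd n D : ℕ) : ℤ) ≠ 0 := by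
    exact_mod_cast (MEB_.gcd_pos hD n).ne'
  obtain ⟨v, hv⟩ : ((Int.gcd n D : ℕ) : ℤ) ∣ (P : ℤ) :=
    (Int.gcd_dvd_right _ _).trans (Int.natCast_dvd_natCast.2 hDP)
  generalize ((Int.gcd n D : ℕ) : ℤ) = e at he0 hv ⊢
  intro h0
  rw [hv, Int.mul_ediv_cancel_left _ he0] at h0
  rw [h0, mul_zero] at hv
  have : (P : ℤ) ≠ 0 := by exact_mod_cast (by omega : P ≠ 0)
  exact this hv

/-- sums of the cross product over residue classes modulo `P`, `D ∣ P` -/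
lemma fixedP (h1 : T_RAM2) {a : ℤ} {p p' D P : ℕ} (ha : a ≠ 0)
    (hp : p.Prime) (hp' : p'.Prime) (hpp : p ≠ p') (hD : 1 ≤ D) (hP : 1 ≤ P) (hDP : D ∣ P) :
    ∃ K : ℝ, 0 ≤ K ∧ ∀ (r : ℕ) (ψ : DirichletCharacter ℂ r) (f : ℕ → ℂ) (t : ℝ), 1 ≤ r →
      ψ.IsPrimitive → MB f → ∀ m0 < P,
      ‖∑ s ∈ Finset.range r, Lm f ψ t D a p p' (m0 + P * s)‖ ≤ K := by
  have hK : ∀ m0 : ℕ, ∃ K : ℝ, ∀ (r : ℕ) (ψ : DirichletCharacter ℂ r), 1 ≤ r → ψ.IsPrimitive →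
      ‖∑ m ∈ Finset.range r,
        ψ ((((p : ℤ) * ((P : ℤ) / (Int.gcd ((p : ℤ) * m0 + a) D : ℤ))) * m +
          ((p : ℤ) * m0 + a) / (Int.gcd ((p : ℤ) * m0 + a) D : ℤ) : ℤ) : ZMod r) *
        conj (ψ ((((p' : ℤ) * ((P : ℤ) / (Int.gcd ((p' : ℤ) * m0 + a) D : ℤ))) * m +
          ((p' : ℤ) * m0 + a) / (Int.gcd ((p' : ℤ) * m0 + a) D : ℤ) : ℤ) : ZMod r))‖ ≤ K := by
    intro m0
    refine h1 _ _ _ _ (mul_ne_zero (by exact_mod_cast hp.pos.ne') (div_ne hD hP hDP _))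
      (mul_ne_zero (by exact_mod_cast hp'.pos.ne') (div_ne hD hP hDP _)) ?_
    exact det_ne ha hpp hD hP hDP
  choose K hK using hK
  refine ⟨∑ m0 ∈ Finset.range P, (|K m0| + 1), Finset.sum_nonneg fun i _ => by positivity, ?_⟩
  intro r ψ f t hr hψ hf m0 hm0
  obtain ⟨-, h2b⟩ := prove_XZ
  obtain ⟨-, -, -, -, -, hxz⟩ := h2b r ψ f t D hf hD
  have hxn : ∀ n : ℤ, ‖f (Int.gcd n D) * conj (nit t (Int.gcd n D))‖ ≤ 1 := by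
    intro n
    rw [norm_mul, RCLike.norm_conj, Rep.nit_norm t (MEB_.gcd_pos hD n), mul_one]
    exact hf.bd _
  have hle : |K m0| + 1 ≤ ∑ m0 ∈ Finset.range P, (|K m0| + 1) :=
    Finset.single_le_sum (f := fun m0 => |K m0| + 1) (fun i _ => by positivity)
      (Finset.mem_range.2 hm0)
  obtain ⟨w, hw⟩ := hDP
  have hPe : ∀ n : ℤ, (P : ℤ) / (Int.gcd n D : ℤ) = (D : ℤ) / (Int.gcd n D : ℤ) * w := by
    intro n
    rw [hw]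
    push_cast
    exact Int.mul_ediv_assoc' _ (Int.gcd_dvd_right _ _)
  have hsum : ∑ s ∈ Finset.range r, Lm f ψ t D a p p' (m0 + P * s) =
      (f (Int.gcd ((p : ℤ) * m0 + a) D) * conj (nit t (Int.gcd ((p : ℤ) * m0 + a) D))) *
      conj (f (Int.gcd ((p' : ℤ) * m0 + a) D) *
        conj (nit t (Int.gcd ((p' : ℤ) * m0 + a) D))) *
      ∑ m ∈ Finset.range r,
        ψ ((((p : ℤ) * ((P : ℤ) / (Int.gcd ((p : ℤ) * m0 + a) D : ℤ))) * m +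
          ((p : ℤ) * m0 + a) / (Int.gcd ((p : ℤ) * m0 + a) D : ℤ) : ℤ) : ZMod r) *
        conj (ψ ((((p' : ℤ) * ((P : ℤ) / (Int.gcd ((p' : ℤ) * m0 + a) D : ℤ))) * m +
          ((p' : ℤ) * m0 + a) / (Int.gcd ((p' : ℤ) * m0 + a) D : ℤ) : ℤ) : ZMod r)) := by
    rw [Finset.mul_sum]
    refine Finset.sum_congr rfl fun s _ => ?_
    unfold Lm
    have e1 : (p : ℤ) * ((m0 + P * s : ℕ) : ℤ) + a =
        ((p : ℤ) * m0 + a) + (D : ℤ) * (w * ((p : ℤ) * s)) := by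
      rw [hw]; push_cast; ring
    have e2 : (p' : ℤ) * ((m0 + P * s : ℕ) : ℤ) + a =
        ((p' : ℤ) * m0 + a) + (D : ℤ) * (w * ((p' : ℤ) * s)) := by
      rw [hw]; push_cast; ring
    rw [e1, e2, hxz, hxz]
    have e3 : ((p : ℤ) * m0 + a) / (Int.gcd ((p : ℤ) * m0 + a) D : ℤ) +
        (D : ℤ) / (Int.gcd ((p : ℤ) * m0 + a) D : ℤ) * (w * ((p : ℤ) * s)) =
        ((p : ℤ) * ((P : ℤ) / (Int.gcd ((p : ℤ) * m0 + a) D : ℤ))) * s +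
          ((p : ℤ) * m0 + a) / (Int.gcd ((p : ℤ) * m0 + a) D : ℤ) := by
      rw [hPe]; ring
    have e4 : ((p' : ℤ) * m0 + a) / (Int.gcd ((p' : ℤ) * m0 + a) D : ℤ) +
        (D : ℤ) / (Int.gcd ((p' : ℤ) * m0 + a) D : ℤ) * (w * ((p' : ℤ) * s)) =
        ((p' : ℤ) * ((P : ℤ) / (Int.gcd ((p' : ℤ) * m0 + a) D : ℤ))) * s +
          ((p' : ℤ) * m0 + a) / (Int.gcd ((p' : ℤ) * m0 + a) D : ℤ) := by
      rw [hPe]; ring
    rw [e3, e4, map_mul]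
    ring
  rw [hsum, norm_mul]
  have hc : ‖(f (Int.gcd ((p : ℤ) * m0 + a) D) *
      conj (nit t (Int.gcd ((p : ℤ) * m0 + a) D))) *
      conj (f (Int.gcd ((p' : ℤ) * m0 + a) D) *
        conj (nit t (Int.gcd ((p' : ℤ) * m0 + a) D)))‖ ≤ 1 := by
    rw [norm_mul, RCLike.norm_conj]
    exact mul_le_one₀ (hxn _) (norm_nonneg _) (hxn _)
  calc _ ≤ 1 * K m0 := mul_le_mul hc (hK m0 r ψ hr hψ) (norm_nonneg _) zero_le_one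
    _ ≤ |K m0| + 1 := by rw [one_mul]; linarith [le_abs_self (K m0)]
    _ ≤ _ := hle

/-- a character modulo `ℓ ^ κ` vanishes on the multiples of `ℓ` -/
lemma chi_zero {ℓ κ : ℕ} (hℓ : ℓ.Prime) (hκ : 1 ≤ κ) (φ : DirichletCharacter ℂ (ℓ ^ κ)) {n : ℤ}
    (h : (ℓ : ℤ) ∣ n) : φ (n : ZMod (ℓ ^ κ)) = 0 := by
  refine MulChar.map_nonunit φ fun hu => ?_
  rw [ZMod.coe_int_isUnit_iff_isCoprime] at hu
  have h2 : IsCoprime (ℓ : ℤ) n := by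
    refine hu.of_isCoprime_of_dvd_left ?_
    push_cast
    exact dvd_pow_self _ (by omega)
  have h3 : IsUnit (ℓ : ℤ) := h2.isUnit_of_dvd h
  have h4 := Int.isUnit_iff.1 h3
  have := hℓ.one_lt
  omega

/-- equal residues give equal values -/
lemma chi_const {ℓ κ d : ℕ} (hℓ : ℓ.Prime) (hκ : 1 ≤ κ) (φ : DirichletCharacter ℂ (ℓ ^ κ))
    (θ : DirichletCharacter ℂ (ℓ ^ d))
    (h : ∀ n : ℤ, ¬ (ℓ : ℤ) ∣ n → φ (n : ZMod (ℓ ^ κ)) = θ (n : ZMod (ℓ ^ d))) {x y : ℤ}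
    (h1 : (ℓ : ℤ) ∣ x - y) (h2 : ((ℓ ^ d : ℕ) : ℤ) ∣ x - y) :
    φ (x : ZMod (ℓ ^ κ)) = φ (y : ZMod (ℓ ^ κ)) := by
  by_cases hy : (ℓ : ℤ) ∣ y
  · have hx : (ℓ : ℤ) ∣ x := by
      have := dvd_add h1 hy
      rwa [sub_add_cancel] at this
    rw [chi_zero hℓ hκ φ hx, chi_zero hℓ hκ φ hy]
  · have hx : ¬ (ℓ : ℤ) ∣ x := by
      intro hx
      apply hy
      have := dvd_sub hx h1
      rwa [sub_sub_cancel] at this
    rw [h x hx, h y hy]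
    congr 1
    rw [← sub_eq_zero, ← Int.cast_sub]
    exact (ZMod.intCast_zmod_eq_zero_iff_dvd _ _).2 h2

/-- the factors which do not depend on the class modulo `ℓ ^ (i + 1 + g)` -/
lemma xz_per {ℓ i κ d g : ℕ} (hℓ : ℓ.Prime) (hκ : 1 ≤ κ) (hdg : d ≤ g)
    (φ : DirichletCharacter ℂ (ℓ ^ κ)) (θ : DirichletCharacter ℂ (ℓ ^ d))
    (h : ∀ n : ℤ, ¬ (ℓ : ℤ) ∣ n → φ (n : ZMod (ℓ ^ κ)) = θ (n : ZMod (ℓ ^ d))) {f : ℕ → ℂ}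
    (hf : MB f) (t : ℝ) (n s : ℤ) :
    xz f φ t (ℓ ^ i) (n + ((ℓ ^ (i + 1 + g) : ℕ) : ℤ) * s) = xz f φ t (ℓ ^ i) n := by
  have hi : 1 ≤ ℓ ^ i := Nat.one_le_pow _ _ hℓ.pos
  obtain ⟨-, -, -, -, -, hxz⟩ := prove_XZ.2 (ℓ ^ κ) φ f t (ℓ ^ i) hf hi
  have e1 : n + ((ℓ ^ (i + 1 + g) : ℕ) : ℤ) * s =
      n + ((ℓ ^ i : ℕ) : ℤ) * (((ℓ ^ (1 + g) : ℕ) : ℤ) * s) := by
    have : ℓ ^ (i + 1 + g) = ℓ ^ i * ℓ ^ (1 + g) := by rw [← pow_add, add_assoc]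
    rw [this]
    push_cast
    ring
  rw [e1, hxz]
  unfold xz
  congr 1
  refine chi_const hℓ hκ φ θ h ?_ ?_
  · rw [add_sub_cancel_left]
    refine Dvd.dvd.mul_left (Dvd.dvd.mul_right ?_ _) _
    push_cast
    exact dvd_pow_self _ (by omega)
  · rw [add_sub_cancel_left]
    refine Dvd.dvd.mul_left (Dvd.dvd.mul_right ?_ _) _
    exact Int.natCast_dvd_natCast.2 (pow_dvd_pow _ (by omega))

lemma per_mul {P : ℕ} {ξ : ℕ → ℂ} (h : ∀ m, ξ (m + P) = ξ m) (m s : ℕ) :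
    ξ (m + P * s) = ξ m := by
  induction s with
  | zero => simp
  | succ s ih =>
    rw [mul_add, mul_one, ← add_assoc, h, ih]

lemma mean_two {ℓ u v : ℕ} (hℓ : ℓ.Prime) {ξ : ℕ → ℂ} (h1 : Per (ℓ ^ u) ξ)
    (h2 : Per (ℓ ^ v) ξ) : mean (ℓ ^ u) ξ = mean (ℓ ^ v) ξ := by
  have hu : 1 ≤ ℓ ^ u := Nat.one_le_pow _ _ hℓ.pos
  have hv : 1 ≤ ℓ ^ v := Nat.one_le_pow _ _ hℓ.pos
  rcases le_total u v with h | h
  · exact (EllTw.MEAN_.mean_per_dvd h1 (pow_dvd_pow _ h) hu hv).symm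
  · exact EllTw.MEAN_.mean_per_dvd h2 (pow_dvd_pow _ h) hv hu

end KCB_

open KCB_ in
theorem prove_KCB (h1 : T_RAM2) : T_KCB := by
  intro k a p p' E ha hp hp' hpp
  have h : ∀ (j₁ : Fin k) (P D : ℕ), ∃ K : ℝ, 0 ≤ K ∧ (1 ≤ D → 1 ≤ P → D ∣ P →
      ∀ (r : ℕ) (ψ : DirichletCharacter ℂ r) (f : ℕ → ℂ) (t : ℝ), 1 ≤ r →
      ψ.IsPrimitive → MB f → ∀ m0 < P,
      ‖∑ s ∈ Finset.range r, Lm f ψ t D (a j₁) p p' (m0 + P * s)‖ ≤ K) := by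
    intro j₁ P D
    by_cases hD : 1 ≤ D ∧ 1 ≤ P ∧ D ∣ P
    · obtain ⟨K, hK0, hK⟩ := fixedP h1 (ha j₁) hp hp' hpp hD.1 hD.2.1 hD.2.2
      exact ⟨K, hK0, fun _ _ _ => hK⟩
    · exact ⟨0, le_rfl, fun e1 e2 e3 => absurd ⟨e1, e2, e3⟩ hD⟩
  choose K hK0 hK using h
  have hS3 : ∀ j₁ P, 0 ≤ ∑ D ∈ Finset.range (E + 1), K j₁ P D := fun j₁ P =>
    Finset.sum_nonneg fun D _ => hK0 j₁ P D
  have hS2 : ∀ j₁, 0 ≤ ∑ P ∈ Finset.range (E * E + 1), ∑ D ∈ Finset.range (E + 1), K j₁ P D :=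
    fun j₁ => Finset.sum_nonneg fun P _ => hS3 j₁ P
  refine ⟨1 + ∑ j₁, ∑ P ∈ Finset.range (E * E + 1), ∑ D ∈ Finset.range (E + 1), K j₁ P D,
    ?_, ?_⟩
  · have := Finset.sum_nonneg (s := Finset.univ) fun (j₁ : Fin k) _ => hS2 j₁
    linarith
  intro ℓ i c κ φ φ' j₁ f t hℓ hc hcκ hφ' hφ1 hφj hf hE
  have hκ : 1 ≤ κ := hc.trans hcκ
  have hi : 1 ≤ ℓ ^ i := Nat.one_le_pow _ _ hℓ.pos
  have hcp : 1 ≤ ℓ ^ c := Nat.one_le_pow _ _ hℓ.pos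
  set g := Nat.log ℓ E with hg
  have hPp : 1 ≤ ℓ ^ (i + 1 + g) := Nat.one_le_pow _ _ hℓ.pos
  have hE0 : E ≠ 0 := by
    have : 1 ≤ ℓ ^ (i + 1) := Nat.one_le_pow _ _ hℓ.pos
    omega
  have hPE : ℓ ^ (i + 1 + g) ≤ E * E := by
    rw [pow_add]
    exact Nat.mul_le_mul hE (Nat.pow_log_le_self ℓ hE0)
  have hDP : ℓ ^ i ∣ ℓ ^ (i + 1 + g) := pow_dvd_pow _ (by omega)
  -- the factor `j₁`
  have hx1 : ∀ x : ℤ, φ j₁ (x : ZMod (ℓ ^ κ)) = φ' (x : ZMod (ℓ ^ c)) := by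
    intro x
    by_cases hx : (ℓ : ℤ) ∣ x
    · rw [chi_zero hℓ hκ _ hx, chi_zero hℓ hc _ hx]
    · exact hφ1 x hx
  have hL1 : ∀ m, Lm (f j₁) (φ j₁) (t j₁) (ℓ ^ i) (a j₁) p p' m =
      Lm (f j₁) φ' (t j₁) (ℓ ^ i) (a j₁) p p' m := by
    intro m
    unfold Lm xz
    rw [hx1, hx1]
  -- the other factors
  have hLj : ∀ j, j ≠ j₁ → ∀ m, Lm (f j) (φ j) (t j) (ℓ ^ i) (a j) p p' (m + ℓ ^ (i + 1 + g)) =
      Lm (f j) (φ j) (t j) (ℓ ^ i) (a j) p p' m := by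
    intro j hj m
    obtain ⟨d, θ, hd, hθ⟩ := hφj j hj
    have hdg : d ≤ g := Nat.le_log_of_pow_le hℓ.one_lt hd
    unfold Lm
    have e1 : ∀ q : ℕ, (q : ℤ) * ((m + ℓ ^ (i + 1 + g) : ℕ) : ℤ) + a j =
        ((q : ℤ) * m + a j) + ((ℓ ^ (i + 1 + g) : ℕ) : ℤ) * q := by
      intro q
      push_cast
      ring
    rw [e1, e1, xz_per hℓ hκ hdg (φ j) θ hθ (hf j), xz_per hℓ hκ hdg (φ j) θ hθ (hf j)]
  have hLm1 : ∀ j m, ‖Lm (f j) (φ j) (t j) (ℓ ^ i) (a j) p p' m‖ ≤ 1 := fun j m =>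
    (prove_XZ.2 (ℓ ^ κ) (φ j) (f j) (t j) (ℓ ^ i) (hf j) hi).2.2.2.2.1 (a j) p p' m
  have hsplit : ∀ m, Lk f φ t (ℓ ^ i) a p p' m = Lm (f j₁) φ' (t j₁) (ℓ ^ i) (a j₁) p p' m *
      ∏ j ∈ Finset.univ.erase j₁, Lm (f j) (φ j) (t j) (ℓ ^ i) (a j) p p' m := by
    intro m
    unfold Lk
    rw [← hL1]
    exact (Finset.mul_prod_erase Finset.univ
      (fun j => Lm (f j) (φ j) (t j) (ℓ ^ i) (a j) p p' m) (Finset.mem_univ j₁)).symm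
  have hCs : ∀ m s, ∏ j ∈ Finset.univ.erase j₁,
      Lm (f j) (φ j) (t j) (ℓ ^ i) (a j) p p' (m + ℓ ^ (i + 1 + g) * s) =
      ∏ j ∈ Finset.univ.erase j₁, Lm (f j) (φ j) (t j) (ℓ ^ i) (a j) p p' m := by
    intro m s
    refine Finset.prod_congr rfl fun j hj => ?_
    exact per_mul (hLj j (Finset.ne_of_mem_erase hj)) m s
  -- the two periods
  have hp1 : Per (ℓ ^ (i + κ)) (Lk f φ t (ℓ ^ i) a p p') := by
    intro m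
    unfold Lk
    refine Finset.prod_congr rfl fun j _ => ?_
    have := (prove_XZ.2 (ℓ ^ κ) (φ j) (f j) (t j) (ℓ ^ i) (hf j) hi).2.2.2.1 (a j) p p' m
    rwa [← pow_add] at this
  have hp2 : Per (ℓ ^ (i + 1 + g + c)) (Lk f φ t (ℓ ^ i) a p p') := by
    intro m
    rw [hsplit, hsplit]
    have e1 : ℓ ^ (i + 1 + g + c) = ℓ ^ (i + 1 + g) * ℓ ^ c := pow_add _ _ _
    have e2 : ℓ ^ (i + 1 + g + c) = (ℓ ^ i * ℓ ^ c) * ℓ ^ (1 + g) := by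
      rw [← pow_add, ← pow_add]
      congr 1
      ring
    congr 1
    · rw [e2]
      exact per_mul ((prove_XZ.2 (ℓ ^ c) φ' (f j₁) (t j₁) (ℓ ^ i) (hf j₁) hi).2.2.2.1
        (a j₁) p p') m _
    · rw [e1]
      exact hCs m _
  have hmean : mean (ℓ ^ i * ℓ ^ κ) (Lk f φ t (ℓ ^ i) a p p') =
      mean (ℓ ^ (i + 1 + g) * ℓ ^ c) (Lk f φ t (ℓ ^ i) a p p') := by
    rw [← pow_add, ← pow_add]
    exact mean_two hℓ hp1 hp2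
  rw [hmean]
  have hbd : ∀ m0 < ℓ ^ (i + 1 + g), ‖∑ s ∈ Finset.range (ℓ ^ c),
      Lk f φ t (ℓ ^ i) a p p' (m0 + ℓ ^ (i + 1 + g) * s)‖ ≤
      K j₁ (ℓ ^ (i + 1 + g)) (ℓ ^ i) := by
    intro m0 hm0
    simp only [hsplit, hCs]
    rw [← Finset.sum_mul, norm_mul]
    have hA := hK j₁ (ℓ ^ (i + 1 + g)) (ℓ ^ i) hi hPp hDP (ℓ ^ c) φ' (f j₁) (t j₁) hcp hφ'
      (hf j₁) m0 hm0
    have hB : ‖∏ j ∈ Finset.univ.erase j₁, Lm (f j) (φ j) (t j) (ℓ ^ i) (a j) p p' m0‖ ≤ 1 := by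
      rw [norm_prod]
      exact Finset.prod_le_one (fun j _ => norm_nonneg _) fun j _ => hLm1 j m0
    calc _ ≤ K j₁ (ℓ ^ (i + 1 + g)) (ℓ ^ i) * 1 :=
          mul_le_mul hA hB (norm_nonneg _) (hK0 _ _ _)
      _ = _ := mul_one _
  have h4 := prove_AVG (ℓ ^ c) (ℓ ^ (i + 1 + g)) (Lk f φ t (ℓ ^ i) a p p') _ hcp hPp hbd
  rw [Nat.cast_pow] at h4
  refine h4.trans ?_
  have hl : (0 : ℝ) < (ℓ : ℝ) ^ c := by
    have : (0 : ℝ) < ℓ := by exact_mod_cast hℓ.pos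
    positivity
  refine div_le_div_of_nonneg_right ?_ hl.le
  have g1 : K j₁ (ℓ ^ (i + 1 + g)) (ℓ ^ i) ≤
      ∑ D ∈ Finset.range (E + 1), K j₁ (ℓ ^ (i + 1 + g)) D := by
    refine Finset.single_le_sum (f := fun D => K j₁ (ℓ ^ (i + 1 + g)) D)
      (fun D _ => hK0 _ _ D) (Finset.mem_range.2 ?_)
    have : ℓ ^ i ≤ ℓ ^ (i + 1) := Nat.pow_le_pow_right hℓ.pos (by omega)
    omega
  have g2 : ∑ D ∈ Finset.range (E + 1), K j₁ (ℓ ^ (i + 1 + g)) D ≤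
      ∑ P ∈ Finset.range (E * E + 1), ∑ D ∈ Finset.range (E + 1), K j₁ P D :=
    Finset.single_le_sum (f := fun P => ∑ D ∈ Finset.range (E + 1), K j₁ P D)
      (fun P _ => hS3 j₁ P) (Finset.mem_range.2 (by omega))
  have g3 : ∑ P ∈ Finset.range (E * E + 1), ∑ D ∈ Finset.range (E + 1), K j₁ P D ≤
      ∑ j₁, ∑ P ∈ Finset.range (E * E + 1), ∑ D ∈ Finset.range (E + 1), K j₁ P D :=
    Finset.single_le_sum
      (f := fun j₁ => ∑ P ∈ Finset.range (E * E + 1), ∑ D ∈ Finset.range (E + 1), K j₁ P D)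
      (fun j₁ _ => hS2 j₁) (Finset.mem_univ j₁)
  linarith

end Pool.Agent.TPK
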