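import Pool.Agent.TPK.Targets2
import Pool.Agent.TPK.KCR

set_option autoImplicit false

/-! the cross sums up to any `M1 ≤ x` from the block estimate, `k` structured functions, with the
alternative of a large `t_j` -/

namespace Pool.Agent.TPK

open Finset Filter Pool.Agent.Ell Pool.Agent.TPM Pool.Agent.TPX
open scoped BigOperators ComplexConjugate



theorem prove_KCR2 (h1 : T_KBL2) (h2 : T_XZ) (h3 : T_XZW) (h4 : T_VDM) : T_KCR2 := by
  intro k a p p' C C1 η θ hk hinj ha hp hp' hpp hpa hpa' hC hη hθ hθ1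
  obtain ⟨s, κ, B, z0, hs, hκ, hB, hBLW⟩ :=
    h1 k a p p' C (2 * C1) (η / 64) (θ / 2) hk hinj ha hp hp' hpp hpa hpa' (by positivity)
      (by positivity) (by positivity) (by linarith)
  obtain ⟨Cv, hCv, hVDM⟩ := h4 k a hinj ha
  refine ⟨κ / 2, Cv * B, z0, by positivity, by positivity, fun z V hz => ?_⟩
  obtain ⟨R, N0, hBLW⟩ := hBLW z V hz
  refine ⟨R, 2 * s, by linarith, fun A hA => ?_⟩
  obtain ⟨X, hX⟩ := eventually_atTop.mp
    (((KeyE.large_x (η / 64) C1 (by positivity) hC (max N0 1)).and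
      ((tendsto_natCast_atTop_atTop (R := ℝ)).eventually_ge_atTop (64 / η))).and
      (KCR_.ev_pow (η / 64) θ (by positivity) hθ))
  refine ⟨X, fun x M Y q χ Ψ f t hx hM hMx hY hχ hcase hf ht M1 hM1 => ?_⟩
  obtain ⟨⟨⟨hx1, hx2⟩, hx64⟩, hxp⟩ := hX x hx
  have hwp := KeyE.w_pow x A s hx1 hs hA
  set w := ⌊(x : ℝ) ^ (1 / A)⌋₊ with hw
  set N2 := ⌈η / 64 * x⌉₊ with hN2
  have hN2ge : η / 64 * x ≤ N2 := Nat.le_ceil _
  have hN21 : 1 ≤ N2 := (le_max_right _ _).trans (hx2 N2 hN2ge).1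
  have hN2le : (N2 : ℝ) ≤ η / 32 * x := by
    have h3 : (N2 : ℝ) < η / 64 * x + 1 := Nat.ceil_lt_add_one (by positivity)
    have h4 : 1 ≤ η / 64 * x := by
      rw [div_le_iff₀ hη] at hx64
      linarith
    linarith
  have hD : 1 ≤ DY z V Y M := (h3 z V Y M hM).1
  have hG : ∀ n, ‖Gk f Ψ t (DY z V Y M) z w a n‖ ≤ 1 := by
    intro n
    unfold Gk
    rw [norm_prod]
    refine Finset.prod_le_one (fun j _ => norm_nonneg _) (fun j _ => ?_)
    exact (h2.2 M (Ψ j) (f j) (t j) (DY z V Y M) (hf j) hD).2.2.1 z w _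
  have key := KeyC.dyadic (fun m => Gk f Ψ t (DY z V Y M) z w a (p * m) *
      conj (Gk f Ψ t (DY z V Y M) z w a (p' * m))) 1 (η / 64) N2 x hN21 (by positivity)
    ?_ ?_ M1 hM1
  · have e : Finset.Icc 1 M1 = Finset.Ioc 0 M1 := by
      ext m; simp [Finset.mem_Icc, Finset.mem_Ioc, Nat.succ_le_iff]
    rw [e]
    refine key.trans ?_
    have hM' : (M1 : ℝ) ≤ x := by exact_mod_cast hM1
    have h5 : 3 * (η / 64) * M1 ≤ 3 * (η / 64) * x :=
      mul_le_mul_of_nonneg_left hM' (by positivity)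
    have h6 : 0 ≤ η * x := by positivity
    linarith
  · intro m _
    rw [norm_mul, RCLike.norm_conj]
    exact mul_le_one₀ (hG _) (norm_nonneg _) (hG _)
  · intro N hN2N hNx x' y' hNx' hx'y' hy'
    have hNr : η / 64 * x ≤ N := hN2ge.trans (by exact_mod_cast hN2N)
    obtain ⟨m1, m2, m3⟩ := hx2 N hNr
    have hr' : (M : ℝ) ≤ (N : ℝ) ^ (1 - θ / 2) := by
      refine hMx.trans (hxp.trans ?_)
      exact Real.rpow_le_rpow (by positivity) hNr (by linarith)
    refine hBLW N w M Y q χ Ψ f t ((le_max_left _ _).trans m1) (hwp.trans m3) hM hr'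
      (KCR_.log_le x N κ Y hx1 hκ hY m3) hχ ?_ hf (fun j => (ht j).trans m2)
      x' y' hNx' hx'y' hy'
    refine hcase.imp (fun hb => hb) (fun ⟨j, hj⟩ => ?_)
    have hN1 : 1 ≤ N := hN21.trans hN2N
    have hN1' : (1 : ℝ) ≤ N := by exact_mod_cast hN1
    have hNx2 : (N : ℝ) ≤ x := by exact_mod_cast hNx
    have v1 := hVDM t j N hN1'
    have v2 : (N : ℝ) ^ k ≤ (x : ℝ) ^ k := pow_le_pow_left₀ (by positivity) hNx2 k
    have v3 : Cv * B * (N : ℝ) ^ k ≤ Cv * B * (x : ℝ) ^ k :=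
      mul_le_mul_of_nonneg_left v2 (by positivity)
    have v4 : 0 < Cv * (N : ℝ) ^ k := by positivity
    have v5 : B * (Cv * (N : ℝ) ^ k) < Lam a t N * (Cv * (N : ℝ) ^ k) := by
      calc B * (Cv * (N : ℝ) ^ k) = Cv * B * (N : ℝ) ^ k := by ring
        _ ≤ Cv * B * (x : ℝ) ^ k := v3
        _ < |t j| := hj
        _ ≤ Cv * Lam a t N * (N : ℝ) ^ k := v1
        _ = Lam a t N * (Cv * (N : ℝ) ^ k) := by ring
    exact (lt_of_mul_lt_mul_right v5 v4.le).le

end Pool.Agent.TPK
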