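import Pool.Agent.TPK.Targets

/-!
TPK, block KDL: the distance after passing to a larger modulus.
-/

set_option autoImplicit false

namespace Pool.Agent.TPK

open Finset Filter Pool.Agent.Ell Pool.Agent.TPM Pool.Agent.TPX
open scoped BigOperators ComplexConjugate

namespace KDL_

lemma nit_one (t : ℝ) {n : ℕ} (hn : 0 < n) : ‖nit t n‖ = 1 := by
  unfold nit
  rw [Complex.norm_natCast_cpow_of_pos hn]
  simp

lemma re_le (u : ℂ) (hu : ‖u‖ ≤ 1) : 0 ≤ 1 - u.re ∧ 1 - u.re ≤ 2 := by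
  have := Complex.abs_re_le_norm u
  rw [abs_le] at this
  constructor <;> linarith [this.1, this.2]

lemma term_nonneg {r : ℕ} (f : ℕ → ℂ) (hf : ∀ n, ‖f n‖ ≤ 1) (χ : DirichletCharacter ℂ r) (t : ℝ)
    {p : ℕ} (hp : 0 < p) :
    0 ≤ (1 - (f p * conj (χ (p : ZMod r) * nit t p)).re) / (p : ℝ) ∧
    (1 - (f p * conj (χ (p : ZMod r) * nit t p)).re) / (p : ℝ) ≤ 2 / p := by
  have h : ‖f p * conj (χ (p : ZMod r) * nit t p)‖ ≤ 1 := by
    rw [norm_mul, RCLike.norm_conj, norm_mul, nit_one t hp, mul_one]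
    exact mul_le_one₀ (hf p) (norm_nonneg _) (χ.norm_le_one _)
  obtain ⟨h1, h2⟩ := re_le _ h
  exact ⟨div_nonneg h1 (Nat.cast_nonneg p), div_le_div_of_nonneg_right h2 (Nat.cast_nonneg p)⟩

lemma lift_int {q M : ℕ} (h : q ∣ M) (χ : DirichletCharacter ℂ q) (n : ℤ)
    (hn : IsCoprime n (M : ℤ)) :
    DirichletCharacter.changeLevel h χ (n : ZMod M) = χ (n : ZMod q) := by
  have hu : IsUnit (n : ZMod M) := (ZMod.coe_int_isUnit_iff_isCoprime n M).mpr hn.symm
  obtain ⟨w, hw⟩ := hu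
  rw [← hw, DirichletCharacter.changeLevel_eq_cast_of_dvd, hw, ZMod.cast_intCast h]

end KDL_

open KDL_ in
theorem prove_KDL : T_KDL := by
  intro A hA
  have hA0 : 0 < A := by linarith
  refine ⟨⌈(4 * A ^ 2) ^ A⌉₊ + 2, ?_⟩
  intro x q M χ f t hX hf hM hMx hqM hd
  refine ⟨DirichletCharacter.changeLevel hqM χ, ⟨hqM, fun n hn => lift_int hqM χ n hn⟩, ?_⟩
  have hx2 : 2 ≤ x := by omega
  have hx1 : (1 : ℝ) < x := by exact_mod_cast (by omega : 1 < x)
  have hx0 : (0 : ℝ) < x := by linarith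
  have hxbig : (4 * A ^ 2) ^ A ≤ (x : ℝ) := by
    have h1 : (4 * A ^ 2) ^ A ≤ (⌈(4 * A ^ 2) ^ A⌉₊ : ℝ) := Nat.le_ceil _
    have h2 : ((⌈(4 * A ^ 2) ^ A⌉₊ : ℕ) : ℝ) ≤ x := by exact_mod_cast (by omega)
    linarith
  have hroot : 4 * A ^ 2 ≤ (x : ℝ) ^ (1 / A) := by
    have h := Real.rpow_le_rpow (by positivity) hxbig (by positivity : (0:ℝ) ≤ 1 / A)
    rwa [← Real.rpow_mul (by positivity), mul_one_div_cancel hA0.ne', Real.rpow_one] at h
  set D : Finset ℕ := (Finset.Iic ⌊(x : ℝ)⌋₊).filter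
    (fun p : ℕ => p.Prime ∧ (x : ℝ) ^ (1 / A) < p) with hD
  set y : ℝ := (x : ℝ) ^ (1 / A) with hy
  have hy0 : 0 < y := by positivity
  have hyA : (x : ℝ) ^ (1 / (2 * A)) ≤ y := by
    rw [hy]
    apply Real.rpow_le_rpow_of_exponent_le hx1.le
    apply one_div_le_one_div_of_le hA0
    linarith
  have sub : ∑ p ∈ D, (1 - (f p * conj (χ (p : ZMod q) * nit t p)).re) / (p : ℝ) ≤
      dist2 f χ t ((x : ℝ) ^ (1 / (2 * A))) x := by
    unfold dist2
    refine Finset.sum_le_sum_of_subset_of_nonneg ?_ ?_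
    · intro p hp
      rw [hD, Finset.mem_filter] at hp
      rw [Finset.mem_filter]
      exact ⟨hp.1, hp.2.1, lt_of_le_of_lt hyA hp.2.2⟩
    · intro p hp _
      rw [Finset.mem_filter] at hp
      exact (term_nonneg f hf.bd χ t hp.2.1.pos).1
  have split : dist2 f (DirichletCharacter.changeLevel hqM χ) t y x ≤
      ∑ p ∈ D, ((1 - (f p * conj (χ (p : ZMod q) * nit t p)).re) / (p : ℝ) +
        (if p ∣ M then 2 / y else 0)) := by
    unfold dist2
    refine Finset.sum_le_sum ?_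
    intro p hp
    rw [Finset.mem_filter] at hp
    obtain ⟨_, hpp, hyp⟩ := hp
    have hp0 : (0 : ℝ) < p := by exact_mod_cast hpp.pos
    have n1 := (term_nonneg f hf.bd χ t hpp.pos).1
    by_cases hdv : p ∣ M
    · rw [if_pos hdv]
      have h3 := (term_nonneg f hf.bd (DirichletCharacter.changeLevel hqM χ) t hpp.pos).2
      have h4 : 2 / (p : ℝ) ≤ 2 / y := div_le_div_of_nonneg_left (by norm_num) hy0 hyp.le
      linarith
    · rw [if_neg hdv, add_zero]
      have hcop : IsCoprime (p : ℤ) (M : ℤ) :=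
        Nat.isCoprime_iff_coprime.mpr ((Nat.Prime.coprime_iff_not_dvd hpp).mpr hdv)
      have h5 := lift_int hqM χ (p : ℤ) hcop
      rw [Int.cast_natCast, Int.cast_natCast] at h5
      rw [h5]
  have hcount : ∑ p ∈ D, (if p ∣ M then 2 / y else 0) ≤ A * (2 / y) := by
    rw [← Finset.sum_filter, Finset.sum_const, nsmul_eq_mul]
    refine mul_le_mul_of_nonneg_right ?_ (by positivity)
    set D' := D.filter (fun p => p ∣ M) with hD'
    have hdvd : ∏ p ∈ D', p ∣ M := by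
      apply Finset.prod_primes_dvd
      · intro p hp
        simp only [hD', hD, Finset.mem_filter] at hp
        exact hp.1.2.1.prime
      · intro p hp
        simp only [hD', hD, Finset.mem_filter] at hp
        exact hp.2
    have hle : ∏ p ∈ D', p ≤ x := (Nat.le_of_dvd (by omega) hdvd).trans hMx
    have hleR : ∏ p ∈ D', (p : ℝ) ≤ x := by
      rw [← Nat.cast_prod]
      exact Nat.cast_le.mpr hle
    have hpow : y ^ D'.card ≤ ∏ p ∈ D', (p : ℝ) := by
      rw [← Finset.prod_const]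
      refine Finset.prod_le_prod (fun _ _ => hy0.le) ?_
      intro p hp
      simp only [hD', hD, Finset.mem_filter] at hp
      exact hp.1.2.2.le
    have h7 : (x : ℝ) ^ (1 / A * (D'.card : ℝ)) ≤ (x : ℝ) ^ (1 : ℝ) := by
      rw [Real.rpow_one, Real.rpow_mul hx0.le, Real.rpow_natCast]
      exact hpow.trans hleR
    rw [Real.rpow_le_rpow_left_iff hx1] at h7
    rw [one_div, inv_mul_le_iff₀ hA0, mul_one] at h7
    exact h7
  have hlast : A * (2 / y) ≤ 1 / (2 * A) := by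
    rw [mul_div_assoc', div_le_div_iff₀ hy0 (by positivity)]
    nlinarith
  have h8 : 1 / (2 * A) + 1 / (2 * A) = 1 / A := by
    field_simp
    norm_num
  refine split.trans ?_
  rw [Finset.sum_add_distrib]
  linarith

end Pool.Agent.TPK
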