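import Pool.Agent.TPK.Targets2
import Pool.Agent.TPK.KFI

set_option autoImplicit false

/-! the final theorem, one function arbitrary, the others structured (with the alternative of a
large `t_j`). -/

namespace Pool.Agent.TPK

open Finset Filter Pool.Agent.Ell Pool.Agent.TPM Pool.Agent.TPX
open scoped BigOperators ComplexConjugate

namespace KFI2_

/-- one index `j₀` -/
theorem large (h1 : T_KLC2) (h2 : T_KDL) (k : ℕ) (h : Fin (k + 1) → ℕ) (hk : 1 ≤ k)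
    (hh : Function.Injective h) (C : ℕ) (ε θ : ℝ) (hε : 0 < ε) (hθ : 0 < θ) (hθ1 : θ < 1)
    (j₀ : Fin (k + 1)) :
    ∃ (R : ℕ) (A X : ℝ), 1 ≤ A ∧ 0 ≤ X ∧ ∀ (x δ : ℝ), X ≤ x → 0 < δ → δ ≤ 1 / (4 * A) →
    ∀ f : Fin (k + 1) → ArithmeticFunction ℂ,
      (∀ i, (f i).IsMultiplicative) → (∀ i n, ‖f i n‖ ≤ 1) →
      ∀ (q : Fin (k + 1) → ℕ) (χ : ∀ j, DirichletCharacter ℂ (q j))
        (t : Fin (k + 1) → ℝ),
      (∀ j, j ≠ j₀ → 1 ≤ q j ∧ (χ j).IsPrimitive ∧ |t j| ≤ x ^ C ∧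
        ∑ p ∈ (Finset.Iic ⌊x⌋₊).filter (fun p : ℕ => p.Prime ∧ x ^ δ < p),
          (1 - (f j p * (starRingEnd ℂ) (χ j (p : ZMod (q j)) *
            (p : ℂ) ^ ((t j : ℂ) * Complex.I))).re) / (p : ℝ) ≤ δ) →
      ((∏ j ∈ Finset.univ.erase j₀, q j : ℕ) : ℝ) ≤ x ^ (1 - θ) →
      (((∀ i j, i ≠ j₀ → j ≠ j₀ → i ≠ j → Nat.gcd (q i) (q j) ≤ C) ∧ ∃ j, j ≠ j₀ ∧ R < q j) ∨
        ∃ j, j ≠ j₀ ∧ R * x ^ k < |t j|) →
      ‖∑ n ∈ Finset.Icc 1 ⌊x⌋₊, ∏ i, f i (n + h i)‖ / x ≤ ε := by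
  classical
  obtain ⟨R, X, A, hA, H⟩ := h1 k C (MainAux.av h j₀) ((C : ℝ) + 1) (ε / 4) (θ / 2) hk
    (MainAux.av_inj h hh j₀) (MainAux.av_ne h hh j₀) (by positivity) (by positivity)
    (by linarith) (by linarith)
  obtain ⟨X2, H2⟩ := h2 A hA
  have h2C : (0 : ℝ) < 2 ^ C := by positivity
  have hX1 : (0 : ℝ) ≤ X := by positivity
  have hX2 : (0 : ℝ) ≤ X2 := by positivity
  have h8 : 0 ≤ 8 * (h j₀ : ℝ) / ε := by positivity
  have h2T : (0 : ℝ) < 2 ^ (2 / θ) := by positivity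
  refine ⟨R, A, X + X2 + 2 ^ C + 4 + 8 * h j₀ / ε + 2 ^ (2 / θ), hA, by positivity, ?_⟩
  intro x δ hx hδ hδA f hf hb q χ t hall hprod hcase
  have hx0 : 0 < x := by linarith
  set N := ⌊x⌋₊ with hN
  have hNx : (N : ℝ) ≤ x := Nat.floor_le hx0.le
  have hxN : x < N + 1 := Nat.lt_floor_add_one x
  have hXN : X ≤ N := by
    have : (X : ℝ) ≤ N := by linarith
    exact_mod_cast this
  have hXN2 : X2 ≤ N := by
    have : (X2 : ℝ) ≤ N := by linarith
    exact_mod_cast this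
  have hN3 : (3 : ℝ) ≤ N := by linarith
  have hNC : (2 : ℝ) ^ C ≤ N := by linarith
  have hNT : (2 : ℝ) ^ (2 / θ) ≤ N := by linarith
  have hN0 : (N : ℝ) ≠ 0 := by linarith
  have hNp : (0 : ℝ) < N := by linarith
  have hx2N : x ≤ 2 * N := by linarith
  have hfl : ⌊(N : ℝ)⌋₊ = N := Nat.floor_natCast N
  have hA0 : 0 < A := by linarith
  have hxd : x ^ δ ≤ (N : ℝ) ^ (1 / (2 * A)) := by
    have h1 : x ^ δ ≤ x ^ (1 / (4 * A)) :=
      Real.rpow_le_rpow_of_exponent_le (by linarith) hδA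
    have h2 : x ≤ (N : ℝ) ^ (2 : ℝ) := by
      rw [Real.rpow_two]
      nlinarith
    have h3 : x ^ (1 / (4 * A)) ≤ ((N : ℝ) ^ (2 : ℝ)) ^ (1 / (4 * A)) :=
      Real.rpow_le_rpow hx0.le h2 (by positivity)
    refine h1.trans (h3.trans ?_)
    rw [← Real.rpow_mul (by positivity)]
    have h4 : (2 : ℝ) * (1 / (4 * A)) = 1 / (2 * A) := by
      field_simp
      norm_num
    rw [h4]
  have hδ2 : δ ≤ 1 / (2 * A) :=
    hδA.trans (one_div_le_one_div_of_le (by positivity) (by linarith))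
  -- the modulus
  obtain ⟨M, hM⟩ : ∃ M : ℕ, M = ∏ j : Fin k, q (j₀.succAbove j) := ⟨_, rfl⟩
  have hM1 : 1 ≤ M := by
    rw [hM]
    exact Nat.one_le_iff_ne_zero.2 (Finset.prod_ne_zero_iff.2 fun j _ =>
      Nat.one_le_iff_ne_zero.1 (hall _ (Fin.succAbove_ne j₀ j)).1)
  have hMN : (M : ℝ) ≤ (N : ℝ) ^ (1 - θ / 2) := by
    rw [KFI_.prod_erase_eq, ← hM] at hprod
    refine hprod.trans ?_
    have h1 : x ^ (1 - θ) ≤ (2 * (N : ℝ)) ^ (1 - θ) :=
      Real.rpow_le_rpow hx0.le hx2N (by linarith)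
    have h2 : (2 * (N : ℝ)) ^ (1 - θ) ≤ 2 * (N : ℝ) ^ (1 - θ) := by
      rw [Real.mul_rpow (by norm_num) (by positivity)]
      refine mul_le_mul_of_nonneg_right ?_ (by positivity)
      calc (2 : ℝ) ^ (1 - θ) ≤ 2 ^ (1 : ℝ) :=
            Real.rpow_le_rpow_of_exponent_le (by norm_num) (by linarith)
        _ = 2 := Real.rpow_one 2
    have h3 : (2 : ℝ) ≤ (N : ℝ) ^ (θ / 2) := by
      have h4 : ((2 : ℝ) ^ (2 / θ)) ^ (θ / 2) ≤ (N : ℝ) ^ (θ / 2) :=
        Real.rpow_le_rpow h2T.le hNT (by linarith)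
      rw [← Real.rpow_mul (by norm_num)] at h4
      have h5 : 2 / θ * (θ / 2) = 1 := by field_simp
      rw [h5, Real.rpow_one] at h4
      exact h4
    have h6 : (N : ℝ) ^ (1 - θ / 2) = (N : ℝ) ^ (θ / 2) * (N : ℝ) ^ (1 - θ) := by
      rw [← Real.rpow_add hNp]
      congr 1
      ring
    rw [h6]
    exact h1.trans (h2.trans (mul_le_mul_of_nonneg_right h3 (by positivity)))
  have hMleN : M ≤ N := by
    have h1 : (N : ℝ) ^ (1 - θ / 2) ≤ (N : ℝ) ^ (1 : ℝ) :=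
      Real.rpow_le_rpow_of_exponent_le (by linarith) (by linarith)
    rw [Real.rpow_one] at h1
    exact_mod_cast hMN.trans h1
  have hmb : ∀ i, MB (fun n => f i n) := by
    intro i
    refine ⟨(hf i).map_one, ?_, hb i⟩
    intro m n hmn
    exact (hf i).map_mul_of_coprime hmn
  -- the lifted characters
  have hΨ : ∀ j : Fin k, ∃ Ψ : DirichletCharacter ℂ M, Ind (χ (j₀.succAbove j)) Ψ ∧
      dist2 (fun n => f (j₀.succAbove j) n) Ψ (t (j₀.succAbove j)) ((N : ℝ) ^ (1 / A)) N ≤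
        1 / A := by
    intro j
    have hj := hall _ (Fin.succAbove_ne j₀ j)
    refine H2 N (q (j₀.succAbove j)) M (χ (j₀.succAbove j)) (fun n => f (j₀.succAbove j) n)
      (t (j₀.succAbove j)) hXN2 (hmb _) hM1 hMleN ?_ ?_
    · rw [hM]
      exact Finset.dvd_prod_of_mem (fun j : Fin k => q (j₀.succAbove j)) (Finset.mem_univ j)
    · refine le_trans ?_ (hj.2.2.2.trans hδ2)
      unfold dist2
      rw [hfl]
      refine Finset.sum_le_sum_of_subset_of_nonneg ?_ ?_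
      · intro p hp
        simp only [Finset.mem_filter, Finset.mem_Iic] at hp ⊢
        exact ⟨hp.1, hp.2.1, lt_of_le_of_lt hxd hp.2.2⟩
      · intro p _ _
        exact Final.term_nonneg (fun n => f (j₀.succAbove j) n) (hb _) (χ (j₀.succAbove j))
          (t (j₀.succAbove j)) p
  choose Ψ hΨ1 hΨ2 using hΨ
  have hcase2 : Big (fun j => q (j₀.succAbove j)) C R ∨
      ∃ j : Fin k, (R : ℝ) * (N : ℝ) ^ k < |t (j₀.succAbove j)| := by
    rcases hcase with ⟨hgcd, j1, hj1, hRj⟩ | ⟨j1, hj1, hRj⟩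
    · obtain ⟨i1, hi1⟩ := Fin.exists_succAbove_eq hj1
      refine Or.inl ⟨fun i j hij => hgcd _ _ (Fin.succAbove_ne j₀ i) (Fin.succAbove_ne j₀ j)
        (fun he => hij (Fin.succAbove_right_injective he)), i1, ?_⟩
      show R < q (j₀.succAbove i1)
      rw [hi1]
      exact hRj
    · obtain ⟨i1, hi1⟩ := Fin.exists_succAbove_eq hj1
      refine Or.inr ⟨i1, ?_⟩
      rw [hi1]
      refine lt_of_le_of_lt ?_ hRj
      exact mul_le_mul_of_nonneg_left (pow_le_pow_left₀ hNp.le hNx k) (by positivity)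
  have key := H N M (fun j => q (j₀.succAbove j)) (fun j => χ (j₀.succAbove j)) Ψ
    (fun j n => f (j₀.succAbove j) n) (fun n => f j₀ n) (fun j => t (j₀.succAbove j)) hXN hM1 hMN
    (fun j => ⟨(hall _ (Fin.succAbove_ne j₀ j)).2.1, hΨ1 j⟩)
    hcase2 (fun j => hmb _) (hmb _) ?_ hΨ2
  · -- the shift
    set F : ℕ → ℂ := fun m => f j₀ m * ∏ j, f (j₀.succAbove j) (sh (MainAux.av h j₀ j) m) with hF
    have hFb : ∀ m, ‖F m‖ ≤ 1 := by
      intro m
      rw [hF]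
      simp only
      rw [norm_mul]
      exact mul_le_one₀ (hb j₀ m) (norm_nonneg _)
        (MainAux.prod_norm_le _ _ fun j _ => hb _ _)
    have hsh : ∀ n, ∏ i, f i (n + h i) = F (n + h j₀) := by
      intro n
      rw [hF]
      simp only
      rw [Fin.prod_univ_succAbove _ j₀]
      congr 1
      refine Finset.prod_congr rfl fun j _ => ?_
      congr 1
      unfold sh MainAux.av
      omega
    have hS := MainAux.sum_shift F hFb (h j₀) N
    rw [div_le_iff₀ hx0, Finset.sum_congr rfl fun n _ => hsh n]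
    have hkey : ‖∑ n ∈ Finset.Icc 1 N, F n‖ ≤ ε / 4 * N := key
    have htri : ‖∑ n ∈ Finset.Icc 1 N, F (n + h j₀)‖ ≤ 2 * (h j₀ : ℝ) + ε / 4 * N := by
      have e1 : ∑ n ∈ Finset.Icc 1 N, F (n + h j₀) =
          (∑ n ∈ Finset.Icc 1 N, F (n + h j₀) - ∑ n ∈ Finset.Icc 1 N, F n) +
            ∑ n ∈ Finset.Icc 1 N, F n := by ring
      rw [e1]
      exact (norm_add_le _ _).trans (add_le_add hS hkey)
    refine htri.trans ?_
    have h5 : 8 * (h j₀ : ℝ) ≤ ε * x := by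
      have h6 : 8 * (h j₀ : ℝ) / ε ≤ x := by linarith
      rw [div_le_iff₀ hε] at h6
      linarith
    have h7 : ε / 4 * N ≤ ε / 4 * x := mul_le_mul_of_nonneg_left hNx (by positivity)
    have h8 : 0 < ε * x := by positivity
    linarith
  · intro j
    refine ((hall _ (Fin.succAbove_ne j₀ j)).2.2.1).trans ?_
    have h1 : x ^ C ≤ (2 * (N : ℝ)) ^ C := pow_le_pow_left₀ hx0.le hx2N C
    refine h1.trans ?_
    rw [Real.rpow_add_one hN0, Real.rpow_natCast, mul_pow, mul_comm]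
    exact mul_le_mul_of_nonneg_left hNC (by positivity)

end KFI2_

theorem prove_KFI2 (h1 : T_KLC2) (h2 : T_KDL) : T_KFI2 := by
  classical
  intro k h hk hh C ε θ hε hθ
  obtain ⟨θ', hθ'⟩ : ∃ θ' : ℝ, θ' = min θ (1 / 2) := ⟨_, rfl⟩
  have hθ0 : 0 < θ' := by
    rw [hθ']
    exact lt_min hθ (by norm_num)
  have hθ1 : θ' < 1 := by
    rw [hθ']
    exact lt_of_le_of_lt (min_le_right _ _) (by norm_num)
  have hθθ : θ' ≤ θ := by
    rw [hθ']
    exact min_le_left _ _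
  choose R A X hA hX H using fun j₀ => KFI2_.large h1 h2 k h hk hh C ε θ' hε hθ0 hθ1 j₀
  have hAj : ∀ j, A j ≤ ∑ i, A i := fun j =>
    Finset.single_le_sum (f := A) (fun i _ => by linarith [hA i]) (Finset.mem_univ j)
  have hXj : ∀ j, X j ≤ ∑ i, X i := fun j =>
    Finset.single_le_sum (f := X) (fun i _ => hX i) (Finset.mem_univ j)
  have hRj : ∀ j, R j ≤ ∑ i, R i := fun j =>
    Finset.single_le_sum (f := R) (fun i _ => Nat.zero_le _) (Finset.mem_univ j)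
  have hA1 : 1 ≤ ∑ i, A i := (hA 0).trans (hAj 0)
  refine ⟨1 / (4 * ∑ i, A i), ∑ i, R i, ∑ i, X i + 1, by positivity, ?_⟩
  intro x hx f hf hb j₀ q χ t hall hprod hcase
  have hXs : 0 ≤ ∑ i, X i := Finset.sum_nonneg fun i _ => hX i
  have hx1 : 1 ≤ x := by linarith
  have hRr : (R j₀ : ℝ) ≤ ((∑ i, R i : ℕ) : ℝ) := by exact_mod_cast hRj j₀
  refine H j₀ x (1 / (4 * ∑ i, A i)) ?_ (by positivity) ?_ f hf hb q χ t hall ?_
    (hcase.imp (fun ⟨hg, j1, hj1, hR1⟩ => ⟨hg, j1, hj1, lt_of_le_of_lt (hRj j₀) hR1⟩)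
      (fun ⟨j1, hj1, hR1⟩ => ⟨j1, hj1, lt_of_le_of_lt
        (mul_le_mul_of_nonneg_right hRr (by positivity)) hR1⟩))
  · have := hXj j₀
    linarith
  · refine one_div_le_one_div_of_le ?_ ?_
    · have := hA j₀
      linarith
    · have := hAj j₀
      linarith
  · refine hprod.trans ?_
    exact Real.rpow_le_rpow_of_exponent_le hx1 (by linarith)

end Pool.Agent.TPK
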