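import Pool.Agent.TPK.Targets
import Pool.Agent.TPY.MNN

set_option autoImplicit false

/-! TPK-KMN: the mean of the cross product of `k` structured functions is small if one of the
conductors is large. -/

namespace Pool.Agent.TPK

open Finset Filter Pool.Agent.Ell Pool.Agent.TPM Pool.Agent.TPX
open scoped BigOperators ComplexConjugate

namespace KMN_

/-- a character modulo `1` -/
theorem triv {N : ℕ} (hN : N = 1) (θ : DirichletCharacter ℂ N) (n : ℤ) :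
    θ (n : ZMod N) = 1 := by
  subst hN
  have : (n : ZMod 1) = 1 := Subsingleton.elim _ _
  rw [this, map_one]

/-- reduction to a prime of one of the conductors -/
theorem red (h1 : T_KFC) (h2 : T_KRD) {k : ℕ} (a : Fin k → ℤ) (p p' : ℕ) (f : Fin k → ℕ → ℂ)
    (t : Fin k → ℝ) (hf : ∀ j, MB (f j)) (ℓ : ℕ) (hℓ : ℓ.Prime) (M D : ℕ) (hM : 1 ≤ M)
    (hD : 1 ≤ D) (q : Fin k → ℕ) (χ : ∀ j, DirichletCharacter ℂ (q j))
    (Ψ : Fin k → DirichletCharacter ℂ M) (hχ : ∀ j, (χ j).IsPrimitive ∧ Ind (χ j) (Ψ j))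
    (j₁ : Fin k) (hd : ℓ ∣ q j₁) :
    ∃ (i κ D' : ℕ) (c : Fin k → ℕ) (φ' : ∀ j, DirichletCharacter ℂ (ℓ ^ c j))
      (φ : Fin k → DirichletCharacter ℂ (ℓ ^ κ)) (g : Fin k → ℕ → ℂ), D = ℓ ^ i * D' ∧
      1 ≤ c j₁ ∧ (∀ j, c j ≤ κ ∧ ℓ ^ c j ∣ q j ∧ ¬ ℓ ^ (c j + 1) ∣ q j ∧ (φ' j).IsPrimitive ∧
        ∀ n : ℤ, ¬ (ℓ : ℤ) ∣ n → φ j (n : ZMod (ℓ ^ κ)) = φ' j (n : ZMod (ℓ ^ c j))) ∧
      (∀ j, MB (g j)) ∧
      ‖mean (D * M) (Lk f Ψ t D a p p')‖ ≤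
        ‖mean (ℓ ^ i * ℓ ^ κ) (Lk g φ t (ℓ ^ i) a p p')‖ := by
  obtain ⟨κ, M', hM', rfl⟩ := Nat.exists_eq_pow_mul_and_not_dvd (n := M) (by omega) ℓ hℓ.ne_one
  obtain ⟨i, D', hD', rfl⟩ := Nat.exists_eq_pow_mul_and_not_dvd (n := D) (by omega) ℓ hℓ.ne_one
  have hM0 : 1 ≤ M' := by
    rcases Nat.eq_zero_or_pos M' with h | h
    · subst h
      simp at hM
    · exact h
  have hD0 : 1 ≤ D' := by
    rcases Nat.eq_zero_or_pos D' with h | h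
    · subst h
      simp at hD
    · exact h
  have hex := fun j => h1 ℓ κ M' (q j) (χ j) (Ψ j) hℓ hM0 hM' (hχ j).1 (hχ j).2
  choose c φ' φ Ψ₂ hc hcd hcn hφ' hval hφ using hex
  have hc1 : 1 ≤ c j₁ := by
    by_contra hcon
    have h0 : c j₁ = 0 := by omega
    apply hcn j₁
    rw [h0, zero_add, pow_one]
    exact hd
  have hκ : 1 ≤ κ := hc1.trans (hc j₁)
  obtain ⟨hg, hm⟩ := h2 k ℓ i κ D' M' φ Ψ₂ Ψ f t a p p' hℓ hκ hD0 hM0 hD' hM' hf hval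
  exact ⟨i, κ, D', c, φ', φ, _, rfl, hc1,
    fun j => ⟨hc j, hcd j, hcn j, hφ' j, hφ j⟩, hg, hm⟩

end KMN_

open KMN_ in
theorem prove_KMN (h1 : T_KFC) (h2 : T_KRD) (h3 : T_KCA) (h4 : T_KCB) (h5 : T_XZW) : T_KMN := by
  intro k a p p' C η ha hp hp' hne hη
  obtain ⟨K1, hK1, H1⟩ := h3 k a p p' ha hp hp' hne
  refine ⟨max (max (⌈K1 / η⌉₊) C) (max p p'), ?_⟩
  intro z V hz
  have hz1 : ⌈K1 / η⌉₊ ≤ z := ((le_max_left _ _).trans (le_max_left _ _)).trans hz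
  have hzC : C ≤ z := ((le_max_right _ _).trans (le_max_left _ _)).trans hz
  have hz2 : p ≤ z := ((le_max_left _ _).trans (le_max_right _ _)).trans hz
  have hz3 : p' ≤ z := ((le_max_right _ _).trans (le_max_right _ _)).trans hz
  obtain ⟨K2, hK2, H2⟩ := h4 k a p p' (Rep.Q1 z V * (z + 1) + C) ha hp hp' hne
  refine ⟨(max (⌈K2 / η⌉₊) C + 1) ^ (z + 1), ?_⟩
  intro Y M q χ Ψ f t hM hχ hgcd hR hf
  obtain ⟨j₁, hj₁⟩ := hR
  obtain ⟨x1, -, -, -⟩ := h5 z V Y M hM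
  have hq0 : ∀ j, 0 < q j := fun j =>
    Nat.pos_of_dvd_of_pos (hχ j).2.1 (by omega)
  have hs0 : q j₁ ≠ 0 := (hq0 j₁).ne'
  -- a common divisor is small
  have hcom : ∀ j, j ≠ j₁ → ∀ d : ℕ, d ∣ q j₁ → d ∣ q j → d ≤ C := by
    intro j hj d hd1 hd2
    refine le_trans (Nat.le_of_dvd (Nat.gcd_pos_of_pos_left _ (hq0 j₁)) (Nat.dvd_gcd hd1 hd2)) ?_
    exact hgcd j₁ j (Ne.symm hj)
  by_cases h : ∀ ℓ : ℕ, ℓ.Prime → ℓ ∣ q j₁ → ℓ ≤ z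
  · obtain ⟨ℓ, hℓ, hℓs, hbig⟩ := TPY.MNN_.big hs0 (by omega) h hj₁
    obtain ⟨i, κ, D', c, φ', φ, g, hD, hc1, hall, hg, hm⟩ :=
      red h1 h2 a p p' f t hf ℓ hℓ M _ hM x1 q χ Ψ hχ j₁ hℓs
    have hi := TPY.MNN_.small hℓ (h ℓ hℓ hℓs) hD
    have hv : (q j₁).factorization ℓ ≤ c j₁ := by
      by_contra hcon
      exact (hall j₁).2.2.1 ((pow_dvd_pow ℓ (by omega)).trans (Nat.ordProj_dvd (q j₁) ℓ))
    have hj3 : max (⌈K2 / η⌉₊) C + 1 < ℓ ^ c j₁ :=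
      hbig.trans_le (Nat.pow_le_pow_right hℓ.pos hv)
    have hoth : ∀ j, j ≠ j₁ → ∃ (d : ℕ) (θ : DirichletCharacter ℂ (ℓ ^ d)),
        ℓ ^ d ≤ Rep.Q1 z V * (z + 1) + C ∧
        ∀ n : ℤ, ¬ (ℓ : ℤ) ∣ n → φ j (n : ZMod (ℓ ^ κ)) = θ (n : ZMod (ℓ ^ d)) := by
      intro j hj
      refine ⟨c j, φ' j, ?_, (hall j).2.2.2.2⟩
      refine le_trans ?_ (Nat.le_add_left C _)
      rcases le_total (c j) (c j₁) with hle | hle
      · exact hcom j hj _ ((pow_dvd_pow ℓ hle).trans (hall j₁).2.1) (hall j).2.1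
      · exfalso
        have h9 := hcom j hj _ (hall j₁).2.1 ((pow_dvd_pow ℓ hle).trans (hall j).2.1)
        have h10 : C ≤ max (⌈K2 / η⌉₊) C := le_max_right _ _
        omega
    refine hm.trans ((H2 ℓ i (c j₁) κ φ (φ' j₁) j₁ g t hℓ hc1 (hall j₁).1 (hall j₁).2.2.2.1
      (hall j₁).2.2.2.2 hoth hg (hi.trans (Nat.le_add_right _ _))).trans ?_)
    have h6 : K2 / η ≤ (ℓ : ℝ) ^ c j₁ := by
      refine (Nat.le_ceil _).trans ?_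
      have : ⌈K2 / η⌉₊ ≤ ℓ ^ c j₁ := by
        have := le_max_left (⌈K2 / η⌉₊) C
        omega
      exact_mod_cast this
    have hℓ0 : (0 : ℝ) < (ℓ : ℝ) ^ c j₁ := by
      have : (0 : ℝ) < ℓ := by exact_mod_cast hℓ.pos
      positivity
    rw [div_le_iff₀ hη] at h6
    rw [div_le_iff₀ hℓ0]
    linarith
  · push Not at h
    obtain ⟨ℓ, hℓ, hℓr, hℓz⟩ := h
    have hnp : ¬ ℓ ∣ p := fun h => by
      have := Nat.le_of_dvd hp.pos h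
      omega
    have hnp' : ¬ ℓ ∣ p' := fun h => by
      have := Nat.le_of_dvd hp'.pos h
      omega
    obtain ⟨i, κ, D', c, φ', φ, g, hD, hc1, hall, hg, hm⟩ :=
      red h1 h2 a p p' f t hf ℓ hℓ M _ hM x1 q χ Ψ hχ j₁ hℓr
    have hoth : ∀ j, j ≠ j₁ → ∀ n : ℤ, ¬ (ℓ : ℤ) ∣ n → φ j (n : ZMod (ℓ ^ κ)) = 1 := by
      intro j hj n hn
      rw [(hall j).2.2.2.2 n hn]
      refine triv ?_ (φ' j) n
      rcases Nat.eq_zero_or_pos (c j) with h0 | h0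
      · rw [h0, pow_zero]
      · exfalso
        have h9 := hcom j hj ℓ hℓr ((dvd_pow_self ℓ h0.ne').trans (hall j).2.1)
        omega
    refine hm.trans ((H1 ℓ i (c j₁) κ φ (φ' j₁) j₁ g t hℓ hc1 (hall j₁).1 (hall j₁).2.2.2.1
      (hall j₁).2.2.2.2 hoth hg hnp hnp').trans ?_)
    have h3 : K1 / η ≤ ℓ := (Nat.le_ceil _).trans (by exact_mod_cast (by omega : ⌈K1 / η⌉₊ ≤ ℓ))
    have hℓ0 : (0 : ℝ) < ℓ := by exact_mod_cast hℓ.pos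
    rw [div_le_iff₀ hη] at h3
    rw [div_le_iff₀ hℓ0]
    linarith

end Pool.Agent.TPK
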