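import Pool.Agent.TPK.Targets
import Pool.Agent.TPY.RED

set_option autoImplicit false

/-! TPK-KRD: reduction of the mean of the cross product of `k` functions to the prime `ℓ`. -/

namespace Pool.Agent.TPK

open Finset Filter Pool.Agent.Ell Pool.Agent.TPM Pool.Agent.TPX
open scoped BigOperators ComplexConjugate

namespace KRD_

/-- a product of periodic functions is periodic -/
lemma per_prod {k q : ℕ} {F : Fin k → ℕ → ℂ} (hF : ∀ j, Per q (F j)) :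
    Per q (fun m => ∏ j, F j m) := by
  intro m
  exact Finset.prod_congr rfl fun j _ => hF j m

end KRD_

theorem prove_KRD : T_KRD := by
  intro k ℓ i κ D' M' φ Ψ₂ Ψ f t a p p' hℓ hκ1 hD1 hM1 hD' hM' hf hψ
  have hf' : ∀ j, MB (fun n => f j n * conj (Ψ₂ j (n : ZMod M'))) :=
    fun j => TPY.RED_.mb_twist (Ψ₂ j) (hf j)
  refine ⟨hf', ?_⟩
  set f' : Fin k → ℕ → ℂ := fun j n => f j n * conj (Ψ₂ j (n : ZMod M')) with hf'def
  set q := ℓ ^ i * ℓ ^ κ with hqdef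
  set T := D' * M' with hTdef
  have e1 : (ℓ ^ i * D') * (ℓ ^ κ * M') = T * q := by
    rw [hqdef, hTdef]
    ring
  rw [e1]
  have hq : 1 ≤ q := Nat.mul_pos (pow_pos hℓ.pos _) (pow_pos hℓ.pos _)
  have hT1 : 1 ≤ T := Nat.mul_pos hD1 hM1
  have hTℓ : ¬ ℓ ∣ T := by
    intro h
    rcases (Nat.Prime.dvd_mul hℓ).1 h with h1 | h1
    · exact hD' h1
    · exact hM' h1
  have hTq : T.Coprime q := by
    have h1 : T.Coprime ℓ := ((Nat.Prime.coprime_iff_not_dvd hℓ).2 hTℓ).symm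
    exact Nat.Coprime.mul_right (Nat.Coprime.pow_right _ h1) (Nat.Coprime.pow_right _ h1)
  set Θ : ℕ → ℂ := Lk f' φ t (ℓ ^ i) a p p' with hΘ
  have hper : Per q Θ := by
    have h1 : ∀ j, Per q (Lm (f' j) (φ j) (t j) (ℓ ^ i) (a j) p p') := fun j =>
      ((prove_XZ.2 (ℓ ^ κ) (φ j) (f' j) (t j) (ℓ ^ i) (hf' j)
        (pow_pos hℓ.pos _)).2.2.2.1 (a j) p p')
    exact KRD_.per_prod h1
  have hmean : ‖mean q Θ‖ = ‖∑ s ∈ range q, Θ s‖ / (q : ℝ) := by
    unfold mean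
    rw [norm_div, Complex.norm_natCast]
  rw [hmean]
  refine prove_AVG q T _ _ hq hT1 ?_
  intro m0 _
  choose c hc Hc using fun j => TPY.RED_.xz_prog (i := i) hℓ hD1 hM1 hD' hM' (φ j) (Ψ₂ j) (Ψ j)
    (hψ j) (f j) (hf j) (t j) ((p : ℤ) * m0 + a j) p
  choose c' hc' Hc' using fun j => TPY.RED_.xz_prog (i := i) hℓ hD1 hM1 hD' hM' (φ j) (Ψ₂ j)
    (Ψ j) (hψ j) (f j) (hf j) (t j) ((p' : ℤ) * m0 + a j) p'
  have en : ∀ (j : Fin k) (p s : ℕ), (p : ℤ) * ((m0 + T * s : ℕ) : ℤ) + a j =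
      ((p : ℤ) * m0 + a j) + (D' * M' : ℕ) * ((p : ℤ) * (s : ℤ)) := by
    intro j p s
    rw [hTdef]
    push_cast
    ring
  have hpt : ∀ s : ℕ, Lk f Ψ t (ℓ ^ i * D') a p p' (m0 + T * s) =
      (∏ j, c j * conj (c' j)) * Θ (m0 + T * s) := by
    intro s
    rw [hΘ]
    unfold Lk
    rw [← Finset.prod_mul_distrib]
    refine Finset.prod_congr rfl fun j _ => ?_
    unfold Lm
    have g1 := Hc j s
    have g2 := Hc' j s
    rw [← en] at g1 g2
    rw [g1, g2, map_mul]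
    ring
  have e2 : ∑ s ∈ range q, Lk f Ψ t (ℓ ^ i * D') a p p' (m0 + T * s) =
      (∏ j, c j * conj (c' j)) * ∑ s ∈ range q, Θ s := by
    rw [← TPY.RED_.sum_prog hq hTq hper m0, Finset.mul_sum]
    exact Finset.sum_congr rfl fun s _ => hpt s
  rw [e2, norm_mul]
  have h1 : ‖∏ j, c j * conj (c' j)‖ ≤ 1 := by
    rw [norm_prod]
    refine Finset.prod_le_one (fun j _ => norm_nonneg _) fun j _ => ?_
    rw [norm_mul, RCLike.norm_conj]
    exact mul_le_one₀ (hc j) (norm_nonneg _) (hc' j)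
  calc _ ≤ 1 * ‖∑ s ∈ range q, Θ s‖ :=
        mul_le_mul_of_nonneg_right h1 (norm_nonneg _)
    _ = _ := one_mul _

end Pool.Agent.TPK
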