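import Pool.Agent.TPK.KFC
import Pool.Agent.TPK.KRD
import Pool.Agent.TPK.KCA
import Pool.Agent.TPK.KCB
import Pool.Agent.TPK.KMN
import Pool.Agent.TPK.KBL2
import Pool.Agent.TPK.KCR2
import Pool.Agent.TPK.KLC2
import Pool.Agent.TPK.KDL
import Pool.Agent.TPK.KFI2
import Pool.Agent.TPX.XZW
import Pool.Agent.TPX.EQW
import Pool.Agent.TPX.MSW
import Pool.Agent.TPX.STW
import Pool.Agent.TPM.RAM2
import Pool.Agent.TPM.FAC
import Pool.Agent.TPM.XZ
import Pool.Agent.EllTw.RAM
import Pool.Agent.Ell.All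
import Pool.Agent.Ell.Core

set_option autoImplicit false

/-! One function arbitrary, the others structured, one large conductor or one large `t_j`:
assembly. -/

namespace Pool.Agent.TPK

open Pool.Agent.Ell Pool.Agent.TPM Pool.Agent.TPX

theorem all_KLC2 : T_KLC2 := by
  have hms : T_MSW := prove_MSW (p_FL p_MERT) p_CRT
  have heq : T_EQW := prove_EQW p_CORE p_PHI
  have hosc : T_OSC := p_OSC p_CORE p_PHI
  have hmn : T_KMN := prove_KMN (prove_KFC prove_FAC) prove_KRD (prove_KCA EllTw.p_RAM)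
    (prove_KCB prove_RAM2) prove_XZW
  exact prove_KLC2 p_KAT
    (prove_KCR2 (prove_KBL2 hms heq hmn prove_XZ prove_XZW hosc) prove_XZ prove_XZW p_VDM)
    (prove_STW p_MERT prove_XZ prove_XZW) prove_XZ prove_XZW

theorem all_KFI2 : T_KFI2 := prove_KFI2 all_KLC2 prove_KDL

end Pool.Agent.TPK
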