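import Pool.Agent.TPK.Targets5

set_option autoImplicit false

/-! TPK-GA: Fourier coefficients of `χ(m + 1) conj χ(m)` modulo a prime. -/

namespace Pool.Agent.TPK

open Finset
open scoped BigOperators ComplexConjugate

namespace GA_

variable {ℓ : ℕ} [Fact ℓ.Prime]

theorem chi_self (χ : DirichletCharacter ℂ ℓ) {u : ZMod ℓ} (hu : u ≠ 0) :
    χ u * conj (χ u) = 1 := by
  rw [Complex.mul_conj, Complex.normSq_eq_norm_sq]
  have := χ.unit_norm_eq_one (Units.mk0 u hu)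
  rw [Units.val_mk0] at this
  rw [this]
  norm_num

theorem e_self (x : ZMod ℓ) :
    (ZMod.stdAddChar x : ℂ) * conj (ZMod.stdAddChar x : ℂ) = 1 := by
  rw [Complex.mul_conj, Complex.normSq_eq_norm_sq, AddChar.norm_apply]
  norm_num

/-- dilation -/
theorem dil (χ : DirichletCharacter ℂ ℓ) (ξ : ZMod ℓ) {u : ZMod ℓ} (hu : u ≠ 0) :
    ∑ m : ZMod ℓ, χ (m + 1) * conj (χ m) * ZMod.stdAddChar (ξ * m) =
      ∑ m : ZMod ℓ, χ (m + u) * conj (χ m) * ZMod.stdAddChar (ξ * u⁻¹ * m) := by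
  refine Fintype.sum_equiv (Equiv.mulRight₀ u hu) _ _ fun m => ?_
  have e1 : (Equiv.mulRight₀ u hu) m = m * u := rfl
  have e2 : ξ * u⁻¹ * (m * u) = ξ * m := by
    field_simp
  have e3 : m * u + u = (m + 1) * u := by ring
  rw [e1, e2, e3, map_mul χ, map_mul χ, map_mul (starRingEnd ℂ)]
  linear_combination (-(χ (m + 1) * conj (χ m) * ZMod.stdAddChar (ξ * m))) * chi_self χ hu

/-- `χ(m + v) conj χ(m)` -/
noncomputable def D (χ : DirichletCharacter ℂ ℓ) (v m : ZMod ℓ) : ℂ := χ (m + v) * conj (χ m)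

theorem D_le (χ : DirichletCharacter ℂ ℓ) (v m : ZMod ℓ) : ‖D χ v m‖ ≤ 1 := by
  unfold D
  rw [norm_mul, RCLike.norm_conj]
  exact mul_le_one₀ (χ.norm_le_one _) (norm_nonneg _) (χ.norm_le_one _)

/-- `e(ξ v / u)` for `u ≠ 0` -/
noncomputable def w (ξ v u : ZMod ℓ) : ℂ :=
  if u = 0 then 0 else (ZMod.stdAddChar (ξ * u⁻¹ * v) : ℂ)

theorem w_le (ξ v u : ZMod ℓ) : ‖w ξ v u‖ ≤ 1 := by
  unfold w
  split_ifs
  · simp
  · rw [AddChar.norm_apply]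

theorem sq_exp (χ : DirichletCharacter ℂ ℓ) (ξ : ZMod ℓ) {u : ZMod ℓ} (hu : u ≠ 0) :
    (∑ m : ZMod ℓ, χ (m + 1) * conj (χ m) * ZMod.stdAddChar (ξ * m)) *
      conj (∑ m : ZMod ℓ, χ (m + 1) * conj (χ m) * ZMod.stdAddChar (ξ * m)) =
      ∑ m : ZMod ℓ, ∑ v : ZMod ℓ, D χ v (m + u) * conj (D χ v m) * w ξ v u := by
  rw [dil χ ξ hu, map_sum, Finset.sum_mul_sum, Finset.sum_comm]
  refine Finset.sum_congr rfl fun m _ => ?_
  refine (Fintype.sum_equiv (Equiv.addLeft m) _ _ fun v => ?_).symm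
  have e1 : (Equiv.addLeft m) v = m + v := rfl
  rw [e1]
  have e2 : ξ * u⁻¹ * (m + v) = ξ * u⁻¹ * m + ξ * u⁻¹ * v := by ring
  have e3 : m + v + u = m + u + v := by ring
  rw [e2, AddChar.map_add_eq_mul, e3]
  unfold D w
  rw [if_neg hu]
  simp only [map_mul, Complex.conj_conj]
  linear_combination (-(χ (m + u + v) * conj (χ (m + v)) * ZMod.stdAddChar (ξ * u⁻¹ * v) *
    conj (χ (m + u)) * χ m)) * e_self (ξ * u⁻¹ * m)

/-- correlations -/
theorem corr (F g : ZMod ℓ → ℂ) :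
    ∑ m : ZMod ℓ, (∑ u, F (m + u) * g u) * conj (∑ u, F (m + u) * g u) =
      ∑ t : ZMod ℓ, (∑ m, F (m + t) * conj (F m)) * ∑ u, g (u + t) * conj (g u) := by
  have h1 : ∀ m : ZMod ℓ, (∑ u, F (m + u) * g u) * conj (∑ u, F (m + u) * g u) =
      ∑ u' : ZMod ℓ, ∑ t : ZMod ℓ,
        F (m + u' + t) * conj (F (m + u')) * (g (u' + t) * conj (g u')) := by
    intro m
    rw [map_sum, Finset.sum_mul_sum, Finset.sum_comm]
    refine Finset.sum_congr rfl fun u' _ => ?_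
    refine (Fintype.sum_equiv (Equiv.addLeft u') _ _ fun t => ?_).symm
    have e1 : (Equiv.addLeft u') t = u' + t := rfl
    rw [e1, map_mul, ← add_assoc]
    ring
  simp only [h1]
  rw [Finset.sum_comm]
  have h2 : ∀ u' : ZMod ℓ, (∑ m : ZMod ℓ, ∑ t : ZMod ℓ,
        F (m + u' + t) * conj (F (m + u')) * (g (u' + t) * conj (g u'))) =
      ∑ t : ZMod ℓ, (∑ m, F (m + t) * conj (F m)) * (g (u' + t) * conj (g u')) := by
    intro u'
    rw [Finset.sum_comm]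
    refine Finset.sum_congr rfl fun t _ => ?_
    rw [← Finset.sum_mul]
    congr 1
    exact Fintype.sum_equiv (Equiv.addRight u') _ _ fun m => rfl
  simp only [h2]
  rw [Finset.sum_comm]
  refine Finset.sum_congr rfl fun t _ => ?_
  rw [Finset.mul_sum]

/-- the sum over `v` of a product of four -/
theorem four (ξ : ZMod ℓ) (hξ : ξ ≠ 0) (t u u' : ZMod ℓ) :
    ‖∑ v : ZMod ℓ, w ξ v (u + t) * conj (w ξ v u) * conj (w ξ v (u' + t) * conj (w ξ v u'))‖ ≤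
      (if t = 0 then (ℓ : ℝ) else 0) + (if u' = u then (ℓ : ℝ) else 0) +
        (if u' = -u - t then (ℓ : ℝ) else 0) := by
  have hl : (0 : ℝ) ≤ ℓ := Nat.cast_nonneg _
  have hbd : ‖∑ v : ZMod ℓ, w ξ v (u + t) * conj (w ξ v u) *
      conj (w ξ v (u' + t) * conj (w ξ v u'))‖ ≤ ℓ := by
    refine (norm_sum_le _ _).trans ?_
    calc ∑ v : ZMod ℓ, ‖w ξ v (u + t) * conj (w ξ v u) *
        conj (w ξ v (u' + t) * conj (w ξ v u'))‖ ≤ ∑ _v : ZMod ℓ, (1 : ℝ) := by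
          refine Finset.sum_le_sum fun v _ => ?_
          simp only [norm_mul, RCLike.norm_conj]
          have a1 := w_le ξ v (u + t)
          have a2 := w_le ξ v u
          have a3 := w_le ξ v (u' + t)
          have a4 := w_le ξ v u'
          exact mul_le_one₀ (mul_le_one₀ a1 (norm_nonneg _) a2)
            (mul_nonneg (norm_nonneg _) (norm_nonneg _)) (mul_le_one₀ a3 (norm_nonneg _) a4)
      _ = ℓ := by simp [ZMod.card]
  by_cases ht : t = 0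
  · rw [if_pos ht]
    have : (0 : ℝ) ≤ if u' = u then (ℓ : ℝ) else 0 := by split_ifs <;> simp
    have : (0 : ℝ) ≤ if u' = -u - t then (ℓ : ℝ) else 0 := by split_ifs <;> simp
    linarith
  by_cases hu' : u' = u
  · rw [if_pos hu', if_neg ht]
    have : (0 : ℝ) ≤ if u' = -u - t then (ℓ : ℝ) else 0 := by split_ifs <;> simp
    linarith
  by_cases hu2 : u' = -u - t
  · rw [if_pos hu2, if_neg ht, if_neg hu']
    linarith
  rw [if_neg ht, if_neg hu', if_neg hu2]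
  have hz : ∑ v : ZMod ℓ, w ξ v (u + t) * conj (w ξ v u) *
      conj (w ξ v (u' + t) * conj (w ξ v u')) = 0 := by
    by_cases h1 : u + t = 0
    · simp [w, h1]
    by_cases h2 : u = 0
    · simp [w, h2]
    by_cases h3 : u' + t = 0
    · simp [w, h3]
    by_cases h4 : u' = 0
    · simp [w, h4]
    set c : ZMod ℓ := ξ * (u + t)⁻¹ - ξ * u⁻¹ - ξ * (u' + t)⁻¹ + ξ * u'⁻¹ with hc
    have hc0 : c ≠ 0 := by
      intro h
      have h5 : ξ * (t * ((u - u') * (u + u' + t))) = 0 := by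
        have : ξ * (t * ((u - u') * (u + u' + t))) = c * (u * (u + t) * (u' * (u' + t))) := by
          rw [hc]
          field_simp
          ring
        rw [this, h, zero_mul]
      rcases mul_eq_zero.1 h5 with h6 | h6
      · exact hξ h6
      rcases mul_eq_zero.1 h6 with h7 | h7
      · exact ht h7
      rcases mul_eq_zero.1 h7 with h8 | h8
      · exact hu' (sub_eq_zero.1 h8).symm
      · exact hu2 (by linear_combination h8)
    have e : ∀ v : ZMod ℓ, w ξ v (u + t) * conj (w ξ v u) *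
        conj (w ξ v (u' + t) * conj (w ξ v u')) = ZMod.stdAddChar (v * c) := by
      intro v
      unfold w
      rw [if_neg h1, if_neg h2, if_neg h3, if_neg h4, map_mul (starRingEnd ℂ), Complex.conj_conj,
        ← AddChar.map_neg_eq_conj, ← AddChar.map_neg_eq_conj, ← AddChar.map_add_eq_mul,
        ← AddChar.map_add_eq_mul, ← AddChar.map_add_eq_mul]
      congr 1
      rw [hc]
      ring
    simp only [e]
    rw [AddChar.sum_mulShift c (ZMod.isPrimitive_stdAddChar ℓ), if_neg hc0]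
    simp
  rw [hz]
  simp

theorem normsq (z : ℂ) : ‖z‖ ^ 2 = ‖z * conj z‖ := by
  rw [norm_mul, RCLike.norm_conj]
  ring

theorem ofnormsq (z : ℂ) : ((‖z‖ ^ 2 : ℝ) : ℂ) = z * conj z := by
  rw [Complex.mul_conj, Complex.normSq_eq_norm_sq]

/-- the sum of `|B_v(t)|^2` -/
theorem Ybd (ξ : ZMod ℓ) (hξ : ξ ≠ 0) :
    ∑ v : ZMod ℓ, ∑ t : ZMod ℓ, ‖∑ u, w ξ v (u + t) * conj (w ξ v u)‖ ^ 2 ≤ 3 * (ℓ : ℝ) ^ 3 := by
  have h1 : ((∑ v : ZMod ℓ, ∑ t : ZMod ℓ,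
      ‖∑ u, w ξ v (u + t) * conj (w ξ v u)‖ ^ 2 : ℝ) : ℂ) =
      ∑ t : ZMod ℓ, ∑ u : ZMod ℓ, ∑ u' : ZMod ℓ, ∑ v : ZMod ℓ,
        w ξ v (u + t) * conj (w ξ v u) * conj (w ξ v (u' + t) * conj (w ξ v u')) := by
    rw [Complex.ofReal_sum]
    simp only [Complex.ofReal_sum, ofnormsq]
    rw [Finset.sum_comm]
    refine Finset.sum_congr rfl fun t _ => ?_
    simp only [map_sum, Finset.sum_mul_sum]
    rw [Finset.sum_comm]
    refine Finset.sum_congr rfl fun u _ => ?_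
    rw [Finset.sum_comm]
  have h0 : 0 ≤ ∑ v : ZMod ℓ, ∑ t : ZMod ℓ, ‖∑ u, w ξ v (u + t) * conj (w ξ v u)‖ ^ 2 :=
    Finset.sum_nonneg fun v _ => Finset.sum_nonneg fun t _ => by positivity
  have h2 : ∑ v : ZMod ℓ, ∑ t : ZMod ℓ, ‖∑ u, w ξ v (u + t) * conj (w ξ v u)‖ ^ 2 =
      ‖((∑ v : ZMod ℓ, ∑ t : ZMod ℓ,
        ‖∑ u, w ξ v (u + t) * conj (w ξ v u)‖ ^ 2 : ℝ) : ℂ)‖ := by
    rw [Complex.norm_real, Real.norm_of_nonneg h0]
  rw [h2, h1]
  calc _ ≤ ∑ t : ZMod ℓ, ∑ u : ZMod ℓ, ∑ u' : ZMod ℓ,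
        ((if t = 0 then (ℓ : ℝ) else 0) + (if u' = u then (ℓ : ℝ) else 0) +
          (if u' = -u - t then (ℓ : ℝ) else 0)) := by
        refine (norm_sum_le _ _).trans (Finset.sum_le_sum fun t _ => ?_)
        refine (norm_sum_le _ _).trans (Finset.sum_le_sum fun u _ => ?_)
        refine (norm_sum_le _ _).trans (Finset.sum_le_sum fun u' _ => ?_)
        exact four ξ hξ t u u'
    _ = 3 * (ℓ : ℝ) ^ 3 := by
        simp only [Finset.sum_add_distrib, Finset.sum_ite_eq', Finset.sum_const,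
          Finset.card_univ, ZMod.card, Finset.mem_univ, if_true, nsmul_eq_mul]
        simp only [← Finset.mul_sum, Finset.sum_ite_eq', Finset.mem_univ, if_true]
        ring

end GA_

open GA_ in
/-- TPK-GA -/
theorem prove_GA : T_GA := by
  refine ⟨256, by norm_num, ?_⟩
  intro ℓ _ χ ξ hχ
  have hp : ℓ.Prime := Fact.out
  have hl2 : (2 : ℝ) ≤ ℓ := by exact_mod_cast hp.two_le
  have hl1 : (ℓ : ℝ) / 2 ≤ (ℓ : ℝ) - 1 := by linarith
  set S : ℂ := ∑ m : ZMod ℓ, χ (m + 1) * conj (χ m) * ZMod.stdAddChar (ξ * m) with hS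
  have hcard : ∀ c : ℂ, ∑ u : ZMod ℓ, (if u = 0 then 0 else c) = ((ℓ : ℂ) - 1) * c := by
    intro c
    have : ∀ u : ZMod ℓ, (if u = 0 then 0 else c) = c - (if u = 0 then c else 0) := by
      intro u
      split_ifs <;> simp
    simp only [this, Finset.sum_sub_distrib, Finset.sum_const, Finset.card_univ, ZMod.card,
      Finset.sum_ite_eq', Finset.mem_univ, if_true, nsmul_eq_mul]
    ring
  by_cases hξ : ξ = 0
  · -- the case `ξ = 0`
    have h1 : ∑ u : ZMod ℓ, ∑ m : ZMod ℓ, χ (m + u) * conj (χ m) = 0 := by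
      rw [Finset.sum_comm]
      refine Finset.sum_eq_zero fun m _ => ?_
      rw [← Finset.sum_mul]
      have : ∑ u : ZMod ℓ, χ (m + u) = ∑ u : ZMod ℓ, χ u :=
        Fintype.sum_equiv (Equiv.addLeft m) _ _ fun u => rfl
      rw [this, MulChar.sum_eq_zero_of_ne_one hχ, zero_mul]
    have h2 : ∀ u : ZMod ℓ, ∑ m : ZMod ℓ, χ (m + u) * conj (χ m) =
        (if u = 0 then 0 else S) +
          (if u = 0 then ∑ m : ZMod ℓ, χ m * conj (χ m) else 0) := by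
      intro u
      split_ifs with hu
      · simp [hu]
      · rw [hS, dil χ ξ hu, hξ]
        simp
    simp only [h2, Finset.sum_add_distrib] at h1
    rw [hcard S, Finset.sum_ite_eq' univ (0 : ZMod ℓ), if_pos (Finset.mem_univ _)] at h1
    have h3 : ‖∑ m : ZMod ℓ, χ m * conj (χ m)‖ ≤ ℓ := by
      refine (norm_sum_le _ _).trans ?_
      calc ∑ m : ZMod ℓ, ‖χ m * conj (χ m)‖ ≤ ∑ _m : ZMod ℓ, (1 : ℝ) := by
            refine Finset.sum_le_sum fun m _ => ?_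
            rw [norm_mul, RCLike.norm_conj]
            exact mul_le_one₀ (χ.norm_le_one _) (norm_nonneg _) (χ.norm_le_one _)
        _ = ℓ := by simp [ZMod.card]
    have h4 : ((ℓ : ℝ) - 1) * ‖S‖ ≤ ℓ := by
      have h5 : ((ℓ : ℂ) - 1) * S = -∑ m : ZMod ℓ, χ m * conj (χ m) := by
        linear_combination h1
      have h6 : ‖((ℓ : ℂ) - 1) * S‖ = ((ℓ : ℝ) - 1) * ‖S‖ := by
        rw [norm_mul]
        congr 1
        have : ((ℓ : ℂ) - 1) = (((ℓ : ℝ) - 1 : ℝ) : ℂ) := by push_cast; ring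
        rw [this, Complex.norm_real, Real.norm_of_nonneg (by linarith)]
      rw [← h6, h5, norm_neg]
      exact h3
    have h5 : ‖S‖ ≤ 2 := by
      have : (ℓ : ℝ) / 2 * ‖S‖ ≤ ℓ := (mul_le_mul_of_nonneg_right hl1 (norm_nonneg _)).trans h4
      nlinarith [norm_nonneg S]
    have h6 : ‖S‖ ^ 8 ≤ 2 ^ 8 := pow_le_pow_left₀ (norm_nonneg _) h5 8
    have h7 : (1 : ℝ) ≤ (ℓ : ℝ) ^ 7 := one_le_pow₀ (by linarith)
    nlinarith
  -- the case `ξ ≠ 0`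
  set G : ZMod ℓ → ZMod ℓ → ℂ := fun v m => ∑ u, D χ v (m + u) * w ξ v u with hG
  set B : ZMod ℓ → ZMod ℓ → ℂ := fun v t => ∑ u, w ξ v (u + t) * conj (w ξ v u) with hB
  set A : ZMod ℓ → ZMod ℓ → ℂ := fun v t => ∑ m, D χ v (m + t) * conj (D χ v m) with hA
  have hAle : ∀ v t, ‖A v t‖ ≤ ℓ := by
    intro v t
    refine (norm_sum_le _ _).trans ?_
    calc ∑ m : ZMod ℓ, ‖D χ v (m + t) * conj (D χ v m)‖ ≤ ∑ _m : ZMod ℓ, (1 : ℝ) := by
          refine Finset.sum_le_sum fun m _ => ?_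
          rw [norm_mul, RCLike.norm_conj]
          exact mul_le_one₀ (D_le _ _ _) (norm_nonneg _) (D_le _ _ _)
      _ = ℓ := by simp [ZMod.card]
  have key : ((ℓ : ℂ) - 1) * (S * conj S) =
      ∑ m : ZMod ℓ, ∑ v : ZMod ℓ, conj (D χ v m) * G v m := by
    rw [← hcard]
    have h1 : ∀ u : ZMod ℓ, (if u = 0 then 0 else S * conj S) =
        ∑ m : ZMod ℓ, ∑ v : ZMod ℓ, D χ v (m + u) * conj (D χ v m) * w ξ v u := by
      intro u
      split_ifs with hu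
      · simp [w, hu]
      · exact sq_exp χ ξ hu
    simp only [h1]
    rw [Finset.sum_comm]
    refine Finset.sum_congr rfl fun m _ => ?_
    rw [Finset.sum_comm]
    refine Finset.sum_congr rfl fun v _ => ?_
    rw [hG, Finset.mul_sum]
    refine Finset.sum_congr rfl fun u _ => ?_
    ring
  set T : ℝ := ((ℓ : ℝ) - 1) * ‖S‖ ^ 2 with hT
  set X : ℝ := ∑ v : ZMod ℓ, ∑ m : ZMod ℓ, ‖G v m‖ ^ 2 with hX
  have hT0 : 0 ≤ T := mul_nonneg (by linarith) (by positivity)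
  have hX0 : 0 ≤ X := Finset.sum_nonneg fun v _ => Finset.sum_nonneg fun t _ => by positivity
  have step1 : T ≤ ∑ v : ZMod ℓ, ∑ m : ZMod ℓ, ‖G v m‖ := by
    have h1 : T = ‖((ℓ : ℂ) - 1) * (S * conj S)‖ := by
      rw [norm_mul, ← normsq, hT]
      congr 1
      have : ((ℓ : ℂ) - 1) = (((ℓ : ℝ) - 1 : ℝ) : ℂ) := by push_cast; ring
      rw [this, Complex.norm_real, Real.norm_of_nonneg (by linarith)]
    rw [h1, key, Finset.sum_comm]
    refine (norm_sum_le _ _).trans (Finset.sum_le_sum fun v _ => ?_)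
    refine (norm_sum_le _ _).trans (Finset.sum_le_sum fun m _ => ?_)
    rw [norm_mul, RCLike.norm_conj]
    exact mul_le_of_le_one_left (norm_nonneg _) (D_le _ _ _)
  have cs : ∀ g : ZMod ℓ → ZMod ℓ → ℝ, (∑ v : ZMod ℓ, ∑ m : ZMod ℓ, g v m) ^ 2 ≤
      (ℓ : ℝ) ^ 2 * ∑ v : ZMod ℓ, ∑ m : ZMod ℓ, g v m ^ 2 := by
    intro g
    have h1 := sq_sum_le_card_mul_sum_sq (s := (univ : Finset (ZMod ℓ × ZMod ℓ)))
      (f := fun p => g p.1 p.2)
    rw [Fintype.sum_prod_type, Fintype.sum_prod_type] at h1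
    have h2 : ((univ : Finset (ZMod ℓ × ZMod ℓ)).card : ℝ) = (ℓ : ℝ) ^ 2 := by
      rw [Finset.card_univ, Fintype.card_prod, ZMod.card]
      push_cast
      ring
    rw [h2] at h1
    exact h1
  have step2 : T ^ 2 ≤ (ℓ : ℝ) ^ 2 * X :=
    (pow_le_pow_left₀ hT0 step1 2).trans (cs fun v m => ‖G v m‖)
  have step3 : X ≤ (ℓ : ℝ) * ∑ v : ZMod ℓ, ∑ t : ZMod ℓ, ‖B v t‖ := by
    have h1 : ∀ v : ZMod ℓ, ∑ m : ZMod ℓ, ‖G v m‖ ^ 2 ≤
        ∑ t : ZMod ℓ, (ℓ : ℝ) * ‖B v t‖ := by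
      intro v
      have h2 : ((∑ m : ZMod ℓ, ‖G v m‖ ^ 2 : ℝ) : ℂ) = ∑ t : ZMod ℓ, A v t * B v t := by
        rw [Complex.ofReal_sum]
        simp only [ofnormsq]
        exact corr (D χ v) (w ξ v)
      have h0 : 0 ≤ ∑ m : ZMod ℓ, ‖G v m‖ ^ 2 := Finset.sum_nonneg fun t _ => by positivity
      have h3 : ∑ m : ZMod ℓ, ‖G v m‖ ^ 2 = ‖((∑ m : ZMod ℓ, ‖G v m‖ ^ 2 : ℝ) : ℂ)‖ := by
        rw [Complex.norm_real, Real.norm_of_nonneg h0]
      rw [h3, h2]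
      refine (norm_sum_le _ _).trans (Finset.sum_le_sum fun t _ => ?_)
      rw [norm_mul]
      exact mul_le_mul_of_nonneg_right (hAle v t) (norm_nonneg _)
    rw [hX, Finset.mul_sum]
    refine Finset.sum_le_sum fun v _ => ?_
    rw [Finset.mul_sum]
    exact h1 v
  have step4 : X ^ 2 ≤ 3 * (ℓ : ℝ) ^ 7 := by
    have h1 := cs fun v t => ‖B v t‖
    have h2 := Ybd ξ hξ
    have h3 : (∑ v : ZMod ℓ, ∑ t : ZMod ℓ, ‖B v t‖) ^ 2 ≤ (ℓ : ℝ) ^ 2 * (3 * (ℓ : ℝ) ^ 3) :=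
      h1.trans (mul_le_mul_of_nonneg_left h2 (by positivity))
    calc X ^ 2 ≤ ((ℓ : ℝ) * ∑ v : ZMod ℓ, ∑ t : ZMod ℓ, ‖B v t‖) ^ 2 :=
          pow_le_pow_left₀ hX0 step3 2
      _ = (ℓ : ℝ) ^ 2 * (∑ v : ZMod ℓ, ∑ t : ZMod ℓ, ‖B v t‖) ^ 2 := by ring
      _ ≤ (ℓ : ℝ) ^ 2 * ((ℓ : ℝ) ^ 2 * (3 * (ℓ : ℝ) ^ 3)) :=
          mul_le_mul_of_nonneg_left h3 (by positivity)
      _ = 3 * (ℓ : ℝ) ^ 7 := by ring
  have step5 : T ^ 4 ≤ 3 * (ℓ : ℝ) ^ 11 := by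
    calc T ^ 4 = (T ^ 2) ^ 2 := by ring
      _ ≤ ((ℓ : ℝ) ^ 2 * X) ^ 2 := pow_le_pow_left₀ (by positivity) step2 2
      _ = (ℓ : ℝ) ^ 4 * X ^ 2 := by ring
      _ ≤ (ℓ : ℝ) ^ 4 * (3 * (ℓ : ℝ) ^ 7) := mul_le_mul_of_nonneg_left step4 (by positivity)
      _ = 3 * (ℓ : ℝ) ^ 11 := by ring
  have step6 : (ℓ : ℝ) / 2 * ‖S‖ ^ 2 ≤ T := mul_le_mul_of_nonneg_right hl1 (by positivity)
  have step7 : ((ℓ : ℝ) / 2 * ‖S‖ ^ 2) ^ 4 ≤ 3 * (ℓ : ℝ) ^ 11 :=
    (pow_le_pow_left₀ (by positivity) step6 4).trans step5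
  have step8 : (ℓ : ℝ) ^ 4 * ‖S‖ ^ 8 ≤ (ℓ : ℝ) ^ 4 * (48 * (ℓ : ℝ) ^ 7) := by
    have e : ((ℓ : ℝ) / 2 * ‖S‖ ^ 2) ^ 4 = (ℓ : ℝ) ^ 4 * ‖S‖ ^ 8 / 16 := by ring
    rw [e] at step7
    nlinarith
  have step9 : ‖S‖ ^ 8 ≤ 48 * (ℓ : ℝ) ^ 7 :=
    le_of_mul_le_mul_left step8 (by positivity)
  have : (0 : ℝ) ≤ (ℓ : ℝ) ^ 7 := by positivity
  linarith

end Pool.Agent.TPK
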