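import Pool.Agent.TPK.Targets5

set_option autoImplicit false

/-!
# TPK-GB: the `U ^ 3` norm of a multiplicative character modulo a prime
-/

namespace Pool.Agent.TPK

open Finset
open scoped BigOperators ComplexConjugate

namespace GB_

variable {Q : ℕ} [NeZero Q]

/-- the Fourier transform -/
noncomputable def ft (F : ZMod Q → ℂ) (η : ZMod Q) : ℂ :=
  ∑ m : ZMod Q, F m * ZMod.stdAddChar (η * m)

/-- Parseval's identity -/
theorem pars (F : ZMod Q → ℂ) : ∑ η : ZMod Q, ‖ft F η‖ ^ 2 = (Q : ℝ) * ∑ b : ZMod Q, ‖F b‖ ^ 2 := by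
  have key : ∀ h : ZMod Q, ((‖ft F h‖ ^ 2 : ℝ) : ℂ) =
      ∑ b : ZMod Q, ∑ c : ZMod Q, F b * conj (F c) * ZMod.stdAddChar (h * (b - c)) := by
    intro h
    unfold ft
    rw [Complex.ofReal_pow, ← Complex.mul_conj', map_sum, sum_mul_sum]
    refine sum_congr rfl fun b _ => sum_congr rfl fun c _ => ?_
    have e1 : (starRingEnd ℂ) (F c * ZMod.stdAddChar (h * c)) =
        conj (F c) * ZMod.stdAddChar (-(h * c)) := by
      rw [(starRingEnd ℂ).map_mul, AddChar.map_neg_eq_conj]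
    rw [e1, mul_sub, sub_eq_add_neg, AddChar.map_add_eq_mul]
    ring
  have hc : ((∑ η : ZMod Q, ‖ft F η‖ ^ 2 : ℝ) : ℂ) =
      (((Q : ℝ) * ∑ b : ZMod Q, ‖F b‖ ^ 2 : ℝ) : ℂ) := by
    rw [Complex.ofReal_sum]
    simp only [key]
    rw [sum_comm]
    push_cast
    rw [mul_sum]
    refine sum_congr rfl fun b _ => ?_
    rw [sum_comm]
    have e : ∀ c : ZMod Q, ∑ h : ZMod Q, F b * conj (F c) *
        ZMod.stdAddChar (h * (b - c)) = if c = b then (Q : ℂ) * (‖F b‖ : ℂ) ^ 2 else 0 := by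
      intro c
      rw [← mul_sum, AddChar.sum_mulShift _ (ZMod.isPrimitive_stdAddChar Q), ZMod.card]
      by_cases hcb : c = b
      · subst hcb
        rw [if_pos rfl, if_pos (sub_self c), Complex.mul_conj']
        ring
      · rw [if_neg hcb, if_neg (fun h => hcb (sub_eq_zero.1 h).symm)]
        simp
    simp only [e]
    rw [sum_ite_eq' univ b, if_pos (mem_univ b)]
  exact_mod_cast hc

/-- the autocorrelation -/
noncomputable def ac (F : ZMod Q → ℂ) (v : ZMod Q) : ℂ := ∑ m : ZMod Q, F (m + v) * conj (F m)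

theorem ft_ac (F : ZMod Q → ℂ) (η : ZMod Q) : ft (ac F) η = ft F η * conj (ft F η) := by
  have h1 : ft (ac F) η = ∑ m : ZMod Q, ∑ v : ZMod Q,
      F (m + v) * conj (F m) * ZMod.stdAddChar (η * v) := by
    unfold ft ac
    simp only [sum_mul]
    rw [sum_comm]
  have h2 : ∀ m : ZMod Q, ∑ v : ZMod Q, F (m + v) * conj (F m) * ZMod.stdAddChar (η * v) =
      ft F η * conj (F m * ZMod.stdAddChar (η * m)) := by
    intro m
    unfold ft
    rw [sum_mul, ← Equiv.sum_comp (Equiv.addLeft m)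
      (fun w => F w * ZMod.stdAddChar (η * w) * conj (F m * ZMod.stdAddChar (η * m)))]
    refine sum_congr rfl fun v _ => ?_
    rw [(starRingEnd ℂ).map_mul, ← AddChar.map_neg_eq_conj, Equiv.coe_addLeft]
    have e : η * v = η * (m + v) + -(η * m) := by ring
    rw [e, AddChar.map_add_eq_mul]
    ring
  rw [h1, sum_congr rfl fun m _ => h2 m, ← mul_sum]
  congr 1
  unfold ft
  rw [map_sum]

theorem ac_sq (F : ZMod Q → ℂ) (hF : ∀ m, ‖F m‖ ≤ 1) {S : ℝ} (hS : ∀ η, ‖ft F η‖ ^ 2 ≤ S) :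
    ∑ v : ZMod Q, ‖ac F v‖ ^ 2 ≤ Q * S := by
  have hQ : (0 : ℝ) < Q := by exact_mod_cast Nat.pos_of_ne_zero (NeZero.ne Q)
  have h1 := pars (ac F)
  have h2 : ∑ η : ZMod Q, ‖ft (ac F) η‖ ^ 2 ≤ S * ∑ η : ZMod Q, ‖ft F η‖ ^ 2 := by
    rw [mul_sum]
    refine sum_le_sum fun η _ => ?_
    rw [ft_ac, norm_mul, RCLike.norm_conj, ← sq, ← pow_mul]
    have e : ‖ft F η‖ ^ (2 * 2) = ‖ft F η‖ ^ 2 * ‖ft F η‖ ^ 2 := by ring
    rw [e]
    exact mul_le_mul_of_nonneg_right (hS η) (by positivity)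
  have hS0 : 0 ≤ S := (by positivity : (0 : ℝ) ≤ ‖ft F 0‖ ^ 2).trans (hS 0)
  have h3 : ∑ b : ZMod Q, ‖F b‖ ^ 2 ≤ Q := by
    calc ∑ b : ZMod Q, ‖F b‖ ^ 2 ≤ ∑ _b : ZMod Q, (1 : ℝ) :=
          sum_le_sum fun b _ => pow_le_one₀ (norm_nonneg _) (hF b)
      _ = Q := by simp [ZMod.card]
  rw [pars F, h1] at h2
  have h4 : (Q : ℝ) * ∑ v : ZMod Q, ‖ac F v‖ ^ 2 ≤ Q * (Q * S) := by
    refine h2.trans ?_
    have h5 := mul_le_mul_of_nonneg_left h3 (mul_nonneg hS0 hQ.le)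
    linarith
  exact le_of_mul_le_mul_left h4 hQ

theorem chi_le {ℓ : ℕ} (χ : DirichletCharacter ℂ ℓ) (m : ZMod ℓ) : ‖χ m‖ ≤ 1 :=
  DirichletCharacter.norm_le_one χ m

/-- dilation -/
theorem dil {ℓ : ℕ} [Fact ℓ.Prime] (χ : DirichletCharacter ℂ ℓ) {u : ZMod ℓ} (hu : u ≠ 0)
    (η : ZMod ℓ) : ft (fun m => χ (m + u) * conj (χ m)) η =
      ∑ m : ZMod ℓ, χ (m + 1) * conj (χ m) * ZMod.stdAddChar (η * u * m) := by
  unfold ft
  rw [← Equiv.sum_comp (Equiv.mulLeft₀ u hu)]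
  refine sum_congr rfl fun m _ => ?_
  have hn : ‖χ u‖ = 1 := DirichletCharacter.unit_norm_eq_one χ (Units.mk0 u hu)
  have h1 : χ u * conj (χ u) = 1 := by
    rw [Complex.mul_conj', hn]
    simp
  have e1 : u * m + u = u * (m + 1) := by ring
  have e2 : η * (u * m) = η * u * m := by ring
  change χ (u * m + u) * conj (χ (u * m)) * ZMod.stdAddChar (η * (u * m)) = _
  rw [e1, e2, map_mul χ, map_mul χ, (starRingEnd ℂ).map_mul]
  calc _ = (χ u * conj (χ u)) * (χ (m + 1) * conj (χ m) * ZMod.stdAddChar (η * u * m)) := by ring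
    _ = _ := by rw [h1, one_mul]

end GB_

open GB_ in
/-- **GB** -/
theorem prove_GB (h1 : T_GA) : T_GB := by
  obtain ⟨C, hC, h⟩ := h1
  refine ⟨8 * (1 + C), by positivity, fun ℓ _ χ hχ => ?_⟩
  have hl : (1 : ℝ) ≤ ℓ := by exact_mod_cast (Fact.out : ℓ.Prime).one_lt.le
  set S : ℝ := (C * (ℓ : ℝ) ^ 7) ^ (1 / 4 : ℝ) with hS
  have hS0 : 0 ≤ S := by positivity
  have hS4 : S ^ 4 = C * (ℓ : ℝ) ^ 7 := by
    rw [hS, ← Real.rpow_natCast, ← Real.rpow_mul (by positivity)]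
    norm_num
  set F : ZMod ℓ → ZMod ℓ → ℂ := fun u m => χ (m + u) * conj (χ m) with hF
  have hF1 : ∀ u m, ‖F u m‖ ≤ 1 := by
    intro u m
    rw [hF]
    dsimp only
    rw [norm_mul, RCLike.norm_conj]
    exact mul_le_one₀ (chi_le χ _) (norm_nonneg _) (chi_le χ _)
  have e : ∀ u v : ZMod ℓ, ∑ m : ZMod ℓ, χ (m + u + v) * conj (χ (m + u)) *
      conj (χ (m + v)) * χ m = ac (F u) v := by
    intro u v
    unfold ac
    refine sum_congr rfl fun m _ => ?_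
    rw [hF]
    dsimp only
    rw [(starRingEnd ℂ).map_mul, Complex.conj_conj]
    have e1 : m + v + u = m + u + v := by ring
    rw [e1]
    ring
  simp only [e]
  -- the terms `u ≠ 0`
  have k1 : ∀ u : ZMod ℓ, u ≠ 0 → ∑ v : ZMod ℓ, ‖ac (F u) v‖ ^ 2 ≤ ℓ * S := by
    intro u hu
    refine ac_sq (F u) (hF1 u) fun η => ?_
    have k2 := h ℓ χ (η * u) hχ
    rw [← dil χ hu η, ← hS4] at k2
    have k3 : (‖ft (F u) η‖ ^ 2) ^ 4 ≤ S ^ 4 := by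
      rw [← pow_mul]
      exact k2
    exact (pow_le_pow_iff_left₀ (by positivity) hS0 (by norm_num)).1 k3
  have k0 : ∑ v : ZMod ℓ, ‖ac (F 0) v‖ ^ 2 ≤ (ℓ : ℝ) ^ 3 := by
    have k2 : ∀ v : ZMod ℓ, ‖ac (F 0) v‖ ^ 2 ≤ (ℓ : ℝ) ^ 2 := by
      intro v
      refine pow_le_pow_left₀ (norm_nonneg _) ?_ 2
      unfold ac
      refine (norm_sum_le _ _).trans ?_
      calc ∑ m : ZMod ℓ, ‖F 0 (m + v) * conj (F 0 m)‖ ≤ ∑ _m : ZMod ℓ, (1 : ℝ) := by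
            refine sum_le_sum fun m _ => ?_
            rw [norm_mul, RCLike.norm_conj]
            exact mul_le_one₀ (hF1 _ _) (norm_nonneg _) (hF1 _ _)
        _ = ℓ := by simp [ZMod.card]
    calc ∑ v : ZMod ℓ, ‖ac (F 0) v‖ ^ 2 ≤ ∑ _v : ZMod ℓ, (ℓ : ℝ) ^ 2 :=
          sum_le_sum fun v _ => k2 v
      _ = (ℓ : ℝ) ^ 3 := by
          rw [sum_const, card_univ, ZMod.card, nsmul_eq_mul]
          ring
  have k5 : ∑ u : ZMod ℓ, ∑ v : ZMod ℓ, ‖ac (F u) v‖ ^ 2 ≤ (ℓ : ℝ) ^ 3 + (ℓ : ℝ) ^ 2 * S := by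
    have k6 : ∀ u : ZMod ℓ, ∑ v : ZMod ℓ, ‖ac (F u) v‖ ^ 2 ≤
        (if u = 0 then (ℓ : ℝ) ^ 3 else 0) + ℓ * S := by
      intro u
      by_cases hu : u = 0
      · subst hu
        rw [if_pos rfl]
        have : (0 : ℝ) ≤ ℓ * S := by positivity
        linarith
      · rw [if_neg hu, zero_add]
        exact k1 u hu
    refine (sum_le_sum fun u _ => k6 u).trans (le_of_eq ?_)
    rw [sum_add_distrib, sum_ite_eq' univ (0 : ZMod ℓ), if_pos (mem_univ _), sum_const,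
      card_univ, ZMod.card, nsmul_eq_mul]
    ring
  have k7 : (0 : ℝ) ≤ ∑ u : ZMod ℓ, ∑ v : ZMod ℓ, ‖ac (F u) v‖ ^ 2 := by positivity
  calc (∑ u : ZMod ℓ, ∑ v : ZMod ℓ, ‖ac (F u) v‖ ^ 2) ^ 4
      ≤ ((ℓ : ℝ) ^ 3 + (ℓ : ℝ) ^ 2 * S) ^ 4 := pow_le_pow_left₀ k7 k5 4
    _ ≤ 2 ^ (4 - 1) * (((ℓ : ℝ) ^ 3) ^ 4 + ((ℓ : ℝ) ^ 2 * S) ^ 4) :=
        add_pow_le (by positivity) (by positivity) 4
    _ = 8 * ((ℓ : ℝ) ^ 12 + C * (ℓ : ℝ) ^ 15) := by
        rw [mul_pow, hS4]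
        ring
    _ ≤ 8 * (1 + C) * (ℓ : ℝ) ^ 15 := by
        have k8 : (ℓ : ℝ) ^ 12 ≤ (ℓ : ℝ) ^ 15 := pow_le_pow_right₀ hl (by norm_num)
        linarith

end Pool.Agent.TPK
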