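import Pool.Agent.TPK.Targets5

/-! TPK-GC: three linear factors, two Cauchy-Schwarz steps. -/

set_option autoImplicit false

namespace Pool.Agent.TPK

open Finset
open scoped BigOperators ComplexConjugate

namespace GC_

variable {ℓ : ℕ} [Fact ℓ.Prime]

/-- the multiplicative derivative -/
def D (f : ZMod ℓ → ℂ) (u m : ZMod ℓ) : ℂ := f (m + u) * conj (f m)

theorem D_norm {f : ZMod ℓ → ℂ} (hf : ∀ m, ‖f m‖ ≤ 1) (u m : ZMod ℓ) : ‖D f u m‖ ≤ 1 := by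
  unfold D
  rw [norm_mul, RCLike.norm_conj]
  exact mul_le_one₀ (hf _) (norm_nonneg _) (hf _)

/-- the square of a sum -/
theorem sq_sum (f : ZMod ℓ → ℂ) :
    ((‖∑ n, f n‖ ^ 2 : ℝ) : ℂ) = ∑ u, ∑ n, D f u n := by
  have h1 : ((‖∑ n, f n‖ ^ 2 : ℝ) : ℂ) = (∑ n, f n) * conj (∑ n, f n) := by
    rw [Complex.mul_conj, Complex.normSq_eq_norm_sq]
  rw [h1, map_sum, Finset.sum_comm, Finset.sum_mul_sum, Finset.sum_comm]
  refine Finset.sum_congr rfl fun n _ => ?_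
  have := Equiv.sum_comp (Equiv.addLeft n) (fun m => f m * conj (f n))
  rw [← this]
  rfl

/-- Cauchy-Schwarz with bounded coefficients -/
theorem cs {ι : Type} [Fintype ι] (a b : ι → ℂ) (ha : ∀ i, ‖a i‖ ≤ 1) :
    ‖∑ i, a i * b i‖ ^ 2 ≤ (Fintype.card ι : ℝ) * ∑ i, ‖b i‖ ^ 2 := by
  have h1 : ‖∑ i, a i * b i‖ ≤ ∑ i, ‖b i‖ := by
    refine (norm_sum_le _ _).trans (Finset.sum_le_sum fun i _ => ?_)
    rw [norm_mul]
    exact mul_le_of_le_one_left (norm_nonneg _) (ha i)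
  have h2 : (∑ i, ‖b i‖) ^ 2 ≤ (Fintype.card ι : ℝ) * ∑ i, ‖b i‖ ^ 2 := by
    have := sq_sum_le_card_mul_sum_sq (s := (Finset.univ : Finset ι)) (f := fun i => ‖b i‖)
    simpa using this
  exact (pow_le_pow_left₀ (norm_nonneg _) h1 2).trans h2

/-- change of variables -/
theorem change (f g : ZMod ℓ → ℂ) {b c : ZMod ℓ} (hbc : b ≠ c) :
    ∑ n, ∑ h, f (n + b * h) * g (n + c * h) = (∑ m, f m) * ∑ m, g m := by
  rw [Finset.sum_comm]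
  have h1 : ∀ h : ZMod ℓ, ∑ n, f (n + b * h) * g (n + c * h) =
      ∑ m, f m * g (m + (c - b) * h) := by
    intro h
    have := Equiv.sum_comp (Equiv.addRight (b * h)) (fun m => f m * g (m + (c - b) * h))
    rw [← this]
    refine Finset.sum_congr rfl fun n _ => ?_
    simp only [Equiv.coe_addRight]
    congr 2
    ring
  simp only [h1]
  rw [Finset.sum_comm, Finset.sum_mul]
  refine Finset.sum_congr rfl fun m _ => ?_
  rw [← Finset.mul_sum]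
  congr 1
  have hcb : c - b ≠ 0 := sub_ne_zero.2 (Ne.symm hbc)
  exact Equiv.sum_comp ((Equiv.mulLeft₀ (c - b) hcb).trans (Equiv.addLeft m)) g

/-- the main estimate -/
theorem main (A p q r : ZMod ℓ → ℂ) (hA : ∀ m, ‖A m‖ ≤ 1) (hp : ∀ m, ‖p m‖ ≤ 1)
    (hq : ∀ m, ‖q m‖ ≤ 1) (hr : ∀ m, ‖r m‖ ≤ 1) {b c : ZMod ℓ} (hbc : b ≠ c) (hc : c ≠ 0) :
    ‖∑ h, A h * ∑ n, p n * q (n + b * h) * r (n + c * h)‖ ^ 8 ≤
      (ℓ : ℝ) ^ 12 * ∑ u, ∑ v, ‖∑ m, r (m + u + v) * conj (r (m + u)) * conj (r (m + v)) *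
        r m‖ ^ 2 := by
  -- first step
  set F : ZMod ℓ → ZMod ℓ → ℂ := fun h n => p n * q (n + b * h) * r (n + c * h) with hF
  set T : ℂ := ∑ h, A h * ∑ n, F h n with hT
  set R : ℝ := ∑ h, ‖∑ n, F h n‖ ^ 2 with hR
  have hcard : (Fintype.card (ZMod ℓ) : ℝ) = ℓ := by rw [ZMod.card]
  have s1 : ‖T‖ ^ 2 ≤ ℓ * R := by
    have := cs A (fun h => ∑ n, F h n) hA
    rwa [hcard] at this
  have hR0 : 0 ≤ R := Finset.sum_nonneg fun _ _ => by positivity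
  -- second step
  set G : ZMod ℓ × ZMod ℓ → ℂ := fun x => ∑ h, D q x.2 (x.1 + b * h) * D r x.2 (x.1 + c * h)
    with hG
  set W : ℝ := ∑ x, ‖G x‖ ^ 2 with hW
  have hW0 : 0 ≤ W := Finset.sum_nonneg fun _ _ => by positivity
  have s2 : (R : ℂ) = ∑ x : ZMod ℓ × ZMod ℓ, D p x.2 x.1 * G x := by
    rw [hR]
    push_cast
    have h1 : ∀ h : ZMod ℓ, ((‖∑ n, F h n‖ : ℂ)) ^ 2 = ∑ u, ∑ n, D (F h) u n := by
      intro h
      rw [← sq_sum]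
      push_cast
      rfl
    simp only [h1]
    rw [Fintype.sum_prod_type, Finset.sum_comm]
    have h2 : ∀ u : ZMod ℓ, ∑ h, ∑ n, D (F h) u n = ∑ n, D p u n * G (n, u) := by
      intro u
      rw [Finset.sum_comm]
      refine Finset.sum_congr rfl fun n _ => ?_
      rw [hG, Finset.mul_sum]
      refine Finset.sum_congr rfl fun h _ => ?_
      simp only [D, hF, map_mul]
      rw [show n + u + b * h = n + b * h + u by ring, show n + u + c * h = n + c * h + u by ring]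
      ring
    simp only [h2]
    rw [Finset.sum_comm]
  have s3 : R ^ 2 ≤ (ℓ : ℝ) ^ 2 * W := by
    have h1 := cs (fun x : ZMod ℓ × ZMod ℓ => D p x.2 x.1) G (fun x => D_norm hp _ _)
    rw [← s2, Complex.norm_real, Real.norm_of_nonneg hR0, Fintype.card_prod, Nat.cast_mul,
      hcard] at h1
    rw [hW]
    calc R ^ 2 ≤ _ := h1
      _ = _ := by ring
  -- third step
  set E : ZMod ℓ → ZMod ℓ → ℂ := fun u v => ∑ m, D (D r u) v m with hE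
  have s4 : (W : ℂ) = ∑ u, ∑ v, (∑ m, D (D q u) (b * v) m) * E u (c * v) := by
    rw [hW]
    push_cast
    have h1 : ∀ x : ZMod ℓ × ZMod ℓ, ((‖G x‖ : ℂ)) ^ 2 =
        ∑ v, ∑ h, D (D q x.2) (b * v) (x.1 + b * h) * D (D r x.2) (c * v) (x.1 + c * h) := by
      intro x
      have h2 := sq_sum (fun h => D q x.2 (x.1 + b * h) * D r x.2 (x.1 + c * h))
      push_cast at h2
      rw [hG]
      simp only
      rw [h2]
      refine Finset.sum_congr rfl fun v _ => Finset.sum_congr rfl fun h _ => ?_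
      have e1 : x.1 + b * (h + v) = x.1 + b * h + b * v := by ring
      have e2 : x.1 + c * (h + v) = x.1 + c * h + c * v := by ring
      show (D q x.2 (x.1 + b * (h + v)) * D r x.2 (x.1 + c * (h + v))) *
          conj (D q x.2 (x.1 + b * h) * D r x.2 (x.1 + c * h)) =
        (D q x.2 (x.1 + b * h + b * v) * conj (D q x.2 (x.1 + b * h))) *
          (D r x.2 (x.1 + c * h + c * v) * conj (D r x.2 (x.1 + c * h)))
      rw [e1, e2, map_mul]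
      ring
    simp only [h1]
    rw [Fintype.sum_prod_type, Finset.sum_comm]
    refine Finset.sum_congr rfl fun u _ => ?_
    rw [Finset.sum_comm]
    refine Finset.sum_congr rfl fun v _ => ?_
    rw [hE]
    exact change (D (D q u) (b * v)) (D (D r u) (c * v)) hbc
  have s5 : W ≤ ∑ x : ZMod ℓ × ZMod ℓ, (ℓ : ℝ) * ‖E x.1 (c * x.2)‖ := by
    have h1 : W = ‖(W : ℂ)‖ := by rw [Complex.norm_real, Real.norm_of_nonneg hW0]
    rw [h1, s4, Fintype.sum_prod_type]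
    refine (norm_sum_le _ _).trans (Finset.sum_le_sum fun u _ => ?_)
    refine (norm_sum_le _ _).trans (Finset.sum_le_sum fun v _ => ?_)
    rw [norm_mul]
    refine mul_le_mul_of_nonneg_right ?_ (norm_nonneg _)
    refine (norm_sum_le _ _).trans ?_
    calc ∑ m, ‖D (D q u) (b * v) m‖ ≤ ∑ _m : ZMod ℓ, (1 : ℝ) :=
          Finset.sum_le_sum fun m _ => D_norm (D_norm hq u) _ _
      _ = ℓ := by simp [ZMod.card]
  have s6 : W ^ 2 ≤ (ℓ : ℝ) ^ 4 * ∑ u, ∑ v, ‖E u v‖ ^ 2 := by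
    have h1 : (∑ x : ZMod ℓ × ZMod ℓ, (ℓ : ℝ) * ‖E x.1 (c * x.2)‖) ^ 2 ≤
        (ℓ * ℓ) * ∑ x : ZMod ℓ × ZMod ℓ, ((ℓ : ℝ) * ‖E x.1 (c * x.2)‖) ^ 2 := by
      have := sq_sum_le_card_mul_sum_sq (s := (Finset.univ : Finset (ZMod ℓ × ZMod ℓ)))
        (f := fun x => (ℓ : ℝ) * ‖E x.1 (c * x.2)‖)
      rw [Finset.card_univ, Fintype.card_prod, Nat.cast_mul, hcard] at this
      exact this
    have h2 : ∑ x : ZMod ℓ × ZMod ℓ, ((ℓ : ℝ) * ‖E x.1 (c * x.2)‖) ^ 2 =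
        (ℓ : ℝ) ^ 2 * ∑ u, ∑ v, ‖E u v‖ ^ 2 := by
      rw [Fintype.sum_prod_type, Finset.mul_sum]
      refine Finset.sum_congr rfl fun u _ => ?_
      rw [Finset.mul_sum]
      have := Equiv.sum_comp (Equiv.mulLeft₀ c hc) (fun v => (ℓ : ℝ) ^ 2 * ‖E u v‖ ^ 2)
      rw [← this]
      refine Finset.sum_congr rfl fun v _ => ?_
      show ((ℓ : ℝ) * ‖E u (c * v)‖) ^ 2 = (ℓ : ℝ) ^ 2 * ‖E u (c * v)‖ ^ 2
      ring
    rw [h2] at h1
    calc W ^ 2 ≤ (∑ x : ZMod ℓ × ZMod ℓ, (ℓ : ℝ) * ‖E x.1 (c * x.2)‖) ^ 2 :=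
          pow_le_pow_left₀ hW0 s5 2
      _ ≤ _ := h1
      _ = _ := by ring
  have s7 : ∑ u, ∑ v, ‖E u v‖ ^ 2 = ∑ u, ∑ v, ‖∑ m, r (m + u + v) * conj (r (m + u)) *
      conj (r (m + v)) * r m‖ ^ 2 := by
    refine Finset.sum_congr rfl fun u _ => Finset.sum_congr rfl fun v _ => ?_
    congr 2
    refine Finset.sum_congr rfl fun m _ => ?_
    simp only [D, map_mul, Complex.conj_conj]
    rw [show m + v + u = m + u + v by ring]
    ring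
  rw [← s7]
  have hl : (0 : ℝ) ≤ ℓ := Nat.cast_nonneg _
  calc ‖T‖ ^ 8 = ((‖T‖ ^ 2) ^ 2) ^ 2 := by ring
    _ ≤ (((ℓ : ℝ) * R) ^ 2) ^ 2 := by gcongr
    _ = ((ℓ : ℝ) ^ 2 * R ^ 2) ^ 2 := by ring
    _ ≤ ((ℓ : ℝ) ^ 2 * ((ℓ : ℝ) ^ 2 * W)) ^ 2 := by gcongr
    _ = (ℓ : ℝ) ^ 8 * W ^ 2 := by ring
    _ ≤ (ℓ : ℝ) ^ 8 * ((ℓ : ℝ) ^ 4 * ∑ u, ∑ v, ‖E u v‖ ^ 2) := by gcongr
    _ = _ := by ring

omit [Fact ℓ.Prime] in
theorem char_norm_le (χ : DirichletCharacter ℂ ℓ) (m : ZMod ℓ) : ‖χ m‖ ≤ 1 :=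
  DirichletCharacter.norm_le_one χ m

theorem char_norm_one (χ : DirichletCharacter ℂ ℓ) {h : ZMod ℓ} (hh : h ≠ 0) : ‖χ h‖ = 1 := by
  have h1 : IsUnit h := isUnit_iff_ne_zero.2 hh
  obtain ⟨x, rfl⟩ := h1
  exact DirichletCharacter.unit_norm_eq_one χ x

/-- dilation -/
theorem dil (ψ χ₁ χ₂ : DirichletCharacter ℂ ℓ) (b c : ZMod ℓ) {h : ZMod ℓ} (hh : h ≠ 0) :
    ∑ n, ψ n * χ₁ (n + b * h) * χ₂ (n + c * h) =
      (ψ h * χ₁ h * χ₂ h) * ∑ n, ψ n * χ₁ (n + b) * χ₂ (n + c) := by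
  have := Equiv.sum_comp (Equiv.mulLeft₀ h hh)
    (fun n => ψ n * χ₁ (n + b * h) * χ₂ (n + c * h))
  rw [← this, Finset.mul_sum]
  refine Finset.sum_congr rfl fun n _ => ?_
  show ψ (h * n) * χ₁ (h * n + b * h) * χ₂ (h * n + c * h) = _
  rw [show h * n + b * h = h * (n + b) by ring, show h * n + c * h = h * (n + c) by ring,
    map_mul, map_mul, map_mul]
  ring

end GC_

open GC_ in
/-- Three linear factors. -/
theorem prove_GC (h1 : T_GB) : T_GC := by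
  obtain ⟨C, hC, hB⟩ := h1
  refine ⟨2 ^ 32 * C, by positivity, ?_⟩
  intro ℓ hℓ ψ χ₁ χ₂ b c hχ hc hbc
  have hmain := main (fun h => conj (ψ h * χ₁ h * χ₂ h)) ψ χ₁ χ₂ (fun m => by
    rw [RCLike.norm_conj, norm_mul, norm_mul]
    exact mul_le_one₀ (mul_le_one₀ (char_norm_le _ _) (norm_nonneg _) (char_norm_le _ _))
      (norm_nonneg _) (char_norm_le _ _)) (char_norm_le ψ) (char_norm_le χ₁) (char_norm_le χ₂)
    hbc hc
  have hGB := hB ℓ χ₂ hχ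
  set S : ℂ := ∑ n : ZMod ℓ, ψ n * χ₁ (n + b) * χ₂ (n + c) with hS
  set N : ℝ := ∑ u : ZMod ℓ, ∑ v : ZMod ℓ, ‖∑ m : ZMod ℓ, χ₂ (m + u + v) * conj (χ₂ (m + u)) *
    conj (χ₂ (m + v)) * χ₂ m‖ ^ 2 with hN
  have hT : ∑ h : ZMod ℓ, conj (ψ h * χ₁ h * χ₂ h) *
      ∑ n, ψ n * χ₁ (n + b * h) * χ₂ (n + c * h) = ((ℓ : ℂ) - 1) * S := by
    have h2 : ∀ h : ZMod ℓ, conj (ψ h * χ₁ h * χ₂ h) *
        ∑ n, ψ n * χ₁ (n + b * h) * χ₂ (n + c * h) = if h = 0 then 0 else S := by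
      intro h
      split_ifs with h0
      · rw [h0, MulChar.map_zero ψ, zero_mul, zero_mul, map_zero, zero_mul]
      · rw [dil ψ χ₁ χ₂ b c h0, ← mul_assoc, mul_comm (conj _), Complex.mul_conj,
          Complex.normSq_eq_norm_sq, norm_mul, norm_mul, char_norm_one ψ h0,
          char_norm_one χ₁ h0, char_norm_one χ₂ h0]
        simp [hS]
    simp only [h2]
    rw [Finset.sum_ite, Finset.sum_const_zero, zero_add, Finset.sum_const, nsmul_eq_mul]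
    congr 1
    have h3 : (Finset.univ.filter fun h : ZMod ℓ => ¬ h = 0).card = ℓ - 1 := by
      have : (Finset.univ.filter fun h : ZMod ℓ => ¬ h = 0) = Finset.univ.erase 0 := by
        ext h; simp
      rw [this, Finset.card_erase_of_mem (Finset.mem_univ _), Finset.card_univ, ZMod.card]
    rw [h3, Nat.cast_sub hℓ.out.one_le, Nat.cast_one]
  rw [hT] at hmain
  have hl2 : (2 : ℝ) ≤ ℓ := by exact_mod_cast hℓ.out.two_le
  have hnorm : ‖((ℓ : ℂ) - 1) * S‖ = ((ℓ : ℝ) - 1) * ‖S‖ := by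
    rw [norm_mul]
    congr 1
    have : ((ℓ : ℂ) - 1) = (((ℓ : ℝ) - 1 : ℝ) : ℂ) := by push_cast; rfl
    rw [this, Complex.norm_real, Real.norm_of_nonneg (by linarith)]
  rw [hnorm] at hmain
  have hN0 : 0 ≤ N := Finset.sum_nonneg fun _ _ => Finset.sum_nonneg fun _ _ => by positivity
  have h5 : (ℓ : ℝ) / 2 * ‖S‖ ≤ ((ℓ : ℝ) - 1) * ‖S‖ :=
    mul_le_mul_of_nonneg_right (by linarith) (norm_nonneg _)
  have h6 : ((ℓ : ℝ) / 2 * ‖S‖) ^ 32 ≤ (ℓ : ℝ) ^ 63 * C := by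
    calc ((ℓ : ℝ) / 2 * ‖S‖) ^ 32 ≤ (((ℓ : ℝ) - 1) * ‖S‖) ^ 32 := by gcongr
      _ = ((((ℓ : ℝ) - 1) * ‖S‖) ^ 8) ^ 4 := by ring
      _ ≤ ((ℓ : ℝ) ^ 12 * N) ^ 4 := by
          refine pow_le_pow_left₀ ?_ hmain 4
          positivity
      _ = (ℓ : ℝ) ^ 48 * N ^ 4 := by ring
      _ ≤ (ℓ : ℝ) ^ 48 * (C * (ℓ : ℝ) ^ 15) := by gcongr
      _ = _ := by ring
  have hl0 : (0 : ℝ) < ℓ := by linarith
  have h7 : ((ℓ : ℝ) / 2 * ‖S‖) ^ 32 = (ℓ : ℝ) ^ 32 / 2 ^ 32 * ‖S‖ ^ 32 := by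
    rw [mul_pow, div_pow]
  rw [h7] at h6
  have h8 : (ℓ : ℝ) ^ 32 * ‖S‖ ^ 32 ≤ (ℓ : ℝ) ^ 32 * (2 ^ 32 * C * (ℓ : ℝ) ^ 31) := by
    have e : (ℓ : ℝ) ^ 32 / 2 ^ 32 * ‖S‖ ^ 32 * 2 ^ 32 = (ℓ : ℝ) ^ 32 * ‖S‖ ^ 32 := by ring
    rw [← e]
    calc (ℓ : ℝ) ^ 32 / 2 ^ 32 * ‖S‖ ^ 32 * 2 ^ 32 ≤ (ℓ : ℝ) ^ 63 * C * 2 ^ 32 := by gcongr
      _ = _ := by ring
  exact le_of_mul_le_mul_left h8 (by positivity)

end Pool.Agent.TPK
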