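import Pool.Agent.TPK.Targets5

set_option autoImplicit false

/-! MP_f3f922_nt, target GD: four linear factors with trivial product by a Moebius substitution. -/

namespace Pool.Agent.TPK

open Finset Filter Pool.Agent.Ell Pool.Agent.TPM Pool.Agent.TPX
open scoped BigOperators ComplexConjugate

namespace GD_

variable {ℓ : ℕ} [Fact ℓ.Prime]

omit [Fact ℓ.Prime] in
theorem conj_chi (χ : DirichletCharacter ℂ ℓ) (x : ZMod ℓ) : conj (χ x) = χ⁻¹ x :=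
  MulChar.star_apply' χ x

theorem chi_ne (χ : DirichletCharacter ℂ ℓ) {x : ZMod ℓ} (hx : x ≠ 0) : χ x * χ⁻¹ x = 1 := by
  rw [← MulChar.mul_apply, mul_inv_cancel, MulChar.one_apply hx.isUnit]

theorem inv_chi (χ : DirichletCharacter ℂ ℓ) (x : ZMod ℓ) : χ⁻¹ x = χ x⁻¹ :=
  MulChar.inv_apply' χ x

/-- the quotient of two values -/
theorem chi_div (χ : DirichletCharacter ℂ ℓ) (x D : ZMod ℓ) :
    χ (x / D) = χ x * χ⁻¹ D := by
  rw [div_eq_mul_inv, map_mul, inv_chi]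

/-- a common factor -/
theorem chi_common (χ : DirichletCharacter ℂ ℓ) {u : ZMod ℓ} (hu : u ≠ 0) (x y : ZMod ℓ) :
    χ (u * x) * χ⁻¹ (u * y) = χ x * χ⁻¹ y := by
  rw [map_mul, map_mul]
  linear_combination (χ x * χ⁻¹ y) * chi_ne χ hu

omit [Fact ℓ.Prime] in
theorem norm_le (χ : DirichletCharacter ℂ ℓ) (x : ZMod ℓ) : ‖χ x‖ ≤ 1 := χ.norm_le_one x

end GD_

open GD_

/-- GD: four linear factors with trivial product. -/
theorem prove_GD (h1 : T_GC) : T_GD := by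
  obtain ⟨C, hC, h⟩ := h1
  refine ⟨2 ^ 31 * (C + 1), by positivity, ?_⟩
  intro ℓ _ χ₁ χ₂ p p' a₁ a₂ hχ hp hp' ha1 ha2 hpp haa hA hB
  have hA0 : p' * a₂ - p * a₁ ≠ 0 := sub_ne_zero.2 hA
  have hB0 : p' * a₁ - p * a₂ ≠ 0 := sub_ne_zero.2 hB
  have hpp' : p' - p ≠ 0 := sub_ne_zero.2 (Ne.symm hpp)
  have haa' : a₂ - a₁ ≠ 0 := sub_ne_zero.2 (Ne.symm haa)
  have hA'0 : p' * (a₂ - a₁) ≠ 0 := mul_ne_zero hp' haa'
  simp only [conj_chi]
  set G : ZMod ℓ → ℂ := fun y => χ₁ y * (χ₂ ((p' * a₂ - p * a₁) * y + p * (a₁ - a₂)) *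
    χ₂⁻¹ (p' * (a₂ - a₁) * y + (p' * a₁ - p * a₂))) with hG
  -- the substitution
  have key : ∑ m : ZMod ℓ, χ₁ (p * m + a₁) * χ₁⁻¹ (p' * m + a₁) * (χ₂ (p * m + a₂) *
      χ₂⁻¹ (p' * m + a₂)) = ∑ y ∈ univ.erase (p / p'), G y := by
    have e1 : ∑ m : ZMod ℓ, χ₁ (p * m + a₁) * χ₁⁻¹ (p' * m + a₁) * (χ₂ (p * m + a₂) *
        χ₂⁻¹ (p' * m + a₂)) = ∑ m ∈ univ.filter (fun m : ZMod ℓ => p' * m + a₁ ≠ 0),
        χ₁ (p * m + a₁) * χ₁⁻¹ (p' * m + a₁) * (χ₂ (p * m + a₂) * χ₂⁻¹ (p' * m + a₂)) := by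
      rw [sum_filter]
      refine sum_congr rfl fun m _ => ?_
      split_ifs with hm
      · rfl
      · rw [not_not] at hm
        rw [hm, MulChar.map_zero, mul_zero, zero_mul]
    rw [e1]
    refine sum_bij' (fun m _ => (p * m + a₁) / (p' * m + a₁))
      (fun y _ => a₁ * (1 - y) / (p' * y - p)) ?_ ?_ ?_ ?_ ?_
    · intro m hm
      have hD : p' * m + a₁ ≠ 0 := (mem_filter.1 hm).2
      rw [mem_erase]
      refine ⟨fun e => ?_, mem_univ _⟩
      rw [div_eq_div_iff hD hp'] at e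
      exact mul_ne_zero ha1 hpp' (by linear_combination e)
    · intro y hy
      have hy1 : y ≠ p / p' := (mem_erase.1 hy).1
      have hE : p' * y - p ≠ 0 := fun e => hy1 (by
        rw [eq_div_iff hp']
        linear_combination e)
      rw [mem_filter]
      refine ⟨mem_univ _, ?_⟩
      have : p' * (a₁ * (1 - y) / (p' * y - p)) + a₁ = a₁ * (p' - p) / (p' * y - p) := by
        rw [eq_div_iff hE, add_mul, mul_assoc, div_mul_cancel₀ _ hE]
        ring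
      rw [this]
      exact div_ne_zero (mul_ne_zero ha1 hpp') hE
    · intro m hm
      have hD : p' * m + a₁ ≠ 0 := (mem_filter.1 hm).2
      have h2 : p' * ((p * m + a₁) / (p' * m + a₁)) - p = a₁ * (p' - p) / (p' * m + a₁) := by
        rw [eq_div_iff hD, sub_mul, mul_assoc, div_mul_cancel₀ _ hD]
        ring
      have h3 : 1 - (p * m + a₁) / (p' * m + a₁) = m * (p' - p) / (p' * m + a₁) := by
        rw [eq_div_iff hD, sub_mul, div_mul_cancel₀ _ hD]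
        ring
      rw [h2, h3, div_eq_iff (div_ne_zero (mul_ne_zero ha1 hpp') hD)]
      ring
    · intro y hy
      have hy1 : y ≠ p / p' := (mem_erase.1 hy).1
      have hE : p' * y - p ≠ 0 := fun e => hy1 (by
        rw [eq_div_iff hp']
        linear_combination e)
      have h2 : p' * (a₁ * (1 - y) / (p' * y - p)) + a₁ = a₁ * (p' - p) / (p' * y - p) := by
        rw [eq_div_iff hE, add_mul, mul_assoc, div_mul_cancel₀ _ hE]
        ring
      have h3 : p * (a₁ * (1 - y) / (p' * y - p)) + a₁ = a₁ * (p' - p) * y / (p' * y - p) := by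
        rw [eq_div_iff hE, add_mul, mul_assoc, div_mul_cancel₀ _ hE]
        ring
      rw [h2, h3, div_eq_iff (div_ne_zero (mul_ne_zero ha1 hpp') hE)]
      ring
    · intro m hm
      have hD : p' * m + a₁ ≠ 0 := (mem_filter.1 hm).2
      have hu : a₁ * (p' - p) / (p' * m + a₁) ≠ 0 := div_ne_zero (mul_ne_zero ha1 hpp') hD
      have h2 : (p' * a₂ - p * a₁) * ((p * m + a₁) / (p' * m + a₁)) + p * (a₁ - a₂) =
          a₁ * (p' - p) / (p' * m + a₁) * (p * m + a₂) := by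
        refine mul_right_cancel₀ hD ?_
        rw [add_mul, mul_assoc, div_mul_cancel₀ _ hD, div_mul_eq_mul_div, div_mul_cancel₀ _ hD]
        ring
      have h3 : p' * (a₂ - a₁) * ((p * m + a₁) / (p' * m + a₁)) + (p' * a₁ - p * a₂) =
          a₁ * (p' - p) / (p' * m + a₁) * (p' * m + a₂) := by
        refine mul_right_cancel₀ hD ?_
        rw [add_mul, mul_assoc, div_mul_cancel₀ _ hD, div_mul_eq_mul_div, div_mul_cancel₀ _ hD]
        ring
      rw [hG]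
      simp only
      rw [h2, h3, chi_common χ₂ hu, chi_div]
  -- the whole sum over `y`
  set b : ZMod ℓ := p * (a₁ - a₂) / (p' * a₂ - p * a₁) with hb
  set c : ZMod ℓ := (p' * a₁ - p * a₂) / (p' * (a₂ - a₁)) with hc
  have hc0 : c ≠ 0 := div_ne_zero hB0 hA'0
  have hbc : b ≠ c := by
    rw [hb, hc]
    intro e
    rw [div_eq_div_iff hA0 hA'0] at e
    have : a₁ * a₂ * (p' - p) ^ 2 = 0 := by linear_combination -e
    exact mul_ne_zero (mul_ne_zero ha1 ha2) (pow_ne_zero 2 hpp') this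
  have hχ' : χ₂⁻¹ ≠ 1 := fun e => hχ (inv_eq_one.1 e)
  have h2 := h ℓ χ₁ χ₂ χ₂⁻¹ b c hχ' hc0 hbc
  have e2 : ∑ y : ZMod ℓ, G y = χ₂ (p' * a₂ - p * a₁) * χ₂⁻¹ (p' * (a₂ - a₁)) *
      ∑ y : ZMod ℓ, χ₁ y * χ₂ (y + b) * χ₂⁻¹ (y + c) := by
    rw [mul_sum]
    refine sum_congr rfl fun y _ => ?_
    have h3 : (p' * a₂ - p * a₁) * y + p * (a₁ - a₂) = (p' * a₂ - p * a₁) * (y + b) := by
      rw [hb, mul_add, mul_div_cancel₀ _ hA0]
    have h4 : p' * (a₂ - a₁) * y + (p' * a₁ - p * a₂) = p' * (a₂ - a₁) * (y + c) := by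
      rw [hc, mul_add, mul_div_cancel₀ _ hA'0]
    rw [hG]
    simp only
    rw [h3, h4, map_mul, map_mul]
    ring
  have e3 : ‖∑ y : ZMod ℓ, G y‖ ≤ ‖∑ y : ZMod ℓ, χ₁ y * χ₂ (y + b) * χ₂⁻¹ (y + c)‖ := by
    rw [e2, norm_mul, norm_mul]
    have h3 : ‖χ₂ (p' * a₂ - p * a₁)‖ * ‖χ₂⁻¹ (p' * (a₂ - a₁))‖ ≤ 1 :=
      mul_le_one₀ (norm_le _ _) (norm_nonneg _) (norm_le _ _)
    calc _ ≤ 1 * ‖∑ y : ZMod ℓ, χ₁ y * χ₂ (y + b) * χ₂⁻¹ (y + c)‖ :=
          mul_le_mul_of_nonneg_right h3 (norm_nonneg _)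
      _ = _ := one_mul _
  have e4 : ‖G (p / p')‖ ≤ 1 := by
    rw [hG]
    simp only
    rw [norm_mul, norm_mul]
    exact mul_le_one₀ (norm_le _ _) (by positivity)
      (mul_le_one₀ (norm_le _ _) (norm_nonneg _) (norm_le _ _))
  have e5 : ∑ y ∈ univ.erase (p / p'), G y = ∑ y : ZMod ℓ, G y - G (p / p') := by
    rw [← add_sum_erase univ G (mem_univ (p / p'))]
    ring
  rw [key, e5]
  have hℓ : (1 : ℝ) ≤ (ℓ : ℝ) ^ 31 := by
    refine one_le_pow₀ ?_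
    exact_mod_cast (Fact.out : ℓ.Prime).one_lt.le
  set S := ‖∑ y : ZMod ℓ, χ₁ y * χ₂ (y + b) * χ₂⁻¹ (y + c)‖ with hS
  have hS0 : 0 ≤ S := norm_nonneg _
  calc ‖∑ y : ZMod ℓ, G y - G (p / p')‖ ^ 32 ≤ (S + 1) ^ 32 :=
        pow_le_pow_left₀ (norm_nonneg _) ((norm_sub_le _ _).trans (add_le_add e3 e4)) 32
    _ ≤ 2 ^ (32 - 1) * (S ^ 32 + 1 ^ 32) := add_pow_le hS0 zero_le_one 32
    _ ≤ 2 ^ 31 * (C * (ℓ : ℝ) ^ 31 + (ℓ : ℝ) ^ 31) := by
        rw [one_pow]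
        exact mul_le_mul_of_nonneg_left (add_le_add h2 hℓ) (by positivity)
    _ = _ := by ring

end Pool.Agent.TPK
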