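import Pool.Agent.TPK.Targets5
import Pool.Agent.TPK.KCA

set_option autoImplicit false

/-! TPK-KC2: the mean at a large prime where at most two characters are ramified. -/

namespace Pool.Agent.TPK

open Finset Filter Pool.Agent.Ell Pool.Agent.TPM Pool.Agent.TPX
open scoped BigOperators ComplexConjugate

namespace KC2_

open KCA_

/-- the product of the four characters -/
noncomputable def Th {k r : ℕ} (θ : Fin k → DirichletCharacter ℂ r) (a : Fin k → ℤ)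
    (j₁ j₂ : Fin k) (p p' m : ℕ) : ℂ :=
  (EllTw.ch (θ j₂) (a j₂) (p * m) * conj (EllTw.ch (θ j₂) (a j₂) (p' * m))) *
    (EllTw.ch (θ j₁) (a j₁) (p * m) * conj (EllTw.ch (θ j₁) (a j₁) (p' * m)))

lemma norm_Th {k r : ℕ} (θ : Fin k → DirichletCharacter ℂ r) (a : Fin k → ℤ)
    (j₁ j₂ : Fin k) (p p' m : ℕ) : ‖Th θ a j₁ j₂ p p' m‖ ≤ 1 := by
  unfold Th
  rw [norm_mul]
  exact mul_le_one₀ (norm_th _ _ _ _) (norm_nonneg _) (norm_th _ _ _ _)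

lemma pt {k ℓ i κ r p p' : ℕ} (hℓ : ℓ.Prime) (a : Fin k → ℤ)
    (φ : Fin k → DirichletCharacter ℂ (ℓ ^ κ)) (θ : Fin k → DirichletCharacter ℂ r)
    (j₁ j₂ : Fin k) (hne : j₁ ≠ j₂) (f : Fin k → ℕ → ℂ) (t : Fin k → ℝ)
    (h1 : ∀ j, ∀ n : ℤ, ¬ (ℓ : ℤ) ∣ n → φ j (n : ZMod (ℓ ^ κ)) = θ j (n : ZMod r))
    (h2 : ∀ j, j ≠ j₁ → j ≠ j₂ → ∀ n : ℤ, ¬ (ℓ : ℤ) ∣ n → φ j (n : ZMod (ℓ ^ κ)) = 1)
    (hf : ∀ j, MB (f j)) (m : ℕ) :
    ‖Lk f φ t (ℓ ^ i) a p p' m - Th θ a j₁ j₂ p p' m‖ ≤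
      2 * ∑ j, (ind ℓ p (a j) m + ind ℓ p' (a j) m) := by
  by_cases h : ∀ j, ¬ (ℓ : ℤ) ∣ (p : ℤ) * (m : ℤ) + a j ∧ ¬ (ℓ : ℤ) ∣ (p' : ℤ) * (m : ℤ) + a j
  · have hL : ∀ j, Lm (f j) (φ j) (t j) (ℓ ^ i) (a j) p p' m =
        φ j (((p : ℤ) * (m : ℤ) + a j : ℤ) : ZMod (ℓ ^ κ)) *
        conj (φ j (((p' : ℤ) * (m : ℤ) + a j : ℤ) : ZMod (ℓ ^ κ))) := by
      intro j
      unfold Lm
      rw [TPY.CA_.xz_unit hℓ (φ j) (hf j) (t j) (h j).1,
        TPY.CA_.xz_unit hℓ (φ j) (hf j) (t j) (h j).2]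
    have hP : Lk f φ t (ℓ ^ i) a p p' m = Th θ a j₁ j₂ p p' m := by
      unfold Lk
      rw [Finset.prod_eq_mul j₂ j₁ hne.symm]
      · rw [hL, hL, h1 _ _ (h j₁).1, h1 _ _ (h j₁).2, h1 _ _ (h j₂).1, h1 _ _ (h j₂).2]
        unfold Th EllTw.ch
        push_cast
        rfl
      · intro j _ hj
        rw [hL, h2 j hj.2 hj.1 _ (h j).1, h2 j hj.2 hj.1 _ (h j).2, map_one, mul_one]
      · intro hn
        exact absurd (Finset.mem_univ _) hn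
      · intro hn
        exact absurd (Finset.mem_univ _) hn
    rw [hP, sub_self, norm_zero]
    have := Finset.sum_nonneg (s := (Finset.univ : Finset (Fin k)))
      (f := fun j => ind ℓ p (a j) m + ind ℓ p' (a j) m)
      (fun j _ => add_nonneg (ind_nonneg _ _ _ _) (ind_nonneg _ _ _ _))
    linarith
  · have hS : (1 : ℝ) ≤ ∑ j, (ind ℓ p (a j) m + ind ℓ p' (a j) m) := by
      push Not at h
      obtain ⟨j, hj⟩ := h
      have h3 : (1 : ℝ) ≤ ind ℓ p (a j) m + ind ℓ p' (a j) m := by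
        by_cases h4 : (ℓ : ℤ) ∣ (p : ℤ) * (m : ℤ) + a j
        · rw [ind_one h4]
          linarith [ind_nonneg ℓ p' (a j) m]
        · rw [ind_one (hj h4)]
          linarith [ind_nonneg ℓ p (a j) m]
      refine h3.trans ?_
      exact Finset.single_le_sum (f := fun j => ind ℓ p (a j) m + ind ℓ p' (a j) m)
        (fun j _ => add_nonneg (ind_nonneg _ _ _ _) (ind_nonneg _ _ _ _)) (Finset.mem_univ j)
    have h5 := norm_sub_le (Lk f φ t (ℓ ^ i) a p p' m) (Th θ a j₁ j₂ p p' m)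
    have h6 := norm_Lk_le f hf φ t (ℓ ^ i) a p p' m
    have h7 := norm_Th θ a j₁ j₂ p p' m
    linarith

lemma core {k ℓ i κ p p' : ℕ} (hℓ : ℓ.Prime) (hκ : 1 ≤ κ)
    (hp : ¬ ℓ ∣ p) (hp' : ¬ ℓ ∣ p') (a : Fin k → ℤ)
    (φ : Fin k → DirichletCharacter ℂ (ℓ ^ κ)) (θ : Fin k → DirichletCharacter ℂ ℓ)
    (j₁ j₂ : Fin k) (hne : j₁ ≠ j₂) (f : Fin k → ℕ → ℂ) (t : Fin k → ℝ)
    (h1 : ∀ j, ∀ n : ℤ, ¬ (ℓ : ℤ) ∣ n → φ j (n : ZMod (ℓ ^ κ)) = θ j (n : ZMod ℓ))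
    (h2 : ∀ j, j ≠ j₁ → j ≠ j₂ → ∀ n : ℤ, ¬ (ℓ : ℤ) ∣ n → φ j (n : ZMod (ℓ ^ κ)) = 1)
    (hf : ∀ j, MB (f j)) :
    ‖mean (ℓ ^ i * ℓ ^ κ) (Lk f φ t (ℓ ^ i) a p p')‖ ≤
      (‖∑ m ∈ Finset.range ℓ, Th θ a j₁ j₂ p p' m‖ + 4 * k) / ℓ := by
  have hℓ0 : (0 : ℝ) < ℓ := by exact_mod_cast hℓ.pos
  have hℓ1 : (1 : ℝ) ≤ ℓ := by exact_mod_cast hℓ.one_lt.le
  have hNZ : NeZero ℓ := ⟨hℓ.ne_zero⟩
  obtain ⟨l, hl⟩ : ∃ l, i + κ = l + 1 := ⟨i + κ - 1, by omega⟩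
  have e1 : ℓ ^ i * ℓ ^ κ = ℓ * ℓ ^ l := by rw [← pow_add, hl, pow_succ']
  have hch : ∀ (ψ : DirichletCharacter ℂ ℓ) (b : ℤ) (p m : ℕ),
      EllTw.ch ψ b (p * (m + ℓ)) = EllTw.ch ψ b (p * m) := by
    intro ψ b p m
    unfold EllTw.ch
    congr 1
    push_cast
    rw [ZMod.natCast_self, add_zero]
  have hper : Per ℓ (Th θ a j₁ j₂ p p') := by
    intro m
    unfold Th
    rw [hch, hch, hch, hch]
  have hS : ∑ m ∈ range (ℓ ^ i * ℓ ^ κ), Th θ a j₁ j₂ p p' m =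
      ((ℓ ^ l : ℕ) : ℂ) * ∑ m ∈ range ℓ, Th θ a j₁ j₂ p p' m := by
    rw [e1, EllTw.MEAN_.sum_range_mul_per hper]
  have hfin : ‖∑ m ∈ range (ℓ ^ i * ℓ ^ κ),
      (Lk f φ t (ℓ ^ i) a p p' m - Th θ a j₁ j₂ p p' m)‖ ≤ 4 * k * (ℓ : ℝ) ^ l := by
    refine (norm_sum_le _ _).trans
      ((Finset.sum_le_sum fun m _ => pt (i := i) hℓ a φ θ j₁ j₂ hne f t h1 h2 hf m).trans ?_)
    rw [← Finset.mul_sum, Finset.sum_comm, e1]
    have h3 : ∀ j : Fin k, ∑ m ∈ range (ℓ * ℓ ^ l), (ind ℓ p (a j) m + ind ℓ p' (a j) m) ≤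
        2 * (ℓ : ℝ) ^ l := by
      intro j
      rw [Finset.sum_add_distrib]
      have g1 := MEA_.count hℓ p 0 1 l (a j) hp hℓ.not_dvd_one
      have g2 := MEA_.count hℓ p' 0 1 l (a j) hp' hℓ.not_dvd_one
      simp only [zero_add, one_mul] at g1 g2
      unfold ind
      linarith
    have h4 := Finset.sum_le_sum (s := (Finset.univ : Finset (Fin k))) fun j _ => h3 j
    rw [Finset.sum_const, Finset.card_univ, Fintype.card_fin, nsmul_eq_mul] at h4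
    linarith
  rw [Finset.sum_sub_distrib, hS] at hfin
  have hb : ‖((ℓ ^ l : ℕ) : ℂ) * ∑ m ∈ range ℓ, Th θ a j₁ j₂ p p' m‖ =
      (ℓ : ℝ) ^ l * ‖∑ m ∈ range ℓ, Th θ a j₁ j₂ p p' m‖ := by
    rw [norm_mul, Complex.norm_natCast]
    push_cast
    rfl
  have htri := norm_sub_norm_le (∑ m ∈ range (ℓ ^ i * ℓ ^ κ), Lk f φ t (ℓ ^ i) a p p' m)
    (((ℓ ^ l : ℕ) : ℂ) * ∑ m ∈ range ℓ, Th θ a j₁ j₂ p p' m)
  unfold mean
  rw [norm_div, Complex.norm_natCast]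
  have e3 : ((ℓ ^ i * ℓ ^ κ : ℕ) : ℝ) = ℓ * (ℓ : ℝ) ^ l := by
    rw [e1]
    push_cast
    ring
  rw [e3, div_le_div_iff₀ (by positivity) hℓ0]
  set S := ‖∑ m ∈ range ℓ, Th θ a j₁ j₂ p p' m‖ with hSd
  have h6 : ‖∑ m ∈ range (ℓ ^ i * ℓ ^ κ), Lk f φ t (ℓ ^ i) a p p' m‖ ≤
      (S + 4 * k) * (ℓ : ℝ) ^ l := by
    rw [hb] at htri
    linarith
  calc _ ≤ (S + 4 * k) * (ℓ : ℝ) ^ l * ℓ := mul_le_mul_of_nonneg_right h6 hℓ0.le
    _ = _ := by ring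

lemma sum_zmod (ℓ : ℕ) [NeZero ℓ] (F : ZMod ℓ → ℂ) :
    ∑ m ∈ range ℓ, F (m : ZMod ℓ) = ∑ x, F x := by
  refine Finset.sum_nbij' (fun m => (m : ZMod ℓ)) (fun x => x.val) ?_ ?_ ?_ ?_ ?_
  · intro m _
    exact Finset.mem_univ _
  · intro x _
    exact Finset.mem_range.2 (ZMod.val_lt x)
  · intro m hm
    exact ZMod.val_natCast_of_lt (Finset.mem_range.1 hm)
  · intro x _
    exact ZMod.natCast_zmod_val x
  · intro m _
    rfl

/-- small nonzero integers are nonzero modulo `ℓ` -/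
lemma ne_of_small {ℓ : ℕ} {x : ℤ} (hx : x ≠ 0) (h : |x| < (ℓ : ℤ)) : (x : ZMod ℓ) ≠ 0 := by
  intro h0
  rw [ZMod.intCast_zmod_eq_zero_iff_dvd] at h0
  exact hx (Int.eq_zero_of_abs_lt_dvd h0 h)

/-- `p' b ≠ p a` for small `a`, `b` -/
lemma cross {p p' : ℕ} (hp : p.Prime) (hp' : p'.Prime) (hne : p ≠ p') {x y : ℤ} (hx : x ≠ 0)
    (hxp : |x| < (p : ℤ)) : (p' : ℤ) * x - p * y ≠ 0 := by
  intro h
  have h1 : (p : ℤ) ∣ p' * x := ⟨y, by linarith⟩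
  have h2 : ¬ (p : ℤ) ∣ (p' : ℤ) := by
    intro h3
    exact hne ((Nat.prime_dvd_prime_iff_eq hp hp').1 (by exact_mod_cast h3))
  rcases (Nat.prime_iff_prime_int.1 hp).dvd_or_dvd h1 with h3 | h3
  · exact h2 h3
  · exact hx (Int.eq_zero_of_abs_lt_dvd h3 hxp)

lemma abs_cross {p p' : ℕ} {x y : ℤ} (hx : |x| < (p : ℤ)) (hy : |y| < (p' : ℤ)) :
    |(p' : ℤ) * x - p * y| ≤ 2 * p * p' := by
  have h1 : |(p' : ℤ) * x| ≤ p' * p := by
    rw [abs_mul, Nat.abs_cast]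
    exact mul_le_mul_of_nonneg_left hx.le (by positivity)
  have h2 : |(p : ℤ) * y| ≤ p * p' := by
    rw [abs_mul, Nat.abs_cast]
    exact mul_le_mul_of_nonneg_left hy.le (by positivity)
  have h3 := abs_sub (((p' : ℤ) * x)) ((p : ℤ) * y)
  linarith

end KC2_

open KC2_ in
/-- KC2 -/
theorem prove_KC2 (h1 : T_GD) : T_KC2 := by
  obtain ⟨C, hC, hGD⟩ := h1
  intro k a p p' hinj ha hp hp' hne hap hap'
  refine ⟨2 ^ 31 * (C + (4 * k) ^ 32), 2 * p * p' + p + p', by positivity, ?_⟩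
  intro ℓ i c κ φ θ j₁ j₂ f t hℓ hz hc hκ hj hprim hφ1 hφ2 hf
  have main : ∀ (r : ℕ) (τ : Fin k → DirichletCharacter ℂ r), r = ℓ → (τ j₁).IsPrimitive →
      (∀ j, ∀ n : ℤ, ¬ (ℓ : ℤ) ∣ n → φ j (n : ZMod (ℓ ^ κ)) = τ j (n : ZMod r)) →
      ‖mean (ℓ ^ i * ℓ ^ κ) (Lk f φ t (ℓ ^ i) a p p')‖ ^ 32 ≤
        2 ^ 31 * (C + (4 * k) ^ 32) / ℓ := by
    intro r τ hrl hprim' hφ1'
    subst hrl
    have hF : Fact r.Prime := ⟨hℓ⟩
    have hNZ : NeZero r := ⟨hℓ.ne_zero⟩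
    have hℓ0 : (0 : ℝ) < r := by exact_mod_cast hℓ.pos
    have hℓ1 : (1 : ℝ) ≤ r := by exact_mod_cast hℓ.one_lt.le
    have hp0 := hp.pos
    have hp0' := hp'.pos
    have hzZ : 2 * (p : ℤ) * p' + p + p' < r := by exact_mod_cast hz
    have hpp : (0 : ℤ) ≤ 2 * (p : ℤ) * p' := by positivity
    have hpz : (0 : ℤ) < p := by exact_mod_cast hp0
    have hpz' : (0 : ℤ) < p' := by exact_mod_cast hp0'
    have hlp : ¬ r ∣ p := by
      intro h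
      have := Nat.le_of_dvd hp0 h
      have : (r : ℤ) ≤ p := by exact_mod_cast this
      linarith
    have hlp' : ¬ r ∣ p' := by
      intro h
      have := Nat.le_of_dvd hp0' h
      have : (r : ℤ) ≤ p' := by exact_mod_cast this
      linarith
    have hθ : τ j₁ ≠ 1 := by
      intro h
      rw [h, DirichletCharacter.isPrimitive_def, DirichletCharacter.conductor_one]
        at hprim'
      exact hℓ.one_lt.ne hprim'
    -- the conditions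
    have c1 : (p : ZMod r) ≠ 0 := by
      have := ne_of_small (ℓ := r) (x := (p : ℤ)) hpz.ne' (by rw [abs_of_pos hpz]; linarith)
      exact_mod_cast this
    have c2 : (p' : ZMod r) ≠ 0 := by
      have := ne_of_small (ℓ := r) (x := (p' : ℤ)) hpz'.ne' (by rw [abs_of_pos hpz']; linarith)
      exact_mod_cast this
    have c3 : ∀ j, (a j : ZMod r) ≠ 0 := fun j => ne_of_small (ha j) (by
      have := hap j
      linarith)
    have c4 : (p : ZMod r) ≠ p' := by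
      have h3 : (p : ℤ) - p' ≠ 0 := by
        intro h
        exact hne (by exact_mod_cast sub_eq_zero.1 h)
      have h4 : |(p : ℤ) - p'| < (r : ℤ) := by
        rw [abs_lt]
        constructor <;> linarith
      have := ne_of_small h3 h4
      intro h
      apply this
      push_cast
      rw [h, sub_self]
    have c5 : (a j₂ : ZMod r) ≠ a j₁ := by
      have h3 : a j₂ - a j₁ ≠ 0 := fun h => hj (hinj (sub_eq_zero.1 h).symm)
      have h4 : |a j₂ - a j₁| < (r : ℤ) := by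
        have h5 := abs_sub (a j₂) (a j₁)
        have h6 := hap j₂
        have h7 := hap' j₁
        linarith
      have := ne_of_small h3 h4
      intro h
      apply this
      push_cast
      rw [h, sub_self]
    have c6 : (p' : ZMod r) * a j₁ ≠ p * a j₂ := by
      have h3 := cross hp hp' hne (y := a j₂) (ha j₁) (hap j₁)
      have h4 := abs_cross (hap j₁) (hap' j₂)
      have := ne_of_small (ℓ := r) h3 (by linarith)
      intro h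
      apply this
      push_cast
      rw [h, sub_self]
    have c7 : (p' : ZMod r) * a j₂ ≠ p * a j₁ := by
      have h3 := cross hp hp' hne (y := a j₁) (ha j₂) (hap j₂)
      have h4 := abs_cross (hap j₂) (hap' j₁)
      have := ne_of_small (ℓ := r) h3 (by linarith)
      intro h
      apply this
      push_cast
      rw [h, sub_self]
    have g := hGD r (τ j₂) (τ j₁) p p' (a j₂) (a j₁) hθ c1 c2 (c3 j₂) (c3 j₁) c4 c5 c6 c7
    have hsum : ∑ m ∈ Finset.range r, Th τ a j₁ j₂ p p' m =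
        ∑ m : ZMod r, τ j₂ ((p : ZMod r) * m + (a j₂ : ZMod r)) *
          conj (τ j₂ ((p' : ZMod r) * m + (a j₂ : ZMod r))) *
          (τ j₁ ((p : ZMod r) * m + (a j₁ : ZMod r)) *
            conj (τ j₁ ((p' : ZMod r) * m + (a j₁ : ZMod r)))) := by
      rw [← sum_zmod r]
      refine Finset.sum_congr rfl fun m _ => ?_
      unfold Th EllTw.ch
      push_cast
      rfl
    rw [← hsum] at g
    have hcore := core hℓ hκ hlp hlp' a φ τ j₁ j₂ hj f t hφ1' hφ2 hf (i := i)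
    set S := ‖∑ m ∈ Finset.range r, Th τ a j₁ j₂ p p' m‖ with hS
    have hS0 : 0 ≤ S := norm_nonneg _
    have hk0 : (0 : ℝ) ≤ 4 * k := by positivity
    calc ‖mean (r ^ i * r ^ κ) (Lk f φ t (r ^ i) a p p')‖ ^ 32
        ≤ ((S + 4 * k) / r) ^ 32 := pow_le_pow_left₀ (norm_nonneg _) hcore 32
      _ = (S + 4 * k) ^ 32 / (r : ℝ) ^ 32 := div_pow _ _ _
      _ ≤ (2 ^ 31 * (S ^ 32 + (4 * k) ^ 32)) / (r : ℝ) ^ 32 := by
          gcongr
          exact add_pow_le hS0 hk0 32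
      _ ≤ (2 ^ 31 * (C * (r : ℝ) ^ 31 + (4 * k) ^ 32 * (r : ℝ) ^ 31)) / (r : ℝ) ^ 32 := by
          have h31 : (1 : ℝ) ≤ (r : ℝ) ^ 31 := one_le_pow₀ hℓ1
          have h32 : ((4 * k : ℝ)) ^ 32 ≤ (4 * k) ^ 32 * (r : ℝ) ^ 31 :=
            le_mul_of_one_le_right (by positivity) h31
          gcongr
      _ = 2 ^ 31 * (C + (4 * k) ^ 32) / r := by
          field_simp
  exact main (ℓ ^ c) θ (by rw [hc, pow_one]) hprim hφ1

end Pool.Agent.TPK
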