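import Pool.Agent.TPK.Targets3
import Pool.Agent.TPK.KMN
import Pool.Agent.TPK.KDL

set_option autoImplicit false

/-! The mean of the cross product of `k` structured functions is small if some conductor is
divisible by a large prime power `ℓ ^ c`, with `c ≥ 2` or `ℓ` private. -/

namespace Pool.Agent.TPK

open Finset Filter Pool.Agent.Ell Pool.Agent.TPM Pool.Agent.TPX
open scoped BigOperators ComplexConjugate

namespace KM4_

/-- lifting all characters to the largest exponent -/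
theorem lift {k ℓ κ : ℕ} (hℓ : ℓ.Prime) (φ : Fin k → DirichletCharacter ℂ (ℓ ^ κ))
    (c : Fin k → ℕ) (φ' : ∀ j, DirichletCharacter ℂ (ℓ ^ c j)) (hp : ∀ j, (φ' j).IsPrimitive)
    (h : ∀ j, ∀ n : ℤ, ¬ (ℓ : ℤ) ∣ n → φ j (n : ZMod (ℓ ^ κ)) = φ' j (n : ZMod (ℓ ^ c j)))
    (j₀ : Fin k) :
    ∃ (j₁ : Fin k) (θ : Fin k → DirichletCharacter ℂ (ℓ ^ c j₁)), (∀ j, c j ≤ c j₁) ∧
      (θ j₁).IsPrimitive ∧
      ∀ j, ∀ n : ℤ, ¬ (ℓ : ℤ) ∣ n → φ j (n : ZMod (ℓ ^ κ)) = θ j (n : ZMod (ℓ ^ c j₁)) := by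
  have : Nonempty (Fin k) := ⟨j₀⟩
  obtain ⟨j₁, hj₁⟩ := Finite.exists_max c
  refine ⟨j₁, fun j => DirichletCharacter.changeLevel (pow_dvd_pow ℓ (hj₁ j)) (φ' j), hj₁, ?_, ?_⟩
  · have : DirichletCharacter.changeLevel (pow_dvd_pow ℓ (hj₁ j₁)) (φ' j₁) = φ' j₁ :=
      DirichletCharacter.changeLevel_self (φ' j₁)
    show (DirichletCharacter.changeLevel (pow_dvd_pow ℓ (hj₁ j₁)) (φ' j₁)).IsPrimitive
    rw [this]
    exact hp j₁
  · intro j n hn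
    rw [h j n hn]
    refine (KDL_.lift_int _ (φ' j) n ?_).symm
    have h1 : IsCoprime n (ℓ : ℤ) := by
      have h2 : Prime (ℓ : ℤ) := Nat.prime_iff_prime_int.1 hℓ
      exact ((Prime.coprime_iff_not_dvd h2).2 hn).symm
    push_cast
    exact h1.pow_right

end KM4_

open KMN_ KM4_ in
theorem prove_KM4 (h1 : T_KFC) (h2 : T_KRD) (h3 : T_KCA) (hA : T_VA) (hB : T_VB) (h5 : T_XZW) :
    T_KM4 := by
  intro k a p p' η hinj ha hp hp' hne hpa hpa' hη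
  obtain ⟨K1, hK1, H1⟩ := h3 k a p p' ha hp hp' hne
  obtain ⟨K3, z3, hK3, H3⟩ := hA k a p p' hinj ha hp hp' hne hpa hpa'
  refine ⟨max (max (⌈K1 / η⌉₊) (max z3 ⌈K3 / η⌉₊)) (max p p'), ?_⟩
  intro z V hz
  have hz1 : ⌈K1 / η⌉₊ ≤ z := ((le_max_left _ _).trans (le_max_left _ _)).trans hz
  have hz4 : z3 ≤ z :=
    ((le_max_left _ _).trans ((le_max_right _ _).trans (le_max_left _ _))).trans hz
  have hz5 : ⌈K3 / η⌉₊ ≤ z :=
    ((le_max_right _ _).trans ((le_max_right _ _).trans (le_max_left _ _))).trans hz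
  have hz2 : p ≤ z := ((le_max_left _ _).trans (le_max_right _ _)).trans hz
  have hz3 : p' ≤ z := ((le_max_right _ _).trans (le_max_right _ _)).trans hz
  obtain ⟨R1, H2⟩ := hB k a p p' (Rep.Q1 z V * (z + 1)) η hinj ha hp hp' hne hpa hpa' hη
  refine ⟨R1 + 1, ?_⟩
  intro Y M q χ Ψ f t hM hχ hbig hf
  obtain ⟨j, ℓ, e, hℓ, hRe, heq, hcase⟩ := hbig
  obtain ⟨x1, -, -, -⟩ := h5 z V Y M hM
  have he0 : e ≠ 0 := by
    rintro rfl
    rw [pow_zero] at hRe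
    omega
  have hℓj : ℓ ∣ q j := (dvd_pow_self ℓ he0).trans heq
  obtain ⟨i, κ, D', c, φ', φ, g, hD, hc1, hall, hg, hm⟩ :=
    red h1 h2 a p p' f t hf ℓ hℓ M _ hM x1 q χ Ψ hχ j hℓj
  have hec : e ≤ c j := by
    by_contra hcon
    exact (hall j).2.2.1 ((pow_dvd_pow ℓ (by omega)).trans heq)
  obtain ⟨j₁, θ, hmax, hθp, hθ⟩ := lift hℓ φ c φ' (fun j => (hall j).2.2.2.1)
    (fun j => (hall j).2.2.2.2) j
  have hec1 : e ≤ c j₁ := hec.trans (hmax j)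
  refine hm.trans ?_
  by_cases hℓz : ℓ ≤ z
  · refine H2 ℓ i (c j₁) κ φ θ j₁ g t hℓ ?_ (hall j₁).1 hθp hθ hg (TPY.MNN_.small hℓ hℓz hD)
    calc R1 < ℓ ^ e := by omega
      _ ≤ ℓ ^ c j₁ := Nat.pow_le_pow_right hℓ.pos hec1
  · have hℓ0 : (0 : ℝ) < ℓ := by exact_mod_cast hℓ.pos
    rcases Nat.lt_or_ge e 2 with he2 | he2
    · have hpriv : ∀ i, i ≠ j → ¬ ℓ ∣ q i := by
        rcases hcase with h | h
        · omega
        · exact h
      have hnp : ¬ ℓ ∣ p := fun h => by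
        have := Nat.le_of_dvd hp.pos h
        omega
      have hnp' : ¬ ℓ ∣ p' := fun h => by
        have := Nat.le_of_dvd hp'.pos h
        omega
      have hoth : ∀ i, i ≠ j → ∀ n : ℤ, ¬ (ℓ : ℤ) ∣ n → φ i (n : ZMod (ℓ ^ κ)) = 1 := by
        intro i hi n hn
        rw [(hall i).2.2.2.2 n hn]
        refine triv ?_ (φ' i) n
        rcases Nat.eq_zero_or_pos (c i) with h0 | h0
        · rw [h0, pow_zero]
        · exact absurd ((dvd_pow_self ℓ h0.ne').trans (hall i).2.1) (hpriv i hi)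
      refine ((H1 ℓ i (c j) κ φ (φ' j) j g t hℓ hc1 (hall j).1 (hall j).2.2.2.1
        (hall j).2.2.2.2 hoth hg hnp hnp').trans ?_)
      have h3 : K1 / η ≤ ℓ :=
        (Nat.le_ceil _).trans (by exact_mod_cast (by omega : ⌈K1 / η⌉₊ ≤ ℓ))
      rw [div_le_iff₀ hη] at h3
      rw [div_le_iff₀ hℓ0]
      linarith
    · refine (H3 ℓ i (c j₁) κ φ θ j₁ g t hℓ (by omega) (he2.trans hec1) (hall j₁).1 hθp hθ
        hg).trans ?_
      have h3 : K3 / η ≤ ℓ :=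
        (Nat.le_ceil _).trans (by exact_mod_cast (by omega : ⌈K3 / η⌉₊ ≤ ℓ))
      rw [div_le_iff₀ hη] at h3
      rw [div_le_iff₀ hℓ0]
      linarith

end Pool.Agent.TPK
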