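import Pool.Agent.TPK.Targets5
import Pool.Agent.TPK.KM4

set_option autoImplicit false

/-! The mean of the cross product of `k` structured functions is small if some conductor is
divisible by a large prime power `ℓ ^ c`, with `c ≥ 2` or `ℓ` dividing at most one other. -/

namespace Pool.Agent.TPK

open Finset Filter Pool.Agent.Ell Pool.Agent.TPM Pool.Agent.TPX
open scoped BigOperators ComplexConjugate



open KMN_ KM4_ in
theorem prove_KM5 (h1 : T_KFC) (h2 : T_KRD) (h3 : T_KCA) (hA : T_VA) (hB : T_VB) (hC : T_KC2)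
    (h5 : T_XZW) : T_KM5 := by
  intro k a p p' η hinj ha hp hp' hne hpa hpa' hη
  obtain ⟨K1, hK1, H1⟩ := h3 k a p p' ha hp hp' hne
  obtain ⟨K3, z3, hK3, H3⟩ := hA k a p p' hinj ha hp hp' hne hpa hpa'
  obtain ⟨K4, z4, hK4, H4⟩ := hC k a p p' hinj ha hp hp' hne hpa hpa'
  refine ⟨max (max (max (⌈K1 / η⌉₊) (max z3 ⌈K3 / η⌉₊)) (max p p')) (max z4 ⌈K4 / η ^ 32⌉₊), ?_⟩
  intro z V hz'
  have hz : max (max (⌈K1 / η⌉₊) (max z3 ⌈K3 / η⌉₊)) (max p p') ≤ z := (le_max_left _ _).trans hz'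
  have hz6 : z4 ≤ z := ((le_max_left _ _).trans (le_max_right _ _)).trans hz'
  have hz7 : ⌈K4 / η ^ 32⌉₊ ≤ z := ((le_max_right _ _).trans (le_max_right _ _)).trans hz'
  have hz1 : ⌈K1 / η⌉₊ ≤ z := ((le_max_left _ _).trans (le_max_left _ _)).trans hz
  have hz4 : z3 ≤ z :=
    ((le_max_left _ _).trans ((le_max_right _ _).trans (le_max_left _ _))).trans hz
  have hz5 : ⌈K3 / η⌉₊ ≤ z :=
    ((le_max_right _ _).trans ((le_max_right _ _).trans (le_max_left _ _))).trans hz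
  have hz2 : p ≤ z := ((le_max_left _ _).trans (le_max_right _ _)).trans hz
  have hz3 : p' ≤ z := ((le_max_right _ _).trans (le_max_right _ _)).trans hz
  obtain ⟨R1, H2⟩ := hB k a p p' (Rep.Q1 z V * (z + 1)) η hinj ha hp hp' hne hpa hpa' hη
  refine ⟨R1 + 1, ?_⟩
  intro Y M q χ Ψ f t hM hχ hbig hf
  obtain ⟨j, ℓ, e, hℓ, hRe, heq, hcase⟩ := hbig
  obtain ⟨x1, -, -, -⟩ := h5 z V Y M hM
  have he0 : e ≠ 0 := by
    rintro rfl
    rw [pow_zero] at hRe
    omega
  have hℓj : ℓ ∣ q j := (dvd_pow_self ℓ he0).trans heq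
  obtain ⟨i, κ, D', c, φ', φ, g, hD, hc1, hall, hg, hm⟩ :=
    red h1 h2 a p p' f t hf ℓ hℓ M _ hM x1 q χ Ψ hχ j hℓj
  have hec : e ≤ c j := by
    by_contra hcon
    exact (hall j).2.2.1 ((pow_dvd_pow ℓ (by omega)).trans heq)
  obtain ⟨j₁, θ, hmax, hθp, hθ⟩ := lift hℓ φ c φ' (fun j => (hall j).2.2.2.1)
    (fun j => (hall j).2.2.2.2) j
  have hec1 : e ≤ c j₁ := hec.trans (hmax j)
  refine hm.trans ?_
  by_cases hℓz : ℓ ≤ z
  · refine H2 ℓ i (c j₁) κ φ θ j₁ g t hℓ ?_ (hall j₁).1 hθp hθ hg (TPY.MNN_.small hℓ hℓz hD)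
    calc R1 < ℓ ^ e := by omega
      _ ≤ ℓ ^ c j₁ := Nat.pow_le_pow_right hℓ.pos hec1
  · have hℓ0 : (0 : ℝ) < ℓ := by exact_mod_cast hℓ.pos
    rcases Nat.lt_or_ge (c j₁) 2 with he2 | he2
    · -- all exponents are at most one
      have hc1' : c j₁ = 1 := by
        have := hmax j
        omega
      obtain ⟨i₀, hpriv⟩ : ∃ i₀, ∀ i, i ≠ j → i ≠ i₀ → ¬ ℓ ∣ q i := by
        rcases hcase with h | h
        · omega
        · exact h
      have hnp : ¬ ℓ ∣ p := fun h => by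
        have := Nat.le_of_dvd hp.pos h
        omega
      have hnp' : ¬ ℓ ∣ p' := fun h => by
        have := Nat.le_of_dvd hp'.pos h
        omega
      have hcj : c j = 1 := by
        have := hmax j
        omega
      have hoth : ∀ i, i ≠ j → i ≠ i₀ → ∀ n : ℤ, ¬ (ℓ : ℤ) ∣ n →
          φ i (n : ZMod (ℓ ^ κ)) = 1 := by
        intro i hi hi0 n hn
        rw [(hall i).2.2.2.2 n hn]
        refine triv ?_ (φ' i) n
        rcases Nat.eq_zero_or_pos (c i) with h0 | h0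
        · rw [h0, pow_zero]
        · exact absurd ((dvd_pow_self ℓ h0.ne').trans (hall i).2.1) (hpriv i hi hi0)
      by_cases hij : i₀ = j
      · have hoth' : ∀ i, i ≠ j → ∀ n : ℤ, ¬ (ℓ : ℤ) ∣ n → φ i (n : ZMod (ℓ ^ κ)) = 1 :=
          fun i hi => hoth i hi (fun h => hi (h.trans hij))
        refine ((H1 ℓ i (c j) κ φ (φ' j) j g t hℓ hc1 (hall j).1 (hall j).2.2.2.1
          (hall j).2.2.2.2 hoth' hg hnp hnp').trans ?_)
        have h3 : K1 / η ≤ ℓ :=
          (Nat.le_ceil _).trans (by exact_mod_cast (by omega : ⌈K1 / η⌉₊ ≤ ℓ))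
        rw [div_le_iff₀ hη] at h3
        rw [div_le_iff₀ hℓ0]
        linarith
      · have hmaxj : ∀ i, c i ≤ c j := fun i => by
          have := hmax i
          omega
        have hθ' : ∀ i, ∀ n : ℤ, ¬ (ℓ : ℤ) ∣ n → φ i (n : ZMod (ℓ ^ κ)) =
            DirichletCharacter.changeLevel (pow_dvd_pow ℓ (hmaxj i)) (φ' i)
              (n : ZMod (ℓ ^ c j)) := by
          intro i n hn
          rw [(hall i).2.2.2.2 n hn]
          refine (KDL_.lift_int _ (φ' i) n ?_).symm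
          have h1 : IsCoprime n (ℓ : ℤ) := by
            have h2 : Prime (ℓ : ℤ) := Nat.prime_iff_prime_int.1 hℓ
            exact ((Prime.coprime_iff_not_dvd h2).2 hn).symm
          push_cast
          exact h1.pow_right
        have hpr : (DirichletCharacter.changeLevel (pow_dvd_pow ℓ (hmaxj j)) (φ' j)).IsPrimitive := by
          have : DirichletCharacter.changeLevel (pow_dvd_pow ℓ (hmaxj j)) (φ' j) = φ' j :=
            DirichletCharacter.changeLevel_self (φ' j)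
          rw [this]
          exact (hall j).2.2.2.1
        have h9 := H4 ℓ i (c j) κ φ
          (fun i => DirichletCharacter.changeLevel (pow_dvd_pow ℓ (hmaxj i)) (φ' i)) j i₀ g t hℓ
          (by omega) hcj (hc1.trans (hall j).1) (Ne.symm hij) hpr hθ' hoth hg
        have h3 : K4 / η ^ 32 ≤ ℓ :=
          (Nat.le_ceil _).trans (by exact_mod_cast (by omega : ⌈K4 / η ^ 32⌉₊ ≤ ℓ))
        have hη32 : 0 < η ^ 32 := by positivity
        rw [div_le_iff₀ hη32] at h3
        have h10 : K4 / ℓ ≤ η ^ 32 := by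
          rw [div_le_iff₀ hℓ0]
          linarith
        exact le_of_pow_le_pow_left₀ (by norm_num) hη.le (h9.trans h10)
    · refine (H3 ℓ i (c j₁) κ φ θ j₁ g t hℓ (by omega) he2 (hall j₁).1 hθp hθ
        hg).trans ?_
      have h3 : K3 / η ≤ ℓ :=
        (Nat.le_ceil _).trans (by exact_mod_cast (by omega : ⌈K3 / η⌉₊ ≤ ℓ))
      rw [div_le_iff₀ hη] at h3
      rw [div_le_iff₀ hℓ0]
      linarith

end Pool.Agent.TPK
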