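import Pool.Agent.TPK.Targets3
import Pool.Agent.TPY.CA
import Pool.Agent.TPM.XZ

set_option autoImplicit false

/-! TPK-VA: the mean at a large prime whose square divides one of the conductors. -/

namespace Pool.Agent.TPK

open Finset Filter Pool.Agent.Ell Pool.Agent.TPM Pool.Agent.TPX
open scoped BigOperators ComplexConjugate

namespace VA_

/-- the numbers `m < ℓ * ℓ ^ l` with `ℓ ∣ p m + a` -/
lemma card1 {ℓ : ℕ} (hℓ : ℓ.Prime) (p l : ℕ) (a : ℤ) (hp : ¬ ℓ ∣ p) :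
    ((Finset.range (ℓ * ℓ ^ l)).filter (fun m : ℕ => (ℓ : ℤ) ∣ (p : ℤ) * (m : ℤ) + a)).card ≤
      ℓ ^ l := by
  have g1 := MEA_.count hℓ p 0 1 l a hp hℓ.not_dvd_one
  simp only [zero_add, one_mul] at g1
  rw [← Finset.sum_filter, Finset.sum_const, nsmul_eq_mul, mul_one] at g1
  exact_mod_cast g1

/-- the exceptional set -/
noncomputable def bad {k : ℕ} (ℓ l p p' : ℕ) (a : Fin k → ℤ) (P : Polynomial ℤ) : Finset ℕ :=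
  (Finset.univ.biUnion fun j : Fin k =>
    ((Finset.range (ℓ * ℓ ^ l)).filter (fun m : ℕ => (ℓ : ℤ) ∣ (p : ℤ) * (m : ℤ) + a j)) ∪
    ((Finset.range (ℓ * ℓ ^ l)).filter (fun m : ℕ => (ℓ : ℤ) ∣ (p' : ℤ) * (m : ℤ) + a j))) ∪
  ((Finset.range (ℓ * ℓ ^ l)).filter (fun m : ℕ => (ℓ : ℤ) ^ 1 ∣ P.eval (m : ℤ)))

lemma card_bad {k : ℕ} {ℓ : ℕ} (hℓ : ℓ.Prime) (l p p' : ℕ) (a : Fin k → ℤ) (P : Polynomial ℤ)
    (hp : ¬ ℓ ∣ p) (hp' : ¬ ℓ ∣ p')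
    (h : ((Finset.range (ℓ * ℓ ^ l)).filter
      (fun m : ℕ => (ℓ : ℤ) ^ 1 ∣ P.eval (m : ℤ))).card * ℓ ^ 1 ≤ 2 * k * (ℓ * ℓ ^ l)) :
    (bad ℓ l p p' a P).card ≤ 4 * k * ℓ ^ l := by
  have h1 : ((Finset.range (ℓ * ℓ ^ l)).filter
      (fun m : ℕ => (ℓ : ℤ) ^ 1 ∣ P.eval (m : ℤ))).card ≤ 2 * k * ℓ ^ l := by
    refine Nat.le_of_mul_le_mul_right ?_ hℓ.pos
    simp only [pow_one] at h ⊢
    refine h.trans (le_of_eq ?_)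
    ring
  have h2 : (Finset.univ.biUnion fun j : Fin k =>
    ((Finset.range (ℓ * ℓ ^ l)).filter (fun m : ℕ => (ℓ : ℤ) ∣ (p : ℤ) * (m : ℤ) + a j)) ∪
    ((Finset.range (ℓ * ℓ ^ l)).filter
      (fun m : ℕ => (ℓ : ℤ) ∣ (p' : ℤ) * (m : ℤ) + a j))).card ≤ 2 * k * ℓ ^ l := by
    refine Finset.card_biUnion_le.trans ?_
    refine (Finset.sum_le_card_nsmul _ _ (2 * ℓ ^ l) ?_).trans ?_
    · intro j _
      refine (Finset.card_union_le _ _).trans ?_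
      have g1 := card1 hℓ p l (a j) hp
      have g2 := card1 hℓ p' l (a j) hp'
      omega
    · rw [Finset.card_univ, Fintype.card_fin, smul_eq_mul]
      exact le_of_eq (by ring)
  refine (Finset.card_union_le _ _).trans ?_
  calc _ ≤ 2 * k * ℓ ^ l + 2 * k * ℓ ^ l := Nat.add_le_add h2 h1
    _ = _ := by ring

lemma not_bad {k : ℕ} {ℓ l p p' m : ℕ} {a : Fin k → ℤ} {P : Polynomial ℤ}
    (hm : m < ℓ * ℓ ^ l) (h : m ∉ bad ℓ l p p' a P) :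
    (∀ j, ¬ (ℓ : ℤ) ∣ (p : ℤ) * (m : ℤ) + a j ∧ ¬ (ℓ : ℤ) ∣ (p' : ℤ) * (m : ℤ) + a j) ∧
    ¬ (ℓ : ℤ) ^ 1 ∣ P.eval (m : ℤ) := by
  have hm' := Finset.mem_range.2 hm
  refine ⟨fun j => ⟨fun h1 => h ?_, fun h1 => h ?_⟩, fun h1 => h ?_⟩
  · refine Finset.mem_union_left _ (Finset.mem_biUnion.2 ⟨j, Finset.mem_univ _, ?_⟩)
    exact Finset.mem_union_left _ (Finset.mem_filter.2 ⟨hm', h1⟩)
  · refine Finset.mem_union_left _ (Finset.mem_biUnion.2 ⟨j, Finset.mem_univ _, ?_⟩)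
    exact Finset.mem_union_right _ (Finset.mem_filter.2 ⟨hm', h1⟩)
  · exact Finset.mem_union_right _ (Finset.mem_filter.2 ⟨hm', h1⟩)

lemma per_Lk {k r D : ℕ} (f : Fin k → ℕ → ℂ) (hf : ∀ j, MB (f j))
    (ψ : Fin k → DirichletCharacter ℂ r) (t : Fin k → ℝ) (hD : 1 ≤ D)
    (a : Fin k → ℤ) (p p' : ℕ) : Per (D * r) (Lk f ψ t D a p p') := by
  intro m
  unfold Lk
  exact Finset.prod_congr rfl fun j _ =>
    (prove_XZ.2 r (ψ j) (f j) (t j) D (hf j) hD).2.2.2.1 (a j) p p' m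

lemma norm_Lk {k r D : ℕ} (f : Fin k → ℕ → ℂ) (hf : ∀ j, MB (f j))
    (ψ : Fin k → DirichletCharacter ℂ r) (t : Fin k → ℝ) (hD : 1 ≤ D)
    (a : Fin k → ℤ) (p p' m : ℕ) : ‖Lk f ψ t D a p p' m‖ ≤ 1 := by
  unfold Lk
  rw [norm_prod]
  exact Finset.prod_le_one (fun _ _ => norm_nonneg _) fun j _ =>
    (prove_XZ.2 r (ψ j) (f j) (t j) D (hf j) hD).2.2.2.2.1 (a j) p p' m

/-- the product along the progression -/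
lemma Lk_eq {k ℓ i u κ p p' m s : ℕ} (hℓ : ℓ.Prime) (hu : 1 ≤ u) (a : Fin k → ℤ)
    (φ : Fin k → DirichletCharacter ℂ (ℓ ^ κ)) (θ : Fin k → DirichletCharacter ℂ (ℓ ^ (u + 1)))
    (f : Fin k → ℕ → ℂ) (t : Fin k → ℝ) (hf : ∀ j, MB (f j))
    (h : ∀ j, ∀ n : ℤ, ¬ (ℓ : ℤ) ∣ n → φ j (n : ZMod (ℓ ^ κ)) = θ j (n : ZMod (ℓ ^ (u + 1))))
    (hm : ∀ j, ¬ (ℓ : ℤ) ∣ (p : ℤ) * (m : ℤ) + a j ∧ ¬ (ℓ : ℤ) ∣ (p' : ℤ) * (m : ℤ) + a j) :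
    Lk f φ t (ℓ ^ i) a p p' (m + ℓ ^ u * s) = ∏ j,
      (θ j ((((p : ℤ) * m + a j) + p * (ℓ : ℤ) ^ (u + 2 * 0 - 0) * (s : ℤ) : ℤ) :
          ZMod (ℓ ^ (u + 1))) *
        conj (θ j ((((p' : ℤ) * m + a j) + p' * (ℓ : ℤ) ^ (u + 2 * 0 - 0) * (s : ℤ) : ℤ) :
          ZMod (ℓ ^ (u + 1))))) := by
  have e1 : ∀ q : ℕ, ∀ j, (q : ℤ) * ((m + ℓ ^ u * s : ℕ) : ℤ) + a j =
      ((q : ℤ) * m + a j) + q * (ℓ : ℤ) ^ (u + 2 * 0 - 0) * (s : ℤ) := by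
    intro q j
    simp only [mul_zero, add_zero, Nat.sub_zero]
    push_cast
    ring
  have hd : ∀ q : ℕ, (ℓ : ℤ) ∣ (q : ℤ) * (ℓ : ℤ) ^ (u + 2 * 0 - 0) * (s : ℤ) := by
    intro q
    refine Dvd.dvd.mul_right (Dvd.dvd.mul_left (dvd_pow_self _ ?_) _) _
    omega
  unfold Lk
  refine Finset.prod_congr rfl fun j _ => ?_
  have g1 : ¬ (ℓ : ℤ) ∣ ((p : ℤ) * m + a j) + p * (ℓ : ℤ) ^ (u + 2 * 0 - 0) * (s : ℤ) := by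
    intro g
    exact (hm j).1 ((Int.dvd_add_left (hd p)).1 g)
  have g2 : ¬ (ℓ : ℤ) ∣ ((p' : ℤ) * m + a j) + p' * (ℓ : ℤ) ^ (u + 2 * 0 - 0) * (s : ℤ) := by
    intro g
    exact (hm j).2 ((Int.dvd_add_left (hd p')).1 g)
  unfold Lm
  rw [e1, e1, TPY.CA_.xz_unit hℓ (φ j) (hf j) (t j) g1,
    TPY.CA_.xz_unit hℓ (φ j) (hf j) (t j) g2, h j _ g1, h j _ g2]

end VA_

open VA_ in
theorem prove_VA (h1 : T_VCO) (h2 : T_VPC) (h3 : T_VPV) (h4 : T_VSH) : T_VA := by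
  intro k a p p' ha ha0 hp hp' hne hap hap'
  obtain ⟨hdeg, B0, hB0⟩ := h3 k a p p' ha ha0 hp hp' hne hap hap'
  refine ⟨4 * k + 1, B0 + p + p', by positivity, ?_⟩
  intro ℓ i c κ φ θ j₁ f t hℓ hz hc hcκ hprim hφθ hf
  obtain ⟨u, rfl⟩ : ∃ u, c = u + 1 := ⟨c - 1, by omega⟩
  obtain ⟨l, hl⟩ : ∃ l, i + κ = l + 1 := ⟨i + κ - 1, by omega⟩
  have e1 : ℓ ^ i * ℓ ^ κ = ℓ * ℓ ^ l := by rw [← pow_add, hl, pow_succ']
  have hlp : ¬ ℓ ∣ p := Nat.not_dvd_of_pos_of_lt hp.pos (by omega)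
  have hlp' : ¬ ℓ ∣ p' := Nat.not_dvd_of_pos_of_lt hp'.pos (by omega)
  have hi : 1 ≤ ℓ ^ i := Nat.one_le_pow _ _ hℓ.pos
  have hℓ0 : (0 : ℝ) < ℓ := by exact_mod_cast hℓ.pos
  obtain ⟨K', hK', hV⟩ := h1 k ℓ u 1 0 p p' a θ j₁ hℓ le_rfl (by omega) hprim
  obtain ⟨m₀, hm₀⟩ := hB0 ℓ 0 K' j₁ hℓ hK' (by rw [zero_add, pow_one]; omega)
  have hcard := h2 (PP K' a p p') (2 * k) ℓ 0 1 1 m₀ hℓ (hdeg K') hm₀ le_rfl (by simp)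
    (ℓ * ℓ ^ l) (by rw [pow_one]; exact Dvd.intro _ rfl)
  have hS := card_bad hℓ l p p' a (PP K' a p p') hlp hlp' hcard
  have hfin := h4 (ℓ ^ i * ℓ ^ κ) (ℓ ^ u) ℓ (Lk f φ t (ℓ ^ i) a p p')
    (bad ℓ l p p' a (PP K' a p p')) (by rw [← pow_add]; exact Nat.one_le_pow _ _ hℓ.pos)
    hℓ.one_lt.le (per_Lk f hf φ t hi a p p') (norm_Lk f hf φ t hi a p p') ?_
  · refine hfin.trans ?_
    have e3 : ((ℓ ^ i * ℓ ^ κ : ℕ) : ℝ) = ℓ * (ℓ : ℝ) ^ l := by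
      rw [e1]
      push_cast
      ring
    have hS' : ((bad ℓ l p p' a (PP K' a p p')).card : ℝ) ≤ 4 * k * (ℓ : ℝ) ^ l := by
      exact_mod_cast hS
    rw [e3, div_le_div_iff₀ (by positivity) hℓ0]
    calc _ ≤ (4 * k * (ℓ : ℝ) ^ l) * ℓ := mul_le_mul_of_nonneg_right hS' hℓ0.le
      _ ≤ _ := by
        have : 0 ≤ (ℓ : ℝ) * (ℓ : ℝ) ^ l := by positivity
        nlinarith
  · intro m hm hmS
    rw [e1] at hm
    obtain ⟨g1, g2⟩ := not_bad hm hmS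
    have hV' := hV m (fun _ => 0) (fun _ => 0) (fun j => (p : ℤ) * m + a j)
      (fun j => (p' : ℤ) * m + a j) (fun j => ⟨by simp, by simp, (g1 j).1, (g1 j).2, le_rfl,
        le_rfl⟩) (by simpa using g2)
    rw [pow_one] at hV'
    rw [← hV']
    refine Finset.sum_congr rfl fun s _ => ?_
    exact Lk_eq hℓ (by omega) a φ θ f t hf hφθ g1

end Pool.Agent.TPK
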