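import Pool.Agent.TPK.Targets3
import Pool.Agent.TPK.KCB

set_option autoImplicit false

/-! TPK-VB: the mean at a bounded prime if one conductor is divisible by a high power of it. -/

namespace Pool.Agent.TPK

open Finset Filter Pool.Agent.Ell Pool.Agent.TPM Pool.Agent.TPX
open scoped BigOperators ComplexConjugate

namespace VB_

lemma split {ℓ : ℕ} (hℓ : ℓ.Prime) (i : ℕ) (n : ℤ) : ∃ (ε : ℕ) (ν : ℤ), ε ≤ i ∧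
    Int.gcd n ((ℓ ^ i : ℕ) : ℤ) = ℓ ^ ε ∧ n = (ℓ : ℤ) ^ ε * ν := by
  have h1 : Int.gcd n ((ℓ ^ i : ℕ) : ℤ) ∣ ℓ ^ i :=
    Int.natCast_dvd_natCast.1 (Int.gcd_dvd_right _ _)
  obtain ⟨ε, hε, h2⟩ := (Nat.dvd_prime_pow hℓ).1 h1
  have h3 : ((Int.gcd n ((ℓ ^ i : ℕ) : ℤ) : ℕ) : ℤ) ∣ n := Int.gcd_dvd_left _ _
  rw [h2] at h3
  obtain ⟨ν, hν⟩ := h3
  refine ⟨ε, ν, hε, h2, ?_⟩
  rw [hν]
  push_cast
  ring

/-- the factors on a progression -/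
lemma xz_sh {ℓ i κ u ε : ℕ} (hℓ : ℓ.Prime) (φ : DirichletCharacter ℂ (ℓ ^ κ)) {f : ℕ → ℂ}
    (hf : MB f) (t : ℝ) {n ν : ℤ} (hε : ε ≤ i) (hg : Int.gcd n ((ℓ ^ i : ℕ) : ℤ) = ℓ ^ ε)
    (hn : n = (ℓ : ℤ) ^ ε * ν) (s : ℤ) :
    xz f φ t (ℓ ^ i) (n + (ℓ : ℤ) ^ (u + 2 * i) * s) =
      (f (ℓ ^ ε) * conj (nit t (ℓ ^ ε))) *
        φ ((ν + (ℓ : ℤ) ^ (u + 2 * i - ε) * s : ℤ) : ZMod (ℓ ^ κ)) := by
  have hi : 1 ≤ ℓ ^ i := Nat.one_le_pow _ _ hℓ.pos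
  obtain ⟨-, -, -, -, -, hxz⟩ := prove_XZ.2 (ℓ ^ κ) φ f t (ℓ ^ i) hf hi
  have hl0 : (ℓ : ℤ) ≠ 0 := by exact_mod_cast hℓ.ne_zero
  have e1 : n + (ℓ : ℤ) ^ (u + 2 * i) * s =
      n + ((ℓ ^ i : ℕ) : ℤ) * ((ℓ : ℤ) ^ (u + i) * s) := by
    have : u + 2 * i = i + (u + i) := by ring
    rw [this, pow_add]
    push_cast
    ring
  rw [e1, hxz, hg]
  have e2 : n / ((ℓ ^ ε : ℕ) : ℤ) = ν := by
    rw [hn]
    push_cast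
    exact Int.mul_ediv_cancel_left _ (pow_ne_zero _ hl0)
  have e3 : ((ℓ ^ i : ℕ) : ℤ) / ((ℓ ^ ε : ℕ) : ℤ) = (ℓ : ℤ) ^ (i - ε) := by
    have h5 : ((ℓ ^ i : ℕ) : ℤ) = (ℓ : ℤ) ^ ε * (ℓ : ℤ) ^ (i - ε) := by
      rw [← pow_add, Nat.add_sub_cancel' hε]
      push_cast
      rfl
    rw [h5]
    push_cast
    exact Int.mul_ediv_cancel_left _ (pow_ne_zero _ hl0)
  have e4 : (ℓ : ℤ) ^ (i - ε) * ((ℓ : ℤ) ^ (u + i) * s) = (ℓ : ℤ) ^ (u + 2 * i - ε) * s := by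
    rw [← mul_assoc, ← pow_add]
    congr 2
    omega
  rw [e2, e3, e4]

lemma arg (p m h s : ℕ) (a : ℤ) :
    (p : ℤ) * ((m + h * s : ℕ) : ℤ) + a = ((p : ℤ) * m + a) + (h : ℤ) * ((p : ℤ) * s) := by
  push_cast
  ring

end VB_

open VB_ KCB_ in
theorem prove_VB (h1 : T_VCO) (h2 : T_VPC) (h3 : T_VPV) (h4 : T_VSH) : T_VB := by
  intro k a p p' E η hinj ha hp hp' hpp hap hap' hη
  obtain ⟨hdeg, B0, hB0⟩ := h3 k a p p' hinj ha hp hp' hpp hap hap'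
  obtain ⟨g, hg1, hg⟩ : ∃ g : ℕ, 1 ≤ g ∧ (2 * k : ℝ) / 2 ^ g ≤ η := by
    obtain ⟨n, hn⟩ := pow_unbounded_of_one_lt ((2 * k : ℝ) / η) one_lt_two
    refine ⟨n + 1, by omega, ?_⟩
    rw [div_lt_iff₀ hη] at hn
    rw [div_le_iff₀ (by positivity), pow_succ]
    have h5 : 0 < (2 : ℝ) ^ n * η := by positivity
    nlinarith
  refine ⟨E ^ (2 * (B0 + 2 * k * g + 2 * E + g + 2)), ?_⟩
  intro ℓ i c κ φ θ j₁ f t hℓ hR hcκ hprim hφθ hf hE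
  have hℓE : ℓ ≤ E := le_trans (Nat.le_self_pow (by omega) ℓ) hE
  have hiE : i ≤ E := by
    have h5 : i + 1 < 2 ^ (i + 1) := Nat.lt_two_pow_self
    have h6 : 2 ^ (i + 1) ≤ ℓ ^ (i + 1) := Nat.pow_le_pow_left hℓ.two_le _
    omega
  have hc : 2 * (B0 + 2 * k * g + 2 * E + g + 2) < c := by
    by_contra hlt
    rw [not_lt] at hlt
    have h5 : ℓ ^ c ≤ E ^ (2 * (B0 + 2 * k * g + 2 * E + g + 2)) :=
      (Nat.pow_le_pow_right hℓ.pos hlt).trans (Nat.pow_le_pow_left hℓE _)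
    omega
  obtain ⟨u, w, rfl, hwu, hW⟩ : ∃ u w : ℕ, c = u + w ∧ w ≤ u ∧
      B0 + 2 * k * g + 2 * E + g + 2 ≤ w :=
    ⟨c - c / 2, c / 2, by omega, by omega, by omega⟩
  clear hR hc
  have hw1 : 1 ≤ w := by omega
  have hκ1 : 1 ≤ κ := by omega
  have hi : 1 ≤ ℓ ^ i := Nat.one_le_pow _ _ hℓ.pos
  have hq1 : 1 ≤ ℓ ^ i * ℓ ^ κ := Nat.mul_pos hi (Nat.one_le_pow _ _ hℓ.pos)
  obtain ⟨κ', hκ', hsum⟩ := h1 k ℓ u w i p p' a θ j₁ hℓ hw1 hwu hprim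
  have hBl : B0 < ℓ ^ (B0 + 1) := by
    have h5 : B0 + 1 < 2 ^ (B0 + 1) := Nat.lt_two_pow_self
    have h6 : 2 ^ (B0 + 1) ≤ ℓ ^ (B0 + 1) := Nat.pow_le_pow_left hℓ.two_le _
    omega
  obtain ⟨m₀, hm₀⟩ := hB0 ℓ B0 κ' j₁ hℓ hκ' hBl
  have hexp : B0 + 2 * k * (g - 1) < w - 2 * i := by
    have h5 : 2 * k * (g - 1) ≤ 2 * k * g := Nat.mul_le_mul_left _ (by omega)
    omega
  have hdvd : ℓ ^ g ∣ ℓ ^ i * ℓ ^ κ := by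
    rw [← pow_add]
    exact pow_dvd_pow _ (by omega)
  have hcard := h2 (PP κ' a p p') (2 * k) ℓ B0 g (w - 2 * i) m₀ hℓ (hdeg κ') hm₀ hg1 hexp
    (ℓ ^ i * ℓ ^ κ) hdvd
  have hper : Per (ℓ ^ i * ℓ ^ κ) (Lk f φ t (ℓ ^ i) a p p') := by
    intro m
    unfold Lk
    refine Finset.prod_congr rfl fun j _ => ?_
    exact (prove_XZ.2 (ℓ ^ κ) (φ j) (f j) (t j) (ℓ ^ i) (hf j) hi).2.2.2.1 (a j) p p' m
  have hbd : ∀ m, ‖Lk f φ t (ℓ ^ i) a p p' m‖ ≤ 1 := by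
    intro m
    unfold Lk
    rw [norm_prod]
    refine Finset.prod_le_one (fun j _ => norm_nonneg _) fun j _ => ?_
    exact (prove_XZ.2 (ℓ ^ κ) (φ j) (f j) (t j) (ℓ ^ i) (hf j) hi).2.2.2.2.1 (a j) p p' m
  have hmean := h4 (ℓ ^ i * ℓ ^ κ) (ℓ ^ (u + 2 * i)) (ℓ ^ w) (Lk f φ t (ℓ ^ i) a p p')
    ((Finset.range (ℓ ^ i * ℓ ^ κ)).filter
      (fun m : ℕ => (ℓ : ℤ) ^ (w - 2 * i) ∣ (PP κ' a p p').eval (m : ℤ)))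
    hq1 (Nat.one_le_pow _ _ hℓ.pos) hper hbd ?_
  · refine hmean.trans ?_
    have hq0 : (0 : ℝ) < ((ℓ ^ i * ℓ ^ κ : ℕ) : ℝ) := by exact_mod_cast hq1
    rw [div_le_iff₀ hq0]
    have hlg : (0 : ℝ) < (ℓ : ℝ) ^ g := by
      have : (0 : ℝ) < ℓ := by exact_mod_cast hℓ.pos
      positivity
    have hcardR : ((((Finset.range (ℓ ^ i * ℓ ^ κ)).filter
        (fun m : ℕ => (ℓ : ℤ) ^ (w - 2 * i) ∣ (PP κ' a p p').eval (m : ℤ))).card : ℕ) : ℝ) *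
        (ℓ : ℝ) ^ g ≤ 2 * k * ((ℓ ^ i * ℓ ^ κ : ℕ) : ℝ) := by
      exact_mod_cast hcard
    have h2g : (2 : ℝ) ^ g ≤ (ℓ : ℝ) ^ g :=
      pow_le_pow_left₀ (by norm_num) (by exact_mod_cast hℓ.two_le) _
    rw [div_le_iff₀ (by positivity)] at hg
    have h7 : (2 * k : ℝ) ≤ η * (ℓ : ℝ) ^ g :=
      hg.trans (mul_le_mul_of_nonneg_left h2g hη.le)
    refine le_of_mul_le_mul_right ?_ hlg
    refine hcardR.trans ?_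
    calc (2 * k : ℝ) * ((ℓ ^ i * ℓ ^ κ : ℕ) : ℝ)
        ≤ (η * (ℓ : ℝ) ^ g) * ((ℓ ^ i * ℓ ^ κ : ℕ) : ℝ) :=
          mul_le_mul_of_nonneg_right h7 hq0.le
      _ = η * ((ℓ ^ i * ℓ ^ κ : ℕ) : ℝ) * (ℓ : ℝ) ^ g := by ring
  intro m hm hmS
  have hnd : ¬ (ℓ : ℤ) ^ w ∣ (ℓ : ℤ) ^ (2 * i) * (PP κ' a p p').eval (m : ℤ) := by
    intro hd
    apply hmS
    refine Finset.mem_filter.2 ⟨Finset.mem_range.2 hm, ?_⟩
    have h5 : (ℓ : ℤ) ^ w = (ℓ : ℤ) ^ (2 * i) * (ℓ : ℤ) ^ (w - 2 * i) := by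
      rw [← pow_add]
      congr 1
      omega
    rw [h5] at hd
    exact (mul_dvd_mul_iff_left (pow_ne_zero _ (by exact_mod_cast hℓ.ne_zero))).1 hd
  have hs := fun j : Fin k => split hℓ i ((p : ℤ) * m + a j)
  choose ε ν hε hgε hν using hs
  have hs' := fun j : Fin k => split hℓ i ((p' : ℤ) * m + a j)
  choose ε' ν' hε' hgε' hν' using hs'
  -- the value of the function on the progression
  have hval : ∀ s : ℕ, Lk f φ t (ℓ ^ i) a p p' (m + ℓ ^ (u + 2 * i) * s) = ∏ j,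
      ((f j (ℓ ^ ε j) * conj (nit (t j) (ℓ ^ ε j))) *
        φ j ((ν j + (ℓ : ℤ) ^ (u + 2 * i - ε j) * ((p : ℤ) * s) : ℤ) : ZMod (ℓ ^ κ))) *
      conj ((f j (ℓ ^ ε' j) * conj (nit (t j) (ℓ ^ ε' j))) *
        φ j ((ν' j + (ℓ : ℤ) ^ (u + 2 * i - ε' j) * ((p' : ℤ) * s) : ℤ) :
          ZMod (ℓ ^ κ))) := by
    intro s
    unfold Lk
    refine Finset.prod_congr rfl fun j _ => ?_
    unfold Lm
    rw [arg, arg]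
    push_cast
    have g1 := xz_sh (u := u) hℓ (φ j) (hf j) (t j) (hε j) (hgε j) (hν j) ((p : ℤ) * s)
    have g2 := xz_sh (u := u) hℓ (φ j) (hf j) (t j) (hε' j) (hgε' j) (hν' j) ((p' : ℤ) * s)
    push_cast at g1 g2
    rw [g1, g2]
  have hexpd : ∀ (e : ℕ), e ≤ i → ∀ x : ℤ, (ℓ : ℤ) ∣ (ℓ : ℤ) ^ (u + 2 * i - e) * x := by
    intro e he x
    exact Dvd.dvd.mul_right (dvd_pow_self _ (by omega)) _
  by_cases hbad : (∃ j, (ℓ : ℤ) ∣ ν j) ∨ ∃ j, (ℓ : ℤ) ∣ ν' j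
  · refine Finset.sum_eq_zero fun s _ => ?_
    rw [hval]
    rcases hbad with ⟨j, hj⟩ | ⟨j, hj⟩
    · refine Finset.prod_eq_zero (Finset.mem_univ j) ?_
      rw [chi_zero hℓ hκ1 (φ j) (dvd_add hj (hexpd _ (hε j) _)), mul_zero, zero_mul]
    · refine Finset.prod_eq_zero (Finset.mem_univ j) ?_
      rw [chi_zero hℓ hκ1 (φ j) (dvd_add hj (hexpd _ (hε' j) _)), mul_zero, map_zero,
        mul_zero]
  rw [not_or, not_exists, not_exists] at hbad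
  have hz := hsum (m : ℤ) ε ε' ν ν'
    (fun j => ⟨hν j, hν' j, hbad.1 j, hbad.2 j, hε j, hε' j⟩) hnd
  have hval2 : ∀ s : ℕ, Lk f φ t (ℓ ^ i) a p p' (m + ℓ ^ (u + 2 * i) * s) =
      (∏ j, (f j (ℓ ^ ε j) * conj (nit (t j) (ℓ ^ ε j))) *
        conj (f j (ℓ ^ ε' j) * conj (nit (t j) (ℓ ^ ε' j)))) *
      ∏ j, (θ j ((ν j + p * (ℓ : ℤ) ^ (u + 2 * i - ε j) * (s : ℤ) : ℤ) : ZMod (ℓ ^ (u + w))) *
        conj (θ j ((ν' j + p' * (ℓ : ℤ) ^ (u + 2 * i - ε' j) * (s : ℤ) : ℤ) :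
          ZMod (ℓ ^ (u + w))))) := by
    intro s
    rw [hval, ← Finset.prod_mul_distrib]
    refine Finset.prod_congr rfl fun j _ => ?_
    have g1 : ¬ (ℓ : ℤ) ∣ ν j + (ℓ : ℤ) ^ (u + 2 * i - ε j) * ((p : ℤ) * s) := fun h =>
      hbad.1 j ((dvd_add_left (hexpd _ (hε j) _)).1 h)
    have g2 : ¬ (ℓ : ℤ) ∣ ν' j + (ℓ : ℤ) ^ (u + 2 * i - ε' j) * ((p' : ℤ) * s) := fun h =>
      hbad.2 j ((dvd_add_left (hexpd _ (hε' j) _)).1 h)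
    rw [hφθ j _ g1, hφθ j _ g2]
    have e1 : ν j + (ℓ : ℤ) ^ (u + 2 * i - ε j) * ((p : ℤ) * s) =
        ν j + p * (ℓ : ℤ) ^ (u + 2 * i - ε j) * (s : ℤ) := by ring
    have e2 : ν' j + (ℓ : ℤ) ^ (u + 2 * i - ε' j) * ((p' : ℤ) * s) =
        ν' j + p' * (ℓ : ℤ) ^ (u + 2 * i - ε' j) * (s : ℤ) := by ring
    rw [e1, e2, map_mul]
    ring
  rw [Finset.sum_congr rfl fun s _ => hval2 s, ← Finset.mul_sum, hz, mul_zero]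

end Pool.Agent.TPK
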