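import Pool.Agent.TPK.Targets3

set_option autoImplicit false

/-! TPK-VCO: the sum over a progression vanishes unless the polynomial `PP` is divisible by a high
power of `ℓ` -/

namespace Pool.Agent.TPK

open Finset Filter Pool.Agent.Ell Pool.Agent.TPM Pool.Agent.TPX
open scoped BigOperators ComplexConjugate

namespace VCO_

theorem geom {L : ℕ} (hL : 0 < L) (Z : ℤ) (h : ¬ (L : ℤ) ∣ Z) :
    ∑ s ∈ Finset.range L, Complex.exp (2 * Real.pi * Complex.I * ((Z : ℂ) * s / (L : ℂ))) = 0 := by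
  have hL' : (L : ℂ) ≠ 0 := by exact_mod_cast hL.ne'
  set r : ℂ := Complex.exp (2 * Real.pi * Complex.I * ((Z : ℂ) / (L : ℂ))) with hr
  have h1 : ∀ s : ℕ, Complex.exp (2 * Real.pi * Complex.I * ((Z : ℂ) * s / (L : ℂ))) = r ^ s := by
    intro s
    rw [hr, ← Complex.exp_nat_mul]
    congr 1
    ring
  have h2 : r ^ L = 1 := by
    rw [← h1]
    have h3 : 2 * (Real.pi : ℂ) * Complex.I * ((Z : ℂ) * (L : ℂ) / (L : ℂ)) =
        (Z : ℂ) * (2 * Real.pi * Complex.I) := by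
      rw [mul_div_cancel_right₀ _ hL']
      ring
    rw [h3, Complex.exp_int_mul_two_pi_mul_I]
  have h3 : r ≠ 1 := by
    intro h4
    rw [hr, Complex.exp_eq_one_iff] at h4
    obtain ⟨n, hn⟩ := h4
    apply h
    refine ⟨n, ?_⟩
    have h5 : (2 * (Real.pi : ℂ) * Complex.I) ≠ 0 := Complex.two_pi_I_ne_zero
    have h6 : (Z : ℂ) / (L : ℂ) = n := by
      apply mul_left_cancel₀ h5
      rw [hn]
      ring
    rw [div_eq_iff hL'] at h6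
    have h7 : (Z : ℂ) = ((L * n : ℤ) : ℂ) := by
      push_cast
      rw [h6]
      ring
    exact_mod_cast h7
  rw [Finset.sum_congr rfl fun s _ => h1 s, geom_sum_eq h3, h2, sub_self, zero_div]

theorem fac {ℓ u w : ℕ} (θ : DirichletCharacter ℂ (ℓ ^ (u + w))) {κ : ℤ}
    (hκ : ∀ y : ℤ, θ ((1 + (ℓ : ℤ) ^ u * y : ℤ) : ZMod (ℓ ^ (u + w))) =
      Complex.exp (2 * Real.pi * Complex.I * ((κ : ℂ) * y / (ℓ : ℂ) ^ w)))
    {ν x : ℤ} (hx : (ℓ : ℤ) ^ (u + w) ∣ ν * x - 1) (P s : ℤ) (e : ℕ) :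
    θ ((ν + P * (ℓ : ℤ) ^ (u + e) * s : ℤ) : ZMod (ℓ ^ (u + w))) =
      θ ((ν : ℤ) : ZMod (ℓ ^ (u + w))) *
        Complex.exp (2 * Real.pi * Complex.I *
          (((κ * (P * (ℓ : ℤ) ^ e * x) : ℤ) : ℂ) * s / (ℓ : ℂ) ^ w)) := by
  have h1 : ((ν + P * (ℓ : ℤ) ^ (u + e) * s : ℤ) : ZMod (ℓ ^ (u + w))) =
      ((ν * (1 + (ℓ : ℤ) ^ u * (P * (ℓ : ℤ) ^ e * x * s)) : ℤ) : ZMod (ℓ ^ (u + w))) := by
    rw [ZMod.intCast_eq_intCast_iff_dvd_sub]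
    have h2 : ν * (1 + (ℓ : ℤ) ^ u * (P * (ℓ : ℤ) ^ e * x * s)) -
        (ν + P * (ℓ : ℤ) ^ (u + e) * s) = (ν * x - 1) * (P * (ℓ : ℤ) ^ (u + e) * s) := by
      rw [pow_add]
      ring
    rw [h2]
    push_cast
    exact Dvd.dvd.mul_right hx _
  rw [h1, Int.cast_mul, map_mul, hκ]
  congr 3
  push_cast
  ring

theorem exists_inv {ℓ : ℕ} (hℓ : ℓ.Prime) (N : ℕ) {ν : ℤ} (h : ¬ (ℓ : ℤ) ∣ ν) :
    ∃ x : ℤ, (ℓ : ℤ) ^ N ∣ ν * x - 1 := by
  have h1 : IsCoprime (ℓ : ℤ) ν :=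
    (Nat.prime_iff_prime_int.mp hℓ).irreducible.coprime_iff_not_dvd.2 h
  obtain ⟨A, B, hAB⟩ := h1.pow_left (m := N)
  exact ⟨B, -A, by linear_combination hAB⟩

theorem eval_PP {k : ℕ} (κ a : Fin k → ℤ) (p p' m : ℤ) : (PP κ a p p').eval m =
    ∑ j, κ j * (a j * (p - p')) * ∏ i ∈ Finset.univ.erase j,
      ((p * m + a i) * (p' * m + a i)) := by
  simp [PP, Polynomial.eval_finset_sum, Polynomial.eval_prod]

theorem conj_exp (c : ℤ) (s : ℕ) (ℓ w : ℕ) :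
    conj (Complex.exp (2 * Real.pi * Complex.I * ((c : ℂ) * s / (ℓ : ℂ) ^ w))) =
      Complex.exp (2 * Real.pi * Complex.I * (((-c : ℤ) : ℂ) * s / (ℓ : ℂ) ^ w)) := by
  rw [← Complex.exp_conj]
  congr 1
  simp only [map_mul, map_div₀, map_pow, Complex.conj_I, Complex.conj_ofReal, map_intCast,
    map_natCast, map_ofNat]
  push_cast
  ring

end VCO_

open VCO_ in
/-- TPK-VCO. -/
theorem prove_VCO (h1 : T_VLI) : T_VCO := by
  intro k ℓ u w i p p' a θ j₁ hℓ hw hwu hprim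
  choose κ hκ hκp using fun j => h1 ℓ u w (θ j) hℓ hw hwu
  refine ⟨κ, hκp j₁ hprim, ?_⟩
  intro m ε ε' ν ν' hν hnd
  have hℓ0 : (0 : ℤ) < ℓ := by exact_mod_cast hℓ.pos
  choose x hx using fun j => exists_inv hℓ (u + w) (hν j).2.2.1
  choose x' hx' using fun j => exists_inv hℓ (u + w) (hν j).2.2.2.1
  set Z : ℤ := ∑ j, (κ j * (p * (ℓ : ℤ) ^ (2 * i - ε j) * x j) +
    -(κ j * (p' * (ℓ : ℤ) ^ (2 * i - ε' j) * x' j))) with hZ
  have hndZ : ¬ ((ℓ ^ w : ℕ) : ℤ) ∣ Z := by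
    intro hdiv
    apply hnd
    rw [Nat.cast_pow] at hdiv
    have hw' : (ℓ : ℤ) ^ w ∣ (ℓ : ℤ) ^ (u + w) := pow_dvd_pow _ (by omega)
    have key : (ℓ : ℤ) ^ w ∣ Z * (∏ j, ((p * m + a j) * (p' * m + a j))) -
        (ℓ : ℤ) ^ (2 * i) * (PP κ a p p').eval m := by
      rw [eval_PP, hZ, Finset.sum_mul, Finset.mul_sum, ← Finset.sum_sub_distrib]
      refine Finset.dvd_sum fun j _ => ?_
      rw [← Finset.mul_prod_erase Finset.univ _ (Finset.mem_univ j)]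
      obtain ⟨e1, e2, -, -, e5, e6⟩ := hν j
      obtain ⟨y, hy⟩ := hw'.trans (hx j)
      obtain ⟨y', hy'⟩ := hw'.trans (hx' j)
      have q1 : (ℓ : ℤ) ^ (2 * i - ε j) * (ℓ : ℤ) ^ ε j = (ℓ : ℤ) ^ (2 * i) := by
        rw [← pow_add]
        congr 1
        omega
      have q2 : (ℓ : ℤ) ^ (2 * i - ε' j) * (ℓ : ℤ) ^ ε' j = (ℓ : ℤ) ^ (2 * i) := by
        rw [← pow_add]
        congr 1
        omega
      have r1 : p * (ℓ : ℤ) ^ (2 * i - ε j) * x j * (p * m + a j) =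
          p * (ℓ : ℤ) ^ (2 * i) + (ℓ : ℤ) ^ w * (p * (ℓ : ℤ) ^ (2 * i) * y) := by
        rw [e1]
        linear_combination (p * x j * ν j) * q1 + p * (ℓ : ℤ) ^ (2 * i) * hy
      have r2 : p' * (ℓ : ℤ) ^ (2 * i - ε' j) * x' j * (p' * m + a j) =
          p' * (ℓ : ℤ) ^ (2 * i) + (ℓ : ℤ) ^ w * (p' * (ℓ : ℤ) ^ (2 * i) * y') := by
        rw [e2]
        linear_combination (p' * x' j * ν' j) * q2 + p' * (ℓ : ℤ) ^ (2 * i) * hy'
      refine ⟨κ j * ((p * (ℓ : ℤ) ^ (2 * i) * y) * (p' * m + a j) -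
        (p' * (ℓ : ℤ) ^ (2 * i) * y') * (p * m + a j)) *
        ∏ i ∈ Finset.univ.erase j, ((p * m + a i) * (p' * m + a i)), ?_⟩
      linear_combination (κ j * (p' * m + a j) *
          ∏ i ∈ Finset.univ.erase j, ((p * m + a i) * (p' * m + a i))) * r1 -
        (κ j * (p * m + a j) *
          ∏ i ∈ Finset.univ.erase j, ((p * m + a i) * (p' * m + a i))) * r2
    have h2 := dvd_sub (dvd_mul_of_dvd_left hdiv
      (∏ j, ((p * m + a j) * (p' * m + a j)))) key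
    rwa [sub_sub_cancel] at h2
  have hterm : ∀ s : ℕ, ∏ j,
      (θ j ((ν j + p * (ℓ : ℤ) ^ (u + 2 * i - ε j) * (s : ℤ) : ℤ) : ZMod (ℓ ^ (u + w))) *
        conj (θ j ((ν' j + p' * (ℓ : ℤ) ^ (u + 2 * i - ε' j) * (s : ℤ) : ℤ) :
          ZMod (ℓ ^ (u + w))))) =
      (∏ j, (θ j ((ν j : ℤ) : ZMod (ℓ ^ (u + w))) *
        conj (θ j ((ν' j : ℤ) : ZMod (ℓ ^ (u + w)))))) *
        Complex.exp (2 * Real.pi * Complex.I * ((Z : ℂ) * s / ((ℓ ^ w : ℕ) : ℂ))) := by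
    intro s
    have hZs : (2 * (Real.pi : ℂ) * Complex.I * ((Z : ℂ) * s / ((ℓ ^ w : ℕ) : ℂ))) =
        ∑ j, ((2 * (Real.pi : ℂ) * Complex.I *
          (((κ j * (p * (ℓ : ℤ) ^ (2 * i - ε j) * x j) : ℤ) : ℂ) * s / (ℓ : ℂ) ^ w)) +
          (2 * (Real.pi : ℂ) * Complex.I *
          (((-(κ j * (p' * (ℓ : ℤ) ^ (2 * i - ε' j) * x' j)) : ℤ) : ℂ) * s / (ℓ : ℂ) ^ w))) := by
      rw [hZ, Int.cast_sum, Finset.sum_mul, Finset.sum_div, Finset.mul_sum]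
      refine Finset.sum_congr rfl fun j _ => ?_
      push_cast
      ring
    rw [hZs, Complex.exp_sum, ← Finset.prod_mul_distrib]
    refine Finset.prod_congr rfl fun j _ => ?_
    obtain ⟨-, -, -, -, e5, e6⟩ := hν j
    have g1 : u + 2 * i - ε j = u + (2 * i - ε j) := by omega
    have g2 : u + 2 * i - ε' j = u + (2 * i - ε' j) := by omega
    have f1 := fac (θ j) (hκ j) (hx j) p (s : ℤ) (2 * i - ε j)
    have f2 := fac (θ j) (hκ j) (hx' j) p' (s : ℤ) (2 * i - ε' j)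
    rw [Int.cast_natCast] at f1 f2
    rw [g1, g2, f1, f2, map_mul, conj_exp, Complex.exp_add]
    ring
  rw [Finset.sum_congr rfl fun s _ => hterm s, ← Finset.mul_sum,
    geom (pow_pos hℓ.pos w) Z hndZ, mul_zero]

end Pool.Agent.TPK
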