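import Pool.Agent.TPK.Targets3

set_option autoImplicit false

/-! TPK-VLI: a character mod `ℓ ^ (u + w)` is additive on `1 + ℓ ^ u y`. -/

namespace Pool.Agent.TPK

namespace VLI_

lemma exp_add' (κ : ℤ) (c : ℂ) (y y' : ℤ) :
    Complex.exp (2 * Real.pi * Complex.I * ((κ : ℂ) * ((y + y' : ℤ) : ℂ) / c)) =
    Complex.exp (2 * Real.pi * Complex.I * ((κ : ℂ) * y / c)) *
    Complex.exp (2 * Real.pi * Complex.I * ((κ : ℂ) * y' / c)) := by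
  rw [← Complex.exp_add]
  congr 1
  push_cast
  ring

lemma eq_of_add {G E : ℤ → ℂ} (hG : ∀ y y', G (y + y') = G y * G y') (hG0 : G 0 = 1)
    (hE : ∀ y y', E (y + y') = E y * E y') (hE0 : E 0 = 1) (h1 : G 1 = E 1) (y : ℤ) :
    G y = E y := by
  have hne : G 1 ≠ 0 := by
    intro h
    have h2 := hG 1 (-1)
    rw [h, zero_mul] at h2
    have h3 : (1 : ℤ) + -1 = 0 := by norm_num
    rw [h3, hG0] at h2
    exact one_ne_zero h2
  induction y using Int.induction_on with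
  | zero => rw [hG0, hE0]
  | succ n ih => rw [hG, hE, ih, h1]
  | pred n ih =>
    have h2 := hG (-(n : ℤ) - 1) 1
    have h3 := hE (-(n : ℤ) - 1) 1
    rw [sub_add_cancel] at h2 h3
    rw [ih, h3] at h2
    rw [← h1] at h2
    exact (mul_right_cancel₀ hne h2).symm

lemma add_rule {ℓ u w : ℕ} (hw : w ≤ u) (ψ : DirichletCharacter ℂ (ℓ ^ (u + w))) (y y' : ℤ) :
    ψ ((1 + (ℓ : ℤ) ^ u * (y + y') : ℤ) : ZMod (ℓ ^ (u + w))) =
      ψ ((1 + (ℓ : ℤ) ^ u * y : ℤ) : ZMod (ℓ ^ (u + w))) *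
        ψ ((1 + (ℓ : ℤ) ^ u * y' : ℤ) : ZMod (ℓ ^ (u + w))) := by
  rw [← map_mul, ← Int.cast_mul]
  congr 1
  rw [ZMod.intCast_eq_intCast_iff_dvd_sub]
  refine ⟨(ℓ : ℤ) ^ (u - w) * (y * y'), ?_⟩
  have h1 : (ℓ : ℤ) ^ u * (ℓ : ℤ) ^ u = (ℓ : ℤ) ^ (u + w) * (ℓ : ℤ) ^ (u - w) := by
    rw [← pow_add, ← pow_add]
    congr 1
    omega
  push_cast
  linear_combination (y * y') * h1

end VLI_

open VLI_ in
theorem prove_VLI : T_VLI := by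
  intro ℓ u w ψ hℓ hw1 hwu
  have hN0 : ℓ ^ (u + w) ≠ 0 := pow_ne_zero _ hℓ.ne_zero
  have : NeZero (ℓ ^ (u + w)) := ⟨hN0⟩
  have : NeZero (ℓ ^ w) := ⟨pow_ne_zero _ hℓ.ne_zero⟩
  obtain ⟨G, hGd⟩ : ∃ G : ℤ → ℂ, G = fun y =>
    ψ ((1 + (ℓ : ℤ) ^ u * y : ℤ) : ZMod (ℓ ^ (u + w))) := ⟨_, rfl⟩
  have hGe : ∀ y, ψ ((1 + (ℓ : ℤ) ^ u * y : ℤ) : ZMod (ℓ ^ (u + w))) = G y := by
    intro y
    rw [hGd]
  have hG : ∀ y y', G (y + y') = G y * G y' := by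
    intro y y'
    rw [hGd]
    exact add_rule hwu ψ y y'
  have hG0 : G 0 = 1 := by
    rw [hGd]
    simp
  have hGn : ∀ n : ℕ, G n = G 1 ^ n := by
    intro n
    induction n with
    | zero => simpa using hG0
    | succ n ih =>
      push_cast
      rw [hG, ih, pow_succ]
  have hroot : G 1 ^ (ℓ ^ w) = 1 := by
    rw [← hGn, hGd]
    have h1 : ((1 + (ℓ : ℤ) ^ u * ((ℓ ^ w : ℕ) : ℤ) : ℤ) : ZMod (ℓ ^ (u + w))) = 1 := by
      have h2 : ((ℓ ^ (u + w) : ℕ) : ZMod (ℓ ^ (u + w))) = 0 := ZMod.natCast_self _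
      have h3 : ((1 + (ℓ : ℤ) ^ u * ((ℓ ^ w : ℕ) : ℤ) : ℤ) : ZMod (ℓ ^ (u + w))) =
          1 + ((ℓ ^ (u + w) : ℕ) : ZMod (ℓ ^ (u + w))) := by
        push_cast
        ring
      rw [h3, h2, add_zero]
    simp only
    rw [h1, map_one]
  have hprim := Complex.isPrimitiveRoot_exp (ℓ ^ w) (pow_ne_zero _ hℓ.ne_zero)
  obtain ⟨i, -, hi⟩ := hprim.eq_pow_of_pow_eq_one hroot
  have hE1 : G 1 = Complex.exp (2 * Real.pi * Complex.I * (((i : ℤ) : ℂ) * ((1 : ℤ) : ℂ) /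
      (ℓ : ℂ) ^ w)) := by
    rw [← hi, ← Complex.exp_nat_mul]
    congr 1
    push_cast
    ring
  have hall : ∀ y : ℤ, G y = Complex.exp (2 * Real.pi * Complex.I * (((i : ℤ) : ℂ) * (y : ℂ) /
      (ℓ : ℂ) ^ w)) := by
    intro y
    exact eq_of_add hG hG0 (E := fun y : ℤ => Complex.exp (2 * Real.pi * Complex.I *
      (((i : ℤ) : ℂ) * (y : ℂ) / (ℓ : ℂ) ^ w))) (fun y y' => exp_add' _ _ y y') (by simp) hE1 y
  refine ⟨(i : ℤ), fun y => by rw [hGe, hall], fun hp hdvd => ?_⟩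
  obtain ⟨b, hb⟩ := hdvd
  have hℓC : (ℓ : ℂ) ≠ 0 := by exact_mod_cast hℓ.ne_zero
  have hone : ∀ z : ℤ, G ((ℓ : ℤ) ^ (w - 1) * z) = 1 := by
    intro z
    rw [hall, hb]
    have h1 : (((ℓ : ℤ) * b : ℤ) : ℂ) * (((ℓ : ℤ) ^ (w - 1) * z : ℤ) : ℂ) / (ℓ : ℂ) ^ w =
        ((b * z : ℤ) : ℂ) := by
      rw [div_eq_iff (pow_ne_zero _ hℓC)]
      obtain ⟨v, rfl⟩ : ∃ v, w = v + 1 := ⟨w - 1, by omega⟩
      push_cast
      rw [pow_succ]
      ring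
    rw [h1, mul_comm]
    exact Complex.exp_int_mul_two_pi_mul_I _
  have hd : ℓ ^ (u + w - 1) ∣ ℓ ^ (u + w) := pow_dvd_pow _ (by omega)
  have hfac : ψ.FactorsThrough (ℓ ^ (u + w - 1)) := by
    rw [DirichletCharacter.factorsThrough_iff_ker_unitsMap hd]
    intro v hv
    rw [MonoidHom.mem_ker] at hv ⊢
    have hv1 : ((((v : ZMod (ℓ ^ (u + w))).val : ℕ) : ℤ) : ZMod (ℓ ^ (u + w - 1))) =
        ((1 : ℤ) : ZMod (ℓ ^ (u + w - 1))) := by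
      have h2 := congrArg Units.val hv
      rw [ZMod.unitsMap_val] at h2
      rw [Int.cast_natCast, Int.cast_one, ZMod.natCast_val]
      simpa using h2
    rw [ZMod.intCast_eq_intCast_iff_dvd_sub] at hv1
    obtain ⟨z, hz⟩ := hv1
    have hval : (v : ZMod (ℓ ^ (u + w))) =
        ((1 + (ℓ : ℤ) ^ u * ((ℓ : ℤ) ^ (w - 1) * (-z)) : ℤ) : ZMod (ℓ ^ (u + w))) := by
      have h3 : ((((v : ZMod (ℓ ^ (u + w))).val : ℕ) : ℤ) : ZMod (ℓ ^ (u + w))) =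
          (v : ZMod (ℓ ^ (u + w))) := by
        rw [Int.cast_natCast, ZMod.natCast_zmod_val]
      rw [← h3]
      congr 1
      have h4 : ((ℓ ^ (u + w - 1) : ℕ) : ℤ) = (ℓ : ℤ) ^ u * (ℓ : ℤ) ^ (w - 1) := by
        push_cast
        rw [← pow_add]
        congr 1
        omega
      rw [h4] at hz
      linear_combination -hz
    have h5 : ψ (v : ZMod (ℓ ^ (u + w))) = 1 := by
      rw [hval, hGe, hone]
    apply Units.ext
    rw [MulChar.coe_toUnitHom, h5]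
    rfl
  have h6 := DirichletCharacter.conductor_dvd_of_mem_conductorSet ψ hfac
  rw [(DirichletCharacter.isPrimitive_def ψ).1 hp] at h6
  have h7 := Nat.le_of_dvd (pow_pos hℓ.pos _) h6
  have h8 : ℓ ^ (u + w - 1) < ℓ ^ (u + w) := Nat.pow_lt_pow_right hℓ.one_lt (by omega)
  omega

end Pool.Agent.TPK
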