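import Pool.Agent.TPK.Targets3

/-!
# Number of solutions of a polynomial congruence

MP_f3f922_nt, project TPK, block VPC.
-/

set_option autoImplicit false

namespace Pool.Agent.TPK

namespace VPC_

lemma cancel {l : ℤ} (hl : Prime l) (g : ℕ) : ∀ (w : ℕ) (a b : ℤ), ¬ l ^ (g + 1) ∣ a →
    l ^ (w + g) ∣ a * b → l ^ w ∣ b := by
  induction g with
  | zero =>
    intro w a b ha h
    rw [zero_add, pow_one] at ha
    exact hl.pow_dvd_of_dvd_mul_left w ha h
  | succ g ih =>
    intro w a b ha h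
    by_cases hd : l ∣ a
    · obtain ⟨a', rfl⟩ := hd
      refine ih w a' b (fun h' => ha ?_) ?_
      · rw [pow_succ']
        exact mul_dvd_mul_left l h'
      · have h2 : l * l ^ (w + g) ∣ l * (a' * b) := by
          rw [← pow_succ', ← mul_assoc]
          exact h
        exact (mul_dvd_mul_iff_left hl.ne_zero).1 h2
    · exact (pow_dvd_pow l (Nat.le_add_right w (g + 1))).trans
        (hl.pow_dvd_of_dvd_mul_left _ hd h)

lemma eval_split (P : Polynomial ℤ) (m x : ℤ) :
    P.eval x = P.eval m + (x - m) * (P.divByMonic (Polynomial.X - Polynomial.C m)).eval x := by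
  have h := Polynomial.modByMonic_add_div P (Polynomial.X - Polynomial.C m)
  rw [Polynomial.modByMonic_X_sub_C_eq_C_eval] at h
  have h2 := congrArg (Polynomial.eval x) h
  simp only [Polynomial.eval_add, Polynomial.eval_C, Polynomial.eval_mul, Polynomial.eval_sub,
    Polynomial.eval_X] at h2
  exact h2.symm

lemma claim {l : ℤ} (hl : Prime l) (g : ℕ) (D : ℕ) : ∀ (P : Polynomial ℤ) (w : ℕ) (T : Finset ℤ),
    P.natDegree ≤ D → D < T.card → D * g ≤ w → (∀ x ∈ T, l ^ w ∣ P.eval x) →
    (∀ x ∈ T, ∀ y ∈ T, x ≠ y → ¬ l ^ (g + 1) ∣ x - y) →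
    ∀ x : ℤ, l ^ (w - D * g) ∣ P.eval x := by
  induction D with
  | zero =>
    intro P w T hP hT _ h1 _ x
    obtain ⟨m, hm⟩ := Finset.card_pos.1 hT
    have h2 := h1 m hm
    rw [Polynomial.eq_C_of_natDegree_le_zero hP] at h2 ⊢
    rw [Polynomial.eval_C] at h2 ⊢
    rw [zero_mul, Nat.sub_zero]
    exact h2
  | succ D ih =>
    intro P w T hP hT hw h1 h2 x
    obtain ⟨m, hm⟩ := Finset.card_pos.1 (Nat.zero_lt_of_lt hT)
    have hg : g ≤ w := le_trans (Nat.le_mul_of_pos_left g (Nat.succ_pos D)) hw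
    have hw' : D * g ≤ w - g := by
      rw [Nat.succ_mul] at hw
      omega
    have hQ : (P.divByMonic (Polynomial.X - Polynomial.C m)).natDegree ≤ D := by
      rw [Polynomial.natDegree_divByMonic _ (Polynomial.monic_X_sub_C m),
        Polynomial.natDegree_X_sub_C]
      omega
    have h3 := ih (P.divByMonic (Polynomial.X - Polynomial.C m)) (w - g) (T.erase m) hQ
      (by rw [Finset.card_erase_of_mem hm]; omega) hw'
      (fun y hy => by
        obtain ⟨hym, hyT⟩ := Finset.mem_erase.1 hy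
        refine cancel hl g (w - g) (y - m) _ (h2 y hyT m hm hym) ?_
        rw [Nat.sub_add_cancel hg]
        have h4 := dvd_sub (h1 y hyT) (h1 m hm)
        rwa [eval_split P m y, add_sub_cancel_left] at h4)
      (fun y hy z hz => h2 y (Finset.mem_of_mem_erase hy) z (Finset.mem_of_mem_erase hz)) x
    rw [eval_split P m x]
    have h5 : w - g - D * g = w - (D + 1) * g := by
      rw [Nat.succ_mul]
      omega
    rw [h5] at h3
    exact dvd_add ((pow_dvd_pow l (Nat.sub_le _ _)).trans (h1 m hm)) (h3.mul_left _)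

lemma fiber (N L c : ℕ) (h : L ∣ N) (S : Finset ℕ) (hS : S ⊆ Finset.range N) :
    (S.filter fun m => m % L = c).card ≤ N / L := by
  rw [← Finset.card_range (N / L)]
  refine Finset.card_le_card_of_injOn (fun m => m / L) ?_ ?_
  · intro m hm
    have hm' := (Finset.mem_filter.1 (Finset.mem_coe.1 hm)).1
    have hmN := Finset.mem_range.1 (hS hm')
    refine Finset.mem_coe.2 (Finset.mem_range.2 ?_)
    exact Nat.div_lt_div_of_lt_of_dvd h hmN
  · intro m hm m' hm' he
    have h1 := (Finset.mem_filter.1 (Finset.mem_coe.1 hm)).2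
    have h2 := (Finset.mem_filter.1 (Finset.mem_coe.1 hm')).2
    simp only at he
    rw [← Nat.div_add_mod m L, ← Nat.div_add_mod m' L, he, h1, h2]

end VPC_

open VPC_ in
theorem prove_VPC : T_VPC := by
  intro P D ℓ b g w m₀ hℓ hP hm₀ hg hw N hN
  have hl : Prime (ℓ : ℤ) := Nat.prime_iff_prime_int.1 hℓ
  set S := (Finset.range N).filter (fun m : ℕ => (ℓ : ℤ) ^ w ∣ P.eval (m : ℤ)) with hSdef
  have hS : S ⊆ Finset.range N := Finset.filter_subset _ _
  set C := S.image fun m => m % ℓ ^ g with hC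
  have hcard : C.card ≤ D := by
    by_contra hcon
    push Not at hcon
    have hex : ∀ c ∈ C, ∃ m ∈ S, m % ℓ ^ g = c := fun c hc => Finset.mem_image.1 hc
    choose! r hr1 hr2 using hex
    have hinj : Set.InjOn (fun c => ((r c : ℕ) : ℤ)) (C : Set ℕ) := by
      intro c hc c' hc' he
      have he' : r c = r c' := Nat.cast_injective (R := ℤ) he
      rw [← hr2 c hc, ← hr2 c' hc', he']
    have h := claim hl (g - 1) D P w (C.image fun c => ((r c : ℕ) : ℤ)) hP
      (by rw [Finset.card_image_of_injOn hinj]; exact hcon) (by omega)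
      (by
        intro x hx
        obtain ⟨c, hc, rfl⟩ := Finset.mem_image.1 hx
        exact (Finset.mem_filter.1 (hr1 c hc)).2)
      (by
        intro x hx y hy hxy hd
        obtain ⟨c, hc, rfl⟩ := Finset.mem_image.1 hx
        obtain ⟨c', hc', rfl⟩ := Finset.mem_image.1 hy
        rw [Nat.sub_add_cancel hg] at hd
        apply hxy
        have hd' : ((ℓ ^ g : ℕ) : ℤ) ∣ (r c : ℤ) - (r c' : ℤ) := by exact_mod_cast hd
        have h1 : r c' ≡ r c [MOD ℓ ^ g] := Nat.modEq_iff_dvd.2 hd'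
        have h2 : c' = c := by
          rw [← hr2 c hc, ← hr2 c' hc']
          exact h1
        rw [h2]) m₀
    exact hm₀ ((pow_dvd_pow _ (by omega)).trans h)
  have h1 : S.card ≤ N / ℓ ^ g * C.card :=
    Finset.card_le_mul_card_image S (N / ℓ ^ g) fun c _ => fiber N (ℓ ^ g) c hN S hS
  calc S.card * ℓ ^ g ≤ N / ℓ ^ g * C.card * ℓ ^ g := Nat.mul_le_mul_right _ h1
    _ ≤ N / ℓ ^ g * D * ℓ ^ g := Nat.mul_le_mul_right _ (Nat.mul_le_mul_left _ hcard)
    _ = D * (N / ℓ ^ g * ℓ ^ g) := by ring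
    _ = D * N := by rw [Nat.div_mul_cancel hN]

end Pool.Agent.TPK
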