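import Pool.Agent.TPK.Targets3

set_option autoImplicit false

/-! TPK-VPV: the polynomial `PP` is not divisible by a high power of `ℓ` at one point. -/

namespace Pool.Agent.TPK

open Finset Polynomial

namespace VPV_

/-- the value of the term `j` at the zero of `P X + a_j`, without the factor `κ j` -/
def W {k : ℕ} (a : Fin k → ℤ) (P P' : ℤ) (j : Fin k) : ℤ :=
  a j * (P - P') * ∏ i ∈ Finset.univ.erase j, ((a i - a j) * (P * a i - P' * a j))

theorem eval_PP {k : ℕ} (κ a : Fin k → ℤ) (P P' m : ℤ) :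
    (PP κ a P P').eval m = ∑ j, κ j * (a j * (P - P')) *
      ∏ i ∈ Finset.univ.erase j, ((P * m + a i) * (P' * m + a i)) := by
  simp [PP, eval_finsetSum, eval_prod]

theorem swap {k : ℕ} (κ a : Fin k → ℤ) (P P' m : ℤ) :
    (PP κ a P' P).eval m = -(PP κ a P P').eval m := by
  rw [eval_PP, eval_PP, ← Finset.sum_neg_distrib]
  refine Finset.sum_congr rfl fun j _ => ?_
  have h : ∏ i ∈ Finset.univ.erase j, ((P' * m + a i) * (P * m + a i)) =
      ∏ i ∈ Finset.univ.erase j, ((P * m + a i) * (P' * m + a i)) :=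
    Finset.prod_congr rfl fun i _ => mul_comm _ _
  rw [h]
  ring

theorem core {k : ℕ} (κ a : Fin k → ℤ) (P P' : ℤ) (L : ℕ) (j₁ : Fin k)
    (hc : IsCoprime P (L : ℤ)) (hk : IsCoprime (L : ℤ) (κ j₁)) (hW : ¬ (L : ℤ) ∣ W a P P' j₁) :
    ∃ m : ℤ, ¬ (L : ℤ) ∣ (PP κ a P P').eval m := by
  obtain ⟨u, v, huv⟩ := hc
  refine ⟨-(a j₁ * u), fun h => hW ?_⟩
  set m : ℤ := -(a j₁ * u) with hm
  have h1 : (L : ℤ) ∣ P * m + a j₁ := ⟨a j₁ * v, by rw [hm]; linear_combination (-(a j₁)) * huv⟩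
  rw [eval_PP, ← Finset.add_sum_erase _ _ (Finset.mem_univ j₁)] at h
  have h2 : (L : ℤ) ∣ ∑ j ∈ Finset.univ.erase j₁, κ j * (a j * (P - P')) *
      ∏ i ∈ Finset.univ.erase j, ((P * m + a i) * (P' * m + a i)) := by
    refine Finset.dvd_sum fun j hj => Dvd.dvd.mul_left ?_ _
    have hj' : j₁ ∈ Finset.univ.erase j :=
      Finset.mem_erase.2 ⟨(Finset.ne_of_mem_erase hj).symm, Finset.mem_univ _⟩
    exact (Dvd.dvd.mul_right h1 _).trans (Finset.dvd_prod_of_mem _ hj')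
  have h3 := (dvd_add_left h2).1 h
  have he : (P : ZMod L) * (m : ZMod L) + (a j₁ : ZMod L) = 0 := by
    have := (ZMod.intCast_zmod_eq_zero_iff_dvd (P * m + a j₁) L).2 h1
    push_cast at this
    exact this
  have h4 := (ZMod.intCast_zmod_eq_zero_iff_dvd _ L).2 h3
  push_cast at h4
  have h5 : ((κ j₁ * W a P P' j₁ : ℤ) : ZMod L) = 0 := by
    unfold W
    push_cast
    have h6 : ∏ i ∈ Finset.univ.erase j₁, (((a i : ZMod L) - a j₁) *
        ((P : ZMod L) * a i - P' * a j₁)) =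
        (∏ i ∈ Finset.univ.erase j₁, (((P : ZMod L) * m + a i) * (P' * m + a i))) *
          ∏ i ∈ Finset.univ.erase j₁, (P : ZMod L) := by
      rw [← Finset.prod_mul_distrib]
      refine Finset.prod_congr rfl fun i _ => ?_
      linear_combination
        (-((P' : ZMod L) * (P * m - a j₁) + (P + P') * a i)) * he
    rw [h6]
    calc (κ j₁ : ZMod L) * ((a j₁ : ZMod L) * (P - P') *
          ((∏ i ∈ Finset.univ.erase j₁, (((P : ZMod L) * m + a i) * (P' * m + a i))) *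
            ∏ i ∈ Finset.univ.erase j₁, (P : ZMod L)))
        = ((κ j₁ : ZMod L) * ((a j₁ : ZMod L) * (P - P')) *
          (∏ i ∈ Finset.univ.erase j₁, (((P : ZMod L) * m + a i) * (P' * m + a i)))) *
            ∏ i ∈ Finset.univ.erase j₁, (P : ZMod L) := by ring
      _ = 0 := by rw [h4, zero_mul]
  exact hk.dvd_of_dvd_mul_left ((ZMod.intCast_zmod_eq_zero_iff_dvd _ L).1 h5)

theorem W_ne {k : ℕ} (a : Fin k → ℤ) (p p' : ℕ) (ha : Function.Injective a)
    (h0 : ∀ j, a j ≠ 0) (hp : p.Prime) (hp' : p'.Prime) (hne : p ≠ p')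
    (h1 : ∀ j, |a j| < (p : ℤ)) (j : Fin k) : W a p p' j ≠ 0 := by
  unfold W
  refine mul_ne_zero (mul_ne_zero (h0 j) ?_) (Finset.prod_ne_zero_iff.2 fun i hi => ?_)
  · intro h
    apply hne
    have : (p : ℤ) = p' := by linarith
    exact_mod_cast this
  · refine mul_ne_zero ?_ ?_
    · intro h
      exact (Finset.ne_of_mem_erase hi) (ha (by linarith))
    · intro h
      have hd : (p : ℤ) ∣ (p' : ℤ) * a j := ⟨a i, by linarith⟩
      rcases (Nat.prime_iff_prime_int.1 hp).dvd_or_dvd hd with h2 | h2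
      · exact hne ((Nat.prime_dvd_prime_iff_eq hp hp').1 (by exact_mod_cast h2))
      · exact h0 j (Int.eq_zero_of_abs_lt_dvd h2 (h1 j))

theorem deg {k : ℕ} (κ a : Fin k → ℤ) (P P' : ℤ) : (PP κ a P P').natDegree ≤ 2 * k := by
  unfold PP
  refine natDegree_sum_le_of_forall_le _ _ fun j _ => ?_
  refine (natDegree_C_mul_le _ _).trans ((natDegree_prod_le _ _).trans ?_)
  have h1 : ∀ i ∈ Finset.univ.erase j,
      ((Polynomial.C P * Polynomial.X + Polynomial.C (a i)) *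
        (Polynomial.C P' * Polynomial.X + Polynomial.C (a i))).natDegree ≤ 2 := by
    intro i _
    refine natDegree_mul_le.trans ?_
    have h2 := natDegree_linear_le (a := P) (b := a i)
    have h3 := natDegree_linear_le (a := P') (b := a i)
    omega
  refine (Finset.sum_le_sum h1).trans ?_
  rw [Finset.sum_const, smul_eq_mul]
  have h4 : (Finset.univ.erase j).card ≤ k := by
    refine (Finset.card_le_card (Finset.erase_subset _ _)).trans ?_
    rw [Finset.card_univ, Fintype.card_fin]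
  omega

end VPV_

theorem prove_VPV : T_VPV := by
  intro k a p p' ha h0 hp hp' hne h1 h1'
  refine ⟨fun κ => VPV_.deg κ a p p', ∑ j, ((VPV_.W a p p' j).natAbs +
    (VPV_.W a p' p j).natAbs), ?_⟩
  intro ℓ b κ j₁ hℓ hκ hB
  have hle := Finset.single_le_sum (f := fun j => (VPV_.W a p p' j).natAbs +
    (VPV_.W a p' p j).natAbs) (fun _ _ => Nat.zero_le _) (Finset.mem_univ j₁)
  have hk : IsCoprime ((ℓ ^ (b + 1) : ℕ) : ℤ) (κ j₁) := by
    push_cast
    exact IsCoprime.pow_left ((Nat.prime_iff_prime_int.1 hℓ).coprime_iff_not_dvd.2 hκ)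
  by_cases h : p = ℓ
  · have h2 : p' ≠ ℓ := fun h3 => hne (h.trans h3.symm)
    have hc : IsCoprime (p' : ℤ) ((ℓ ^ (b + 1) : ℕ) : ℤ) :=
      Nat.isCoprime_iff_coprime.2 (((Nat.coprime_primes hp' hℓ).2 h2).pow_right _)
    have hW : ¬ ((ℓ ^ (b + 1) : ℕ) : ℤ) ∣ VPV_.W a p' p j₁ := by
      intro h3
      have h4 := Nat.le_of_dvd (Int.natAbs_pos.2
        (VPV_.W_ne a p' p ha h0 hp' hp hne.symm h1' j₁)) (Int.natCast_dvd.1 h3)
      omega
    obtain ⟨m, hm⟩ := VPV_.core κ a p' p _ j₁ hc hk hW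
    refine ⟨m, fun h5 => hm ?_⟩
    rw [VPV_.swap, dvd_neg]
    push_cast
    exact h5
  · have hc : IsCoprime (p : ℤ) ((ℓ ^ (b + 1) : ℕ) : ℤ) :=
      Nat.isCoprime_iff_coprime.2 (((Nat.coprime_primes hp hℓ).2 h).pow_right _)
    have hW : ¬ ((ℓ ^ (b + 1) : ℕ) : ℤ) ∣ VPV_.W a p p' j₁ := by
      intro h3
      have h4 := Nat.le_of_dvd (Int.natAbs_pos.2
        (VPV_.W_ne a p p' ha h0 hp hp' hne h1 j₁)) (Int.natCast_dvd.1 h3)
      omega
    obtain ⟨m, hm⟩ := VPV_.core κ a p p' _ j₁ hc hk hW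
    refine ⟨m, fun h5 => hm ?_⟩
    push_cast
    exact h5

end Pool.Agent.TPK
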