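import Pool.Agent.TPK.Targets3

set_option autoImplicit false

/-! TPK-VSH (MP_f3f922_nt): shift lemma for means of periodic functions. -/

namespace Pool.Agent.TPK

open Finset Pool.Agent.Ell
open scoped BigOperators

namespace VSH_

theorem shift (q : ℕ) (F : ℕ → ℂ) (h : Per q F) (t : ℕ) :
    ∑ m ∈ Finset.range q, F (m + t) = ∑ m ∈ Finset.range q, F m := by
  induction t with
  | zero => rfl
  | succ t ih =>
    have h1 := Finset.sum_range_succ (fun m => F (m + t)) q
    have h2 := Finset.sum_range_succ' (fun m => F (m + t)) q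
    have h3 : F (q + t) = F (0 + t) := by
      have := h t
      rw [zero_add, add_comm q t]
      exact this
    have h4 : ∑ m ∈ Finset.range q, F (m + (t + 1)) =
        ∑ m ∈ Finset.range q, F (m + 1 + t) := by
      refine Finset.sum_congr rfl fun m _ => ?_
      congr 1
      ring
    rw [h4, ← ih]
    have h5 := h1.symm.trans h2
    rw [h3] at h5
    exact (add_right_cancel h5).symm

end VSH_

theorem prove_VSH : T_VSH := by
  intro q h L F S hq hL hF hF1 hS
  have hq0 : (0 : ℝ) < q := by exact_mod_cast hq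
  have hL0 : (0 : ℝ) < L := by exact_mod_cast hL
  have h1 : (L : ℂ) * ∑ m ∈ Finset.range q, F m =
      ∑ m ∈ Finset.range q, ∑ s ∈ Finset.range L, F (m + h * s) := by
    rw [Finset.sum_comm]
    rw [Finset.sum_congr rfl fun s _ => VSH_.shift q F hF (h * s)]
    simp
  have h2 : ‖∑ m ∈ Finset.range q, ∑ s ∈ Finset.range L, F (m + h * s)‖ ≤
      (S.card : ℝ) * L := by
    calc ‖∑ m ∈ Finset.range q, ∑ s ∈ Finset.range L, F (m + h * s)‖
        ≤ ∑ m ∈ Finset.range q, ‖∑ s ∈ Finset.range L, F (m + h * s)‖ := norm_sum_le _ _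
      _ ≤ ∑ m ∈ Finset.range q, (if m ∈ S then (L : ℝ) else 0) := by
          refine Finset.sum_le_sum fun m hm => ?_
          split_ifs with hmS
          · calc ‖∑ s ∈ Finset.range L, F (m + h * s)‖
                ≤ ∑ s ∈ Finset.range L, ‖F (m + h * s)‖ := norm_sum_le _ _
              _ ≤ ∑ s ∈ Finset.range L, (1 : ℝ) := Finset.sum_le_sum fun s _ => hF1 _
              _ = L := by simp
          · rw [hS m (Finset.mem_range.mp hm) hmS, norm_zero]
      _ = (((Finset.range q).filter fun m => m ∈ S).card : ℝ) * L := by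
          rw [← Finset.sum_filter, Finset.sum_const, nsmul_eq_mul]
      _ ≤ (S.card : ℝ) * L := by
          refine mul_le_mul_of_nonneg_right ?_ hL0.le
          exact_mod_cast Finset.card_le_card fun m hm => (Finset.mem_filter.mp hm).2
  rw [← h1, norm_mul, Complex.norm_natCast] at h2
  have h3 : ‖∑ m ∈ Finset.range q, F m‖ ≤ (S.card : ℝ) := by
    have h4 : (L : ℝ) * ‖∑ m ∈ Finset.range q, F m‖ ≤ L * (S.card : ℝ) := by
      rw [mul_comm (L : ℝ) (S.card : ℝ)]
      exact h2
    exact le_of_mul_le_mul_left h4 hL0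
  unfold mean
  rw [norm_div, Complex.norm_natCast]
  exact div_le_div_of_nonneg_right h3 hq0.le

end Pool.Agent.TPK
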