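import Pool.Agent.TPK.KFC
import Pool.Agent.TPK.KRD
import Pool.Agent.TPK.KCA
import Pool.Agent.TPK.VLI
import Pool.Agent.TPK.VCO
import Pool.Agent.TPK.VPC
import Pool.Agent.TPK.VPV
import Pool.Agent.TPK.VSH
import Pool.Agent.TPK.VA
import Pool.Agent.TPK.VB
import Pool.Agent.TPK.GA
import Pool.Agent.TPK.GB
import Pool.Agent.TPK.GC
import Pool.Agent.TPK.GD
import Pool.Agent.TPK.KC2
import Pool.Agent.TPK.KM5
import Pool.Agent.TPK.KBL5
import Pool.Agent.TPK.KCR5
import Pool.Agent.TPK.KLC5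
import Pool.Agent.TPK.KDL
import Pool.Agent.TPK.KFI5
import Pool.Agent.TPX.XZW
import Pool.Agent.TPX.EQW
import Pool.Agent.TPX.MSW
import Pool.Agent.TPX.STW
import Pool.Agent.TPM.FAC
import Pool.Agent.TPM.XZ
import Pool.Agent.EllTw.RAM
import Pool.Agent.Ell.All
import Pool.Agent.Ell.Core

set_option autoImplicit false

/-! One function arbitrary, the others structured, one conductor divisible by a large prime power
or one large `t_j`: assembly. -/

namespace Pool.Agent.TPK

open Pool.Agent.Ell Pool.Agent.TPM Pool.Agent.TPX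

theorem all_KM5 : T_KM5 := by
  have hco : T_VCO := prove_VCO prove_VLI
  have hgd : T_GD := prove_GD (prove_GC (prove_GB prove_GA))
  exact prove_KM5 (prove_KFC prove_FAC) prove_KRD (prove_KCA EllTw.p_RAM)
    (prove_VA hco prove_VPC prove_VPV prove_VSH) (prove_VB hco prove_VPC prove_VPV prove_VSH)
    (prove_KC2 hgd) prove_XZW

theorem all_KLC5 : T_KLC5 := by
  have hms : T_MSW := prove_MSW (p_FL p_MERT) p_CRT
  have heq : T_EQW := prove_EQW p_CORE p_PHI
  have hosc : T_OSC := p_OSC p_CORE p_PHI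
  exact prove_KLC5 p_KAT
    (prove_KCR5 (prove_KBL5 hms heq all_KM5 prove_XZ prove_XZW hosc) prove_XZ prove_XZW p_VDM)
    (prove_STW p_MERT prove_XZ prove_XZW) prove_XZ prove_XZW

theorem all_KFI5 : T_KFI5 := prove_KFI5 all_KLC5 prove_KDL

end Pool.Agent.TPK
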