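import Pool.Agent.TPK.Targets6
import Pool.Agent.TPK.KC2

set_option autoImplicit false

/-! TPK-KCJ: the mean at a large prime where all exponents are at most one. -/

namespace Pool.Agent.TPK

open Finset Filter Pool.Agent.Ell Pool.Agent.TPM Pool.Agent.TPX
open scoped BigOperators ComplexConjugate

namespace KCJ_

open KCA_ KC2_

/-- the product of all characters -/
noncomputable def Tj {k r : ℕ} (θ : Fin k → DirichletCharacter ℂ r) (a : Fin k → ℤ)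
    (p p' m : ℕ) : ℂ :=
  ∏ j, (EllTw.ch (θ j) (a j) (p * m) * conj (EllTw.ch (θ j) (a j) (p' * m)))

lemma norm_Tj {k r : ℕ} (θ : Fin k → DirichletCharacter ℂ r) (a : Fin k → ℤ)
    (p p' m : ℕ) : ‖Tj θ a p p' m‖ ≤ 1 := by
  unfold Tj
  rw [norm_prod]
  exact Finset.prod_le_one (fun _ _ => norm_nonneg _) fun j _ => norm_th _ _ _ _

lemma pt {k ℓ i κ r p p' : ℕ} (hℓ : ℓ.Prime) (a : Fin k → ℤ)
    (φ : Fin k → DirichletCharacter ℂ (ℓ ^ κ)) (θ : Fin k → DirichletCharacter ℂ r)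
    (f : Fin k → ℕ → ℂ) (t : Fin k → ℝ)
    (h1 : ∀ j, ∀ n : ℤ, ¬ (ℓ : ℤ) ∣ n → φ j (n : ZMod (ℓ ^ κ)) = θ j (n : ZMod r))
    (hf : ∀ j, MB (f j)) (m : ℕ) :
    ‖Lk f φ t (ℓ ^ i) a p p' m - Tj θ a p p' m‖ ≤
      2 * ∑ j, (ind ℓ p (a j) m + ind ℓ p' (a j) m) := by
  by_cases h : ∀ j, ¬ (ℓ : ℤ) ∣ (p : ℤ) * (m : ℤ) + a j ∧ ¬ (ℓ : ℤ) ∣ (p' : ℤ) * (m : ℤ) + a j
  · have hL : ∀ j, Lm (f j) (φ j) (t j) (ℓ ^ i) (a j) p p' m =
        φ j (((p : ℤ) * (m : ℤ) + a j : ℤ) : ZMod (ℓ ^ κ)) *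
        conj (φ j (((p' : ℤ) * (m : ℤ) + a j : ℤ) : ZMod (ℓ ^ κ))) := by
      intro j
      unfold Lm
      rw [TPY.CA_.xz_unit hℓ (φ j) (hf j) (t j) (h j).1,
        TPY.CA_.xz_unit hℓ (φ j) (hf j) (t j) (h j).2]
    have hP : Lk f φ t (ℓ ^ i) a p p' m = Tj θ a p p' m := by
      unfold Lk Tj
      refine Finset.prod_congr rfl fun j _ => ?_
      rw [hL, h1 _ _ (h j).1, h1 _ _ (h j).2]
      unfold EllTw.ch
      push_cast
      rfl
    rw [hP, sub_self, norm_zero]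
    have := Finset.sum_nonneg (s := (Finset.univ : Finset (Fin k)))
      (f := fun j => ind ℓ p (a j) m + ind ℓ p' (a j) m)
      (fun j _ => add_nonneg (ind_nonneg _ _ _ _) (ind_nonneg _ _ _ _))
    linarith
  · have hS : (1 : ℝ) ≤ ∑ j, (ind ℓ p (a j) m + ind ℓ p' (a j) m) := by
      push Not at h
      obtain ⟨j, hj⟩ := h
      have h3 : (1 : ℝ) ≤ ind ℓ p (a j) m + ind ℓ p' (a j) m := by
        by_cases h4 : (ℓ : ℤ) ∣ (p : ℤ) * (m : ℤ) + a j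
        · rw [ind_one h4]
          linarith [ind_nonneg ℓ p' (a j) m]
        · rw [ind_one (hj h4)]
          linarith [ind_nonneg ℓ p (a j) m]
      refine h3.trans ?_
      exact Finset.single_le_sum (f := fun j => ind ℓ p (a j) m + ind ℓ p' (a j) m)
        (fun j _ => add_nonneg (ind_nonneg _ _ _ _) (ind_nonneg _ _ _ _)) (Finset.mem_univ j)
    have h5 := norm_sub_le (Lk f φ t (ℓ ^ i) a p p' m) (Tj θ a p p' m)
    have h6 := norm_Lk_le f hf φ t (ℓ ^ i) a p p' m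
    have h7 := norm_Tj θ a p p' m
    linarith

lemma corej {k ℓ i κ p p' : ℕ} (hℓ : ℓ.Prime) (hκ : 1 ≤ κ)
    (hp : ¬ ℓ ∣ p) (hp' : ¬ ℓ ∣ p') (a : Fin k → ℤ)
    (φ : Fin k → DirichletCharacter ℂ (ℓ ^ κ)) (θ : Fin k → DirichletCharacter ℂ ℓ)
    (f : Fin k → ℕ → ℂ) (t : Fin k → ℝ)
    (h1 : ∀ j, ∀ n : ℤ, ¬ (ℓ : ℤ) ∣ n → φ j (n : ZMod (ℓ ^ κ)) = θ j (n : ZMod ℓ))
    (hf : ∀ j, MB (f j)) :
    ‖mean (ℓ ^ i * ℓ ^ κ) (Lk f φ t (ℓ ^ i) a p p')‖ ≤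
      (‖∑ m ∈ Finset.range ℓ, Tj θ a p p' m‖ + 4 * k) / ℓ := by
  have hℓ0 : (0 : ℝ) < ℓ := by exact_mod_cast hℓ.pos
  have hℓ1 : (1 : ℝ) ≤ ℓ := by exact_mod_cast hℓ.one_lt.le
  have hNZ : NeZero ℓ := ⟨hℓ.ne_zero⟩
  obtain ⟨l, hl⟩ : ∃ l, i + κ = l + 1 := ⟨i + κ - 1, by omega⟩
  have e1 : ℓ ^ i * ℓ ^ κ = ℓ * ℓ ^ l := by rw [← pow_add, hl, pow_succ']
  have hch : ∀ (ψ : DirichletCharacter ℂ ℓ) (b : ℤ) (p m : ℕ),
      EllTw.ch ψ b (p * (m + ℓ)) = EllTw.ch ψ b (p * m) := by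
    intro ψ b p m
    unfold EllTw.ch
    congr 1
    push_cast
    rw [ZMod.natCast_self, add_zero]
  have hper : Per ℓ (Tj θ a p p') := by
    intro m
    unfold Tj
    simp only [hch]
  have hS : ∑ m ∈ range (ℓ ^ i * ℓ ^ κ), Tj θ a p p' m =
      ((ℓ ^ l : ℕ) : ℂ) * ∑ m ∈ range ℓ, Tj θ a p p' m := by
    rw [e1, EllTw.MEAN_.sum_range_mul_per hper]
  have hfin : ‖∑ m ∈ range (ℓ ^ i * ℓ ^ κ),
      (Lk f φ t (ℓ ^ i) a p p' m - Tj θ a p p' m)‖ ≤ 4 * k * (ℓ : ℝ) ^ l := by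
    refine (norm_sum_le _ _).trans
      ((Finset.sum_le_sum fun m _ => pt (i := i) hℓ a φ θ f t h1 hf m).trans ?_)
    rw [← Finset.mul_sum, Finset.sum_comm, e1]
    have h3 : ∀ j : Fin k, ∑ m ∈ range (ℓ * ℓ ^ l), (ind ℓ p (a j) m + ind ℓ p' (a j) m) ≤
        2 * (ℓ : ℝ) ^ l := by
      intro j
      rw [Finset.sum_add_distrib]
      have g1 := MEA_.count hℓ p 0 1 l (a j) hp hℓ.not_dvd_one
      have g2 := MEA_.count hℓ p' 0 1 l (a j) hp' hℓ.not_dvd_one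
      simp only [zero_add, one_mul] at g1 g2
      unfold ind
      linarith
    have h4 := Finset.sum_le_sum (s := (Finset.univ : Finset (Fin k))) fun j _ => h3 j
    rw [Finset.sum_const, Finset.card_univ, Fintype.card_fin, nsmul_eq_mul] at h4
    linarith
  rw [Finset.sum_sub_distrib, hS] at hfin
  have hb : ‖((ℓ ^ l : ℕ) : ℂ) * ∑ m ∈ range ℓ, Tj θ a p p' m‖ =
      (ℓ : ℝ) ^ l * ‖∑ m ∈ range ℓ, Tj θ a p p' m‖ := by
    rw [norm_mul, Complex.norm_natCast]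
    push_cast
    rfl
  have htri := norm_sub_norm_le (∑ m ∈ range (ℓ ^ i * ℓ ^ κ), Lk f φ t (ℓ ^ i) a p p' m)
    (((ℓ ^ l : ℕ) : ℂ) * ∑ m ∈ range ℓ, Tj θ a p p' m)
  unfold mean
  rw [norm_div, Complex.norm_natCast]
  have e3 : ((ℓ ^ i * ℓ ^ κ : ℕ) : ℝ) = ℓ * (ℓ : ℝ) ^ l := by
    rw [e1]
    push_cast
    ring
  rw [e3, div_le_div_iff₀ (by positivity) hℓ0]
  set S := ‖∑ m ∈ range ℓ, Tj θ a p p' m‖ with hSd
  have h6 : ‖∑ m ∈ range (ℓ ^ i * ℓ ^ κ), Lk f φ t (ℓ ^ i) a p p' m‖ ≤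
      (S + 4 * k) * (ℓ : ℝ) ^ l := by
    rw [hb] at htri
    linarith
  calc _ ≤ (S + 4 * k) * (ℓ : ℝ) ^ l * ℓ := mul_le_mul_of_nonneg_right h6 hℓ0.le
    _ = _ := by ring

lemma sumB {k ℓ : ℕ} [Fact ℓ.Prime] (θ : Fin k → DirichletCharacter ℂ ℓ) (a : Fin k → ZMod ℓ)
    (p p' : ZMod ℓ) (hp : p ≠ 0) (hp' : p' ≠ 0) :
    ‖∑ x : ZMod ℓ, ∏ j, (θ j (p * x + a j) * conj (θ j (p' * x + a j)))‖ ≤
      ‖∑ x : ZMod ℓ, ∏ s : Fin (k + k), (Fin.append θ (fun j => (θ j)⁻¹)) s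
        (x + Fin.append (fun j => a j / p) (fun j => a j / p') s)‖ := by
  have hc : ∀ (χ : DirichletCharacter ℂ ℓ) (y : ZMod ℓ), conj (χ y) = χ⁻¹ y :=
    fun χ y => MulChar.star_apply' χ y
  have h1 : ∀ x : ZMod ℓ, ∏ j, (θ j (p * x + a j) * conj (θ j (p' * x + a j))) =
      (∏ j, (θ j p * conj (θ j p'))) * ∏ s : Fin (k + k), (Fin.append θ (fun j => (θ j)⁻¹)) s
        (x + Fin.append (fun j => a j / p) (fun j => a j / p') s) := by
    intro x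
    rw [Fin.prod_univ_add]
    simp only [Fin.append_left, Fin.append_right]
    rw [← Finset.prod_mul_distrib, ← Finset.prod_mul_distrib]
    refine Finset.prod_congr rfl fun j _ => ?_
    have e1 : p * x + a j = p * (x + a j / p) := by field_simp
    have e2 : p' * x + a j = p' * (x + a j / p') := by field_simp
    rw [e1, e2, map_mul, map_mul, map_mul, ← hc (θ j) (x + a j / p')]
    ring
  simp only [h1]
  rw [← Finset.mul_sum, norm_mul]
  refine mul_le_of_le_one_left (norm_nonneg _) ?_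
  rw [norm_prod]
  refine Finset.prod_le_one (fun _ _ => norm_nonneg _) fun j _ => ?_
  rw [norm_mul, RCLike.norm_conj]
  exact mul_le_one₀ (DirichletCharacter.norm_le_one _ _) (norm_nonneg _)
    (DirichletCharacter.norm_le_one _ _)

lemma fin_calc {S K C x : ℝ} (N : ℕ) (hN : 1 ≤ N) (hS0 : 0 ≤ S) (hK0 : 0 ≤ K) (hx : 1 ≤ x)
    (g : S ^ N ≤ C * x ^ (N - 1)) :
    ((S + K) / x) ^ N ≤ 2 ^ (N - 1) * (C + K ^ N) / x := by
  have hx0 : 0 < x := by linarith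
  obtain ⟨n, rfl⟩ : ∃ n, N = n + 1 := ⟨N - 1, by omega⟩
  simp only [Nat.add_sub_cancel] at g ⊢
  have h31 : (1 : ℝ) ≤ x ^ n := one_le_pow₀ hx
  have h32 : K ^ (n + 1) ≤ K ^ (n + 1) * x ^ n :=
    le_mul_of_one_le_right (by positivity) h31
  have h33 : (S + K) ^ (n + 1) ≤ 2 ^ n * (S ^ (n + 1) + K ^ (n + 1)) := by
    have := add_pow_le hS0 hK0 (n + 1)
    simpa using this
  rw [div_pow, div_le_div_iff₀ (by positivity) hx0]
  calc (S + K) ^ (n + 1) * x ≤ 2 ^ n * (S ^ (n + 1) + K ^ (n + 1)) * x := by gcongr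
    _ ≤ 2 ^ n * (C * x ^ n + K ^ (n + 1) * x ^ n) * x := by gcongr
    _ = 2 ^ n * (C + K ^ (n + 1)) * x ^ (n + 1) := by ring

end KCJ_

open KCJ_ KC2_ in
/-- KCJ -/
theorem prove_KCJ (h1 : T_WJ) : T_KCJ := by
  intro k a p p' hinj ha hp hp' hne hap hap'
  rcases Nat.eq_zero_or_pos k with hk | hk
  · subst hk
    exact ⟨1, 0, one_pos, fun ℓ i c κ φ θ j₁ => j₁.elim0⟩
  obtain ⟨C, hC, hWJ⟩ := h1 (k + k) (by omega)
  refine ⟨2 ^ (2 ^ (2 * k) - 1) * (C + (4 * k) ^ (2 ^ (2 * k))), 2 * p * p' + p + p',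
    by positivity, ?_⟩
  intro ℓ i c κ φ θ j₁ f t hℓ hz hc hκ hprim hφ1 hf
  have main : ∀ (r : ℕ) (τ : Fin k → DirichletCharacter ℂ r), r = ℓ → (τ j₁).IsPrimitive →
      (∀ j, ∀ n : ℤ, ¬ (ℓ : ℤ) ∣ n → φ j (n : ZMod (ℓ ^ κ)) = τ j (n : ZMod r)) →
      ‖mean (ℓ ^ i * ℓ ^ κ) (Lk f φ t (ℓ ^ i) a p p')‖ ^ (2 ^ (2 * k)) ≤
        2 ^ (2 ^ (2 * k) - 1) * (C + (4 * k) ^ (2 ^ (2 * k))) / ℓ := by
    intro r τ hrl hprim' hφ1'
    subst hrl
    have hF : Fact r.Prime := ⟨hℓ⟩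
    have hNZ : NeZero r := ⟨hℓ.ne_zero⟩
    have hℓ0 : (0 : ℝ) < r := by exact_mod_cast hℓ.pos
    have hℓ1 : (1 : ℝ) ≤ r := by exact_mod_cast hℓ.one_lt.le
    have hp0 := hp.pos
    have hp0' := hp'.pos
    have hzZ : 2 * (p : ℤ) * p' + p + p' < r := by exact_mod_cast hz
    have hpp : (0 : ℤ) ≤ 2 * (p : ℤ) * p' := by positivity
    have hpz : (0 : ℤ) < p := by exact_mod_cast hp0
    have hpz' : (0 : ℤ) < p' := by exact_mod_cast hp0'
    have hlp : ¬ r ∣ p := by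
      intro h
      have := Nat.le_of_dvd hp0 h
      have : (r : ℤ) ≤ p := by exact_mod_cast this
      linarith
    have hlp' : ¬ r ∣ p' := by
      intro h
      have := Nat.le_of_dvd hp0' h
      have : (r : ℤ) ≤ p' := by exact_mod_cast this
      linarith
    have hθ : τ j₁ ≠ 1 := by
      intro h
      rw [h, DirichletCharacter.isPrimitive_def, DirichletCharacter.conductor_one]
        at hprim'
      exact hℓ.one_lt.ne hprim'
    -- the conditions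
    have c1 : (p : ZMod r) ≠ 0 := by
      have := ne_of_small (ℓ := r) (x := (p : ℤ)) hpz.ne' (by rw [abs_of_pos hpz]; linarith)
      exact_mod_cast this
    have c2 : (p' : ZMod r) ≠ 0 := by
      have := ne_of_small (ℓ := r) (x := (p' : ℤ)) hpz'.ne' (by rw [abs_of_pos hpz']; linarith)
      exact_mod_cast this
    have c5 : ∀ j₂ j₁ : Fin k, (a j₂ : ZMod r) = a j₁ → j₂ = j₁ := by
      intro j₂ j₁ he
      by_contra hj
      have h3 : a j₂ - a j₁ ≠ 0 := fun h => hj (hinj (sub_eq_zero.1 h))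
      have h4 : |a j₂ - a j₁| < (r : ℤ) := by
        have h5 := abs_sub (a j₂) (a j₁)
        have h6 := hap j₂
        have h7 := hap' j₁
        linarith
      have := ne_of_small h3 h4
      apply this
      push_cast
      rw [he, sub_self]
    have c6 : ∀ j₁ j₂ : Fin k, (p' : ZMod r) * a j₁ ≠ p * a j₂ := by
      intro j₁ j₂
      have h3 := cross hp hp' hne (y := a j₂) (ha j₁) (hap j₁)
      have h4 := abs_cross (hap j₁) (hap' j₂)
      have := ne_of_small (ℓ := r) h3 (by linarith)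
      intro h
      apply this
      push_cast
      rw [h, sub_self]
    have hB : Function.Injective (Fin.append (fun j => (a j : ZMod r) / (p : ZMod r))
        (fun j => (a j : ZMod r) / (p' : ZMod r))) := by
      rw [Fin.append_injective_iff]
      refine ⟨?_, ?_, ?_⟩
      · intro x y hxy
        exact c5 x y ((div_left_inj' c1).1 hxy)
      · intro x y hxy
        exact c5 x y ((div_left_inj' c2).1 hxy)
      · intro x y hxy
        rw [div_eq_div_iff c1 c2] at hxy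
        exact c6 x y (by rw [mul_comm, hxy, mul_comm])
    have g := hWJ r (Fin.append τ (fun j => (τ j)⁻¹)) _ hB
      ⟨Fin.castAdd k j₁, by rw [Fin.append_left]; exact hθ⟩
    have hsum : ∑ m ∈ Finset.range r, Tj τ a p p' m =
        ∑ m : ZMod r, ∏ j, (τ j ((p : ZMod r) * m + (a j : ZMod r)) *
          conj (τ j ((p' : ZMod r) * m + (a j : ZMod r)))) := by
      rw [← sum_zmod r]
      refine Finset.sum_congr rfl fun m _ => ?_
      unfold Tj EllTw.ch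
      push_cast
      rfl
    have hle := sumB τ (fun j => (a j : ZMod r)) (p : ZMod r) (p' : ZMod r) c1 c2
    rw [← hsum] at hle
    have g' := (pow_le_pow_left₀ (norm_nonneg _) hle (2 ^ (k + k))).trans g
    rw [← two_mul] at g'
    have hcore := corej hℓ hκ hlp hlp' a φ τ f t hφ1' hf (i := i)
    have hk0 : (0 : ℝ) ≤ 4 * k := by positivity
    exact (pow_le_pow_left₀ (norm_nonneg _) hcore _).trans
      (fin_calc _ Nat.one_le_two_pow (norm_nonneg _) hk0 hℓ1 g')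
  exact main (ℓ ^ c) θ (by rw [hc, pow_one]) hprim hφ1

end Pool.Agent.TPK
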