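import Pool.Agent.TPK.Targets6
import Pool.Agent.TPK.KM4

set_option autoImplicit false

/-! The mean of the cross product of `k` structured functions is small if some conductor is
large. -/

namespace Pool.Agent.TPK

open Finset Filter Pool.Agent.Ell Pool.Agent.TPM Pool.Agent.TPX
open scoped BigOperators ComplexConjugate

open KMN_ KM4_ in
theorem prove_KM6 (h1 : T_KFC) (h2 : T_KRD) (hA : T_VA) (hB : T_VB) (hC : T_KCJ)
    (h5 : T_XZW) : T_KM6 := by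
  intro k a p p' η hinj ha hp hp' hne hpa hpa' hη
  obtain ⟨K3, z3, hK3, H3⟩ := hA k a p p' hinj ha hp hp' hne hpa hpa'
  obtain ⟨K4, z4, hK4, H4⟩ := hC k a p p' hinj ha hp hp' hne hpa hpa'
  refine ⟨max (max z3 ⌈K3 / η⌉₊) (max z4 ⌈K4 / η ^ (2 ^ (2 * k))⌉₊), ?_⟩
  intro z V hz
  have hz4 : z3 ≤ z := ((le_max_left _ _).trans (le_max_left _ _)).trans hz
  have hz5 : ⌈K3 / η⌉₊ ≤ z := ((le_max_right _ _).trans (le_max_left _ _)).trans hz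
  have hz6 : z4 ≤ z := ((le_max_left _ _).trans (le_max_right _ _)).trans hz
  have hz7 : ⌈K4 / η ^ (2 ^ (2 * k))⌉₊ ≤ z :=
    ((le_max_right _ _).trans (le_max_right _ _)).trans hz
  obtain ⟨R1, H2⟩ := hB k a p p' (Rep.Q1 z V * (z + 1)) η hinj ha hp hp' hne hpa hpa' hη
  refine ⟨(R1 + 1) ^ (z + 1), ?_⟩
  intro Y M q χ Ψ f t hM hχ hbig hf
  obtain ⟨j, hj⟩ := hbig
  obtain ⟨x1, -, -, -⟩ := h5 z V Y M hM
  have hq0 : q j ≠ 0 := by
    have := Nat.pos_of_dvd_of_pos (hχ j).2.1 (by omega)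
    omega
  by_cases h : ∀ ℓ : ℕ, ℓ.Prime → ℓ ∣ q j → ℓ ≤ z
  · obtain ⟨ℓ, hℓ, hℓj, hbig⟩ := TPY.MNN_.big hq0 (by omega) h hj
    obtain ⟨i, κ, D', c, φ', φ, g, hD, hc1, hall, hg, hm⟩ :=
      red h1 h2 a p p' f t hf ℓ hℓ M _ hM x1 q χ Ψ hχ j hℓj
    obtain ⟨j₁, θ, hmax, hθp, hθ⟩ := lift hℓ φ c φ' (fun j => (hall j).2.2.2.1)
      (fun j => (hall j).2.2.2.2) j
    refine hm.trans ?_
    have hv : (q j).factorization ℓ ≤ c j := by
      by_contra hcon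
      exact (hall j).2.2.1 ((pow_dvd_pow ℓ (by omega)).trans (Nat.ordProj_dvd (q j) ℓ))
    refine H2 ℓ i (c j₁) κ φ θ j₁ g t hℓ ?_ (hall j₁).1 hθp hθ hg
      (TPY.MNN_.small hℓ (h ℓ hℓ hℓj) hD)
    calc R1 < ℓ ^ (q j).factorization ℓ := by omega
      _ ≤ ℓ ^ c j₁ := Nat.pow_le_pow_right hℓ.pos (hv.trans (hmax j))
  · push Not at h
    obtain ⟨ℓ, hℓ, hℓj, hℓz⟩ := h
    obtain ⟨i, κ, D', c, φ', φ, g, hD, hc1, hall, hg, hm⟩ :=
      red h1 h2 a p p' f t hf ℓ hℓ M _ hM x1 q χ Ψ hχ j hℓj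
    obtain ⟨j₁, θ, hmax, hθp, hθ⟩ := lift hℓ φ c φ' (fun j => (hall j).2.2.2.1)
      (fun j => (hall j).2.2.2.2) j
    refine hm.trans ?_
    have hℓ0 : (0 : ℝ) < ℓ := by exact_mod_cast hℓ.pos
    have hc11 : 1 ≤ c j₁ := hc1.trans (hmax j)
    rcases Nat.lt_or_ge (c j₁) 2 with he2 | he2
    · have h9 := H4 ℓ i (c j₁) κ φ θ j₁ g t hℓ (by omega) (by omega) (hc11.trans (hall j₁).1) hθp
        hθ hg
      have h3 : K4 / η ^ (2 ^ (2 * k)) ≤ ℓ :=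
        (Nat.le_ceil _).trans (by exact_mod_cast (by omega : ⌈K4 / η ^ (2 ^ (2 * k))⌉₊ ≤ ℓ))
      have hη32 : 0 < η ^ (2 ^ (2 * k)) := by positivity
      rw [div_le_iff₀ hη32] at h3
      have h10 : K4 / ℓ ≤ η ^ (2 ^ (2 * k)) := by
        rw [div_le_iff₀ hℓ0]
        linarith
      exact le_of_pow_le_pow_left₀ (by positivity) hη.le (h9.trans h10)
    · refine (H3 ℓ i (c j₁) κ φ θ j₁ g t hℓ (by omega) he2 (hall j₁).1 hθp hθ
        hg).trans ?_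
      have h3 : K3 / η ≤ ℓ :=
        (Nat.le_ceil _).trans (by exact_mod_cast (by omega : ⌈K3 / η⌉₊ ≤ ℓ))
      rw [div_le_iff₀ hη] at h3
      rw [div_le_iff₀ hℓ0]
      linarith

end Pool.Agent.TPK
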