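import Pool.Agent.TPK.Targets6
import Pool.Agent.TPK.KDL

set_option autoImplicit false

/-! MP_f3f922_nt: Q1 for all tuples in which all functions but one are structured on the large
primes, least common multiple of the moduli at most `x ^ (1 - θ)`: from `T_KFI6` (large conductors
or large `t`) and the theorem for bounded moduli. -/

namespace Pool.Agent.TPK

open Finset Filter Pool.Agent.Ell Pool.Agent.TPM Pool.Agent.TPX
open scoped BigOperators ComplexConjugate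

/-- the theorem for bounded moduli (OneArbitrary, first version) -/
def T_ONE : Prop := ∀ (k : ℕ) (h : Fin (k + 1) → ℕ), 1 ≤ k → Function.Injective h →
    ∀ (C : ℕ) (ε : ℝ), 0 < ε → ∃ A₀ : ℝ, ∀ A : ℝ, 2 ≤ A → A₀ ≤ A → ∀ x : ℝ, A ≤ x →
    ∀ f : Fin (k + 1) → ArithmeticFunction ℂ,
      (∀ i, (f i).IsMultiplicative) → (∀ i n, ‖f i n‖ ≤ 1) →
      (∀ q : ℕ, 1 ≤ q → (q : ℝ) ≤ A → ∀ χ : DirichletCharacter ℂ q, ∀ t : ℝ,
          |t| ≤ A * x ^ k →
          A ≤ Real.sqrt (∑ p ∈ (Finset.Iic ⌊x⌋₊).filter Nat.Prime,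
            (1 - (f 0 p * (starRingEnd ℂ) (χ (p : ZMod q) *
              (p : ℂ) ^ ((t : ℂ) * Complex.I))).re) / (p : ℝ))) →
      (∃ j₀ : Fin (k + 1), ∀ j : Fin (k + 1), j ≠ j₀ →
        ∃ r : ℕ, 1 ≤ r ∧ r ≤ C ∧ ∃ χ : DirichletCharacter ℂ r, ∃ t : ℝ, |t| ≤ x ^ C ∧
          ∑ p ∈ (Finset.Iic ⌊x⌋₊).filter (fun p : ℕ => p.Prime ∧ x ^ (1 / A) < (p : ℝ)),
            (1 - (f j p * (starRingEnd ℂ) (χ (p : ZMod r) *
              (p : ℂ) ^ ((t : ℂ) * Complex.I))).re) / (p : ℝ) ≤ 1 / A) →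
      ‖∑ n ∈ Finset.Icc 1 ⌊x⌋₊, ∏ i, f i (n + h i)‖ / x ≤ ε

/-- the combined theorem -/
def T_OA2 : Prop := ∀ (k : ℕ) (h : Fin (k + 1) → ℕ), 1 ≤ k → Function.Injective h →
    ∀ (C : ℕ) (ε θ : ℝ), 0 < ε → 0 < θ →
    ∃ δ : ℝ, 0 < δ ∧ ∃ A₀ : ℝ, ∀ A : ℝ, 2 ≤ A → A₀ ≤ A → ∀ x : ℝ, A ≤ x →
    ∀ f : Fin (k + 1) → ArithmeticFunction ℂ,
      (∀ i, (f i).IsMultiplicative) → (∀ i n, ‖f i n‖ ≤ 1) →
      (∀ q : ℕ, 1 ≤ q → (q : ℝ) ≤ A → ∀ χ : DirichletCharacter ℂ q, ∀ t : ℝ,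
          |t| ≤ A * x ^ k →
          A ≤ Real.sqrt (∑ p ∈ (Finset.Iic ⌊x⌋₊).filter Nat.Prime,
            (1 - (f 0 p * (starRingEnd ℂ) (χ (p : ZMod q) *
              (p : ℂ) ^ ((t : ℂ) * Complex.I))).re) / (p : ℝ))) →
      ∀ (j₀ : Fin (k + 1)) (q : Fin (k + 1) → ℕ) (χ : ∀ j, DirichletCharacter ℂ (q j))
        (t : Fin (k + 1) → ℝ),
      (∀ j, j ≠ j₀ → 1 ≤ q j ∧ |t j| ≤ x ^ C ∧
        ∑ p ∈ (Finset.Iic ⌊x⌋₊).filter (fun p : ℕ => p.Prime ∧ x ^ δ < p),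
          (1 - (f j p * (starRingEnd ℂ) (χ j (p : ZMod (q j)) *
            (p : ℂ) ^ ((t j : ℂ) * Complex.I))).re) / (p : ℝ) ≤ δ) →
      (((Finset.univ.erase j₀).lcm q : ℕ) : ℝ) ≤ x ^ (1 - θ) →
      ‖∑ n ∈ Finset.Icc 1 ⌊x⌋₊, ∏ i, f i (n + h i)‖ / x ≤ ε

namespace OA2_

/-- the tail sum of the statements -/
noncomputable def TS {r : ℕ} (f : ℕ → ℂ) (χ : DirichletCharacter ℂ r) (t δ x : ℝ) : ℝ :=
  ∑ p ∈ (Finset.Iic ⌊x⌋₊).filter (fun p : ℕ => p.Prime ∧ x ^ δ < p),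
    (1 - (f p * (starRingEnd ℂ) (χ (p : ZMod r) *
      (p : ℂ) ^ ((t : ℂ) * Complex.I))).re) / (p : ℝ)

theorem tn {r : ℕ} (f : ℕ → ℂ) (hf : ∀ n, ‖f n‖ ≤ 1) (χ : DirichletCharacter ℂ r) (t : ℝ)
    {p : ℕ} (hp : 0 < p) :
    0 ≤ (1 - (f p * (starRingEnd ℂ) (χ (p : ZMod r) *
      (p : ℂ) ^ ((t : ℂ) * Complex.I))).re) / (p : ℝ) ∧
    (1 - (f p * (starRingEnd ℂ) (χ (p : ZMod r) *
      (p : ℂ) ^ ((t : ℂ) * Complex.I))).re) / (p : ℝ) ≤ 2 / p :=
  KDL_.term_nonneg f hf χ t hp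

/-- the tail is monotone -/
theorem mono_tail {r : ℕ} (f : ℕ → ℂ) (hf : ∀ n, ‖f n‖ ≤ 1) (χ : DirichletCharacter ℂ r)
    (t δ δ' x : ℝ) (hx : 1 ≤ x) (h : δ ≤ δ') : TS f χ t δ' x ≤ TS f χ t δ x := by
  unfold TS
  refine Finset.sum_le_sum_of_subset_of_nonneg ?_ ?_
  · intro p hp
    rw [Finset.mem_filter] at hp ⊢
    exact ⟨hp.1, hp.2.1, lt_of_le_of_lt (Real.rpow_le_rpow_of_exponent_le hx h) hp.2.2⟩
  · intro p hp _
    rw [Finset.mem_filter] at hp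
    exact (tn f hf χ t hp.2.1.pos).1

/-- passing to the primitive character -/
theorem prim (δ : ℝ) (hδ : 0 < δ) : ∃ X : ℝ, 2 ≤ X ∧ ∀ (x : ℝ) (q : ℕ)
    (χ : DirichletCharacter ℂ q) (f : ℕ → ℂ) (t : ℝ), X ≤ x → 1 ≤ q → (q : ℝ) ≤ x →
    (∀ n, ‖f n‖ ≤ 1) → TS f χ t δ x ≤ δ / 2 → TS f χ.primitiveCharacter t δ x ≤ δ := by
  refine ⟨(4 / δ ^ 2) ^ (1 / δ) + 2, ?_, ?_⟩
  · have : (0 : ℝ) ≤ (4 / δ ^ 2) ^ (1 / δ) := by positivity
    linarith
  intro x q χ f t hX hq hqx hf hd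
  have h4 : (0 : ℝ) ≤ (4 / δ ^ 2) ^ (1 / δ) := by positivity
  have hx1 : (1 : ℝ) < x := by linarith
  have hx0 : (0 : ℝ) < x := by linarith
  have hroot : 4 / δ ^ 2 ≤ x ^ δ := by
    have h := Real.rpow_le_rpow (by positivity) (by linarith : (4 / δ ^ 2) ^ (1 / δ) ≤ x) hδ.le
    rwa [← Real.rpow_mul (by positivity), one_div_mul_cancel hδ.ne', Real.rpow_one] at h
  set D : Finset ℕ := (Finset.Iic ⌊x⌋₊).filter (fun p : ℕ => p.Prime ∧ x ^ δ < p) with hD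
  set y : ℝ := x ^ δ with hy
  have hy0 : 0 < y := by positivity
  have split : TS f χ.primitiveCharacter t δ x ≤
      ∑ p ∈ D, ((1 - (f p * (starRingEnd ℂ) (χ (p : ZMod q) *
        (p : ℂ) ^ ((t : ℂ) * Complex.I))).re) / (p : ℝ) + (if p ∣ q then 2 / y else 0)) := by
    unfold TS
    refine Finset.sum_le_sum ?_
    intro p hp
    rw [Finset.mem_filter] at hp
    obtain ⟨_, hpp, hyp⟩ := hp
    have hp0 : (0 : ℝ) < p := by exact_mod_cast hpp.pos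
    have n1 := (tn f hf χ t hpp.pos).1
    by_cases hdv : p ∣ q
    · rw [if_pos hdv]
      have h3 := (tn f hf χ.primitiveCharacter t hpp.pos).2
      have h4 : 2 / (p : ℝ) ≤ 2 / y := div_le_div_of_nonneg_left (by norm_num) hy0 hyp.le
      linarith
    · rw [if_neg hdv, add_zero]
      have hcop : IsCoprime (p : ℤ) (q : ℤ) :=
        Nat.isCoprime_iff_coprime.mpr ((Nat.Prime.coprime_iff_not_dvd hpp).mpr hdv)
      have h5 := KDL_.lift_int χ.conductor_dvd_level χ.primitiveCharacter (p : ℤ) hcop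
      rw [DirichletCharacter.changeLevel_primitiveCharacter, Int.cast_natCast,
        Int.cast_natCast] at h5
      rw [h5]
  have hcount : ∑ p ∈ D, (if p ∣ q then 2 / y else 0) ≤ 1 / δ * (2 / y) := by
    rw [← Finset.sum_filter, Finset.sum_const, nsmul_eq_mul]
    refine mul_le_mul_of_nonneg_right ?_ (by positivity)
    set D' := D.filter (fun p => p ∣ q) with hD'
    have hdvd : ∏ p ∈ D', p ∣ q := by
      apply Finset.prod_primes_dvd
      · intro p hp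
        simp only [hD', hD, Finset.mem_filter] at hp
        exact hp.1.2.1.prime
      · intro p hp
        simp only [hD', hD, Finset.mem_filter] at hp
        exact hp.2
    have hle : ∏ p ∈ D', p ≤ q := Nat.le_of_dvd (by omega) hdvd
    have hleR : ∏ p ∈ D', (p : ℝ) ≤ x := by
      rw [← Nat.cast_prod]
      exact (Nat.cast_le.mpr hle).trans hqx
    have hpow : y ^ D'.card ≤ ∏ p ∈ D', (p : ℝ) := by
      rw [← Finset.prod_const]
      refine Finset.prod_le_prod (fun _ _ => hy0.le) ?_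
      intro p hp
      simp only [hD', hD, Finset.mem_filter] at hp
      exact hp.1.2.2.le
    have h7 : x ^ (δ * (D'.card : ℝ)) ≤ x ^ (1 : ℝ) := by
      rw [Real.rpow_one, Real.rpow_mul hx0.le, Real.rpow_natCast]
      exact hpow.trans hleR
    rw [Real.rpow_le_rpow_left_iff hx1] at h7
    rw [le_div_iff₀ hδ]
    linarith
  have hlast : 1 / δ * (2 / y) ≤ δ / 2 := by
    rw [div_mul_div_comm, div_le_div_iff₀ (by positivity) (by norm_num)]
    rw [div_le_iff₀ (by positivity)] at hroot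
    nlinarith
  refine split.trans ?_
  rw [Finset.sum_add_distrib]
  have hd' : ∑ p ∈ D, (1 - (f p * (starRingEnd ℂ) (χ (p : ZMod q) *
      (p : ℂ) ^ ((t : ℂ) * Complex.I))).re) / (p : ℝ) ≤ δ / 2 := hd
  linarith

end OA2_

open OA2_ in
theorem prove_OA2 (h1 : T_KFI6) (h2 : T_ONE) : T_OA2 := by
  classical
  intro k h hk hh C ε θ hε hθ
  obtain ⟨δ1, R, X1, hδ1, H1⟩ := h1 k h hk hh C ε θ hε hθ
  obtain ⟨A1, H2⟩ := h2 k h hk hh (max C R) ε hε
  obtain ⟨A2, hA2⟩ : ∃ A2 : ℝ, A2 = max A1 2 := ⟨_, rfl⟩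
  have hA21 : A1 ≤ A2 := hA2 ▸ le_max_left _ _
  have hA22 : 2 ≤ A2 := hA2 ▸ le_max_right _ _
  have hA20 : 0 < A2 := by linarith
  obtain ⟨δ2, hδ2⟩ : ∃ δ2 : ℝ, δ2 = min δ1 (1 / A2) := ⟨_, rfl⟩
  have hδ20 : 0 < δ2 := by rw [hδ2]; exact lt_min hδ1 (by positivity)
  have hδ21 : δ2 ≤ δ1 := by rw [hδ2]; exact min_le_left _ _
  have hδ22 : δ2 ≤ 1 / A2 := by rw [hδ2]; exact min_le_right _ _
  obtain ⟨X2, hX2, H3⟩ := prim δ2 hδ20
  refine ⟨δ2 / 2, by positivity, max (max A2 X1) X2, ?_⟩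
  intro A hA hAA x hAx f hf hb hQ j₀ q χ t hall hlcm
  have hx2 : X2 ≤ x := ((le_max_right _ _).trans hAA).trans hAx
  have hx1 : X1 ≤ x := ((le_max_right _ _).trans ((le_max_left _ _).trans hAA)).trans hAx
  have hAA2 : A2 ≤ A := (le_max_left _ _).trans ((le_max_left _ _).trans hAA)
  have hx : (1 : ℝ) ≤ x := by linarith
  have hx0 : (0 : ℝ) < x := by linarith
  have hqle : ∀ j, j ≠ j₀ → (q j : ℝ) ≤ x := by
    intro j hj
    have hd : q j ∣ (Finset.univ.erase j₀).lcm q :=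
      Finset.dvd_lcm (Finset.mem_erase.2 ⟨hj, Finset.mem_univ _⟩)
    have hpos : 0 < (Finset.univ.erase j₀).lcm q := by
      rw [Nat.pos_iff_ne_zero, Ne, Finset.lcm_eq_zero_iff]
      rintro ⟨i, hi, hi0⟩
      have hi' := Finset.mem_coe.1 hi
      have := (hall i (Finset.ne_of_mem_erase hi')).1
      omega
    have h3 : (q j : ℝ) ≤ (((Finset.univ.erase j₀).lcm q : ℕ) : ℝ) := by
      exact_mod_cast Nat.le_of_dvd hpos hd
    refine h3.trans (hlcm.trans ?_)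
    calc x ^ (1 - θ) ≤ x ^ (1 : ℝ) := Real.rpow_le_rpow_of_exponent_le hx (by linarith)
      _ = x := Real.rpow_one x
  -- the primitive characters
  have hprim : ∀ j, j ≠ j₀ → TS (f j) (χ j).primitiveCharacter (t j) δ2 x ≤ δ2 := by
    intro j hj
    refine H3 x (q j) (χ j) (fun n => f j n) (t j) hx2 (hall j hj).1 (hqle j hj) (hb j) ?_
    refine (mono_tail (fun n => f j n) (hb j) (χ j) (t j) (δ2 / 2) δ2 x hx (by linarith)).trans ?_
    exact (hall j hj).2.2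
  have hcon1 : ∀ j, j ≠ j₀ → 1 ≤ (χ j).conductor := by
    intro j hj
    have : 0 < (χ j).conductor :=
      Nat.pos_of_dvd_of_pos (χ j).conductor_dvd_level (by have := (hall j hj).1; omega)
    omega
  by_cases hbig : ∃ j, j ≠ j₀ ∧ (R < (χ j).conductor ∨ R * x ^ k < |t j|)
  · refine H1 x hx1 f hf hb j₀ (fun j => (χ j).conductor)
      (fun j => (χ j).primitiveCharacter) t ?_ ?_ hbig
    · intro j hj
      refine ⟨hcon1 j hj, (χ j).primitiveCharacter_isPrimitive, (hall j hj).2.1, ?_⟩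
      exact (mono_tail (fun n => f j n) (hb j) _ (t j) δ2 δ1 x hx hδ21).trans
        ((hprim j hj).trans hδ21)
    · refine le_trans ?_ hlcm
      have hdvd : (Finset.univ.erase j₀).lcm (fun j => (χ j).conductor) ∣
          (Finset.univ.erase j₀).lcm q := by
        refine Finset.lcm_dvd fun j hj => ?_
        exact (χ j).conductor_dvd_level.trans (Finset.dvd_lcm hj)
      have hpos : 0 < (Finset.univ.erase j₀).lcm q := by
        rw [Nat.pos_iff_ne_zero, Ne, Finset.lcm_eq_zero_iff]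
        rintro ⟨i, hi, hi0⟩
        have hi' := Finset.mem_coe.1 hi
        have := (hall i (Finset.ne_of_mem_erase hi')).1
        omega
      exact_mod_cast Nat.le_of_dvd hpos hdvd
  · push Not at hbig
    refine H2 A2 hA22 hA21 x (hAA2.trans hAx) f hf hb ?_ ⟨j₀, fun j hj => ?_⟩
    · intro r hr hrA ψ s hs
      refine hAA2.trans (hQ r hr (hrA.trans hAA2) ψ s (hs.trans ?_))
      exact mul_le_mul_of_nonneg_right hAA2 (by positivity)
    · refine ⟨(χ j).conductor, hcon1 j hj, (hbig j hj).1.trans (le_max_right _ _),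
        (χ j).primitiveCharacter, t j, ?_, ?_⟩
      · refine (hall j hj).2.1.trans ?_
        exact pow_le_pow_right₀ hx (le_max_left _ _)
      · exact (mono_tail (fun n => f j n) (hb j) _ (t j) δ2 (1 / A2) x hx hδ22).trans
          ((hprim j hj).trans hδ22)

end Pool.Agent.TPK
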