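import Pool.Agent.TPK.Targets6

set_option autoImplicit false

/-! TPK-WG: Gowers-Cauchy-Schwarz for the forms `h`, `n + b_i h`. -/

namespace Pool.Agent.TPK

open Finset Filter Pool.Agent.Ell Pool.Agent.TPM Pool.Agent.TPX
open scoped BigOperators ComplexConjugate Polynomial

namespace WG_

/-- `GU` is invariant under dilations -/
theorem GU_dil {ℓ : ℕ} [Fact ℓ.Prime] (c : ZMod ℓ) (hc : c ≠ 0) :
    ∀ (s : ℕ) (f : ZMod ℓ → ℂ), GU s (fun n => f (c * n)) = GU s f := by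
  intro s
  induction s with
  | zero =>
    intro f
    simp only [GU]
    rw [show ∑ n, f (c * n) = ∑ n, f n from Equiv.sum_comp (Equiv.mulLeft₀ c hc) f]
  | succ s ih =>
    intro f
    simp only [GU]
    rw [← Equiv.sum_comp (Equiv.mulLeft₀ c hc) (fun u => GU s (fun n => f (n + u) * conj (f n)))]
    refine Finset.sum_congr rfl fun u _ => ?_
    have h := ih (fun n => f (n + c * u) * conj (f n))
    change GU s (fun n => f (c * (n + u)) * conj (f (c * n))) =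
      GU s (fun n => f (n + c * u) * conj (f n))
    rw [← h]
    congr 1
    ext n
    rw [mul_add]

/-- Cauchy-Schwarz -/
theorem cs {ℓ : ℕ} [Fact ℓ.Prime] {r : ℕ} (A : ZMod ℓ → ℂ) (f : Fin r → ZMod ℓ → ℂ)
    (b : Fin r → ZMod ℓ) (hA : ∀ h, ‖A h‖ ≤ 1) :
    ‖∑ n : ZMod ℓ, ∑ h : ZMod ℓ, A h * ∏ i, f i (n + b i * h)‖ ^ 2 ≤
      ℓ * ∑ u : ZMod ℓ, ‖∑ n : ZMod ℓ, ∑ h : ZMod ℓ,
        ∏ i, (f i (n + b i * h + u) * conj (f i (n + b i * h)))‖ := by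
  set S : ZMod ℓ → ℂ := fun h => ∑ n : ZMod ℓ, ∏ i, f i (n + b i * h) with hS
  have e1 : ∑ n : ZMod ℓ, ∑ h : ZMod ℓ, A h * ∏ i, f i (n + b i * h) = ∑ h, A h * S h := by
    rw [Finset.sum_comm]
    refine Finset.sum_congr rfl fun h _ => ?_
    rw [hS, Finset.mul_sum]
  have e2 : ‖∑ h, A h * S h‖ ≤ ∑ h, ‖S h‖ := by
    refine (norm_sum_le _ _).trans (Finset.sum_le_sum fun h _ => ?_)
    rw [norm_mul]
    exact mul_le_of_le_one_left (norm_nonneg _) (hA h)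
  have e3 : (∑ h, ‖S h‖) ^ 2 ≤ ℓ * ∑ h, ‖S h‖ ^ 2 := by
    have := sq_sum_le_card_mul_sum_sq (s := (Finset.univ : Finset (ZMod ℓ))) (f := fun h => ‖S h‖)
    rwa [Finset.card_univ, ZMod.card] at this
  have e4 : ((∑ h, ‖S h‖ ^ 2 : ℝ) : ℂ) = ∑ u : ZMod ℓ, ∑ n : ZMod ℓ, ∑ h : ZMod ℓ,
      ∏ i, (f i (n + b i * h + u) * conj (f i (n + b i * h))) := by
    push_cast
    have e5 : ∀ h, (‖S h‖ : ℂ) ^ 2 = ∑ n : ZMod ℓ, ∑ u : ZMod ℓ,
        ∏ i, (f i (n + b i * h + u) * conj (f i (n + b i * h))) := by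
      intro h
      rw [← Complex.mul_conj', hS, map_sum, Finset.mul_sum]
      refine Finset.sum_congr rfl fun n _ => ?_
      rw [Finset.sum_mul, ← Equiv.sum_comp (Equiv.addLeft n)]
      refine Finset.sum_congr rfl fun u _ => ?_
      rw [map_prod, ← Finset.prod_mul_distrib]
      refine Finset.prod_congr rfl fun i _ => ?_
      rw [Equiv.coe_addLeft, add_right_comm]
    rw [Finset.sum_congr rfl fun h _ => e5 h, Finset.sum_comm]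
    rw [Finset.sum_congr rfl fun n _ => Finset.sum_comm, Finset.sum_comm]
  have e6 : ∑ h, ‖S h‖ ^ 2 ≤ ∑ u : ZMod ℓ, ‖∑ n : ZMod ℓ, ∑ h : ZMod ℓ,
      ∏ i, (f i (n + b i * h + u) * conj (f i (n + b i * h)))‖ := by
    have e7 : ‖((∑ h, ‖S h‖ ^ 2 : ℝ) : ℂ)‖ = ∑ h, ‖S h‖ ^ 2 := by
      rw [Complex.norm_real, Real.norm_of_nonneg]
      exact Finset.sum_nonneg fun h _ => sq_nonneg _
    rw [← e7, e4]
    exact norm_sum_le _ _
  rw [e1]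
  calc ‖∑ h, A h * S h‖ ^ 2 ≤ (∑ h, ‖S h‖) ^ 2 := by gcongr
    _ ≤ ℓ * ∑ h, ‖S h‖ ^ 2 := e3
    _ ≤ _ := by gcongr

/-- the inner sum is again a sum of the same kind -/
theorem chg {ℓ : ℕ} [Fact ℓ.Prime] {s : ℕ} (g : Fin (s + 2) → ZMod ℓ → ℂ)
    (b : Fin (s + 2) → ZMod ℓ) (hb : Function.Injective b) :
    ∑ n : ZMod ℓ, ∑ h : ZMod ℓ, ∏ i, g i (n + b i * h) =
      ∑ h : ZMod ℓ, ∑ n : ZMod ℓ, g 0 n * ∏ i : Fin (s + 1),
        g i.succ ((b i.succ - b 0) * (h + (b i.succ - b 0)⁻¹ * n)) := by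
  rw [Finset.sum_comm]
  refine Finset.sum_congr rfl fun h _ => ?_
  rw [← Equiv.sum_comp (Equiv.subRight (b 0 * h))]
  refine Finset.sum_congr rfl fun n _ => ?_
  rw [Fin.prod_univ_succ, Equiv.subRight_apply, sub_add_cancel]
  congr 1
  refine Finset.prod_congr rfl fun i _ => ?_
  congr 1
  have h1 : b i.succ - b 0 ≠ 0 := by
    rw [sub_ne_zero]
    intro h2
    exact absurd (hb h2) (Fin.succ_ne_zero i)
  field_simp
  ring

end WG_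

open WG_ in
theorem prove_WG : T_WG := by
  intro s
  induction s with
  | zero =>
    intro ℓ _ A f b hA hf hb
    have e1 : ∑ n : ZMod ℓ, ∑ h : ZMod ℓ, A h * ∏ i : Fin (0 + 1), f i (n + b i * h) =
        (∑ h, A h) * ∑ n, f 0 n := by
      rw [Finset.sum_comm, Finset.sum_mul]
      refine Finset.sum_congr rfl fun h _ => ?_
      rw [Finset.mul_sum, ← Equiv.sum_comp (Equiv.subRight (b 0 * h))]
      refine Finset.sum_congr rfl fun n _ => ?_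
      simp
    have e2 : ‖∑ h, A h‖ ≤ ℓ := by
      refine (norm_sum_le _ _).trans ((Finset.sum_le_sum fun h _ => hA h).trans ?_)
      simp [ZMod.card]
    rw [e1, norm_mul]
    simp only [GU]
    have e3 : ‖∑ h, A h‖ ^ 2 ≤ (ℓ : ℝ) ^ 2 := by gcongr
    have e4 : (Fin.last 0) = 0 := rfl
    rw [e4]
    calc (‖∑ h, A h‖ * ‖∑ n, f 0 n‖) ^ 2 ^ (0 + 1) * (ℓ : ℝ) ^ (0 + 2)
        = ‖∑ h, A h‖ ^ 2 * (‖∑ n, f 0 n‖ ^ 2 * (ℓ : ℝ) ^ 2) := by ring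
      _ ≤ (ℓ : ℝ) ^ 2 * (‖∑ n, f 0 n‖ ^ 2 * (ℓ : ℝ) ^ 2) := by gcongr
      _ = (ℓ : ℝ) ^ 2 ^ (0 + 2) * ‖∑ n, f 0 n‖ ^ 2 := by ring
  | succ s ih =>
    intro ℓ _ A f b hA hf hb
    set T : ℂ := ∑ n : ZMod ℓ, ∑ h : ZMod ℓ, A h * ∏ i, f i (n + b i * h) with hT
    set U : ZMod ℓ → ℂ := fun u => ∑ n : ZMod ℓ, ∑ h : ZMod ℓ,
        ∏ i, (f i (n + b i * h + u) * conj (f i (n + b i * h))) with hU
    have h1 : ‖T‖ ^ 2 ≤ ℓ * ∑ u, ‖U u‖ := cs A f b hA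
    have hn : ∀ (i : Fin (s + 1 + 1)) (x y : ZMod ℓ), ‖f i x * conj (f i y)‖ ≤ 1 := by
      intro i x y
      rw [norm_mul, RCLike.norm_conj]
      exact mul_le_one₀ (hf i x) (norm_nonneg _) (hf i y)
    have h2 : ∀ u, ‖U u‖ ^ (2 ^ (s + 1)) * (ℓ : ℝ) ^ (s + 2) ≤ (ℓ : ℝ) ^ (2 ^ (s + 2)) *
        GU s (fun n => f (Fin.last (s + 1)) (n + u) * conj (f (Fin.last (s + 1)) n)) := by
      intro u
      have h3 := chg (fun i x => f i (x + u) * conj (f i x)) b hb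
      have h4 := ih ℓ (fun x => f 0 (x + u) * conj (f 0 x))
        (fun i x => f i.succ ((b i.succ - b 0) * x + u) *
          conj (f i.succ ((b i.succ - b 0) * x)))
        (fun i => (b i.succ - b 0)⁻¹) (fun h => hn _ _ _) (fun i x => hn _ _ _)
        (fun i j hij => by
          have h5 := inv_injective hij
          have h6 := hb (sub_left_injective h5)
          exact Fin.succ_injective _ h6)
      have h5 : b (Fin.last s).succ - b 0 ≠ 0 := by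
        rw [sub_ne_zero]
        intro h2
        exact absurd (hb h2) (Fin.succ_ne_zero _)
      have h6 := GU_dil (b (Fin.last s).succ - b 0) h5 s
        (fun x => f (Fin.last s).succ (x + u) * conj (f (Fin.last s).succ x))
      have h7 : U u = ∑ h : ZMod ℓ, ∑ n : ZMod ℓ, (f 0 (n + u) * conj (f 0 n)) *
          ∏ i : Fin (s + 1), (f i.succ ((b i.succ - b 0) * (h + (b i.succ - b 0)⁻¹ * n) + u) *
            conj (f i.succ ((b i.succ - b 0) * (h + (b i.succ - b 0)⁻¹ * n)))) := h3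
      rw [h7]
      refine h4.trans_eq ?_
      rw [h6, Fin.succ_last]
    have hl : (0 : ℝ) ≤ ℓ := Nat.cast_nonneg _
    have h8 : (∑ u, ‖U u‖) ^ (2 ^ (s + 1)) ≤
        (ℓ : ℝ) ^ (2 ^ (s + 1) - 1) * ∑ u, ‖U u‖ ^ (2 ^ (s + 1)) := by
      have hpos : 0 < 2 ^ (s + 1) := by positivity
      have h9 := pow_sum_div_card_le_sum_pow (s := (Finset.univ : Finset (ZMod ℓ)))
        (f := fun u => ‖U u‖) (fun u _ => norm_nonneg _) (2 ^ (s + 1) - 1)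
      rw [Nat.sub_add_cancel hpos, Finset.card_univ, ZMod.card] at h9
      have hl' : (0 : ℝ) < (ℓ : ℝ) ^ (2 ^ (s + 1) - 1) :=
        pow_pos (by exact_mod_cast (Fact.out : ℓ.Prime).pos) _
      rw [div_le_iff₀ hl'] at h9
      linarith
    have hpos : 0 < 2 ^ (s + 1) := by positivity
    have h9 : ‖T‖ ^ (2 ^ (s + 2)) ≤ (ℓ : ℝ) ^ (2 ^ (s + 1)) * ((ℓ : ℝ) ^ (2 ^ (s + 1) - 1) *
        ∑ u, ‖U u‖ ^ (2 ^ (s + 1))) := by
      calc ‖T‖ ^ (2 ^ (s + 2)) = (‖T‖ ^ 2) ^ (2 ^ (s + 1)) := by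
            rw [← pow_mul, pow_succ 2 (s + 1), mul_comm 2]
        _ ≤ (ℓ * ∑ u, ‖U u‖) ^ (2 ^ (s + 1)) := by gcongr
        _ = (ℓ : ℝ) ^ (2 ^ (s + 1)) * (∑ u, ‖U u‖) ^ (2 ^ (s + 1)) := mul_pow _ _ _
        _ ≤ _ := by gcongr
    have h10 : (ℓ : ℝ) ^ (2 ^ (s + 1)) * (ℓ : ℝ) ^ (2 ^ (s + 1) - 1) * ℓ =
        (ℓ : ℝ) ^ (2 ^ (s + 2)) := by
      rw [← pow_add, ← pow_succ]
      congr 1
      have : 2 ^ (s + 2) = 2 * 2 ^ (s + 1) := by ring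
      omega
    calc ‖T‖ ^ (2 ^ (s + 1 + 1)) * (ℓ : ℝ) ^ (s + 1 + 2)
        ≤ ((ℓ : ℝ) ^ (2 ^ (s + 1)) * ((ℓ : ℝ) ^ (2 ^ (s + 1) - 1) *
          ∑ u, ‖U u‖ ^ (2 ^ (s + 1)))) * (ℓ : ℝ) ^ (s + 1 + 2) := by gcongr
      _ = ((ℓ : ℝ) ^ (2 ^ (s + 1)) * (ℓ : ℝ) ^ (2 ^ (s + 1) - 1) * ℓ) *
          ∑ u, ‖U u‖ ^ (2 ^ (s + 1)) * (ℓ : ℝ) ^ (s + 2) := by
          rw [← Finset.sum_mul]
          ring
      _ = (ℓ : ℝ) ^ (2 ^ (s + 2)) * ∑ u, ‖U u‖ ^ (2 ^ (s + 1)) * (ℓ : ℝ) ^ (s + 2) := by rw [h10]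
      _ ≤ (ℓ : ℝ) ^ (2 ^ (s + 2)) * ∑ u, (ℓ : ℝ) ^ (2 ^ (s + 2)) *
          GU s (fun n => f (Fin.last (s + 1)) (n + u) * conj (f (Fin.last (s + 1)) n)) := by
          refine mul_le_mul_of_nonneg_left (Finset.sum_le_sum fun u _ => h2 u) ?_
          positivity
      _ = (ℓ : ℝ) ^ (2 ^ (s + 1 + 2)) * GU (s + 1) (f (Fin.last (s + 1))) := by
          simp only [GU]
          rw [← Finset.mul_sum, ← mul_assoc, ← pow_add]
          congr 2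
          ring

end Pool.Agent.TPK
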