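import Pool.Agent.TPK.Targets6

set_option autoImplicit false

/-! TPK-WH: Gowers norms of a nontrivial character. -/

namespace Pool.Agent.TPK.WH_

open Finset
open scoped BigOperators ComplexConjugate

/-- two distinct subset sums are equal for few `u` -/
theorem eqn_aux {s ℓ : ℕ} [Fact ℓ.Prime] {ω ω' : Finset (Fin s)} {i₀ : Fin s} (h : i₀ ∈ ω)
    (h' : i₀ ∉ ω') : ((univ : Finset (Fin s → ZMod ℓ)).filter
      (fun u => ∑ i ∈ ω, u i = ∑ i ∈ ω', u i)).card * ℓ ≤ ℓ ^ s := by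
  classical
  have hc : Fintype.card (ZMod ℓ) = ℓ := ZMod.card ℓ
  have h1 : ((((univ : Finset (Fin s → ZMod ℓ)).filter
      (fun u => ∑ i ∈ ω, u i = ∑ i ∈ ω', u i)) ×ˢ (univ : Finset (ZMod ℓ))).card) ≤
      (univ : Finset (Fin s → ZMod ℓ)).card := by
    refine Finset.card_le_card_of_injOn
      (fun q => Function.update q.1 i₀ (q.1 i₀ + q.2)) (fun _ _ => mem_coe.2 (mem_univ _)) ?_
    rintro ⟨u, t⟩ hu ⟨v, t'⟩ hv he
    rw [mem_coe, mem_product, mem_filter] at hu hv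
    have e1 := hu.1.2
    have e2 := hv.1.2
    simp only at e1 e2 he
    have hne : ∀ i, i ≠ i₀ → u i = v i := by
      intro i hi
      have := congrFun he i
      rwa [Function.update_of_ne hi, Function.update_of_ne hi] at this
    have h0 : u i₀ + t = v i₀ + t' := by
      have := congrFun he i₀
      rwa [Function.update_self, Function.update_self] at this
    rw [← Finset.add_sum_erase ω u h] at e1
    rw [← Finset.add_sum_erase ω v h] at e2
    have s1 : ∑ i ∈ ω.erase i₀, u i = ∑ i ∈ ω.erase i₀, v i :=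
      sum_congr rfl fun i hi => hne i (Finset.ne_of_mem_erase hi)
    have s2 : ∑ i ∈ ω', u i = ∑ i ∈ ω', v i :=
      sum_congr rfl fun i hi => hne i (fun h => h' (h ▸ hi))
    have e3 : u i₀ = v i₀ := by
      have : u i₀ + ∑ i ∈ ω.erase i₀, u i = v i₀ + ∑ i ∈ ω.erase i₀, u i := by
        rw [e1, s2, ← e2, s1]
      exact add_right_cancel this
    have e4 : u = v := by
      funext i
      by_cases hi : i = i₀
      · rw [hi, e3]
      · exact hne i hi
    have e5 : t = t' := by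
      rw [e3] at h0
      exact add_left_cancel h0
    rw [e4, e5]
  rw [card_product, card_univ, card_univ, hc, Fintype.card_fun, hc, Fintype.card_fin] at h1
  exact h1

theorem eqn {s ℓ : ℕ} [Fact ℓ.Prime] {ω ω' : Finset (Fin s)} (h : ω ≠ ω') :
    ((univ : Finset (Fin s → ZMod ℓ)).filter
      (fun u => ∑ i ∈ ω, u i = ∑ i ∈ ω', u i)).card * ℓ ≤ ℓ ^ s := by
  by_cases h1 : ∃ i, i ∈ ω ∧ i ∉ ω'
  · obtain ⟨i, hi, hi'⟩ := h1
    exact eqn_aux hi hi'
  · by_cases h2 : ∃ i, i ∈ ω' ∧ i ∉ ω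
    · obtain ⟨i, hi, hi'⟩ := h2
      have h3 := eqn_aux (ℓ := ℓ) hi hi'
      have h4 : ((univ : Finset (Fin s → ZMod ℓ)).filter
          (fun u => ∑ i ∈ ω, u i = ∑ i ∈ ω', u i)) = ((univ : Finset (Fin s → ZMod ℓ)).filter
          (fun u => ∑ i ∈ ω', u i = ∑ i ∈ ω, u i)) :=
        Finset.filter_congr fun u _ => eq_comm
      rwa [h4]
    · push Not at h1 h2
      exact absurd (Finset.Subset.antisymm (fun i hi => h1 i hi) fun i hi => h2 i hi) h

/-- the number of `u` with two equal subset sums -/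
theorem bad_card (s ℓ : ℕ) [Fact ℓ.Prime] [DecidablePred fun u : Fin s → ZMod ℓ =>
    ¬ Function.Injective fun ω : Finset (Fin s) => ∑ i ∈ ω, u i] :
    ((univ : Finset (Fin s → ZMod ℓ)).filter
      (fun u => ¬ Function.Injective fun ω : Finset (Fin s) => ∑ i ∈ ω, u i)).card * ℓ ≤
      4 ^ s * ℓ ^ s := by
  classical
  have h1 : ((univ : Finset (Fin s → ZMod ℓ)).filter
      (fun u => ¬ Function.Injective fun ω : Finset (Fin s) => ∑ i ∈ ω, u i)) ⊆
      ((univ : Finset (Finset (Fin s) × Finset (Fin s))).filter (fun q => q.1 ≠ q.2)).biUnion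
        (fun q => (univ : Finset (Fin s → ZMod ℓ)).filter
          (fun u => ∑ i ∈ q.1, u i = ∑ i ∈ q.2, u i)) := by
    intro u hu
    have hu' := (mem_filter.1 hu).2
    rw [Function.Injective] at hu'
    push Not at hu'
    obtain ⟨a, b, hab, hne⟩ := hu'
    rw [mem_biUnion]
    exact ⟨(a, b), mem_filter.2 ⟨mem_univ _, hne⟩, mem_filter.2 ⟨mem_univ _, hab⟩⟩
  have h2 := (card_le_card h1).trans card_biUnion_le
  calc _ ≤ (∑ q ∈ (univ : Finset (Finset (Fin s) × Finset (Fin s))).filter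
        (fun q => q.1 ≠ q.2), ((univ : Finset (Fin s → ZMod ℓ)).filter
          (fun u => ∑ i ∈ q.1, u i = ∑ i ∈ q.2, u i)).card) * ℓ := Nat.mul_le_mul_right _ h2
    _ = ∑ q ∈ (univ : Finset (Finset (Fin s) × Finset (Fin s))).filter
        (fun q => q.1 ≠ q.2), ((univ : Finset (Fin s → ZMod ℓ)).filter
          (fun u => ∑ i ∈ q.1, u i = ∑ i ∈ q.2, u i)).card * ℓ := Finset.sum_mul _ _ _
    _ ≤ ∑ _q ∈ (univ : Finset (Finset (Fin s) × Finset (Fin s))).filter
        (fun q => q.1 ≠ q.2), ℓ ^ s := sum_le_sum fun q hq => eqn (mem_filter.1 hq).2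
    _ ≤ ∑ _q ∈ (univ : Finset (Finset (Fin s) × Finset (Fin s))), ℓ ^ s :=
        sum_le_sum_of_subset (filter_subset _ _)
    _ = 4 ^ s * ℓ ^ s := by
        rw [sum_const, card_univ, Fintype.card_prod, Fintype.card_finset, Fintype.card_fin,
          smul_eq_mul, ← mul_pow, show 2 * 2 = 4 from rfl]

end Pool.Agent.TPK.WH_

namespace Pool.Agent.TPK

open Finset
open scoped BigOperators ComplexConjugate

theorem prove_WH (h1 : T_WW) (h2 : T_WI) : T_WH := by
  classical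
  intro s
  refine ⟨2 * 4 ^ s, by positivity, ?_⟩
  intro ℓ _ χ hχ
  have hℓ : (0 : ℝ) < ℓ := by exact_mod_cast (Fact.out : ℓ.Prime).pos
  rw [h2 s ℓ]
  -- the inner sum
  have hgood : ∀ u : Fin s → ZMod ℓ,
      Function.Injective (fun ω : Finset (Fin s) => ∑ i ∈ ω, u i) →
      ‖∑ n : ZMod ℓ, ∏ ω : Finset (Fin s), (if Even (s - ω.card) then χ (n + ∑ i ∈ ω, u i)
        else conj (χ (n + ∑ i ∈ ω, u i)))‖ ^ 2 ≤ 4 ^ s * ℓ := by
    intro u hu
    let e : Fin (2 ^ s) ≃ Finset (Fin s) :=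
      (Fintype.equivFinOfCardEq (by rw [Fintype.card_finset, Fintype.card_fin])).symm
    have hW := h1 ℓ (2 ^ s) χ (fun t => decide (Even (s - (e t).card)))
      (fun t => ∑ i ∈ e t, u i) hχ Nat.one_le_two_pow
      (fun a b hab => e.injective (hu hab))
    have heq : ∑ n : ZMod ℓ, ∏ ω : Finset (Fin s), (if Even (s - ω.card)
        then χ (n + ∑ i ∈ ω, u i) else conj (χ (n + ∑ i ∈ ω, u i))) =
        ∑ n : ZMod ℓ, ∏ t : Fin (2 ^ s), (if decide (Even (s - (e t).card)) = true then χ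
          else χ⁻¹) (n + ∑ i ∈ e t, u i) := by
      refine sum_congr rfl fun n _ => ?_
      rw [← e.prod_comp]
      refine prod_congr rfl fun t _ => ?_
      by_cases hE : Even (s - (e t).card)
      · rw [if_pos hE, if_pos (decide_eq_true hE)]
      · rw [if_neg hE, if_neg (by simpa using hE), ← MulChar.star_eq_inv]
        rfl
    rw [heq]
    calc _ ≤ (((2 ^ s : ℕ) : ℝ) * Real.sqrt ℓ) ^ 2 :=
          pow_le_pow_left₀ (norm_nonneg _) hW 2
      _ = 4 ^ s * ℓ := by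
          rw [mul_pow, Real.sq_sqrt hℓ.le]
          push_cast
          rw [← pow_mul, mul_comm s 2, pow_mul]
          norm_num
  have hbad : ∀ u : Fin s → ZMod ℓ,
      ‖∑ n : ZMod ℓ, ∏ ω : Finset (Fin s), (if Even (s - ω.card) then χ (n + ∑ i ∈ ω, u i)
        else conj (χ (n + ∑ i ∈ ω, u i)))‖ ^ 2 ≤ (ℓ : ℝ) ^ 2 := by
    intro u
    refine pow_le_pow_left₀ (norm_nonneg _) ?_ 2
    refine (norm_sum_le _ _).trans ?_
    have hn : ∀ n : ZMod ℓ, ‖∏ ω : Finset (Fin s), (if Even (s - ω.card)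
        then χ (n + ∑ i ∈ ω, u i) else conj (χ (n + ∑ i ∈ ω, u i)))‖ ≤ 1 := by
      intro n
      rw [norm_prod]
      refine prod_le_one (fun _ _ => norm_nonneg _) fun ω _ => ?_
      split_ifs
      · exact DirichletCharacter.norm_le_one χ _
      · rw [RCLike.norm_conj]
        exact DirichletCharacter.norm_le_one χ _
    calc _ ≤ ∑ _n : ZMod ℓ, (1 : ℝ) := sum_le_sum fun n _ => hn n
      _ = ℓ := by
        rw [sum_const, card_univ, ZMod.card, nsmul_eq_mul, mul_one]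
  have hsplit := Finset.sum_filter_add_sum_filter_not (univ : Finset (Fin s → ZMod ℓ))
    (fun u => Function.Injective (fun ω : Finset (Fin s) => ∑ i ∈ ω, u i))
    (fun u => ‖∑ n : ZMod ℓ, ∏ ω : Finset (Fin s), (if Even (s - ω.card)
      then χ (n + ∑ i ∈ ω, u i) else conj (χ (n + ∑ i ∈ ω, u i)))‖ ^ 2)
  rw [← hsplit]
  have hA : ∑ u ∈ (univ : Finset (Fin s → ZMod ℓ)).filter
      (fun u => Function.Injective (fun ω : Finset (Fin s) => ∑ i ∈ ω, u i)),
      ‖∑ n : ZMod ℓ, ∏ ω : Finset (Fin s), (if Even (s - ω.card)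
      then χ (n + ∑ i ∈ ω, u i) else conj (χ (n + ∑ i ∈ ω, u i)))‖ ^ 2 ≤
      4 ^ s * (ℓ : ℝ) ^ (s + 1) := by
    calc _ ≤ ∑ _u ∈ (univ : Finset (Fin s → ZMod ℓ)).filter
          (fun u => Function.Injective (fun ω : Finset (Fin s) => ∑ i ∈ ω, u i)),
          (4 ^ s * (ℓ : ℝ)) := sum_le_sum fun u hu => hgood u (mem_filter.1 hu).2
      _ ≤ ∑ _u : Fin s → ZMod ℓ, (4 ^ s * (ℓ : ℝ)) :=
          sum_le_sum_of_subset_of_nonneg (filter_subset _ _) fun _ _ _ => by positivity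
      _ = 4 ^ s * (ℓ : ℝ) ^ (s + 1) := by
          rw [sum_const, card_univ, Fintype.card_fun, ZMod.card, Fintype.card_fin, nsmul_eq_mul]
          push_cast
          ring
  have hB : ∑ u ∈ (univ : Finset (Fin s → ZMod ℓ)).filter
      (fun u => ¬ Function.Injective (fun ω : Finset (Fin s) => ∑ i ∈ ω, u i)),
      ‖∑ n : ZMod ℓ, ∏ ω : Finset (Fin s), (if Even (s - ω.card)
      then χ (n + ∑ i ∈ ω, u i) else conj (χ (n + ∑ i ∈ ω, u i)))‖ ^ 2 ≤
      4 ^ s * (ℓ : ℝ) ^ (s + 1) := by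
    have hc : (((univ : Finset (Fin s → ZMod ℓ)).filter
      (fun u => ¬ Function.Injective fun ω : Finset (Fin s) => ∑ i ∈ ω, u i)).card : ℝ) * ℓ ≤
      4 ^ s * (ℓ : ℝ) ^ s := by exact_mod_cast WH_.bad_card s ℓ
    calc _ ≤ ∑ _u ∈ (univ : Finset (Fin s → ZMod ℓ)).filter
          (fun u => ¬ Function.Injective (fun ω : Finset (Fin s) => ∑ i ∈ ω, u i)),
          (ℓ : ℝ) ^ 2 := sum_le_sum fun u _ => hbad u
      _ = (((univ : Finset (Fin s → ZMod ℓ)).filter
          (fun u => ¬ Function.Injective fun ω : Finset (Fin s) => ∑ i ∈ ω, u i)).card : ℝ) *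
          ℓ * ℓ := by
          rw [sum_const, nsmul_eq_mul]
          ring
      _ ≤ 4 ^ s * (ℓ : ℝ) ^ s * ℓ := mul_le_mul_of_nonneg_right hc hℓ.le
      _ = 4 ^ s * (ℓ : ℝ) ^ (s + 1) := by ring
  linarith

end Pool.Agent.TPK
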