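import Pool.Agent.TPK.Targets6

set_option autoImplicit false

/-! # Block WI of TPK: the iterated differences -/

namespace Pool.Agent.TPK

open Finset
open scoped BigOperators ComplexConjugate

namespace WIx

/-- subsets of `Fin (s + 1)` -/
lemma prod_fin (s : ℕ) (g : Finset (Fin (s + 1)) → ℂ) :
    ∏ ω, g ω = (∏ ω : Finset (Fin s), g (ω.map (Fin.succEmb s))) *
      ∏ ω : Finset (Fin s), g (insert 0 (ω.map (Fin.succEmb s))) := by
  have h0 : (univ : Finset (Fin (s + 1))) = insert 0 (univ.map (Fin.succEmb s)) := by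
    ext i
    refine ⟨fun _ => ?_, fun _ => mem_univ i⟩
    refine Fin.cases ?_ (fun j => ?_) i
    · exact mem_insert_self _ _
    · exact mem_insert_of_mem (mem_map.2 ⟨j, mem_univ j, rfl⟩)
  have h1 : (0 : Fin (s + 1)) ∉ (univ : Finset (Fin s)).map (Fin.succEmb s) := by
    intro h
    obtain ⟨j, -, hj⟩ := mem_map.1 h
    exact Fin.succ_ne_zero j hj
  have h2 : ∀ G : Finset (Fin (s + 1)) → ℂ,
      ∏ t ∈ ((univ : Finset (Fin s)).map (Fin.succEmb s)).powerset, G t =
        ∏ ω : Finset (Fin s), G (ω.map (Fin.succEmb s)) := by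
    intro G
    symm
    refine Finset.prod_bij (fun ω _ => ω.map (Fin.succEmb s)) ?_ ?_ ?_ ?_
    · intro ω _
      rw [mem_powerset]
      exact Finset.map_subset_map.2 (subset_univ ω)
    · intro ω _ ω' _ h
      exact Finset.map_injective _ h
    · intro t ht
      rw [mem_powerset, Finset.subset_map_iff] at ht
      obtain ⟨ω, -, rfl⟩ := ht
      exact ⟨ω, mem_univ _, rfl⟩
    · intro ω _
      rfl
  have h3 : (univ : Finset (Finset (Fin (s + 1)))) = (univ : Finset (Fin (s + 1))).powerset :=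
    Finset.powerset_univ.symm
  rw [h3, h0, Finset.prod_powerset_insert h1, h2, h2]

lemma sum0 {s ℓ : ℕ} (u : ZMod ℓ) (v : Fin s → ZMod ℓ) (ω : Finset (Fin s)) :
    ∑ i ∈ ω.map (Fin.succEmb s), (Fin.cons u v : Fin (s + 1) → ZMod ℓ) i = ∑ i ∈ ω, v i := by
  rw [Finset.sum_map]
  rfl

lemma sum1 {s ℓ : ℕ} (u : ZMod ℓ) (v : Fin s → ZMod ℓ) (ω : Finset (Fin s)) :
    ∑ i ∈ insert 0 (ω.map (Fin.succEmb s)), (Fin.cons u v : Fin (s + 1) → ZMod ℓ) i =
      u + ∑ i ∈ ω, v i := by
  have h1 : (0 : Fin (s + 1)) ∉ ω.map (Fin.succEmb s) := by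
    intro h
    obtain ⟨j, -, hj⟩ := mem_map.1 h
    exact Fin.succ_ne_zero j hj
  rw [Finset.sum_insert h1, sum0]
  rfl

lemma card1 {s : ℕ} (ω : Finset (Fin s)) :
    (insert 0 (ω.map (Fin.succEmb s))).card = ω.card + 1 := by
  have h1 : (0 : Fin (s + 1)) ∉ ω.map (Fin.succEmb s) := by
    intro h
    obtain ⟨j, -, hj⟩ := mem_map.1 h
    exact Fin.succ_ne_zero j hj
  rw [Finset.card_insert_of_notMem h1, Finset.card_map]

end WIx

open WIx in
theorem prove_WI : T_WI := by
  intro s
  induction s with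
  | zero =>
    intro ℓ _ f
    have h1 : ∀ G : (Fin 0 → ZMod ℓ) → ℝ, ∑ u, G u = G Fin.elim0 := fun G => by
      rw [Fintype.sum_eq_single Fin.elim0]
      intro u hu
      exact absurd (Subsingleton.elim u Fin.elim0) hu
    have h2 : ∀ G : Finset (Fin 0) → ℂ, ∏ ω, G ω = G ∅ := fun G => by
      rw [Fintype.prod_eq_single ∅]
      intro ω hω
      exact absurd (Finset.eq_empty_of_isEmpty ω) hω
    rw [GU, h1]
    congr 2
    refine Finset.sum_congr rfl fun n _ => ?_
    rw [h2, if_pos (by simp), Finset.sum_empty, add_zero]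
  | succ s ih =>
    intro ℓ _ f
    rw [GU, ← (Fin.consEquiv (fun _ => ZMod ℓ)).sum_comp, Fintype.sum_prod_type]
    refine Finset.sum_congr rfl fun u _ => ?_
    rw [ih]
    refine Finset.sum_congr rfl fun v _ => ?_
    congr 2
    refine Finset.sum_congr rfl fun n _ => ?_
    rw [prod_fin, ← Finset.prod_mul_distrib]
    refine Finset.prod_congr rfl fun ω _ => ?_
    have hω : ω.card ≤ s := by
      have := Finset.card_le_univ ω
      simpa using this
    have e0 : ∑ i ∈ ω.map (Fin.succEmb s), (Fin.consEquiv (fun _ => ZMod ℓ)) (u, v) i =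
        ∑ i ∈ ω, v i := sum0 u v ω
    have e1 : ∑ i ∈ insert 0 (ω.map (Fin.succEmb s)),
        (Fin.consEquiv (fun _ => ZMod ℓ)) (u, v) i = u + ∑ i ∈ ω, v i := sum1 u v ω
    rw [e0, e1, card1, Finset.card_map, show s + 1 - (ω.card + 1) = s - ω.card from by omega,
      show s + 1 - ω.card = (s - ω.card) + 1 from by omega]
    have e2 : n + ∑ i ∈ ω, v i + u = n + (u + ∑ i ∈ ω, v i) := by ring
    by_cases h : Even (s - ω.card)
    · have h' : ¬ Even (s - ω.card + 1) := by
        rw [Nat.even_add_one, not_not]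
        exact h
      rw [if_pos h, if_neg h', if_pos h, e2, mul_comm]
    · have h' : Even (s - ω.card + 1) := by
        rw [Nat.even_add_one]
        exact h
      rw [if_neg h, if_pos h', if_neg h, e2, map_mul, Complex.conj_conj, mul_comm]

end Pool.Agent.TPK
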