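import Pool.Agent.TPK.Targets6
import Pool.Agent.TPK.GC

/-! TPK-WJ: products of arbitrary characters of linear factors (MP_f3f922_nt). -/

set_option autoImplicit false

namespace Pool.Agent.TPK

open Finset
open scoped BigOperators ComplexConjugate

namespace WJ_

variable {ℓ : ℕ} [Fact ℓ.Prime]

omit [Fact ℓ.Prime] in
theorem prod_norm_le {r : ℕ} (χ : Fin r → DirichletCharacter ℂ ℓ) (h : ZMod ℓ) :
    ‖∏ i, χ i h‖ ≤ 1 := by
  rw [norm_prod]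
  exact Finset.prod_le_one (fun i _ => norm_nonneg _) fun i _ => GC_.char_norm_le _ _

theorem prod_norm_one {r : ℕ} (χ : Fin r → DirichletCharacter ℂ ℓ) {h : ZMod ℓ} (hh : h ≠ 0) :
    ‖∏ i, χ i h‖ = 1 := by
  rw [norm_prod]
  exact Finset.prod_eq_one fun i _ => GC_.char_norm_one _ hh

/-- dilation -/
theorem dil {r : ℕ} (χ : Fin r → DirichletCharacter ℂ ℓ) (b : Fin r → ZMod ℓ) {h : ZMod ℓ}
    (hh : h ≠ 0) : ∑ n, ∏ i, χ i (n + b i * h) = (∏ i, χ i h) * ∑ n, ∏ i, χ i (n + b i) := by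
  have := Equiv.sum_comp (Equiv.mulLeft₀ h hh) (fun n => ∏ i, χ i (n + b i * h))
  rw [← this, Finset.mul_sum]
  refine Finset.sum_congr rfl fun n _ => ?_
  rw [← Finset.prod_mul_distrib]
  refine Finset.prod_congr rfl fun i _ => ?_
  show χ i (h * n + b i * h) = χ i h * χ i (n + b i)
  rw [show h * n + b i * h = h * (n + b i) by ring, map_mul]

/-- the double sum -/
theorem total {s : ℕ} (χ : Fin (s + 1) → DirichletCharacter ℂ ℓ) (b : Fin (s + 1) → ZMod ℓ) :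
    ∑ n : ZMod ℓ, ∑ h : ZMod ℓ, conj (∏ i, χ i h) * ∏ i, χ i (n + b i * h) =
      ((ℓ : ℂ) - 1) * ∑ n, ∏ i, χ i (n + b i) := by
  rw [Finset.sum_comm]
  have h2 : ∀ h : ZMod ℓ, ∑ n, conj (∏ i, χ i h) * ∏ i, χ i (n + b i * h) =
      if h = 0 then 0 else ∑ n, ∏ i, χ i (n + b i) := by
    intro h
    rw [← Finset.mul_sum]
    split_ifs with h0
    · have h3 : ∏ i, χ i h = 0 := by
        rw [h0]
        exact Finset.prod_eq_zero (Finset.mem_univ 0) (MulChar.map_zero (χ 0))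
      rw [h3, map_zero, zero_mul]
    · rw [dil χ b h0, ← mul_assoc, mul_comm (conj _), Complex.mul_conj,
        Complex.normSq_eq_norm_sq, prod_norm_one χ h0]
      simp
  simp only [h2]
  rw [Finset.sum_ite, Finset.sum_const_zero, zero_add, Finset.sum_const, nsmul_eq_mul]
  congr 1
  have h3 : (Finset.univ.filter fun h : ZMod ℓ => ¬ h = 0).card = ℓ - 1 := by
    have : (Finset.univ.filter fun h : ZMod ℓ => ¬ h = 0) = Finset.univ.erase 0 := by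
      ext h; simp
    rw [this, Finset.card_erase_of_mem (Finset.mem_univ _), Finset.card_univ, ZMod.card]
  rw [h3, Nat.cast_sub (Fact.out (p := ℓ.Prime)).one_le, Nat.cast_one]

/-- the arithmetic of the powers -/
theorem pows (l S C : ℝ) (q s : ℕ) (hq : 1 ≤ q) (hl : 2 ≤ l) (hS : 0 ≤ S)
    (h : ((l - 1) * S) ^ q * l ^ (s + 2) ≤ l ^ (2 * q) * (C * l ^ (s + 1))) :
    S ^ q ≤ 2 ^ q * C * l ^ (q - 1) := by
  have hl0 : 0 < l := by linarith
  have h1 : (l / 2 * S) ^ q ≤ ((l - 1) * S) ^ q := by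
    apply pow_le_pow_left₀ (by positivity)
    exact mul_le_mul_of_nonneg_right (by linarith) hS
  obtain ⟨m, rfl⟩ : ∃ m, q = m + 1 := ⟨q - 1, by omega⟩
  rw [Nat.add_sub_cancel]
  have h2 : (l / 2 * S) ^ (m + 1) * l ^ (s + 2) ≤ l ^ (2 * (m + 1)) * (C * l ^ (s + 1)) :=
    (mul_le_mul_of_nonneg_right h1 (by positivity)).trans h
  have e1 : (l / 2 * S) ^ (m + 1) * l ^ (s + 2) * 2 ^ (m + 1) =
      l ^ (m + 1 + (s + 2)) * S ^ (m + 1) := by
    have h0 : (2 : ℝ) ^ (m + 1) ≠ 0 := by positivity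
    rw [mul_pow, div_pow]
    calc l ^ (m + 1) / 2 ^ (m + 1) * S ^ (m + 1) * l ^ (s + 2) * 2 ^ (m + 1) =
        l ^ (m + 1) * l ^ (s + 2) * S ^ (m + 1) * (2 ^ (m + 1) / 2 ^ (m + 1)) := by ring
      _ = _ := by rw [div_self h0, mul_one, ← pow_add]
  have e2 : l ^ (2 * (m + 1)) * (C * l ^ (s + 1)) * 2 ^ (m + 1) =
      l ^ (m + 1 + (s + 2)) * (2 ^ (m + 1) * C * l ^ m) := by
    ring
  have h3 : l ^ (m + 1 + (s + 2)) * S ^ (m + 1) ≤
      l ^ (m + 1 + (s + 2)) * (2 ^ (m + 1) * C * l ^ m) := by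
    rw [← e1, ← e2]
    exact mul_le_mul_of_nonneg_right h2 (by positivity)
  exact le_of_mul_le_mul_left h3 (by positivity)

/-- the case of a nontrivial last character -/
theorem last {s : ℕ} {C : ℝ} (h1 : T_WG)
    (hC : ∀ (ℓ : ℕ) [Fact ℓ.Prime] (χ : DirichletCharacter ℂ ℓ), χ ≠ 1 →
      GU s (fun n => χ n) ≤ C * (ℓ : ℝ) ^ (s + 1))
    (χ : Fin (s + 1) → DirichletCharacter ℂ ℓ) (b : Fin (s + 1) → ZMod ℓ)
    (hb : Function.Injective b) (hχ : χ (Fin.last s) ≠ 1) :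
    ‖∑ n : ZMod ℓ, ∏ i, χ i (n + b i)‖ ^ (2 ^ (s + 1)) ≤
      2 ^ (2 ^ (s + 1)) * C * (ℓ : ℝ) ^ (2 ^ (s + 1) - 1) := by
  have hG := h1 s ℓ (fun h => conj (∏ i, χ i h)) (fun i n => χ i n) b
    (fun h => by rw [RCLike.norm_conj]; exact prod_norm_le χ h)
    (fun i n => GC_.char_norm_le _ _) hb
  have hT := total χ b
  have hG2 : ‖((ℓ : ℂ) - 1) * ∑ n, ∏ i, χ i (n + b i)‖ ^ (2 ^ (s + 1)) *
      (ℓ : ℝ) ^ (s + 2) ≤ (ℓ : ℝ) ^ (2 ^ (s + 2)) * GU s (fun n => χ (Fin.last s) n) := by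
    rw [← hT]
    exact hG
  have hl2 : (2 : ℝ) ≤ ℓ := by exact_mod_cast (Fact.out (p := ℓ.Prime)).two_le
  have hnorm : ‖((ℓ : ℂ) - 1) * ∑ n, ∏ i, χ i (n + b i)‖ =
      ((ℓ : ℝ) - 1) * ‖∑ n, ∏ i, χ i (n + b i)‖ := by
    rw [norm_mul]
    congr 1
    have : ((ℓ : ℂ) - 1) = (((ℓ : ℝ) - 1 : ℝ) : ℂ) := by push_cast; rfl
    rw [this, Complex.norm_real, Real.norm_of_nonneg (by linarith)]
  rw [hnorm] at hG2
  refine pows (ℓ : ℝ) _ C (2 ^ (s + 1)) s Nat.one_le_two_pow hl2 (norm_nonneg _) ?_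
  have e : 2 ^ (s + 2) = 2 * 2 ^ (s + 1) := by ring
  rw [← e]
  refine hG2.trans ?_
  exact mul_le_mul_of_nonneg_left (hC ℓ _ hχ) (by positivity)

end WJ_

open WJ_ in
/-- Products of arbitrary characters of linear factors. -/
theorem prove_WJ (h1 : T_WG) (h2 : T_WH) : T_WJ := by
  intro r hr
  obtain ⟨s, rfl⟩ : ∃ s, r = s + 1 := ⟨r - 1, by omega⟩
  obtain ⟨C, hC, hH⟩ := h2 s
  refine ⟨2 ^ (2 ^ (s + 1)) * C, by positivity, ?_⟩
  intro ℓ hℓ χ b hb hχ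
  obtain ⟨s0, hs0⟩ := hχ
  have hL := last h1 (fun ℓ' hℓ' χ' hχ' => @hH ℓ' hℓ' χ' hχ')
    (fun i => χ (Equiv.swap s0 (Fin.last s) i))
    (fun i => b (Equiv.swap s0 (Fin.last s) i)) (hb.comp (Equiv.injective _))
    (by rw [Equiv.swap_apply_right]; exact hs0)
  have h3 : ∀ n : ZMod ℓ, ∏ i, χ (Equiv.swap s0 (Fin.last s) i)
      (n + b (Equiv.swap s0 (Fin.last s) i)) = ∏ i, χ i (n + b i) := fun n =>
    Equiv.prod_comp (Equiv.swap s0 (Fin.last s)) (fun i => χ i (n + b i))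
  simp only [h3] at hL
  exact hL

end Pool.Agent.TPK
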