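import Pool.Agent.TPK.Targets6

set_option autoImplicit false

/-!
# TPK-WL1: the coefficients of the L-function vanish from degree `R` on
-/

namespace Pool.Agent.TPK

open Finset
open scoped Polynomial

namespace WL1x

lemma mono_eval {F : Type} [Field F] (D : ℕ) (c : Fin D → F) (x : F) :
    (mono D c).eval x = x ^ D + ∑ i, c i * x ^ (i : ℕ) := by
  unfold mono
  rw [Polynomial.eval_add, Polynomial.eval_pow, Polynomial.eval_X, Polynomial.eval_finsetSum]
  congr 1
  refine Finset.sum_congr rfl fun i _ => ?_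
  rw [Polynomial.eval_mul, Polynomial.eval_C, Polynomial.eval_pow, Polynomial.eval_X]

lemma mono_natDegree {F : Type} [Field F] (D : ℕ) (c : Fin D → F) :
    (mono D c).natDegree = D := by
  unfold mono
  rw [Polynomial.natDegree_add_eq_left_of_degree_lt, Polynomial.natDegree_X_pow]
  rw [Polynomial.degree_X_pow]
  exact Polynomial.degree_sum_fin_lt c

/-- the value of a polynomial of small degree from its first coefficients -/
lemma eval_fin {F : Type} [Field F] (D : ℕ) (P : F[X]) (h : P.natDegree < D) (x : F) :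
    ∑ i : Fin D, P.coeff i * x ^ (i : ℕ) = P.eval x := by
  rw [Polynomial.eval_eq_sum_range' h, Finset.sum_range]

end WL1x

open WL1x in
theorem prove_WL1 : T_WL1 := by
  intro ℓ R _ χ b D hb hχ hRD
  obtain ⟨s₀, hs₀⟩ := hχ
  obtain ⟨y, hy⟩ := MulChar.ne_one_iff.1 hs₀
  -- the Lagrange polynomial
  have hinj : Set.InjOn (fun s => - b s) (Finset.univ : Finset (Fin R)) := by
    intro s _ t _ hst
    exact hb (neg_injective hst)
  set P : (ZMod ℓ)[X] := Lagrange.interpolate Finset.univ (fun s => - b s)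
    (Pi.single s₀ (1 : ZMod ℓ)) with hP
  have hP1 : ∀ s, P.eval (- b s) = (Pi.single s₀ (1 : ZMod ℓ) : Fin R → ZMod ℓ) s := fun s =>
    Lagrange.eval_interpolate_at_node _ hinj (Finset.mem_univ s)
  have hPd : P.degree < R := by
    have h := Lagrange.degree_interpolate_lt (Pi.single s₀ (1 : ZMod ℓ) : Fin R → ZMod ℓ) hinj
    rwa [Finset.card_univ, Fintype.card_fin] at h
  have hP0 : P ≠ 0 := by
    intro h
    have h1 := hP1 s₀
    rw [h, Polynomial.eval_zero, Pi.single_eq_same] at h1
    exact zero_ne_one h1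
  have hPn : P.natDegree < D := by
    have h1 : P.natDegree < R := (Polynomial.natDegree_lt_iff_degree_lt hP0).2 hPd
    omega
  -- the substitution
  let E : Fin R → (Fin D → ZMod ℓ) → ZMod ℓ := fun s c => (mono D c).eval (- b s)
  let φ : (Fin D → ZMod ℓ) → (Fin D → ZMod ℓ) := fun c i =>
    c i + ((y : ZMod ℓ) - 1) * E s₀ c * P.coeff i
  have hE : ∀ s c, E s (φ c) = E s c + ((y : ZMod ℓ) - 1) * E s₀ c *
      (Pi.single s₀ (1 : ZMod ℓ) : Fin R → ZMod ℓ) s := by
    intro s c
    show (mono D (φ c)).eval (- b s) = (mono D c).eval (- b s) + _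
    rw [mono_eval, mono_eval, ← hP1 s, ← eval_fin D P hPn, Finset.mul_sum, add_assoc,
      ← Finset.sum_add_distrib]
    congr 1
    refine Finset.sum_congr rfl fun i _ => ?_
    show (c i + ((y : ZMod ℓ) - 1) * E s₀ c * P.coeff i) * (- b s) ^ (i : ℕ) = _
    ring
  have hE0 : ∀ c, E s₀ (φ c) = y * E s₀ c := by
    intro c
    rw [hE, Pi.single_eq_same]
    ring
  have hE1 : ∀ s, s ≠ s₀ → ∀ c, E s (φ c) = E s c := by
    intro s hs c
    rw [hE, Pi.single_eq_of_ne hs]
    ring
  have hφ : Function.Injective φ := by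
    intro c c' h
    have h0 : E s₀ (φ c) = E s₀ (φ c') := by rw [h]
    rw [hE0, hE0] at h0
    have h1 : E s₀ c = E s₀ c' := (Units.mul_right_inj y).1 h0
    funext i
    have h2 : c i + ((y : ZMod ℓ) - 1) * E s₀ c * P.coeff i =
        c' i + ((y : ZMod ℓ) - 1) * E s₀ c' * P.coeff i := congrFun h i
    rw [h1] at h2
    exact add_right_cancel h2
  have hbij : Function.Bijective φ := Finite.injective_iff_bijective.1 hφ
  have hLG : ∀ c, LG χ b (mono D (φ c)) = χ s₀ y * LG χ b (mono D c) := by
    intro c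
    unfold LG
    rw [mono_natDegree, mono_natDegree,
      ← Finset.mul_prod_erase Finset.univ _ (Finset.mem_univ s₀),
      ← Finset.mul_prod_erase Finset.univ
        (fun s => χ s ((-1) ^ D * (mono D c).eval (- b s))) (Finset.mem_univ s₀), ← mul_assoc]
    congr 1
    · have h1 : (mono D (φ c)).eval (- b s₀) = y * (mono D c).eval (- b s₀) := hE0 c
      rw [h1, ← map_mul]
      congr 1
      ring
    · refine Finset.prod_congr rfl fun s hs => ?_
      have h1 : (mono D (φ c)).eval (- b s) = (mono D c).eval (- b s) :=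
        hE1 s (Finset.ne_of_mem_erase hs) c
      rw [h1]
  have hsum : LA χ b D = χ s₀ y * LA χ b D := by
    unfold LA
    rw [Finset.mul_sum]
    conv_lhs => rw [← hbij.sum_comp (fun c => LG χ b (mono D c))]
    exact Finset.sum_congr rfl fun c _ => hLG c
  have h1 : (1 - χ s₀ y) * LA χ b D = 0 := by
    linear_combination hsum
  rcases mul_eq_zero.1 h1 with h2 | h2
  · exact absurd (sub_eq_zero.1 h2).symm hy
  · exact h2

end Pool.Agent.TPK
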