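import Pool.Agent.TPK.Targets6

set_option autoImplicit false

/-! TPK-WL2: Newton's identity for the L-function. -/

namespace Pool.Agent.TPK

open Finset
open scoped BigOperators Polynomial

namespace WL2_

section

variable {F : Type} [Field F]

theorem mono_deg (D : ℕ) (c : Fin D → F) : (mono D c).natDegree = D := by
  unfold mono
  rw [Polynomial.natDegree_add_eq_left_of_degree_lt, Polynomial.natDegree_X_pow]
  rw [Polynomial.degree_X_pow]
  exact Polynomial.degree_sum_fin_lt c

theorem mono_monic (D : ℕ) (c : Fin D → F) : (mono D c).Monic := by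
  unfold mono
  exact Polynomial.monic_X_pow_add (Polynomial.degree_sum_fin_lt c)

theorem mono_surj {D : ℕ} {g : F[X]} (hg : g.Monic) (hD : g.natDegree = D) :
    mono D (fun i => g.coeff i) = g := by
  subst hD
  unfold mono
  conv_rhs => rw [hg.as_sum]
  rw [Finset.sum_range]

theorem mono_coeff {D : ℕ} (c : Fin D → F) (i : Fin D) : (mono D c).coeff i = c i := by
  unfold mono
  rw [Polynomial.coeff_add, Polynomial.coeff_X_pow, if_neg (by omega), zero_add,
    Polynomial.finsetSum_coeff, Finset.sum_eq_single i]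
  · simp
  · intro j _ hj
    rw [Polynomial.coeff_C_mul, Polynomial.coeff_X_pow, if_neg, mul_zero]
    exact fun h => hj (Fin.ext h.symm)
  · intro h
    exact absurd (Finset.mem_univ i) h

theorem mono_inj {D : ℕ} {c c' : Fin D → F} (h : mono D c = mono D c') : c = c' := by
  funext i
  rw [← mono_coeff c i, h, mono_coeff]

end

section

variable {ℓ R : ℕ} (χ : Fin R → DirichletCharacter ℂ ℓ) (b : Fin R → ZMod ℓ)

theorem LG_mul [Fact ℓ.Prime] {g h : (ZMod ℓ)[X]} (hg : g.Monic) (hh : h.Monic) :
    LG χ b (g * h) = LG χ b g * LG χ b h := by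
  unfold LG
  rw [← Finset.prod_mul_distrib]
  refine Finset.prod_congr rfl fun s _ => ?_
  rw [← map_mul, hg.natDegree_mul hh, Polynomial.eval_mul, pow_add]
  congr 1
  ring

theorem LG_one : LG χ b 1 = 1 := by
  unfold LG
  simp

theorem LG_pow [Fact ℓ.Prime] {g : (ZMod ℓ)[X]} (hg : g.Monic) (e : ℕ) :
    LG χ b (g ^ e) = LG χ b g ^ e := by
  induction e with
  | zero => rw [pow_zero, pow_zero, LG_one]
  | succ e ih => rw [pow_succ, LG_mul χ b (hg.pow e) hg, ih, pow_succ]

open Classical in
theorem lemB [Fact ℓ.Prime] {d e D : ℕ} (P : (ZMod ℓ)[X]) (hP : P.Monic) (hd : P.natDegree = d)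
    (he : e * d ≤ D) :
    ∑ c : Fin D → ZMod ℓ, (if P ^ e ∣ mono D c then LG χ b (mono D c) else 0) =
      LG χ b P ^ e * LA χ b (D - e * d) := by
  have hPe : (P ^ e).Monic := hP.pow e
  have hne : P ^ e ≠ 0 := hPe.ne_zero
  have hdeg : (P ^ e).natDegree = e * d := by rw [hP.natDegree_pow, hd]
  have hprod : ∀ c' : Fin (D - e * d) → ZMod ℓ,
      mono D (fun i : Fin D => (P ^ e * mono (D - e * d) c').coeff i) =
        P ^ e * mono (D - e * d) c' := by
    intro c'
    refine mono_surj (hPe.mul (mono_monic _ _)) ?_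
    rw [hPe.natDegree_mul (mono_monic _ _), hdeg, mono_deg]
    omega
  unfold LA
  rw [← Finset.sum_filter, Finset.mul_sum]
  symm
  refine Finset.sum_nbij (fun c' => fun i : Fin D => (P ^ e * mono (D - e * d) c').coeff i)
    ?_ ?_ ?_ ?_
  · intro c' _
    rw [Finset.mem_filter]
    refine ⟨Finset.mem_univ _, ?_⟩
    rw [hprod]
    exact Dvd.intro _ rfl
  · intro c' _ c'' _ h
    have h1 : P ^ e * mono (D - e * d) c' = P ^ e * mono (D - e * d) c'' := by
      rw [← hprod c', ← hprod c'']
      exact congrArg (mono D) h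
    exact mono_inj (mul_left_cancel₀ hne h1)
  · intro c hc
    rw [Finset.mem_coe, Finset.mem_filter] at hc
    obtain ⟨q, hq⟩ := hc.2
    have hqm : q.Monic := hPe.of_mul_monic_left (by rw [← hq]; exact mono_monic _ _)
    have hqd : q.natDegree = D - e * d := by
      have h1 := congrArg Polynomial.natDegree hq
      rw [mono_deg, hPe.natDegree_mul hqm, hdeg] at h1
      omega
    refine ⟨fun i => q.coeff i, Finset.mem_coe.2 (Finset.mem_univ _), ?_⟩
    funext i
    show (P ^ e * mono (D - e * d) (fun i : Fin (D - e * d) => q.coeff i)).coeff i = c i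
    rw [mono_surj hqm hqd, ← hq, mono_coeff]
  · intro c' _
    show _ = LG χ b (mono D fun i : Fin D => (P ^ e * mono (D - e * d) c').coeff i)
    rw [hprod, LG_mul χ b hPe (mono_monic _ _), LG_pow χ b hP]

end

open UniqueFactorizationMonoid in
open Classical in
theorem nf_monic {F : Type} [Field F] {g P : F[X]} (hP : P ∈ normalizedFactors g) :
    P.Monic := by
  rw [← normalize_normalized_factor P hP]
  exact Polynomial.monic_normalize (irreducible_of_normalized_factor P hP).ne_zero

open UniqueFactorizationMonoid in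
open Classical in
theorem deg_sum {F : Type} [Field F] {g : F[X]} (hg : g.Monic) :
    g.natDegree = ∑ P ∈ (normalizedFactors g).toFinset,
      (normalizedFactors g).count P * P.natDegree := by
  have h1 : (normalizedFactors g).prod = g := by
    rw [prod_normalizedFactors_eq hg.ne_zero, hg.normalize_eq_self]
  have h2 := Polynomial.natDegree_multiset_prod_of_monic (normalizedFactors g)
    (fun f hf => nf_monic hf)
  rw [h1, Finset.sum_multiset_map_count] at h2
  rw [h2]
  rfl

open UniqueFactorizationMonoid in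
open Classical in
theorem pow_dvd_iff {F : Type} [Field F] {g P : F[X]} (hg : g.Monic)
    (hP : P ∈ normalizedFactors g) (e : ℕ) :
    P ^ e ∣ g ↔ e ≤ (normalizedFactors g).count P := by
  rw [pow_dvd_iff_le_emultiplicity, le_emultiplicity_iff_replicate_le_normalizedFactors
    (irreducible_of_normalized_factor P hP) hg.ne_zero, normalize_normalized_factor P hP,
    Multiset.le_count_iff_replicate_le]

open UniqueFactorizationMonoid in
open Classical in
/-- for one `ν`: the pairs `(d, c)` are the normalized factors -/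
theorem step1 {F : Type} [Field F] [Fintype F] {g : F[X]} (hg : g.Monic) {ν : ℕ} (hν : 1 ≤ ν) :
    ∑ d ∈ ν.divisors, ∑ c ∈ (Finset.univ : Finset (Fin d → F)).filter
      (fun c => Irreducible (mono d c)), (if (mono d c) ^ (ν / d) ∣ g then (d : ℂ) else 0) =
    ∑ P ∈ (normalizedFactors g).toFinset,
      (if P.natDegree ∣ ν ∧ P ^ (ν / P.natDegree) ∣ g then (P.natDegree : ℂ) else 0) := by
  simp only [← Finset.sum_filter]
  rw [Finset.sum_sigma']
  refine Finset.sum_bij (fun x _ => mono x.1 x.2) ?_ ?_ ?_ ?_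
  · rintro ⟨d, c⟩ hx
    simp only [Finset.mem_sigma, Finset.mem_filter, Finset.mem_univ, true_and,
      Nat.mem_divisors] at hx
    obtain ⟨⟨hd, -⟩, hirr, hdvd⟩ := hx
    have hpos : 0 < ν / d := Nat.div_pos (Nat.le_of_dvd (by omega) hd)
      (Nat.pos_of_dvd_of_pos hd (by omega))
    rw [Finset.mem_filter, Multiset.mem_toFinset, mem_normalizedFactors_iff' hg.ne_zero,
      mono_deg]
    refine ⟨⟨hirr, (mono_monic d c).normalize_eq_self, ?_⟩, hd, hdvd⟩
    exact (dvd_pow_self _ (by omega)).trans hdvd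
  · rintro ⟨d, c⟩ hx ⟨d', c'⟩ hx' h
    have h' : mono d c = mono d' c' := h
    have h1 : d = d' := by
      have := congrArg Polynomial.natDegree h'
      rwa [mono_deg, mono_deg] at this
    subst h1
    rw [mono_inj h']
  · intro P hP
    rw [Finset.mem_filter, Multiset.mem_toFinset] at hP
    obtain ⟨hP, hd, hdvd⟩ := hP
    have hm := nf_monic hP
    refine ⟨⟨P.natDegree, fun i => P.coeff i⟩, ?_, mono_surj hm rfl⟩
    simp only [Finset.mem_sigma, Finset.mem_filter, Finset.mem_univ, true_and,
      Nat.mem_divisors]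
    rw [mono_surj hm rfl]
    exact ⟨⟨hd, by omega⟩, irreducible_of_normalized_factor P hP, hdvd⟩
  · rintro ⟨d, c⟩ hx
    rw [mono_deg]

open UniqueFactorizationMonoid in
open Classical in
/-- for one factor: the number of `ν` -/
theorem step2 {F : Type} [Field F] {g P : F[X]} (hg : g.Monic) (hP : P ∈ normalizedFactors g) :
    ∑ ν ∈ Finset.Icc 1 g.natDegree,
      (if P.natDegree ∣ ν ∧ P ^ (ν / P.natDegree) ∣ g then (P.natDegree : ℂ) else 0) =
    (((normalizedFactors g).count P * P.natDegree : ℕ) : ℂ) := by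
  have hpos : 0 < P.natDegree := (irreducible_of_normalized_factor P hP).natDegree_pos
  have hm := nf_monic hP
  rw [← Finset.sum_filter, Finset.sum_const, nsmul_eq_mul, Nat.cast_mul]
  congr 2
  have h1 : (Finset.Icc 1 g.natDegree).filter
      (fun ν => P.natDegree ∣ ν ∧ P ^ (ν / P.natDegree) ∣ g) =
      (Finset.Icc 1 ((normalizedFactors g).count P)).image (fun e => e * P.natDegree) := by
    ext ν
    simp only [Finset.mem_filter, Finset.mem_image, Finset.mem_Icc]
    constructor
    · rintro ⟨⟨h2, h3⟩, ⟨e, rfl⟩, h5⟩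
      rw [Nat.mul_div_cancel_left _ hpos, pow_dvd_iff hg hP] at h5
      refine ⟨e, ⟨?_, h5⟩, mul_comm _ _⟩
      rcases Nat.eq_zero_or_pos e with rfl | he
      · omega
      · exact he
    · rintro ⟨e, ⟨h2, h3⟩, rfl⟩
      have h4 := (pow_dvd_iff hg hP e).2 h3
      have h5 := Polynomial.natDegree_le_of_dvd h4 hg.ne_zero
      rw [hm.natDegree_pow] at h5
      refine ⟨⟨Nat.mul_pos h2 hpos, h5⟩, Dvd.intro_left _ rfl, ?_⟩
      rwa [Nat.mul_div_cancel _ hpos]
  rw [h1, Finset.card_image_of_injective, Nat.card_Icc, Nat.add_sub_cancel]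
  intro x y hxy
  exact Nat.eq_of_mul_eq_mul_right hpos hxy

open UniqueFactorizationMonoid in
open Classical in
theorem lemA {F : Type} [Field F] [Fintype F] {g : F[X]} (hg : g.Monic) :
    ∑ ν ∈ Finset.Icc 1 g.natDegree, ∑ d ∈ ν.divisors,
      ∑ c ∈ (Finset.univ : Finset (Fin d → F)).filter (fun c => Irreducible (mono d c)),
        (if (mono d c) ^ (ν / d) ∣ g then (d : ℂ) else 0) = (g.natDegree : ℂ) := by
  rw [Finset.sum_congr rfl fun ν hν => step1 hg (Finset.mem_Icc.1 hν).1, Finset.sum_comm,
    Finset.sum_congr rfl fun P hP => step2 hg (Multiset.mem_toFinset.1 hP), ← Nat.cast_sum,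
    ← deg_sum hg]

end WL2_

/-- TPK-WL2 -/
theorem prove_WL2 : T_WL2 := by
  intro ℓ R _ χ b D
  classical
  have hA : ∀ c : Fin D → ZMod ℓ, (D : ℂ) * LG χ b (mono D c) =
      ∑ ν ∈ Finset.Icc 1 D, ∑ d ∈ ν.divisors,
        ∑ c' ∈ (Finset.univ : Finset (Fin d → ZMod ℓ)).filter
          (fun c' => Irreducible (mono d c')),
          (d : ℂ) * (if (mono d c') ^ (ν / d) ∣ mono D c then LG χ b (mono D c) else 0) := by
    intro c
    have h := WL2_.lemA (WL2_.mono_monic D c)
    rw [WL2_.mono_deg] at h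
    rw [← h, Finset.sum_mul]
    refine Finset.sum_congr rfl fun ν _ => ?_
    rw [Finset.sum_mul]
    refine Finset.sum_congr rfl fun d _ => ?_
    rw [Finset.sum_mul]
    refine Finset.sum_congr rfl fun c' _ => ?_
    split_ifs
    · rfl
    · ring
  have h0 : (D : ℂ) * LA χ b D = ∑ c : Fin D → ZMod ℓ, (D : ℂ) * LG χ b (mono D c) := by
    unfold LA
    rw [Finset.mul_sum]
  rw [h0, Finset.sum_congr rfl fun c _ => hA c, Finset.sum_comm]
  refine Finset.sum_congr rfl fun ν hν => ?_
  rw [Finset.mem_Icc] at hν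
  rw [Finset.sum_comm]
  unfold LP
  rw [Finset.sum_mul]
  refine Finset.sum_congr rfl fun d hd => ?_
  rw [Nat.mem_divisors] at hd
  rw [Finset.sum_comm, Finset.sum_mul]
  refine Finset.sum_congr (by congr) fun c' _ => ?_
  have hνd : ν / d * d = ν := Nat.div_mul_cancel hd.1
  rw [← Finset.mul_sum, WL2_.lemB χ b (mono d c') (WL2_.mono_monic d c') (WL2_.mono_deg d c')
    (by rw [hνd]; exact hν.2), hνd, mul_assoc]

end Pool.Agent.TPK
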