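import Pool.Agent.TPK.Targets6

set_option autoImplicit false

/-! TPK-WL3: points of a finite extension and irreducible polynomials. -/

namespace Pool.Agent.TPK

open Finset Filter Pool.Agent.Ell Pool.Agent.TPM Pool.Agent.TPX
open scoped BigOperators ComplexConjugate Polynomial IntermediateField

namespace WL3_

lemma deg_lt {F : Type} [Field F] (D : ℕ) (c : Fin D → F) :
    (∑ i : Fin D, Polynomial.C (c i) * Polynomial.X ^ (i : ℕ) : F[X]).degree < D :=
  Polynomial.degree_sum_fin_lt c

lemma monic {F : Type} [Field F] (D : ℕ) (c : Fin D → F) : (mono D c).Monic :=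
  Polynomial.monic_X_pow_add (deg_lt D c)

lemma natDegree {F : Type} [Field F] (D : ℕ) (c : Fin D → F) : (mono D c).natDegree = D := by
  unfold mono
  rw [Polynomial.natDegree_add_eq_left_of_degree_lt, Polynomial.natDegree_X_pow]
  rw [Polynomial.degree_X_pow]
  exact deg_lt D c

lemma coeff {F : Type} [Field F] (D : ℕ) (c : Fin D → F) (i : Fin D) :
    (mono D c).coeff i = c i := by
  unfold mono
  rw [Polynomial.coeff_add, Polynomial.coeff_X_pow, if_neg (by have := i.2; omega), zero_add,
    Polynomial.finsetSum_coeff, Finset.sum_eq_single i]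
  · rw [Polynomial.coeff_C_mul_X_pow, if_pos rfl]
  · intro j _ hj
    rw [Polynomial.coeff_C_mul_X_pow, if_neg]
    intro h
    exact hj (Fin.ext h.symm)
  · intro h
    exact absurd (Finset.mem_univ _) h

lemma eq_mono {F : Type} [Field F] (P : F[X]) (hP : P.Monic) :
    mono P.natDegree (fun i => P.coeff i) = P := by
  conv_rhs => rw [hP.as_sum]
  unfold mono
  rw [Finset.sum_range]

/-- the norm of a point -/
lemma norm_val {F K : Type} [Field F] [Field K] [Algebra F K] [FiniteDimensional F K] (x : K)
    (b : F) : Algebra.norm F (x + algebraMap F K b) =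
      ((-1) ^ (minpoly F x).natDegree * (minpoly F x).eval (-b)) ^
        (Module.finrank F K / (minpoly F x).natDegree) := by
  set y := x + algebraMap F K b with hy
  have hi : IsIntegral F y := Algebra.IsIntegral.isIntegral y
  have hx : IsIntegral F x := Algebra.IsIntegral.isIntegral x
  have h1 : minpoly F y = (minpoly F x).comp (Polynomial.X - Polynomial.C b) :=
    minpoly.add_algebraMap x b
  have h2 : (minpoly F y).natDegree = (minpoly F x).natDegree := by
    rw [h1, Polynomial.natDegree_comp, Polynomial.natDegree_X_sub_C, mul_one]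
  have h3 : (minpoly F y).coeff 0 = (minpoly F x).eval (-b) := by
    rw [Polynomial.coeff_zero_eq_eval_zero, h1, Polynomial.eval_comp]
    simp
  have h4 : Module.finrank F F⟮y⟯ * Module.finrank F⟮y⟯ K = Module.finrank F K :=
    Module.finrank_mul_finrank F F⟮y⟯ K
  rw [IntermediateField.adjoin.finrank hi, h2] at h4
  have h5 : Module.finrank F K / (minpoly F x).natDegree = Module.finrank F⟮y⟯ K := by
    rw [← h4]
    exact Nat.mul_div_cancel_left _ (minpoly.natDegree_pos hx)
  have h6 := Algebra.PowerBasis.norm_gen_eq_coeff_zero_minpoly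
    (IntermediateField.adjoin.powerBasis hi)
  rw [IntermediateField.adjoin.powerBasis_gen, IntermediateField.adjoin.powerBasis_dim,
    IntermediateField.minpoly_gen, h2, h3] at h6
  rw [Algebra.norm_eq_norm_adjoin, h6, h5]

/-- number of points with a given minimal polynomial -/
lemma count {F K : Type} [Field F] [Field K] [Fintype K] [DecidableEq F[X]] [Algebra F K]
    (P : F[X]) (hP : P.Monic) (hI : Irreducible P) (hd : P.natDegree ∣ Module.finrank F K) :
    ((Finset.univ : Finset K).filter (fun x => minpoly F x = P)).card = P.natDegree := by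
  have h0 : P ≠ 0 := hP.ne_zero
  have : Fact (Irreducible P) := ⟨hI⟩
  have h1 : Module.finrank F (AdjoinRoot P) = P.natDegree :=
    finrank_quotient_span_eq_natDegree
  have h2 : Nat.card (AdjoinRoot P →ₐ[F] K) = P.natDegree := by
    rw [FiniteField.natCard_algHom_of_finrank_dvd (by rw [h1]; exact hd), h1]
  rw [← h2, Nat.card_congr (AdjoinRoot.equiv K F P h0), ← Fintype.card_coe,
    ← Nat.card_eq_fintype_card]
  refine Nat.card_congr (Equiv.subtypeEquivRight fun x => ?_)
  rw [Finset.mem_filter, Polynomial.mem_aroots]
  constructor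
  · rintro ⟨-, h⟩
    refine ⟨h0, ?_⟩
    rw [← h]
    exact minpoly.aeval F x
  · rintro ⟨-, h⟩
    exact ⟨Finset.mem_univ _, (minpoly.eq_of_irreducible_of_monic hI h hP).symm⟩

end WL3_

open WL3_ in
theorem prove_WL3 : T_WL3 := by
  classical
  intro ℓ R _ χ b ν K _ _ _ hν hcard
  have hℓ : ℓ.Prime := Fact.out
  have hfin : Module.finrank (ZMod ℓ) K = ν := by
    have h1 := FiniteField.pow_finrank_eq_card ℓ K
    rw [hcard] at h1
    exact Nat.pow_right_injective hℓ.two_le h1
  have : FiniteDimensional (ZMod ℓ) K := Module.finite_of_finrank_pos (by omega)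
  set G : K → ℂ := fun x => LG χ b (minpoly (ZMod ℓ) x) ^ (ν / (minpoly (ZMod ℓ) x).natDegree)
    with hG
  have hNS : NS χ b K = ∑ x : K, G x := by
    unfold NS
    refine Finset.sum_congr rfl fun x _ => ?_
    simp only [hG]
    unfold LG
    rw [← Finset.prod_pow]
    refine Finset.prod_congr rfl fun s _ => ?_
    rw [norm_val, hfin, map_pow]
  have hint : ∀ x : K, IsIntegral (ZMod ℓ) x := fun x => Algebra.IsIntegral.isIntegral x
  have hone : ∀ x : K, G x = ∑ d ∈ ν.divisors, ∑ c ∈ (Finset.univ : Finset (Fin d → ZMod ℓ)).filter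
      (fun c => Irreducible (mono d c)),
      if minpoly (ZMod ℓ) x = mono d c then LG χ b (mono d c) ^ (ν / d) else 0 := by
    intro x
    have hM := minpoly.monic (hint x)
    rw [Finset.sum_eq_single (minpoly (ZMod ℓ) x).natDegree]
    · rw [Finset.sum_eq_single (fun i : Fin (minpoly (ZMod ℓ) x).natDegree =>
        (minpoly (ZMod ℓ) x).coeff i)]
      · rw [eq_mono _ hM, if_pos rfl]
      · intro c _ hc
        rw [if_neg]
        intro h
        apply hc
        funext i
        have h2 := congrArg (fun P : (ZMod ℓ)[X] => P.coeff (i : ℕ)) h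
        rw [coeff] at h2
        exact h2.symm
      · intro h
        exfalso
        apply h
        rw [Finset.mem_filter, eq_mono _ hM]
        exact ⟨Finset.mem_univ _, minpoly.irreducible (hint x)⟩
    · intro d _ hd
      refine Finset.sum_eq_zero fun c _ => ?_
      rw [if_neg]
      intro h
      apply hd
      rw [h, natDegree]
    · intro h
      exfalso
      apply h
      rw [Nat.mem_divisors]
      refine ⟨?_, by omega⟩
      rw [← hfin]
      exact minpoly.degree_dvd (hint x)
  rw [hNS]
  simp only [hone]
  rw [Finset.sum_comm]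
  unfold LP
  refine Finset.sum_congr rfl fun d hd => ?_
  rw [Finset.sum_comm]
  refine Finset.sum_congr rfl fun c hc => ?_
  rw [Finset.mem_filter] at hc
  have h1 := count (K := K) (mono d c) (monic d c) hc.2 (by
    rw [natDegree, hfin]
    exact (Nat.mem_divisors.1 hd).1)
  rw [natDegree] at h1
  rw [← Finset.sum_filter, Finset.sum_const, h1, nsmul_eq_mul]

end Pool.Agent.TPK
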