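import Pool.Agent.TPK.Targets6

set_option autoImplicit false

/-! TPK-WL4: a bound for the first power sum from the even power sums. -/

namespace Pool.Agent.TPK

namespace WL4_

open Finset Filter Polynomial
open scoped BigOperators Topology

/-- Complex numbers of absolute value at most `1` whose power sums tend to `0`. -/
theorem lt_one {N : ℕ} (β : Fin N → ℂ) (h1 : ∀ i, ‖β i‖ ≤ 1)
    (h2 : Tendsto (fun n : ℕ => ∑ i, β i ^ n) atTop (𝓝 0)) (i : Fin N) : ‖β i‖ < 1 := by
  classical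
  by_contra hi
  have hi1 : ‖β i‖ = 1 := le_antisymm (h1 i) (not_lt.1 hi)
  have h3 : Tendsto (fun n : ℕ => ∑ j ∈ univ.filter (fun j => ¬ ‖β j‖ = 1), β j ^ n)
      atTop (𝓝 0) := by
    have h : Tendsto (fun n : ℕ => ∑ j ∈ univ.filter (fun j => ¬ ‖β j‖ = 1), β j ^ n)
        atTop (𝓝 (∑ j ∈ univ.filter (fun j => ¬ ‖β j‖ = 1), (0 : ℂ))) := by
      refine tendsto_finsetSum _ fun j hj => ?_
      exact tendsto_pow_atTop_nhds_zero_of_norm_lt_one
        (lt_of_le_of_ne (h1 j) (mem_filter.1 hj).2)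
    simpa using h
  have h4 : Tendsto (fun n : ℕ => ∑ j ∈ univ.filter (fun j => ‖β j‖ = 1), β j ^ n)
      atTop (𝓝 0) := by
    have h := h2.sub h3
    rw [sub_zero] at h
    refine h.congr fun n => ?_
    rw [← Finset.sum_filter_add_sum_filter_not univ (fun j => ‖β j‖ = 1)]
    ring
  let x : Fin N → Circle := fun j =>
    if h : ‖β j‖ = 1 then ⟨β j, mem_sphere_zero_iff_norm.2 h⟩ else 1
  have hx : ∀ j, ‖β j‖ = 1 → ((x j : Circle) : ℂ) = β j := by
    intro j hj
    have h : x j = ⟨β j, mem_sphere_zero_iff_norm.2 hj⟩ := dif_pos hj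
    rw [h]
  let F : (Fin N → Circle) → ℂ := fun y => ∑ j ∈ univ.filter (fun j => ‖β j‖ = 1), (y j : ℂ)
  have hF : Continuous F := by
    refine continuous_finsetSum _ fun j _ => ?_
    fun_prop
  have h5 : MapClusterPt (1 : Fin N → Circle) atTop (x ^ · : ℕ → (Fin N → Circle)) :=
    mapClusterPt_one_atTop_pow x
  have h6 : MapClusterPt (F 1) atTop (F ∘ (x ^ · : ℕ → (Fin N → Circle))) :=
    h5.continuousAt_comp hF.continuousAt
  have h7 : Tendsto (F ∘ (x ^ · : ℕ → (Fin N → Circle))) atTop (𝓝 0) := by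
    refine h4.congr fun n => ?_
    refine Finset.sum_congr rfl fun j hj => ?_
    have h := hx j (mem_filter.1 hj).2
    simp only [Pi.pow_apply, Circle.coe_pow, h]
  have h8 : F 1 = 0 := by
    have h9 : ClusterPt (F 1) (𝓝 (0 : ℂ)) := ClusterPt.mono h6 h7
    exact eq_of_nhds_neBot h9
  have h10 : F 1 = ((univ.filter (fun j => ‖β j‖ = 1)).card : ℂ) := by
    simp [F]
  rw [h10] at h8
  have h11 : (univ.filter (fun j => ‖β j‖ = 1)).card = 0 := by exact_mod_cast h8
  rw [Finset.card_eq_zero] at h11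
  have h12 : i ∈ univ.filter (fun j => ‖β j‖ = 1) := mem_filter.2 ⟨mem_univ _, hi1⟩
  rw [h11] at h12
  exact absurd h12 (notMem_empty i)

/-- From the bound for the even power sums to the numbers. -/
theorem le_rho {N : ℕ} (α : Fin N → ℂ) (ρ C : ℝ) (μ₀ : ℕ) (hρ : 0 < ρ)
    (h : ∀ μ, μ₀ ≤ μ → ‖∑ i, α i ^ (2 * μ)‖ ≤ C * ρ ^ (2 * μ)) (i : Fin N) : ‖α i‖ ≤ ρ := by
  by_contra hi
  rw [not_le] at hi
  obtain ⟨i₀, -, hmax⟩ := Finset.exists_max_image (univ : Finset (Fin N)) (fun j => ‖α j‖)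
    ⟨i, mem_univ i⟩
  set r : ℝ := ‖α i₀‖ with hr
  have hρr : ρ < r := lt_of_lt_of_le hi (hmax i (mem_univ i))
  have hr0 : 0 < r := hρ.trans hρr
  have hC : (r : ℂ) ≠ 0 := by exact_mod_cast hr0.ne'
  let β : Fin N → ℂ := fun j => (α j / r) ^ 2
  have hβ : ∀ j, ‖β j‖ ≤ 1 := by
    intro j
    simp only [β, norm_pow, norm_div, Complex.norm_real, Real.norm_eq_abs, abs_of_pos hr0]
    exact pow_le_one₀ (div_nonneg (norm_nonneg _) hr0.le)
      ((div_le_one hr0).2 (hmax j (mem_univ j)))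
  have hs : ∀ n : ℕ, ∑ j, β j ^ n = (∑ j, α j ^ (2 * n)) / (r : ℂ) ^ (2 * n) := by
    intro n
    rw [Finset.sum_div]
    refine Finset.sum_congr rfl fun j _ => ?_
    simp only [β]
    rw [← pow_mul, div_pow]
  have hq : (ρ / r) ^ 2 < 1 := by
    have h1 : ρ / r < 1 := (div_lt_one hr0).2 hρr
    have h0 : 0 ≤ ρ / r := (div_pos hρ hr0).le
    nlinarith
  have ht : Tendsto (fun n : ℕ => ∑ j, β j ^ n) atTop (𝓝 0) := by
    have h1 : Tendsto (fun n : ℕ => C * ((ρ / r) ^ 2) ^ n) atTop (𝓝 0) := by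
      have := (tendsto_pow_atTop_nhds_zero_of_lt_one (sq_nonneg (ρ / r)) hq).const_mul C
      simpa using this
    refine squeeze_zero_norm' ?_ h1
    filter_upwards [eventually_ge_atTop μ₀] with n hn
    rw [hs n, norm_div, norm_pow, Complex.norm_real, Real.norm_eq_abs, abs_of_pos hr0,
      div_le_iff₀ (pow_pos hr0 _)]
    refine (h n hn).trans (le_of_eq ?_)
    rw [← pow_mul, div_pow]
    field_simp
  have h9 := lt_one β hβ ht i₀
  have h10 : ‖β i₀‖ = 1 := by
    simp only [β, norm_pow, norm_div, Complex.norm_real, Real.norm_eq_abs, abs_of_pos hr0]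
    rw [← hr, div_self hr0.ne', one_pow]
  rw [h10] at h9
  exact lt_irrefl _ h9

theorem ex_fun (s : Multiset ℂ) : ∃ α : Fin (Multiset.card s) → ℂ,
    (univ : Finset (Fin (Multiset.card s))).val.map α = s := by
  obtain ⟨l, rfl⟩ := Quot.exists_rep s
  refine ⟨l.get, ?_⟩
  exact (Fin.univ_val_map l.get).trans (congrArg _ (List.ofFn_get l))

/-- Newton's identities for a finite family. -/
theorem newton {N : ℕ} (α : Fin N → ℂ) (A : ℕ → ℂ)
    (hA : ∀ D, A D = (-1) ^ D * (univ.val.map α).esymm D) (D : ℕ) :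
    (D : ℂ) * A D = -∑ ν ∈ Icc 1 D, (∑ i, α i ^ ν) * A (D - ν) := by
  have h := congrArg (MvPolynomial.aeval α) (MvPolynomial.mul_esymm_eq_sum (Fin N) ℂ D)
  simp only [map_mul, map_natCast, map_pow, map_neg, map_one, map_sum,
    MvPolynomial.aeval_esymm_eq_multiset_esymm, MvPolynomial.psum, MvPolynomial.aeval_X] at h
  have h2 : ∑ ν ∈ Icc 1 D, (∑ i, α i ^ ν) * A (D - ν) =
      ∑ a ∈ antidiagonal D with a.1 < D, A a.1 * ∑ i, α i ^ a.2 := by
    refine Finset.sum_bij' (fun ν _ => (D - ν, ν)) (fun a _ => a.2) ?_ ?_ ?_ ?_ ?_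
    · intro ν hν
      rw [mem_Icc] at hν
      rw [mem_filter, Finset.HasAntidiagonal.mem_antidiagonal]
      dsimp only
      omega
    · intro a ha
      rw [mem_filter, Finset.HasAntidiagonal.mem_antidiagonal] at ha
      rw [mem_Icc]
      omega
    · intro ν _
      rfl
    · intro a ha
      rw [mem_filter, Finset.HasAntidiagonal.mem_antidiagonal] at ha
      ext
      · dsimp only
        omega
      · rfl
    · intro ν _
      dsimp only
      ring
  rw [h2, hA D, mul_left_comm, h, ← mul_assoc, ← pow_add]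
  have h3 : ((-1 : ℂ)) ^ (D + (D + 1)) = -1 := by
    rw [← add_assoc, ← two_mul, pow_succ, pow_mul]
    norm_num
  rw [h3, neg_one_mul]
  congr 1
  refine Finset.sum_congr rfl fun a _ => ?_
  rw [hA a.1]

theorem main (R : ℕ) (A S : ℕ → ℂ) (h0 : A 0 = 1) (hR : ∀ D, R ≤ D → A D = 0)
    (hS : ∀ D : ℕ, (D : ℂ) * A D = ∑ ν ∈ Icc 1 D, S ν * A (D - ν)) :
    ∃ (N : ℕ) (α : Fin N → ℂ), N ≤ R ∧ ∀ ν, 1 ≤ ν → S ν = -∑ i, α i ^ ν := by
  have hR1 : 1 ≤ R := by
    by_contra hlt
    have : A 0 = 0 := hR 0 (by omega)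
    rw [h0] at this
    exact one_ne_zero this
  let q : ℂ[X] := ∑ D ∈ range R, C (A D) * X ^ (R - 1 - D)
  have hc : ∀ D, D < R → q.coeff (R - 1 - D) = A D := by
    intro D hD
    simp only [q, finsetSum_coeff, coeff_C_mul_X_pow]
    rw [Finset.sum_eq_single D]
    · rw [if_pos rfl]
    · intro E hE hED
      rw [mem_range] at hE
      rw [if_neg]
      omega
    · intro hDn
      exact absurd (mem_range.2 hD) hDn
  have hdeg : q.natDegree ≤ R - 1 := by
    refine natDegree_sum_le_of_forall_le _ _ fun D _ => ?_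
    refine (natDegree_C_mul_X_pow_le _ _).trans (Nat.sub_le _ _)
  have hlead : q.coeff (R - 1) = 1 := by
    have := hc 0 hR1
    rwa [Nat.sub_zero, h0] at this
  have hdeg2 : q.natDegree = R - 1 :=
    le_antisymm hdeg (le_natDegree_of_ne_zero (by rw [hlead]; exact one_ne_zero))
  have hlc : q.leadingCoeff = 1 := by rw [leadingCoeff, hdeg2, hlead]
  have hsp : q.Splits := IsAlgClosed.splits q
  have hcard : Multiset.card q.roots = R - 1 := by
    rw [← hdeg2]
    exact (splits_iff_card_roots.1 hsp)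
  have hA : ∀ D, A D = (-1) ^ D * q.roots.esymm D := by
    intro D
    by_cases hD : D < R
    · have h := coeff_eq_esymm_roots_of_splits hsp (k := R - 1 - D) (by omega)
      rw [hc D hD, hlc, one_mul, hdeg2] at h
      rw [h]
      have h' : R - 1 - (R - 1 - D) = D := by omega
      rw [h']
    · rw [hR D (by omega), Multiset.esymm, Multiset.powersetCard_eq_empty]
      · simp
      · rw [hcard]
        omega
  obtain ⟨α, hα⟩ := ex_fun q.roots
  refine ⟨_, α, by omega, ?_⟩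
  have hN := newton α A (fun D => by rw [hα]; exact hA D)
  intro ν
  induction ν using Nat.strong_induction_on with
  | _ n ih =>
    intro hn
    have h1 : ∑ ν ∈ Icc 1 n, (S ν + ∑ i, α i ^ ν) * A (n - ν) = 0 := by
      have h2 := hS n
      rw [hN n] at h2
      simp only [add_mul, Finset.sum_add_distrib]
      rw [← h2]
      ring
    rw [Finset.sum_eq_single n] at h1
    · rw [Nat.sub_self, h0, mul_one] at h1
      exact eq_neg_of_add_eq_zero_left h1
    · intro k hk hkn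
      rw [mem_Icc] at hk
      rw [ih k (by omega) hk.1]
      ring
    · intro hnn
      exact absurd (mem_Icc.2 ⟨hn, le_rfl⟩) hnn

end WL4_

theorem prove_WL4 : T_WL4 := by
  intro R A S ρ h0 hR hS hρ hC
  obtain ⟨C, μ₀, hC⟩ := hC
  obtain ⟨N, α, hN, hα⟩ := WL4_.main R A S h0 hR hS
  have h1 : ∀ μ, μ₀ + 1 ≤ μ → ‖∑ i, α i ^ (2 * μ)‖ ≤ C * ρ ^ (2 * μ) := by
    intro μ hμ
    have h2 := hC μ (by omega)
    rwa [hα (2 * μ) (by omega), norm_neg] at h2
  have h3 := WL4_.le_rho α ρ C (μ₀ + 1) hρ h1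
  rw [hα 1 le_rfl, norm_neg]
  calc ‖∑ i, α i ^ 1‖ ≤ ∑ i, ‖α i ^ 1‖ := norm_sum_le _ _
    _ ≤ ∑ _i : Fin N, ρ := by
        refine Finset.sum_le_sum fun i _ => ?_
        rw [pow_one]
        exact h3 i
    _ = N * ρ := by simp
    _ ≤ R * ρ := mul_le_mul_of_nonneg_right (by exact_mod_cast hN) hρ.le

end Pool.Agent.TPK
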