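import Pool.Agent.TPK.Targets6

set_option autoImplicit false

/-! MP_f3f922_nt, TPK-WP1: reduction modulo `X^M - T^M` does not increase the total degree. -/

namespace Pool.Agent.TPK

open Polynomial

namespace WP1_

/-- one term -/
theorem term {K : Type} [Field K] (M a : ℕ) (c : K[X]) :
    (X ^ M - C (X ^ M) : K[X][X]) ∣ monomial a c - monomial (a % M) (c * X ^ (M * (a / M))) := by
  have h1 : (monomial a c : K[X][X]) = C c * X ^ (a % M) * (X ^ M) ^ (a / M) := by
    rw [← C_mul_X_pow_eq_monomial, mul_assoc, ← pow_mul, ← pow_add, Nat.mod_add_div]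
  have h2 : (monomial (a % M) (c * X ^ (M * (a / M))) : K[X][X]) =
      C c * X ^ (a % M) * (C (X ^ M)) ^ (a / M) := by
    rw [← C_mul_X_pow_eq_monomial, C_mul, ← C_pow, ← pow_mul]
    ring
  rw [h1, h2, ← mul_sub]
  exact Dvd.dvd.mul_left (sub_dvd_pow_sub_pow _ _ _) _

end WP1_

/-- T_WP1. -/
theorem prove_WP1 : T_WP1 := by
  intro K _ M B P hM hP
  have hmon : (X ^ M - C (X ^ M) : K[X][X]).Monic := monic_X_pow_sub_C _ (by omega)
  set r : K[X][X] := ∑ a ∈ P.support, monomial (a % M) (P.coeff a * X ^ (M * (a / M))) with hr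
  have hcoeff : ∀ a' : ℕ, r.coeff a' =
      ∑ a ∈ P.support, if a % M = a' then P.coeff a * X ^ (M * (a / M)) else 0 := by
    intro a'
    rw [hr, finsetSum_coeff]
    exact Finset.sum_congr rfl fun a _ => coeff_monomial
  have hdvd : (X ^ M - C (X ^ M) : K[X][X]) ∣ P - r := by
    have h1 : P - r = ∑ a ∈ P.support, (monomial a (P.coeff a) -
        monomial (a % M) (P.coeff a * X ^ (M * (a / M)))) := by
      rw [Finset.sum_sub_distrib, ← as_sum_support]
    rw [h1]
    exact Finset.dvd_sum fun a _ => WP1_.term M a (P.coeff a)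
  have hdeg : r.degree < (X ^ M - C (X ^ M) : K[X][X]).degree := by
    rw [degree_X_pow_sub_C (by omega), degree_lt_iff_coeff_zero]
    intro m hm
    rw [hcoeff]
    refine Finset.sum_eq_zero fun a _ => if_neg ?_
    have := Nat.mod_lt a (show M > 0 by omega)
    omega
  have hmod : P %ₘ (X ^ M - C (X ^ M)) = r := by
    rw [modByMonic_eq_of_dvd_sub hmon hdvd, (modByMonic_eq_self_iff hmon).2 hdeg]
  intro a' b h
  rw [hmod, hcoeff, finsetSum_coeff] at h
  obtain ⟨a, -, ha⟩ := Finset.exists_ne_zero_of_sum_ne_zero h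
  by_cases h1 : a % M = a'
  · rw [if_pos h1, coeff_mul_X_pow'] at ha
    by_cases h2 : M * (a / M) ≤ b
    · rw [if_pos h2] at ha
      have h3 := hP a _ ha
      have h4 := Nat.mod_add_div a M
      omega
    · rw [if_neg h2] at ha
      exact absurd rfl ha
  · rw [if_neg h1, coeff_zero] at ha
    exact absurd rfl ha

end Pool.Agent.TPK
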