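import Pool.Agent.TPK.Targets6

set_option autoImplicit false

/-! TPK-WP2: existence of the auxiliary polynomial of Stepanov's method (linear algebra). -/

namespace Pool.Agent.TPK

open Polynomial

namespace WP2

variable {K : Type} [Field K]

theorem kp_add {K0 : ℕ} (k k' : Fin K0 → K) : kp (k + k') = kp k + kp k' := by
  simp [kp, add_mul, Finset.sum_add_distrib]

theorem kp_smul {K0 : ℕ} (a : K) (k : Fin K0 → K) : kp (a • k) = C a * kp k := by
  simp [kp, Finset.mul_sum, mul_assoc]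

theorem natDegree_kp {K0 : ℕ} (k : Fin K0 → K) : (kp k).natDegree ≤ K0 - 1 := by
  unfold kp
  refine natDegree_sum_le_of_forall_le _ _ fun t _ => ?_
  refine (natDegree_C_mul_X_pow_le _ _).trans ?_
  have := t.2
  omega

theorem natDegree_FF {R : ℕ} (e : Fin R → ℕ) (β : Fin R → K) :
    (FF e β).natDegree ≤ ∑ s, e s := by
  unfold FF
  refine (natDegree_prod_le _ _).trans (Finset.sum_le_sum fun s _ => ?_)
  refine natDegree_pow_le.trans ?_
  rw [natDegree_X_add_C, mul_one]

theorem psi_add {R d J K0 : ℕ} (e : Fin R → ℕ) (β : Fin R → K) (m0 : ℕ) (c : K)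
    (k k' : Fin d → Fin J → Fin K0 → K) :
    PSI e β m0 c (k + k') = PSI e β m0 c k + PSI e β m0 c k' := by
  unfold PSI
  rw [← Finset.sum_add_distrib]
  refine Finset.sum_congr rfl fun i _ => ?_
  rw [← Finset.sum_add_distrib]
  refine Finset.sum_congr rfl fun j _ => ?_
  rw [Pi.add_apply, Pi.add_apply, kp_add, add_mul, Polynomial.map_add, mul_add]

theorem psi_smul {R d J K0 : ℕ} (e : Fin R → ℕ) (β : Fin R → K) (m0 : ℕ) (c a : K)
    (k : Fin d → Fin J → Fin K0 → K) :
    PSI e β m0 c (a • k) = (C a : K[X]) • PSI e β m0 c k := by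
  unfold PSI
  rw [Finset.smul_sum]
  refine Finset.sum_congr rfl fun i _ => ?_
  rw [Finset.smul_sum]
  refine Finset.sum_congr rfl fun j _ => ?_
  rw [Pi.smul_apply, Pi.smul_apply, kp_smul, mul_assoc (C a), Polynomial.map_mul,
    Polynomial.map_C, smul_eq_C_mul]
  ring

/-- the coefficients of the remainder, linear in `k` -/
noncomputable def coL {R d J K0 : ℕ} (e : Fin R → ℕ) (β : Fin R → K) (m0 : ℕ) (c : K)
    (M N : ℕ) (q : K[X][X]) : (Fin d → Fin J → Fin K0 → K) →ₗ[K] (Fin M → Fin N → K) where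
  toFun k := fun a b => ((PSI e β m0 c k %ₘ q).coeff a).coeff b
  map_add' k k' := by
    funext a b
    simp [psi_add, add_modByMonic]
  map_smul' t k := by
    funext a b
    rw [psi_smul, smul_modByMonic]
    simp

theorem psi_coeff {R d J K0 : ℕ} (e : Fin R → ℕ) (β : Fin R → K) (m0 : ℕ) (c : K)
    (k : Fin d → Fin J → Fin K0 → K) (a b : ℕ)
    (h : ((PSI e β m0 c k).coeff a).coeff b ≠ 0) :
    a + b ≤ (K0 - 1) + (J - 1) + (∑ s, e s) * ((d - 1) * m0) := by
  unfold PSI at h
  rw [finsetSum_coeff, finsetSum_coeff] at h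
  obtain ⟨i, -, hi⟩ := Finset.exists_ne_zero_of_sum_ne_zero h
  rw [finsetSum_coeff, finsetSum_coeff] at hi
  obtain ⟨j, -, hj⟩ := Finset.exists_ne_zero_of_sum_ne_zero hi
  rw [coeff_C_mul, coeff_map, coeff_mul_C] at hj
  have h1 := left_ne_zero_of_mul hj
  have h2 := right_ne_zero_of_mul hj
  have h3 := le_natDegree_of_ne_zero h1
  have h4 := le_natDegree_of_ne_zero h2
  have hF := natDegree_FF e β
  have h5 : (C (c ^ (i : ℕ)) * FF e β ^ ((d - 1 - (i : ℕ)) * m0) * X ^ (j : ℕ)).natDegree ≤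
      (d - 1 - (i : ℕ)) * m0 * (∑ s, e s) + j := by
    refine natDegree_mul_le.trans ?_
    rw [natDegree_X_pow]
    refine Nat.add_le_add_right ?_ _
    refine (natDegree_C_mul_le _ _).trans ?_
    exact natDegree_pow_le.trans (Nat.mul_le_mul_left _ hF)
  have h6 : (kp (k i j) * FF e β ^ ((i : ℕ) * m0)).natDegree ≤
      (K0 - 1) + (i : ℕ) * m0 * (∑ s, e s) := by
    refine natDegree_mul_le.trans (Nat.add_le_add (natDegree_kp _) ?_)
    exact natDegree_pow_le.trans (Nat.mul_le_mul_left _ hF)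
  have hi2 := i.2
  have hj2 := j.2
  have h8 := h3.trans h5
  have h9 := h4.trans h6
  obtain ⟨u, hu⟩ : ∃ u, d - 1 = i + u := ⟨d - 1 - i, by omega⟩
  have hu2 : d - 1 - (i : ℕ) = u := by omega
  rw [hu2] at h8
  rw [hu]
  have h7 : (∑ s, e s) * (((i : ℕ) + u) * m0) =
      (i : ℕ) * m0 * (∑ s, e s) + u * m0 * (∑ s, e s) := by ring
  rw [h7]
  clear h3 h4 h5 h6 h7
  omega

end WP2

open WP2 in
theorem prove_WP2 (h1 : T_WP1) : T_WP2 := by
  intro K _ R d J K0 M m0 e β c hM hlt
  have hd : 1 ≤ d := by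
    rcases Nat.eq_zero_or_pos d with h | h
    · rw [h, zero_mul, zero_mul] at hlt
      omega
    · exact h
  have hK : 1 ≤ K0 := by
    rcases Nat.eq_zero_or_pos K0 with h | h
    · rw [h, mul_zero, zero_mul] at hlt
      omega
    · exact h
  have hJ : 1 ≤ J := by
    rcases Nat.eq_zero_or_pos J with h | h
    · rw [h, mul_zero] at hlt
      omega
    · exact h
  have hM1 : 1 ≤ M := by omega
  set E := ∑ s, e s with hE
  set N := K0 + J + E * M with hN
  have hm0 : (d - 1) * m0 ≤ M := by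
    obtain ⟨u, rfl⟩ : ∃ u, d = u + 1 := ⟨d - 1, by omega⟩
    rw [Nat.add_sub_cancel, ← hM]
    nlinarith
  have hB : ∀ k : Fin d → Fin J → Fin K0 → K, ∀ a b,
      ((PSI e β m0 c k).coeff a).coeff b ≠ 0 → a + b ≤ N - 1 := by
    intro k a b h
    have h2 := psi_coeff e β m0 c k a b h
    have h3 : E * ((d - 1) * m0) ≤ E * M := Nat.mul_le_mul_left _ hm0
    rw [← hE] at h2
    omega
  have hmonic : (X ^ M - C (X ^ M) : K[X][X]).Monic := monic_X_pow_sub_C _ (by omega)
  have hfin : Module.finrank K (Fin M → Fin N → K) <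
      Module.finrank K (Fin d → Fin J → Fin K0 → K) := by
    simp only [Module.finrank_pi_fintype, Module.finrank_self,
      Finset.sum_const, Finset.card_univ, Fintype.card_fin, smul_eq_mul, mul_one]
    calc M * N < d * K0 * J := hlt
      _ = d * (J * K0) := by ring
  obtain ⟨k, hk, hk0⟩ := (Submodule.ne_bot_iff _).1
    (LinearMap.ker_ne_bot_of_finrank_lt (f := coL e β m0 c M N (X ^ M - C (X ^ M))) hfin)
  refine ⟨k, hk0, (modByMonic_eq_zero_iff_dvd hmonic).1 ?_⟩
  ext a b
  rw [coeff_zero, coeff_zero]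
  by_contra hab
  have h2 := h1 K M (N - 1) (PSI e β m0 c k) hM1 (hB k) a b hab
  have h3 : a < M := by
    by_contra h4
    apply hab
    have h7 : (PSI e β m0 c k %ₘ (X ^ M - C (X ^ M))).coeff a = 0 := by
      apply coeff_eq_zero_of_degree_lt
      refine (degree_modByMonic_lt _ hmonic).trans_le ?_
      rw [degree_X_pow_sub_C (by omega)]
      exact_mod_cast Nat.le_of_not_lt h4
    rw [h7, coeff_zero]
  have h5 : b < N := by omega
  have h6 := congrFun (congrFun (LinearMap.mem_ker.1 hk) ⟨a, h3⟩) ⟨b, h5⟩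
  exact hab h6

end Pool.Agent.TPK
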