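import Pool.Agent.TPK.Targets6

set_option autoImplicit false

/-! MP_f3f922_nt, block WP3: the auxiliary polynomial of Stepanov's method vanishes to high
order. -/

namespace Pool.Agent.TPK

open Finset Filter Pool.Agent.Ell Pool.Agent.TPM Pool.Agent.TPX
open scoped BigOperators ComplexConjugate Polynomial

namespace WP3

/-- `G ^ M` is the constant `G(x) ^ M` modulo `(X - x) ^ M`. -/
theorem pow_dvd_sub {K : Type} [Field K] {ℓ μ : ℕ} [Fact ℓ.Prime] [CharP K ℓ] (G : K[X])
    (x : K) : (Polynomial.X - Polynomial.C x) ^ (ℓ ^ μ) ∣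
      G ^ (ℓ ^ μ) - Polynomial.C (G.eval x) ^ (ℓ ^ μ) := by
  have h1 : (Polynomial.X - Polynomial.C x) ∣ G - Polynomial.C (G.eval x) :=
    Polynomial.X_sub_C_dvd_sub_C_eval
  have h2 := pow_dvd_pow_of_dvd h1 (ℓ ^ μ)
  have h3 : (G - Polynomial.C (G.eval x)) ^ (ℓ ^ μ) =
      G ^ (ℓ ^ μ) - Polynomial.C (G.eval x) ^ (ℓ ^ μ) := sub_pow_char_pow _ _ _
  rwa [h3] at h2

theorem map_psi {K : Type} [Field K] {R d J K0 : ℕ} (e : Fin R → ℕ) (β : Fin R → K)
    (m0 : ℕ) (c x : K) (k : Fin d → Fin J → Fin K0 → K) :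
    (PSI e β m0 c k).map (Polynomial.evalRingHom x) =
      ∑ i : Fin d, ∑ j : Fin J, Polynomial.C (c ^ (i : ℕ) *
        (FF e β).eval x ^ ((d - 1 - (i : ℕ)) * m0) * x ^ (j : ℕ)) *
        (kp (k i j) * FF e β ^ ((i : ℕ) * m0)) := by
  have hm : ∀ G : K[X], (G.map Polynomial.C).map (Polynomial.evalRingHom x) = G := by
    intro G
    rw [Polynomial.map_map]
    have : (Polynomial.evalRingHom x).comp Polynomial.C = RingHom.id K := by
      ext a
      simp
    rw [this, Polynomial.map_id]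
  unfold PSI
  rw [Polynomial.map_sum]
  refine Finset.sum_congr rfl fun i _ => ?_
  rw [Polynomial.map_sum]
  refine Finset.sum_congr rfl fun j _ => ?_
  rw [Polynomial.map_mul, hm, Polynomial.map_C]
  congr 2
  simp

end WP3

open WP3 in
theorem prove_WP3 : T_WP3 := by
  intro ℓ μ _ K _ _ _ R d J K0 m0 e β c x k hcard hd hm0 hc hF hFc hdvd
  set M := ℓ ^ μ with hM
  set F := FF e β with hFdef
  set a := F.eval x with ha
  set Dl : K[X] := (Polynomial.X - Polynomial.C x) ^ M with hDl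
  set I : Ideal K[X] := Ideal.span {Dl} with hI
  set π : K[X] →+* K[X] ⧸ I := Ideal.Quotient.mk I with hπ
  have hzero : ∀ G : K[X], π G = 0 ↔ Dl ∣ G := by
    intro G
    rw [hπ, Ideal.Quotient.eq_zero_iff_mem, hI, Ideal.mem_span_singleton]
  have hpow : ∀ G : K[X], π G ^ M = π (Polynomial.C (G.eval x ^ M)) := by
    intro G
    have h1 : π (G ^ M - Polynomial.C (G.eval x) ^ M) = 0 :=
      (hzero _).2 (pow_dvd_sub G x)
    rw [map_sub, map_pow, sub_eq_zero] at h1
    rw [h1, Polynomial.C_pow]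
  have hxx : x ^ (M ^ 2) = x := by
    rw [← hcard]
    exact FiniteField.pow_card x
  -- the polynomial `PSI` at `T = x`
  have hpsi : π ((PSI e β m0 c k).map (Polynomial.evalRingHom x)) = 0 := by
    refine (hzero _).2 ?_
    have h1 := Polynomial.map_dvd (Polynomial.evalRingHom x) hdvd
    have h2 : (Polynomial.X ^ M - Polynomial.C (Polynomial.X ^ M) : K[X][X]).map
        (Polynomial.evalRingHom x) = Dl := by
      rw [hDl, hM, sub_pow_char_pow]
      simp
    rwa [h2] at h1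
  have hmain : π (Polynomial.C (a ^ ((d - 1) * m0)) * RR e β M m0 k) =
      π ((PSI e β m0 c k).map (Polynomial.evalRingHom x)) := by
    rw [map_psi]
    unfold RR
    rw [Finset.mul_sum, map_sum, map_sum]
    refine Finset.sum_congr rfl fun i _ => ?_
    rw [Finset.mul_sum, map_sum, map_sum]
    refine Finset.sum_congr rfl fun j _ => ?_
    have e1 : π (Polynomial.X ^ (M ^ 2 * (j : ℕ))) = π (Polynomial.C (x ^ (j : ℕ))) := by
      have h1 : π (Polynomial.X : K[X]) ^ M = π (Polynomial.C (x ^ M)) := by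
        have := hpow (Polynomial.X : K[X])
        rwa [Polynomial.eval_X] at this
      have h2 : M ^ 2 * (j : ℕ) = M * (M * j) := by ring
      rw [h2, pow_mul, map_pow, map_pow, h1, ← map_pow, ← Polynomial.C_pow, ← pow_mul]
      have h3 : M * (M * (j : ℕ)) = M ^ 2 * j := by ring
      rw [h3, pow_mul, hxx]
    have e2 : π (F ^ ((i : ℕ) * (m0 * (M + 1)))) =
        π (F ^ ((i : ℕ) * m0)) * π (Polynomial.C (a ^ (M * ((i : ℕ) * m0)))) := by
      have h2 : (i : ℕ) * (m0 * (M + 1)) = i * m0 + M * (i * m0) := by ring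
      rw [h2, pow_add, map_mul, pow_mul F M, map_pow π (F ^ M) ((i : ℕ) * m0), map_pow π F M,
        hpow F, ← map_pow π, ← Polynomial.C_pow, ← ha, ← pow_mul]
    have e3 : a ^ ((d - 1) * m0) * a ^ (M * ((i : ℕ) * m0)) =
        c ^ (i : ℕ) * a ^ ((d - 1 - (i : ℕ)) * m0) := by
      rw [← hFc, ← pow_mul, ← pow_add, ← pow_add]
      congr 1
      have hi : (i : ℕ) ≤ d - 1 := by have := i.2; omega
      obtain ⟨n, hn⟩ := Nat.exists_eq_add_of_le hi
      rw [hn, Nat.add_sub_cancel_left]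
      ring
    rw [map_mul, map_mul, map_mul, map_mul, map_mul, e1, e2, ← e3]
    simp only [Polynomial.C_mul, map_mul]
    ring
  have hu : Dl ∣ Polynomial.C (a ^ ((d - 1) * m0)) * RR e β M m0 k := by
    rw [← hzero, hmain, hpsi]
  have hne : a ^ ((d - 1) * m0) ≠ 0 := pow_ne_zero _ hF
  exact (IsUnit.dvd_mul_left (Polynomial.isUnit_C.2 (isUnit_iff_ne_zero.2 hne))).1 hu

end Pool.Agent.TPK
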