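import Pool.Agent.TPK.Targets6

set_option autoImplicit false

/-!
# TPK-WP5: Stepanov's bound, choice of the parameters and counting
-/

namespace Pool.Agent.TPK

open Finset Filter Pool.Agent.Ell Pool.Agent.TPM Pool.Agent.TPX
open scoped BigOperators ComplexConjugate Polynomial

namespace WP5_

/-- the inequality between the parameters -/
theorem num (M m0 d E K0 : ℕ) (hd : 2 ≤ d) (h1 : d * m0 + 1 = M) (hK : K0 + d = m0 * (M + 1))
    (hM : (E + 2) + (d ^ 2 + 1) * (E + 3) < M) :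
    M * (K0 + (m0 + E + 2) + E * M) < d * K0 * (m0 + E + 2) := by
  zify at *
  have hm : (0 : ℤ) ≤ m0 := Int.natCast_nonneg _
  have hE : (0 : ℤ) ≤ E := Int.natCast_nonneg _
  have hMpos : (1 : ℤ) ≤ M := by nlinarith
  have key : (d : ℤ) * K0 * (m0 + E + 2) - M * (K0 + (m0 + E + 2) + E * M) =
      2 * M ^ 2 - (1 + d ^ 2) * (m0 + E + 2) - 2 * m0 * M + d * M - M * (E + 2) := by
    linear_combination ((d : ℤ) * (m0 + E + 2) - M) * hK + ((m0 : ℤ) + E + 2) * (M + 1) * h1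
  have h2 : 2 * (m0 : ℤ) * M ≤ M ^ 2 - M := by
    have h3 : 2 * (m0 : ℤ) ≤ M - 1 := by nlinarith
    nlinarith
  have h4 : (m0 : ℤ) + E + 2 ≤ (E + 3) * M := by
    have h5 : (m0 : ℤ) ≤ M := by nlinarith
    nlinarith
  have h6 : (1 + (d : ℤ) ^ 2) * (m0 + E + 2) ≤ (1 + d ^ 2) * ((E + 3) * M) := by
    apply mul_le_mul_of_nonneg_left h4
    positivity
  have h7 : 0 < (M : ℤ) * (M - ((E + 2) + (d ^ 2 + 1) * (E + 3))) := by
    apply mul_pos
    · linarith
    · linarith
  have h8 : 0 ≤ (d : ℤ) * M := by positivity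
  nlinarith

theorem deg_kp {K : Type} [Field K] {K0 : ℕ} (k : Fin K0 → K) : (kp k).natDegree ≤ K0 := by
  unfold kp
  refine Polynomial.natDegree_sum_le_of_forall_le _ _ fun t _ => ?_
  exact (Polynomial.natDegree_C_mul_X_pow_le _ _).trans t.2.le

theorem deg_FF {K : Type} [Field K] {R : ℕ} (e : Fin R → ℕ) (β : Fin R → K) :
    (FF e β).natDegree ≤ ∑ s, e s := by
  unfold FF
  refine (Polynomial.natDegree_prod_le _ _).trans (Finset.sum_le_sum fun s _ => ?_)
  refine (Polynomial.natDegree_pow_le).trans ?_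
  rw [Polynomial.natDegree_X_add_C, mul_one]

theorem deg_RR {K : Type} [Field K] {R d J K0 : ℕ} (e : Fin R → ℕ) (β : Fin R → K) (M m0 : ℕ)
    (k : Fin d → Fin J → Fin K0 → K) :
    (RR e β M m0 k).natDegree ≤
      K0 + (d - 1) * (m0 * (M + 1)) * (∑ s, e s) + M ^ 2 * (J - 1) := by
  unfold RR
  refine Polynomial.natDegree_sum_le_of_forall_le _ _ fun i _ => ?_
  refine Polynomial.natDegree_sum_le_of_forall_le _ _ fun j _ => ?_
  refine (Polynomial.natDegree_mul_le).trans ?_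
  refine add_le_add ((Polynomial.natDegree_mul_le).trans (add_le_add (deg_kp _) ?_)) ?_
  · refine (Polynomial.natDegree_pow_le).trans ?_
    have h1 := deg_FF e β
    have h2 : (i : ℕ) ≤ d - 1 := by
      have := i.2
      omega
    gcongr
  · rw [Polynomial.natDegree_X_pow]
    have h2 : (j : ℕ) ≤ J - 1 := by
      have := j.2
      omega
    gcongr

theorem eval_FF {K : Type} [Field K] {R : ℕ} (e : Fin R → ℕ) (β : Fin R → K) (x : K) :
    (FF e β).eval x = ∏ s, (x + β s) ^ e s := by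
  unfold FF
  rw [Polynomial.eval_prod]
  refine Finset.prod_congr rfl fun s _ => ?_
  rw [Polynomial.eval_pow, Polynomial.eval_add, Polynomial.eval_X, Polynomial.eval_C]

/-- counting: many zeros of high order -/
theorem count {K : Type} [Field K] (S : Finset K) (M : ℕ) (P : K[X]) (hP : P ≠ 0)
    (h : ∀ x ∈ S, (Polynomial.X - Polynomial.C x) ^ M ∣ P) : S.card * M ≤ P.natDegree := by
  have hdvd : ∏ x ∈ S, (Polynomial.X - Polynomial.C x) ^ M ∣ P := by
    refine Finset.prod_dvd_of_coprime ?_ h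
    intro x _ y _ hxy
    exact (Polynomial.isCoprime_X_sub_C_of_isUnit_sub
      (sub_ne_zero.2 hxy).isUnit).pow
  have h1 := Polynomial.natDegree_le_of_dvd hdvd hP
  rw [Polynomial.natDegree_prod _ _ (fun x _ => pow_ne_zero _ (Polynomial.X_sub_C_ne_zero x))]
    at h1
  simp only [Polynomial.natDegree_pow, Polynomial.natDegree_X_sub_C, mul_one,
    Finset.sum_const, smul_eq_mul] at h1
  exact h1

end WP5_

theorem prove_WP5 (h1 : T_WP2) (h2 : T_WP3) (h3 : T_WP4) : T_WP5 := by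
  intro ℓ _ R d e b s₀ hd hdvd hb he hes hcop
  have hℓ : ℓ.Prime := Fact.out
  obtain ⟨E, hE⟩ : ∃ E, E = ∑ s, e s := ⟨_, rfl⟩
  refine ⟨2 * E + 2, (E + 2) + (d ^ 2 + 1) * (E + 3), ?_⟩
  intro μ hμ K _ _ _ _ hcard c hc
  obtain ⟨M, hMdef⟩ : ∃ M, M = ℓ ^ μ := ⟨_, rfl⟩
  have hMbig : (E + 2) + (d ^ 2 + 1) * (E + 3) < M := by
    rw [hMdef]
    exact lt_of_le_of_lt hμ (Nat.lt_pow_self hℓ.one_lt)
  have hM1 : 1 ≤ M := by omega
  have hdM : d ∣ M - 1 := by
    have h4 : ℓ - 1 ∣ ℓ ^ μ - 1 := by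
      have := Nat.sub_dvd_pow_sub_pow ℓ 1 μ
      rwa [one_pow] at this
    rw [hMdef]
    exact hdvd.trans h4
  obtain ⟨m0, hm0⟩ := hdM
  have hm : d * m0 + 1 = M := by omega
  have hq : ℓ ^ (2 * μ) = M ^ 2 := by
    rw [hMdef, ← pow_mul, mul_comm]
  have hP : d * (m0 * (M + 1)) + 1 = M ^ 2 := by
    rw [← hm]
    ring
  have hdiv : (ℓ ^ (2 * μ) - 1) / d = m0 * (M + 1) := by
    rw [hq, ← hP, Nat.add_sub_cancel]
    exact Nat.mul_div_cancel_left _ (by omega)
  have hPd : d ≤ m0 * (M + 1) := by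
    by_contra hcon
    rw [not_le] at hcon
    have h5 : d * (m0 * (M + 1)) < d * d := by
      apply Nat.mul_lt_mul_of_pos_left hcon
      omega
    have h6 : d ≤ d ^ 2 := by nlinarith
    have h7 : d ^ 2 < M := by nlinarith
    nlinarith
  obtain ⟨K0, hK0⟩ : ∃ K0, K0 + d = m0 * (M + 1) := ⟨m0 * (M + 1) - d, by omega⟩
  have hcond := WP5_.num M m0 d E K0 hd hm hK0 hMbig
  let β : Fin R → K := fun s => algebraMap (ZMod ℓ) K (b s)
  have hβ : Function.Injective β := (algebraMap (ZMod ℓ) K).injective.comp hb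
  have : CharP K ℓ := charP_of_injective_algebraMap (algebraMap (ZMod ℓ) K).injective ℓ
  have hc0 : c ≠ 0 := by
    rintro rfl
    rw [zero_pow (by omega)] at hc
    exact zero_ne_one hc
  obtain ⟨k, hk0, hkd⟩ := h1 K R d (m0 + E + 2) K0 M m0 e β c hm (by
    rw [← hE]
    exact hcond)
  have hcardK : Fintype.card K = (ℓ ^ μ) ^ 2 := by rw [hcard, hq, hMdef]
  have hRR : RR e β M m0 k ≠ 0 := by
    intro h0
    apply hk0
    refine h3 ℓ μ K R d (m0 + E + 2) K0 m0 e β s₀ k hcardK ?_ hd hβ hcop hes ?_ ?_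
    · rw [← hMdef]
      exact hm
    · rw [← hMdef, hK0]
    · rw [← hMdef]
      exact h0
  have hS : ∀ x ∈ (Finset.univ : Finset K).filter (fun x => ∏ s, (x + algebraMap (ZMod ℓ) K (b s)) ^
      (e s * ((ℓ ^ (2 * μ) - 1) / d)) = c),
      (Polynomial.X - Polynomial.C x) ^ M ∣ RR e β M m0 k := by
    intro x hx
    rw [Finset.mem_filter] at hx
    have hx2 := hx.2
    rw [hdiv] at hx2
    have hF : (FF e β).eval x ^ (m0 * (M + 1)) = c := by
      rw [WP5_.eval_FF, ← Finset.prod_pow, ← hx2]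
      refine Finset.prod_congr rfl fun s _ => ?_
      exact (pow_mul (x + algebraMap (ZMod ℓ) K (b s)) (e s) (m0 * (M + 1))).symm
    have hF0 : (FF e β).eval x ≠ 0 := by
      intro h0
      rw [h0, zero_pow (by omega)] at hF
      exact hc0 hF.symm
    have := h2 ℓ μ K R d (m0 + E + 2) K0 m0 e β c x k hcardK (by omega) (by
      rw [← hMdef]
      exact hm) hc0 hF0 (by
      rw [← hMdef]
      exact hF) (by
      rw [← hMdef]
      exact hkd)
    rwa [← hMdef] at this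
  have hcount := (WP5_.count _ M _ hRR hS).trans (WP5_.deg_RR e β M m0 k)
  rw [← hE] at hcount
  set s := ((Finset.univ : Finset K).filter (fun x => ∏ s, (x + algebraMap (ZMod ℓ) K (b s)) ^
      (e s * ((ℓ ^ (2 * μ) - 1) / d)) = c)).card with hs
  have hfin : s ≤ M * (m0 + 2 * E + 2) := by
    have h8 : s * M ≤ (M * (m0 + 2 * E + 2)) * M := by
      refine hcount.trans ?_
      have h9 : m0 + E + 2 - 1 = m0 + E + 1 := by omega
      rw [h9]
      have h10 : (d - 1) * (m0 * (M + 1)) ≤ M ^ 2 := by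
        calc (d - 1) * (m0 * (M + 1)) ≤ d * (m0 * (M + 1)) := by
              gcongr
              omega
          _ ≤ M ^ 2 := by omega
      have h11 : K0 ≤ M ^ 2 := by
        have h12 : m0 * (M + 1) ≤ d * (m0 * (M + 1)) := Nat.le_mul_of_pos_left _ (by omega)
        omega
      calc K0 + (d - 1) * (m0 * (M + 1)) * E + M ^ 2 * (m0 + E + 1)
          ≤ M ^ 2 + M ^ 2 * E + M ^ 2 * (m0 + E + 1) := by gcongr
        _ = M * (m0 + 2 * E + 2) * M := by ring
    exact Nat.le_of_mul_le_mul_right h8 hM1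
  have hdR : (0 : ℝ) < d := by
    have : 0 < d := by omega
    exact_mod_cast this
  have h13 : (s : ℝ) ≤ M * (m0 + 2 * E + 2) := by exact_mod_cast hfin
  have h14 : (M : ℝ) * m0 ≤ M ^ 2 / d := by
    rw [le_div_iff₀ hdR]
    have h15 : (d : ℝ) * m0 + 1 = M := by exact_mod_cast hm
    have h16 : (0 : ℝ) ≤ M := Nat.cast_nonneg _
    nlinarith
  have h17 : (ℓ : ℝ) ^ (2 * μ) = (M : ℝ) ^ 2 := by exact_mod_cast hq
  have h18 : (ℓ : ℝ) ^ μ = (M : ℝ) := by
    rw [hMdef]
    push_cast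
    rfl
  rw [h17, h18]
  calc (s : ℝ) ≤ M * (m0 + 2 * E + 2) := h13
    _ = M * m0 + (2 * E + 2) * M := by ring
    _ ≤ M ^ 2 / d + (2 * E + 2) * M := by gcongr

end Pool.Agent.TPK
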