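import Pool.Agent.TPK.Targets6

set_option autoImplicit false

/-! MP_f3f922_nt, TPK-WS1: values of a multiplicative character at norms. -/

namespace Pool.Agent.TPK

open Finset Filter Pool.Agent.Ell Pool.Agent.TPM Pool.Agent.TPX
open scoped BigOperators ComplexConjugate Polynomial

namespace WS1_

/-- In a finite field with `m * n + 1` elements every solution of `w ^ m = 1` is an `n`-th
power. -/
theorem exists_root {K : Type} [Field K] [Fintype K] (m n : ℕ)
    (hmn : m * n = Fintype.card K - 1) (hm : 0 < m) {w : K} (hw : w ^ m = 1) :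
    ∃ v : K, v ≠ 0 ∧ v ^ n = w := by
  classical
  have hw0 : w ≠ 0 := by
    rintro rfl
    rw [zero_pow hm.ne'] at hw
    exact zero_ne_one hw
  obtain ⟨g, hg⟩ := IsCyclic.exists_monoid_generator (α := Kˣ)
  obtain ⟨k, hk⟩ := hg (Units.mk0 w hw0)
  have hk' : g ^ k = Units.mk0 w hw0 := hk
  have hord : orderOf g = m * n := by
    rw [hmn, ← Fintype.card_units, ← Nat.card_eq_fintype_card]
    refine orderOf_eq_card_of_forall_mem_zpowers fun x => ?_
    obtain ⟨j, hj⟩ := hg x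
    exact ⟨(j : ℤ), by rw [← hj]; simp⟩
  have h1 : g ^ (k * m) = 1 := by
    rw [pow_mul, hk']
    ext
    rw [Units.val_pow_eq_pow_val, Units.val_mk0, Units.val_one, hw]
  have h2 : m * n ∣ k * m := by
    rw [← hord]
    exact orderOf_dvd_of_pow_eq_one h1
  have h3 : n ∣ k := by
    rw [mul_comm k m] at h2
    exact Nat.dvd_of_mul_dvd_mul_left hm h2
  obtain ⟨j, rfl⟩ := h3
  refine ⟨((g ^ j : Kˣ) : K), Units.ne_zero _, ?_⟩
  rw [← Units.val_pow_eq_pow_val, ← pow_mul, mul_comm j n, hk', Units.val_mk0]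

end WS1_

open WS1_ in
theorem prove_WS1 : T_WS1 := by
  intro ℓ _ χ hχ
  classical
  have hd0 : 0 < orderOf χ := χ.orderOf_pos
  have hd1 : orderOf χ ≠ 1 := by
    rw [Ne, orderOf_eq_one_iff]
    exact hχ
  refine ⟨orderOf χ, by omega, ?_, ?_⟩
  · have h := MulChar.orderOf_dvd_card_sub_one (χ := χ)
    rwa [ZMod.card] at h
  intro K _ _ _ _
  set d := orderOf χ with hd
  have hdq : d ∣ Fintype.card K - 1 := by
    have h1 : d ∣ ℓ - 1 := by
      have h := MulChar.orderOf_dvd_card_sub_one (χ := χ)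
      rwa [ZMod.card] at h
    have h2 : Fintype.card K = ℓ ^ Module.finrank (ZMod ℓ) K := by
      have h3 := Module.card_eq_pow_finrank (K := ZMod ℓ) (V := K)
      rwa [ZMod.card] at h3
    rw [h2]
    refine h1.trans ?_
    have h4 := Nat.sub_dvd_pow_sub_pow ℓ 1 (Module.finrank (ZMod ℓ) K)
    rwa [one_pow] at h4
  set e := (Fintype.card K - 1) / d with he
  have hde : d * e = Fintype.card K - 1 := Nat.mul_div_cancel' hdq
  have hq1 : 0 < Fintype.card K - 1 := by
    have := Fintype.one_lt_card (α := K)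
    omega
  have he0 : 0 < e := by
    rcases Nat.eq_zero_or_pos e with h | h
    · rw [h, mul_zero] at hde
      omega
    · exact h
  have hed : e * d = Fintype.card K - 1 := by rw [mul_comm]; exact hde
  have hex : ∀ c : K, c ^ d = 1 → ∃ y : K, y ≠ 0 ∧ y ^ e = c := fun c hc =>
    exists_root d e hde hd0 hc
  have hN0 : ∀ y : K, y ≠ 0 → Algebra.norm (ZMod ℓ) y ≠ 0 := fun y hy =>
    Algebra.norm_ne_zero_iff.2 hy
  have hwd : ∀ y y' : K, y ≠ 0 → y' ≠ 0 → y ^ e = y' ^ e →
      χ (Algebra.norm (ZMod ℓ) y) = χ (Algebra.norm (ZMod ℓ) y') := by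
    intro y y' hy hy' hyy
    have hw : (y / y') ^ e = 1 := by
      rw [div_pow, hyy, div_self (pow_ne_zero _ hy')]
    obtain ⟨v, hv0, hv⟩ := exists_root e d hed he0 hw
    have h1 : y = v ^ d * y' := by
      rw [hv, div_mul_cancel₀ _ hy']
    have h2 : χ (Algebra.norm (ZMod ℓ) (v ^ d)) = 1 := by
      rw [map_pow, map_pow, ← MulChar.pow_apply' χ hd0.ne', hd, pow_orderOf_eq_one,
        MulChar.one_apply (isUnit_iff_ne_zero.2 (hN0 v hv0))]
    rw [h1, map_mul, map_mul, h2, one_mul]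
  let ψ : K → ℂ := fun c =>
    if h : ∃ y : K, y ≠ 0 ∧ y ^ e = c then χ (Algebra.norm (ZMod ℓ) h.choose) else 0
  have hψ : ∀ y : K, y ≠ 0 → ψ (y ^ e) = χ (Algebra.norm (ZMod ℓ) y) := by
    intro y hy
    have h : ∃ y' : K, y' ≠ 0 ∧ y' ^ e = y ^ e := ⟨y, hy, rfl⟩
    have h1 : ψ (y ^ e) = χ (Algebra.norm (ZMod ℓ) h.choose) := dif_pos h
    rw [h1]
    exact hwd _ _ h.choose_spec.1 hy h.choose_spec.2
  have hmul : ∀ c c' : K, c ^ d = 1 → c' ^ d = 1 → ψ (c * c') = ψ c * ψ c' := by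
    intro c c' hc hc'
    obtain ⟨y, hy, rfl⟩ := hex c hc
    obtain ⟨y', hy', rfl⟩ := hex c' hc'
    rw [← mul_pow, hψ _ (mul_ne_zero hy hy'), hψ _ hy, hψ _ hy', map_mul, map_mul]
  refine ⟨ψ, ?_, ?_, ?_, hmul, fun y hy => (hψ y hy).symm⟩
  · intro c
    by_cases h : ∃ y : K, y ≠ 0 ∧ y ^ e = c
    · have h1 : ψ c = χ (Algebra.norm (ZMod ℓ) h.choose) := dif_pos h
      rw [h1]
      exact DirichletCharacter.norm_le_one χ _
    · have h1 : ψ c = 0 := dif_neg h
      rw [h1, norm_zero]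
      exact zero_le_one
  · -- the sum
    obtain ⟨t, ht⟩ : ∃ t : (ZMod ℓ)ˣ, χ t ≠ 1 := by
      by_contra hcon
      push Not at hcon
      apply hχ
      ext t
      rw [hcon t, MulChar.one_apply_coe]
    obtain ⟨y, hy⟩ := FiniteField.norm_surjective (ZMod ℓ) K (t : ZMod ℓ)
    have hy0 : y ≠ 0 := by
      rintro rfl
      rw [Algebra.norm_zero] at hy
      exact t.ne_zero hy.symm
    have hc0 : (y ^ e) ^ d = 1 := by
      rw [← pow_mul, hed]
      exact FiniteField.pow_card_sub_one_eq_one y hy0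
    have hc0' : y ^ e ≠ 0 := pow_ne_zero _ hy0
    have hψ0 : ψ (y ^ e) ≠ 1 := by
      rw [hψ y hy0, hy]
      exact ht
    have hsum : ∑ c ∈ (Finset.univ : Finset K).filter (fun c => c ^ d = 1), ψ c =
        ψ (y ^ e) * ∑ c ∈ (Finset.univ : Finset K).filter (fun c => c ^ d = 1), ψ c := by
      rw [Finset.mul_sum]
      symm
      refine Finset.sum_bij (fun c _ => y ^ e * c) ?_ ?_ ?_ ?_
      · intro c hc
        have hc1 : c ^ d = 1 := (Finset.mem_filter.1 hc).2
        refine Finset.mem_filter.2 ⟨Finset.mem_univ _, ?_⟩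
        rw [mul_pow, hc0, hc1, mul_one]
      · intro c _ c' _ h
        exact mul_left_cancel₀ hc0' h
      · intro c hc
        have hc1 : c ^ d = 1 := (Finset.mem_filter.1 hc).2
        refine ⟨(y ^ e)⁻¹ * c, Finset.mem_filter.2 ⟨Finset.mem_univ _, ?_⟩, ?_⟩
        · rw [mul_pow, inv_pow, hc0, hc1, inv_one, mul_one]
        · rw [← mul_assoc, mul_inv_cancel₀ hc0', one_mul]
      · intro c hc
        have hc1 : c ^ d = 1 := (Finset.mem_filter.1 hc).2
        rw [hmul _ _ hc0 hc1]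
    have h2 : (ψ (y ^ e) - 1) *
        ∑ c ∈ (Finset.univ : Finset K).filter (fun c => c ^ d = 1), ψ c = 0 := by
      linear_combination -hsum
    rcases mul_eq_zero.1 h2 with h3 | h3
    · exact absurd (sub_eq_zero.1 h3) hψ0
    · exact h3
  · have h1 := hψ 1 one_ne_zero
    rw [one_pow, map_one, map_one] at h1
    exact h1

end Pool.Agent.TPK
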