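import Pool.Agent.TPK.Targets6

set_option autoImplicit false

/-! MP_f3f922_nt: the character sum over large extensions. -/

namespace Pool.Agent.TPK

open Finset Filter Pool.Agent.Ell Pool.Agent.TPM Pool.Agent.TPX
open scoped BigOperators ComplexConjugate Polynomial

namespace WS3aux

/-- the exponents -/
def ex (d : ℕ) {R : ℕ} (ε : Fin R → Bool) (s : Fin R) : ℕ := if ε s then 1 else d - 1

theorem ex_pos {d R : ℕ} (hd : 2 ≤ d) (ε : Fin R → Bool) (s : Fin R) : 1 ≤ ex d ε s := by
  unfold ex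
  split_ifs <;> omega

theorem ex_le {d R : ℕ} (hd : 2 ≤ d) (ε : Fin R → Bool) (s : Fin R) : ex d ε s ≤ d := by
  unfold ex
  split_ifs <;> omega

theorem ex_coprime {d R : ℕ} (hd : 2 ≤ d) (ε : Fin R → Bool) (s : Fin R) :
    Nat.Coprime (ex d ε s) d := by
  unfold ex
  split_ifs
  · exact Nat.coprime_one_left d
  · have h : Nat.Coprime (d - 1) ((d - 1) + 1) := by simp
    rwa [Nat.sub_add_cancel (by omega)] at h

section
variable {K : Type} [Field K] {d : ℕ} {ψ : K → ℂ} (h1 : ψ 1 = 1)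
  (hm : ∀ c c' : K, c ^ d = 1 → c' ^ d = 1 → ψ (c * c') = ψ c * ψ c')
include h1 hm

theorem psi_pow (c : K) (hc : c ^ d = 1) (n : ℕ) : ψ (c ^ n) = ψ c ^ n := by
  induction n with
  | zero => simp [h1]
  | succ n ih =>
    rw [pow_succ, hm _ _ (by rw [← pow_mul, mul_comm, pow_mul, hc, one_pow]) hc, ih, pow_succ]

theorem psi_inv (hd : 2 ≤ d) (c : K) (hc : c ^ d = 1) : (ψ c)⁻¹ = ψ (c ^ (d - 1)) := by
  have e : ψ c * ψ (c ^ (d - 1)) = 1 := by
    rw [psi_pow h1 hm c hc, ← pow_succ', Nat.sub_add_cancel (by omega),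
      ← psi_pow h1 hm c hc, hc, h1]
  exact inv_eq_of_mul_eq_one_right e

theorem psi_prod {ι : Type} (s : Finset ι) (f : ι → K) (hf : ∀ i ∈ s, f i ^ d = 1) :
    ψ (∏ i ∈ s, f i) = ∏ i ∈ s, ψ (f i) := by
  classical
  induction s using Finset.induction_on with
  | empty => simp [h1]
  | insert a s ha ih =>
    rw [Finset.prod_insert ha, Finset.prod_insert ha, hm _ _ (hf a (mem_insert_self a s)) ?_,
      ih fun i hi => hf i (mem_insert_of_mem hi)]
    rw [← Finset.prod_pow]
    exact Finset.prod_eq_one fun i hi => hf i (mem_insert_of_mem hi)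

end

/-- the bound from upper bounds for the numbers `N c` -/
theorem sum_bound {K : Type} (S : Finset K) (N : K → ℝ) (ψ : K → ℂ) (q d U R : ℝ)
    (hψ : ∀ c ∈ S, ‖ψ c‖ ≤ 1) (hs : ∑ c ∈ S, ψ c = 0) (hU : 0 ≤ U) (hd : 0 < d) (hq : 0 ≤ q)
    (hN : ∀ c ∈ S, N c ≤ q / d + U) (hS : (S.card : ℝ) ≤ d) (ht : q - R ≤ ∑ c ∈ S, N c) :
    ‖∑ c ∈ S, (N c : ℂ) * ψ c‖ ≤ 2 * d * U + R := by
  have e : ∑ c ∈ S, (N c : ℂ) * ψ c = ∑ c ∈ S, ((N c - q / d : ℝ) : ℂ) * ψ c := by
    have h2 : ∑ c ∈ S, ((N c - q / d : ℝ) : ℂ) * ψ c =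
        ∑ c ∈ S, (N c : ℂ) * ψ c - ((q / d : ℝ) : ℂ) * ∑ c ∈ S, ψ c := by
      rw [Finset.mul_sum, ← Finset.sum_sub_distrib]
      refine Finset.sum_congr rfl fun c _ => ?_
      push_cast
      ring
    rw [h2, hs, mul_zero, sub_zero]
  rw [e]
  have h3 : ∀ c ∈ S, ‖((N c - q / d : ℝ) : ℂ) * ψ c‖ ≤ 2 * U + q / d - N c := by
    intro c hc
    rw [norm_mul, Complex.norm_real, Real.norm_eq_abs]
    have h4 : |N c - q / d| * ‖ψ c‖ ≤ |N c - q / d| * 1 :=
      mul_le_mul_of_nonneg_left (hψ c hc) (abs_nonneg _)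
    have h5 : |N c - q / d| ≤ 2 * U + q / d - N c := by
      have := hN c hc
      rw [abs_le]
      constructor <;> linarith
    linarith
  refine (norm_sum_le_of_le S h3).trans ?_
  have h6 : ∑ c ∈ S, (2 * U + q / d - N c) = S.card * (2 * U + q / d) - ∑ c ∈ S, N c := by
    rw [Finset.sum_sub_distrib, Finset.sum_const, nsmul_eq_mul]
  rw [h6]
  have h7 : (S.card : ℝ) * (2 * U + q / d) ≤ d * (2 * U + q / d) := by
    refine mul_le_mul_of_nonneg_right hS ?_
    positivity
  have h8 : d * (2 * U + q / d) = 2 * d * U + q := by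
    field_simp
  linarith

end WS3aux

open WS3aux in
/-- TPK-WS3 -/
theorem prove_WS3 (h1 : T_WS1) (h2 : T_WP5) : T_WS3 := by
  intro ℓ R _ χ ε b hχ hR hb
  obtain ⟨d, hd2, hdl, hψ⟩ := h1 ℓ χ hχ
  have hl : 2 ≤ ℓ := (Fact.out : ℓ.Prime).two_le
  obtain ⟨C, μ₀, hC⟩ := h2 ℓ R d (ex d ε) b ⟨0, hR⟩ hd2 hdl hb (ex_pos hd2 ε)
    (ex_le hd2 ε _) (ex_coprime hd2 ε _)
  refine ⟨2 * d * |C| + R, μ₀, fun μ hμ K _ _ _ hK => ?_⟩
  let _ : DecidableEq K := Classical.decEq K
  obtain ⟨ψ, hψn, hψs, hψ1, hψm, hψv⟩ := hψ K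
  have hC' := hC μ hμ K hK
  set q : ℕ := ℓ ^ (2 * μ) with hq
  set m : ℕ := (q - 1) / d with hm
  have hq1 : 1 < q := by
    rw [← hK]
    exact Fintype.one_lt_card
  have hdq : d ∣ q - 1 := hdl.trans (by
    rw [hq]
    simpa using Nat.sub_dvd_pow_sub_pow ℓ 1 (2 * μ))
  have hmd : m * d = q - 1 := Nat.div_mul_cancel hdq
  have hm0 : m ≠ 0 := by
    intro h
    rw [h, zero_mul] at hmd
    omega
  -- the function
  set G : K → K := fun x => ∏ s, (x + algebraMap (ZMod ℓ) K (b s)) ^ (ex d ε s * m) with hG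
  have hpow : ∀ y : K, y ≠ 0 → ∀ n, (y ^ (n * m)) ^ d = 1 := by
    intro y hy n
    rw [← pow_mul, mul_assoc, hmd, mul_comm, pow_mul]
    have := FiniteField.pow_card_sub_one_eq_one y hy
    rw [hK] at this
    rw [this, one_pow]
  -- one factor
  have hfac : ∀ (s : Fin R) (y : K), y ≠ 0 →
      (if ε s then χ else χ⁻¹) (Algebra.norm (ZMod ℓ) y) = ψ (y ^ (ex d ε s * m)) := by
    intro s y hy
    have e1 : χ (Algebra.norm (ZMod ℓ) y) = ψ (y ^ m) := by
      have := hψv y hy
      rwa [hK] at this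
    unfold ex
    by_cases h : ε s = true
    · rw [if_pos h, if_pos h, one_mul, e1]
    · rw [if_neg h, if_neg h, MulChar.inv_apply_eq_inv', e1, psi_inv hψ1 hψm hd2, ← pow_mul,
        mul_comm]
      have := hpow y hy 1
      rwa [one_mul] at this
  have hterm : ∀ x : K, (∏ s, (if ε s then χ else χ⁻¹)
      (Algebra.norm (ZMod ℓ) (x + algebraMap (ZMod ℓ) K (b s)))) =
      ∑ c ∈ (Finset.univ : Finset K).filter (fun c => c ^ d = 1), if G x = c then ψ c else 0 := by
    intro x
    by_cases hx : ∃ s, x + algebraMap (ZMod ℓ) K (b s) = 0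
    · obtain ⟨s, hs⟩ := hx
      have e1 : G x = 0 := by
        rw [hG]
        refine Finset.prod_eq_zero (mem_univ s) ?_
        rw [hs, zero_pow]
        have := ex_pos hd2 ε s
        exact Nat.mul_ne_zero (by omega) hm0
      rw [Finset.prod_eq_zero (mem_univ s), Finset.sum_eq_zero]
      · intro c hc
        rw [Finset.mem_filter] at hc
        rw [if_neg]
        rintro rfl
        rw [e1, zero_pow (by omega)] at hc
        exact zero_ne_one hc.2
      · rw [hs]
        have h0 : Algebra.norm (ZMod ℓ) (0 : K) = 0 := Algebra.norm_zero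
        rw [h0]
        split_ifs
        · exact MulChar.map_nonunit _ not_isUnit_zero
        · exact MulChar.map_nonunit _ not_isUnit_zero
    · push Not at hx
      have e2 : G x ^ d = 1 := by
        rw [hG]
        simp only
        rw [← Finset.prod_pow]
        exact Finset.prod_eq_one fun s _ => hpow _ (hx s) _
      have e20 : G x ∈ (Finset.univ : Finset K).filter (fun c => c ^ d = 1) :=
        Finset.mem_filter.2 ⟨mem_univ _, e2⟩
      rw [Finset.sum_ite_eq, if_pos e20, hG]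
      simp only
      rw [psi_prod hψ1 hψm _ _ fun s _ => hpow _ (hx s) _]
      exact Finset.prod_congr rfl fun s _ => hfac s _ (hx s)
  have hNS : NS (fun s => if ε s then χ else χ⁻¹) b K =
      ∑ c ∈ (Finset.univ : Finset K).filter (fun c => c ^ d = 1),
        ((((Finset.univ : Finset K).filter fun x => G x = c).card : ℝ) : ℂ) * ψ c := by
    unfold NS
    rw [Finset.sum_congr rfl fun x _ => hterm x, Finset.sum_comm]
    refine Finset.sum_congr rfl fun c _ => ?_
    rw [← Finset.sum_filter, Finset.sum_const, nsmul_eq_mul]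
    push_cast
    rfl
  rw [hNS]
  have hl1 : (1 : ℝ) ≤ (ℓ : ℝ) ^ μ := one_le_pow₀ (by exact_mod_cast (by omega : 1 ≤ ℓ))
  refine (sum_bound _ _ _ (q : ℝ) d (|C| * (ℓ : ℝ) ^ μ) R (fun c _ => hψn c) hψs
    (by positivity) (by exact_mod_cast (by omega : 0 < d)) (Nat.cast_nonneg _) ?_ ?_ ?_).trans ?_
  · intro c hc
    have e3 := hC' c (Finset.mem_filter.1 hc).2
    have e4 : C * (ℓ : ℝ) ^ μ ≤ |C| * (ℓ : ℝ) ^ μ :=
      mul_le_mul_of_nonneg_right (le_abs_self C) (by positivity)
    have e5 : ((q : ℕ) : ℝ) = (ℓ : ℝ) ^ (2 * μ) := by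
      rw [hq]
      push_cast
      rfl
    rw [e5]
    linarith
  · have e6 : (Finset.univ : Finset K).filter (fun c => c ^ d = 1) ⊆
        (Polynomial.nthRoots d (1 : K)).toFinset := by
      intro c hc
      rw [Multiset.mem_toFinset, Polynomial.mem_nthRoots (by omega)]
      exact (Finset.mem_filter.1 hc).2
    have e7 := (Finset.card_le_card e6).trans ((Multiset.toFinset_card_le _).trans
      (Polynomial.card_nthRoots d (1 : K)))
    exact_mod_cast e7
  · -- the number of good points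
    have e8 : (Finset.univ : Finset K) ⊆
        (((Finset.univ : Finset K).filter (fun c => c ^ d = 1)).biUnion
          fun c => (Finset.univ : Finset K).filter fun x => G x = c) ∪
        (Finset.univ : Finset (Fin R)).image fun s => -algebraMap (ZMod ℓ) K (b s) := by
      intro x _
      rw [Finset.mem_union]
      by_cases hx : ∃ s, x + algebraMap (ZMod ℓ) K (b s) = 0
      · right
        obtain ⟨s, hs⟩ := hx
        exact Finset.mem_image.2 ⟨s, mem_univ _, (eq_neg_of_add_eq_zero_left hs).symm⟩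
      · left
        push Not at hx
        rw [Finset.mem_biUnion]
        refine ⟨G x, Finset.mem_filter.2 ⟨mem_univ _, ?_⟩, Finset.mem_filter.2
          ⟨mem_univ _, rfl⟩⟩
        rw [hG]
        simp only
        rw [← Finset.prod_pow]
        exact Finset.prod_eq_one fun s _ => hpow _ (hx s) _
    have e9 := (Finset.card_le_card e8).trans (Finset.card_union_le _ _)
    have e10 := Finset.card_biUnion_le (s := (Finset.univ : Finset K).filter (fun c => c ^ d = 1))
      (t := fun c => (Finset.univ : Finset K).filter fun x => G x = c)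
    have e11 : ((Finset.univ : Finset (Fin R)).image fun s =>
        -algebraMap (ZMod ℓ) K (b s)).card ≤ R := by
      refine Finset.card_image_le.trans ?_
      rw [Finset.card_univ, Fintype.card_fin]
    rw [Finset.card_univ, hK] at e9
    have e12 : q ≤ ∑ c ∈ (Finset.univ : Finset K).filter (fun c => c ^ d = 1),
        ((Finset.univ : Finset K).filter fun x => G x = c).card + R := by omega
    have e13 : (q : ℝ) ≤ ∑ c ∈ (Finset.univ : Finset K).filter (fun c => c ^ d = 1),
        (((Finset.univ : Finset K).filter fun x => G x = c).card : ℝ) + R := by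
      exact_mod_cast e12
    linarith
  · have e14 : (R : ℝ) ≤ R * (ℓ : ℝ) ^ μ := le_mul_of_one_le_right (Nat.cast_nonneg _) hl1
    nlinarith

end Pool.Agent.TPK
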