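import Pool.Agent.TPK.Targets6

set_option autoImplicit false

/-! TPK-WW: assembly of Weil's bound. -/

namespace Pool.Agent.TPK

open Finset
open scoped BigOperators Polynomial

namespace WW_

theorem LA_zero {ℓ R : ℕ} [Fact ℓ.Prime] (χ : Fin R → DirichletCharacter ℂ ℓ)
    (b : Fin R → ZMod ℓ) : LA χ b 0 = 1 := by
  have : ∀ c : Fin 0 → ZMod ℓ, LG χ b (mono 0 c) = 1 := by
    intro c
    simp [LG, mono]
  unfold LA
  rw [Finset.sum_congr rfl fun c _ => this c]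
  simp

theorem NS_self {ℓ R : ℕ} [Fact ℓ.Prime] (χ : Fin R → DirichletCharacter ℂ ℓ)
    (b : Fin R → ZMod ℓ) : NS χ b (ZMod ℓ) = ∑ n : ZMod ℓ, ∏ s, χ s (n + b s) := by
  unfold NS
  refine Finset.sum_congr rfl fun n _ => Finset.prod_congr rfl fun s _ => ?_
  rw [Algebra.norm_self]
  rfl

end WW_

open WW_ in
theorem prove_WW (h1 : T_WL1) (h2 : T_WL2) (h3 : T_WL3) (h4 : T_WL4) (h5 : T_WS3) : T_WW := by
  intro ℓ R _ χ ε b hχ hR hb
  have hℓ : 0 < ℓ := (Fact.out : ℓ.Prime).pos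
  have hs : (0 : ℝ) < Real.sqrt ℓ := Real.sqrt_pos.2 (by exact_mod_cast hℓ)
  have hex : ∃ s, (if ε s then χ else χ⁻¹) ≠ 1 := by
    refine ⟨⟨0, hR⟩, ?_⟩
    split_ifs
    · exact hχ
    · simpa using hχ
  obtain ⟨C, μ₀, hC⟩ := h5 ℓ R χ ε b hχ hR hb
  have key := h4 R (LA (fun s => if ε s then χ else χ⁻¹) b)
    (LP (fun s => if ε s then χ else χ⁻¹) b) (Real.sqrt ℓ) (LA_zero _ _)
    (fun D hD => h1 ℓ R _ b D hb hex hD) (fun D => h2 ℓ R _ b D) hs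
    ⟨C, max μ₀ 1, fun μ hμ => ?_⟩
  · rw [← h3 ℓ R _ b 1 (ZMod ℓ) le_rfl (by rw [ZMod.card, pow_one]), NS_self] at key
    exact key
  · have h0 : 2 * μ ≠ 0 := by
      have := (le_max_right μ₀ 1).trans hμ
      omega
    have : Fintype (GaloisField ℓ (2 * μ)) := Fintype.ofFinite _
    have hcard : Fintype.card (GaloisField ℓ (2 * μ)) = ℓ ^ (2 * μ) := by
      rw [← Nat.card_eq_fintype_card, GaloisField.card ℓ (2 * μ) h0]
    have h6 := hC μ ((le_max_left _ _).trans hμ) (GaloisField ℓ (2 * μ)) hcard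
    rw [h3 ℓ R _ b (2 * μ) (GaloisField ℓ (2 * μ)) (by omega) hcard] at h6
    rw [pow_mul, Real.sq_sqrt (Nat.cast_nonneg ℓ)]
    exact h6

end Pool.Agent.TPK
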