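import Pool.Agent.TPK.KFC
import Pool.Agent.TPK.KRD
import Pool.Agent.TPK.VLI
import Pool.Agent.TPK.VCO
import Pool.Agent.TPK.VPC
import Pool.Agent.TPK.VPV
import Pool.Agent.TPK.VSH
import Pool.Agent.TPK.VA
import Pool.Agent.TPK.VB
import Pool.Agent.TPK.WL1
import Pool.Agent.TPK.WL2
import Pool.Agent.TPK.WL3
import Pool.Agent.TPK.WL4
import Pool.Agent.TPK.WS1
import Pool.Agent.TPK.WS3
import Pool.Agent.TPK.WP1
import Pool.Agent.TPK.WP2
import Pool.Agent.TPK.WP3
import Pool.Agent.TPK.WP4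
import Pool.Agent.TPK.WP5
import Pool.Agent.TPK.WG
import Pool.Agent.TPK.WH
import Pool.Agent.TPK.WI
import Pool.Agent.TPK.WJ
import Pool.Agent.TPK.WW
import Pool.Agent.TPK.KCJ
import Pool.Agent.TPK.KM6
import Pool.Agent.TPK.KBL6
import Pool.Agent.TPK.KCR6
import Pool.Agent.TPK.KLC6
import Pool.Agent.TPK.KDL
import Pool.Agent.TPK.KFI6
import Pool.Agent.TPK.OA2
import Pool.Agent.TPX.XZW
import Pool.Agent.TPX.EQW
import Pool.Agent.TPX.MSW
import Pool.Agent.TPX.STW
import Pool.Agent.TPM.FAC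
import Pool.Agent.TPM.XZ
import Pool.Agent.Ell.All
import Pool.Agent.Ell.Core
import Pool.Agent.Ell.Final

set_option autoImplicit false

/-! One function arbitrary, the others structured with arbitrary conductors: assembly. -/

namespace Pool.Agent.TPK

open Pool.Agent.Ell Pool.Agent.TPM Pool.Agent.TPX

/-- Weil's bound for sums `∑ χ(n + b_1) conj χ(n + b_2) ...` -/
theorem all_WW : T_WW := by
  have h5 : T_WP5 := prove_WP5 (prove_WP2 prove_WP1) prove_WP3 prove_WP4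
  exact prove_WW prove_WL1 prove_WL2 prove_WL3 prove_WL4 (prove_WS3 prove_WS1 h5)

theorem all_KCJ : T_KCJ := prove_KCJ (prove_WJ prove_WG (prove_WH all_WW prove_WI))

theorem all_KM6 : T_KM6 := by
  have hco : T_VCO := prove_VCO prove_VLI
  exact prove_KM6 (prove_KFC prove_FAC) prove_KRD
    (prove_VA hco prove_VPC prove_VPV prove_VSH) (prove_VB hco prove_VPC prove_VPV prove_VSH)
    all_KCJ prove_XZW

theorem all_KBL6 : T_KBL6 :=
  prove_KBL6 (prove_MSW (p_FL p_MERT) p_CRT) (prove_EQW p_CORE p_PHI) all_KM6 prove_XZ prove_XZW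
    (p_OSC p_CORE p_PHI)

theorem all_KLC6 : T_KLC6 :=
  prove_KLC6 p_KAT (prove_KCR6 all_KBL6 prove_XZ prove_XZW p_VDM)
    (prove_STW p_MERT prove_XZ prove_XZW) prove_XZ prove_XZW

theorem all_KFI6 : T_KFI6 := prove_KFI6 all_KLC6 prove_KDL

theorem all_OA2 : T_OA2 :=
  prove_OA2 all_KFI6 (Pool.Agent.Ell.Final.final (Pool.Agent.Ell.main_of_core Pool.Agent.Ell.p_CORE))

end Pool.Agent.TPK

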