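import Pool.Agent.TPK.Targets7
import Pool.Agent.TPY.YBL

set_option autoImplicit false

/-! The count of the separated tuples of characters which correlate with a fixed function on one
block, `k` functions structured on the large primes. -/

namespace Pool.Agent.TPK.ZBL_

open Finset Filter Pool.Agent.Ell Pool.Agent.TPM Pool.Agent.TPX
open scoped BigOperators ComplexConjugate

/-- the cross term -/
noncomputable def wg {k : ℕ} (a : Fin k → ℤ) (p p' : ℕ) (g : Fin k → ℕ → ℂ) (m : ℕ) : ℂ :=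
  Wk a g (p * m) * conj (Wk a g (p' * m))

theorem norm_Wk {k : ℕ} (a : Fin k → ℤ) (g : Fin k → ℕ → ℂ) (hg : ∀ j n, ‖g j n‖ ≤ 1) (n : ℕ) :
    ‖Wk a g n‖ ≤ 1 := by
  unfold Wk
  rw [norm_prod]
  exact Finset.prod_le_one (fun j _ => norm_nonneg _) (fun j _ => hg j _)

theorem norm_wg {k : ℕ} (a : Fin k → ℤ) (p p' : ℕ) (g : Fin k → ℕ → ℂ)
    (hg : ∀ j n, ‖g j n‖ ≤ 1) (m : ℕ) : ‖wg a p p' g m‖ ≤ 1 := by
  unfold wg
  rw [norm_mul, RCLike.norm_conj]
  exact mul_le_one₀ (norm_Wk a g hg _) (norm_nonneg _) (norm_Wk a g hg _)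

theorem cross {k : ℕ} (a : Fin k → ℤ) (p p' : ℕ) (g g' : Fin k → ℕ → ℂ) (m : ℕ) :
    wg a p p' g m * conj (wg a p p' g' m) =
      (∏ j, (fun n => g j n * conj (g' j n)) (sh (a j) (p * m))) *
      conj (∏ j, (fun n => g j n * conj (g' j n)) (sh (a j) (p' * m))) := by
  unfold wg Wk
  simp only [map_mul, map_prod, Complex.conj_conj, Finset.prod_mul_distrib]
  ring

/-- the counting argument -/
theorem count {ι : Type} (S : Finset ι) (w : ι → ℕ → ℂ) (β : ℕ → ℂ) (I : Finset ℕ)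
    (δ N : ℝ) (K1 : ℕ) (hdual : EllTw.T_DUAL) (hδ : 0 < δ) (hN : 0 < N) (hI : (I.card : ℝ) ≤ N)
    (hβ : ∀ m, ‖β m‖ ≤ 1) (hw : ∀ e m, ‖w e m‖ ≤ 1)
    (hS : ∀ e ∈ S, δ * N < ‖∑ m ∈ I, β m * w e m‖)
    (hK : ∀ e ∈ S, ∀ T : Finset ι, T ⊆ S →
      (∀ e' ∈ T, δ ^ 2 / 2 * N < ‖∑ m ∈ I, w e m * conj (w e' m)‖) → T.card ≤ K1) :
    (S.card : ℝ) ≤ 2 * K1 / δ ^ 2 := by
  classical
  rcases Nat.eq_zero_or_pos S.card with h0 | h0
  · rw [h0]
    simp only [Nat.cast_zero]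
    positivity
  have hD := hdual ι S I w β (fun m _ => hβ m)
  have hlow : (S.card : ℝ) * (δ * N) ≤ ∑ e ∈ S, ‖∑ m ∈ I, β m * w e m‖ := by
    have := Finset.card_nsmul_le_sum S (fun e => ‖∑ m ∈ I, β m * w e m‖) (δ * N)
      (fun e he => (hS e he).le)
    rwa [nsmul_eq_mul] at this
  have hcr : ∀ e e', ‖∑ m ∈ I, w e m * conj (w e' m)‖ ≤ N := by
    intro e e'
    refine (norm_sum_le _ _).trans ?_
    refine le_trans (Finset.sum_le_sum (g := fun _ => (1 : ℝ)) (fun m _ => ?_)) ?_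
    · rw [norm_mul, RCLike.norm_conj]
      exact mul_le_one₀ (hw _ _) (norm_nonneg _) (hw _ _)
    · simpa using hI
  have hrow : ∀ e ∈ S, ∑ e' ∈ S, ‖∑ m ∈ I, w e m * conj (w e' m)‖ ≤
      (K1 + S.card * (δ ^ 2 / 2)) * N := by
    intro e he
    set T := S.filter (fun e' => δ ^ 2 / 2 * N < ‖∑ m ∈ I, w e m * conj (w e' m)‖) with hT
    have hTK : T.card ≤ K1 :=
      hK e he T (Finset.filter_subset _ _) (fun e' he' => (Finset.mem_filter.mp he').2)
    rw [← Finset.sum_filter_add_sum_filter_not S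
      (fun e' => δ ^ 2 / 2 * N < ‖∑ m ∈ I, w e m * conj (w e' m)‖), ← hT]
    have h1 : ∑ e' ∈ T, ‖∑ m ∈ I, w e m * conj (w e' m)‖ ≤ K1 * N := by
      refine (Finset.sum_le_card_nsmul T _ N (fun e' _ => hcr e e')).trans ?_
      rw [nsmul_eq_mul]
      exact mul_le_mul_of_nonneg_right (by exact_mod_cast hTK) hN.le
    have h2 : ∑ e' ∈ S.filter (fun e' => ¬ δ ^ 2 / 2 * N < ‖∑ m ∈ I, w e m * conj (w e' m)‖),
        ‖∑ m ∈ I, w e m * conj (w e' m)‖ ≤ S.card * (δ ^ 2 / 2 * N) := by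
      refine (Finset.sum_le_card_nsmul _ _ (δ ^ 2 / 2 * N) (fun e' he' => ?_)).trans ?_
      · exact not_lt.mp (Finset.mem_filter.mp he').2
      · rw [nsmul_eq_mul]
        refine mul_le_mul_of_nonneg_right ?_ (by positivity)
        exact_mod_cast Finset.card_filter_le _ _
    calc _ ≤ K1 * N + S.card * (δ ^ 2 / 2 * N) := add_le_add h1 h2
      _ = _ := by ring
  have hup : ∑ e ∈ S, ∑ e' ∈ S, ‖∑ m ∈ I, w e m * conj (w e' m)‖ ≤
      S.card * ((K1 + S.card * (δ ^ 2 / 2)) * N) := by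
    refine (Finset.sum_le_card_nsmul S _ _ hrow).trans ?_
    rw [nsmul_eq_mul]
  have hs : (0 : ℝ) < S.card := by exact_mod_cast h0
  have h3 : ((S.card : ℝ) * (δ * N)) ^ 2 ≤ N * (S.card * ((K1 + S.card * (δ ^ 2 / 2)) * N)) := by
    refine (pow_le_pow_left₀ (by positivity) hlow 2).trans (hD.trans ?_)
    exact mul_le_mul hI hup (by positivity) hN.le
  have h4 : (S.card : ℝ) * δ ^ 2 ≤ K1 + S.card * (δ ^ 2 / 2) := by
    have h5 : ((S.card : ℝ) * N ^ 2) * ((S.card : ℝ) * δ ^ 2) ≤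
        ((S.card : ℝ) * N ^ 2) * (K1 + S.card * (δ ^ 2 / 2)) := by
      calc _ = ((S.card : ℝ) * (δ * N)) ^ 2 := by ring
        _ ≤ _ := h3
        _ = _ := by ring
    exact le_of_mul_le_mul_left h5 (by positivity)
  rw [le_div_iff₀ (by positivity)]
  linarith

theorem main (h2 : EllTw.T_INJ) (h3 : EllTw.T_DUAL) (hE : T_ZEX) (hD : T_ZDC) : T_ZBL := by
  classical
  intro k a p p' C δ κ0 θ hk ha ha0 hp hp' hpp hpa hpa' hC hδ hκ hθ
  set v : ℝ := min θ (1 / 2) with hv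
  have hv0 : 0 < v := lt_min hθ (by norm_num)
  have hv1 : v ≤ 1 / 2 := min_le_right _ _
  have hvθ : v ≤ θ := min_le_left _ _
  set d : ℝ := δ ^ 2 / 2 with hd
  have hd0 : 0 < d := by positivity
  obtain ⟨B0, A1, R, X1, hB0, hA1, HE⟩ := hE k a p p' (C + 1) (d / 2) κ0 v hk ha ha0 hp hp' hpp
    hpa hpa' (by positivity) (by positivity) hκ hv0 (by linarith)
  obtain ⟨A, X2, hA, HD⟩ := hD A1 hA1
  haveI := EllTw.BLK_.fin_Cs R
  haveI : Fintype (EllTw.BLK_.Cs R) := Fintype.ofFinite _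
  set K1 : ℕ := Fintype.card (Fin k → EllTw.BLK_.Cs R) with hK1
  refine ⟨⌊2 * (K1 : ℝ) / δ ^ 2⌋₊, max X1 (max X2 2), 2 * B0, A, by positivity,
    hA1.trans hA, ?_⟩
  intro x N hx hκN hNx y1 y2 hy1 hy12 hy2 hpy hpy' β S g hβ hS hlcm hsep
  have m1 : X1 ≤ x := le_trans (le_max_left _ _) hx
  have m2 : X2 ≤ x := le_trans (le_trans (le_max_left _ _) (le_max_right _ _)) hx
  have m0 : 2 ≤ x := le_trans (le_trans (le_max_right _ _) (le_max_right _ _)) hx
  have hxr : (2 : ℝ) ≤ x := by exact_mod_cast m0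
  have hx0 : (0 : ℝ) < x := by linarith
  have hN0 : (0 : ℝ) < N := lt_of_lt_of_le (by positivity) hκN
  have hN1 : 1 ≤ N := by exact_mod_cast hN0
  have hNxr : (N : ℝ) ≤ x := by exact_mod_cast hNx
  have htd : ∀ e ∈ S, ∀ e' ∈ S, ∀ j, |e.t j - e'.t j| ≤ (x : ℝ) ^ (C + 1) := by
    intro e he e' he' j
    have g1 := ((hS e he).1 j).2.1
    have g2 := ((hS e' he').1 j).2.1
    have g3 : |e.t j - e'.t j| ≤ |e.t j| + |e'.t j| := abs_sub _ _
    rw [Real.rpow_add hx0, Real.rpow_one]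
    have g4 : (0 : ℝ) < (x : ℝ) ^ C := by positivity
    nlinarith
  -- the common modulus
  have hM1 : ∀ e ∈ S, ∀ e' ∈ S,
      1 ≤ Nat.lcm (Finset.univ.lcm e.q) (Finset.univ.lcm e'.q) := by
    intro e he e' he'
    refine Nat.lcm_pos ?_ ?_
    · refine Nat.pos_of_ne_zero (fun h => ?_)
      rw [Finset.lcm_eq_zero_iff] at h
      obtain ⟨j, -, hj⟩ := h
      have := ((hS e he).1 j).1
      omega
    · refine Nat.pos_of_ne_zero (fun h => ?_)
      rw [Finset.lcm_eq_zero_iff] at h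
      obtain ⟨j, -, hj⟩ := h
      have := ((hS e' he').1 j).1
      omega
  have hdv : ∀ e e' : PK k, ∀ j, Nat.lcm (e.q j) (e'.q j) ∣
      Nat.lcm (Finset.univ.lcm e.q) (Finset.univ.lcm e'.q) := by
    intro e e' j
    exact Nat.lcm_dvd
      ((Finset.dvd_lcm (Finset.mem_univ j)).trans (Nat.dvd_lcm_left _ _))
      ((Finset.dvd_lcm (Finset.mem_univ j)).trans (Nat.dvd_lcm_right _ _))
  have hqq : ∀ e ∈ S, ∀ e' ∈ S,
      ((Nat.lcm (Finset.univ.lcm e.q) (Finset.univ.lcm e'.q) : ℕ) : ℝ) ≤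
        (x : ℝ) ^ (1 - v) := by
    intro e he e' he'
    exact (hlcm e he e' he').trans
      (Real.rpow_le_rpow_of_exponent_le (by linarith) (by linarith))
  have hqx : ∀ e ∈ S, ∀ e' ∈ S, ∀ j, Nat.lcm (e.q j) (e'.q j) ≤ x := by
    intro e he e' he' j
    refine (Nat.le_of_dvd (hM1 e he e' he') (hdv e e' j)).trans ?_
    have h4 : ((Nat.lcm (Finset.univ.lcm e.q) (Finset.univ.lcm e'.q) : ℕ) : ℝ) ≤
        (x : ℝ) ^ (1 : ℝ) :=
      (hqq e he e' he').trans (Real.rpow_le_rpow_of_exponent_le (by linarith) (by linarith))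
    rw [Real.rpow_one] at h4
    exact_mod_cast h4
  -- the vectors
  set w : PK k → ℕ → ℂ := fun e m => if e ∈ S then wg a p p' (g e) m else 0 with hw
  have hwS : ∀ e ∈ S, ∀ m, w e m = wg a p p' (g e) m := by
    intro e he m
    simp only [hw, if_pos he]
  have hw1 : ∀ e m, ‖w e m‖ ≤ 1 := by
    intro e m
    by_cases he : e ∈ S
    · rw [hwS e he]
      exact norm_wg _ _ _ _ (fun j => ((hS e he).1 j).2.2.1.bd) m
    · simp only [hw, if_neg he, norm_zero]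
      exact zero_le_one
  -- the pairs with a large cross sum
  have hpair : ∀ e ∈ S, ∀ e' ∈ S,
      d * N < ‖∑ m ∈ Finset.Ioc y1 y2, w e m * conj (w e' m)‖ →
      Lam a (fun j => e.t j - e'.t j) N < B0 ∧
      ∀ j, ∃ (r : ℕ) (θ : DirichletCharacter ℂ r), 1 ≤ r ∧ r ≤ R ∧
        ∀ n : ℕ, n.Coprime (e.q j * e'.q j) → e.χ j n * conj (e'.χ j n) = θ n := by
    intro e he e' he' hbig
    have q1 := fun j => ((hS e he).1 j).1
    have q2 := fun j => ((hS e' he').1 j).1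
    have hl1 : ∀ j, 1 ≤ Nat.lcm (e.q j) (e'.q j) := fun j => Nat.lcm_pos (q1 j) (q2 j)
    have HDj := fun j => HD x (e.q j) (e'.q j) (e.χ j) (e'.χ j) (g e j) (g e' j) (e.t j)
      (e'.t j) m2 ((hS e he).1 j).2.2.1 ((hS e' he').1 j).2.2.1 (q1 j) (q2 j)
      (hqx e he e' he' j) ((hS e he).1 j).2.2.2 ((hS e' he').1 j).2.2.2
    choose hMB Ψ hΨ hdist using HDj
    have hsum : ∑ m ∈ Finset.Ioc y1 y2, w e m * conj (w e' m) =
        ∑ m ∈ Finset.Ioc y1 y2,
          (∏ j, (fun n => g e j n * conj (g e' j n)) (sh (a j) (p * m))) *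
          conj (∏ j, (fun n => g e j n * conj (g e' j n)) (sh (a j) (p' * m))) := by
      refine Finset.sum_congr rfl (fun m _ => ?_)
      rw [hwS e he, hwS e' he']
      exact cross a p p' (g e) (g e') m
    have hcon : ¬ ((∃ j, R < (Ψ j).conductor) ∨
        B0 ≤ Lam a (fun j => e.t j - e'.t j) N) := by
      intro hor
      have h5 := HE x N (Nat.lcm (Finset.univ.lcm e.q) (Finset.univ.lcm e'.q))
        (fun j => Nat.lcm (e.q j) (e'.q j)) Ψ (fun j n => g e j n * conj (g e' j n))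
        (fun j => e.t j - e'.t j) m1 hκN hNx (hM1 e he e' he') (hqq e he e' he') (hdv e e')
        hMB (htd e he e' he') hdist hor y1 y2 hy1 hy12 hy2 hpy hpy'
      rw [hsum] at hbig
      have h6 := lt_of_lt_of_le hbig h5
      have : 0 < d * N := by positivity
      linarith
    push Not at hcon
    refine ⟨hcon.2, fun j => ⟨(Ψ j).conductor, (Ψ j).primitiveCharacter, ?_, hcon.1 j, ?_⟩⟩
    · haveI : NeZero (Nat.lcm (e.q j) (e'.q j)) := ⟨by have := hl1 j; omega⟩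
      exact Nat.one_le_iff_ne_zero.2 (DirichletCharacter.conductor_ne_zero (Ψ j))
    · intro n hn
      rw [TPY.YBL_.char_eq (Ψ j) (Nat.lcm_dvd_mul _ _) n hn, hΨ j n hn]
  have hcard : ((Finset.Ioc y1 y2).card : ℝ) ≤ N :=
    EllTw.BLK_.card_le N y1 y2 hy1 hy12 hy2
  have key := count S w β (Finset.Ioc y1 y2) δ N K1 h3 hδ hN0 hcard hβ hw1 ?_ ?_
  · exact Nat.le_floor key
  · intro e he
    have h5 := (hS e he).2
    have h6 : δ * (N : ℝ) ≤ δ * x := mul_le_mul_of_nonneg_left hNxr hδ.le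
    refine lt_of_le_of_lt h6 ?_
    have h7 : ∑ m ∈ Finset.Ioc y1 y2, β m * w e m = ∑ m ∈ Finset.Ioc y1 y2,
        β m * (Wk a (g e) (p * m) * conj (Wk a (g e) (p' * m))) := by
      refine Finset.sum_congr rfl (fun m _ => ?_)
      rw [hwS e he]
      rfl
    rw [h7]
    exact h5
  -- for fixed `e`
  intro e he T hTS hT
  have hch : ∀ e' ∈ T, ∃ z : Fin k → EllTw.BLK_.Cs R, ∀ j, ∀ n : ℕ,
      n.Coprime (e.q j * e'.q j) → e.χ j n * conj (e'.χ j n) = (z j).2 n := by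
    intro e' he'
    have hj : ∀ j, ∃ z : EllTw.BLK_.Cs R, ∀ n : ℕ, n.Coprime (e.q j * e'.q j) →
        e.χ j n * conj (e'.χ j n) = z.2 n := by
      intro j
      obtain ⟨r, θ, r1, r2, hθ⟩ := (hpair e he e' (hTS he') (hT e' he')).2 j
      obtain ⟨s, rfl⟩ : ∃ s, r = s + 1 := ⟨r - 1, by omega⟩
      exact ⟨⟨⟨s, by omega⟩, θ⟩, hθ⟩
    choose z hz using hj
    exact ⟨z, hz⟩
  rcases T.eq_empty_or_nonempty with rfl | ⟨e0, he0⟩
  · simp
  haveI : Nonempty (Fin k → EllTw.BLK_.Cs R) := (hch e0 he0).nonempty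
  choose! G hG using hch
  have hinj : Set.InjOn G T := by
    intro e1 he1 e2 he2 h12
    by_contra hne
    have hs : ∀ j, EllTw.Same (e1.χ j) (e2.χ j) := by
      intro j
      refine h2 (e.q j) (e1.q j) (e2.q j) _ (e.χ j) (e1.χ j) (e2.χ j) (G e1 j).2
        ((hS e he).1 j).1 ((hS e1 (hTS he1)).1 j).1 ((hS e2 (hTS he2)).1 j).1
        (hG e1 he1 j) ?_
      rw [h12]
      exact hG e2 he2 j
    obtain ⟨l, hl, hlt⟩ := hsep e1 (hTS he1) e2 (hTS he2) hne hs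
    have hL : ∀ e' ∈ T, |tau a (fun j => e.t j - e'.t j) l| < B0 * (N : ℝ) ^ l := by
      intro e' he'
      have hLam := (hpair e he e' (hTS he') (hT e' he')).1
      have hNl : (0 : ℝ) < (N : ℝ) ^ l := by positivity
      rw [← div_lt_iff₀ hNl]
      refine lt_of_le_of_lt ?_ hLam
      unfold Lam
      exact Finset.single_le_sum (f := fun l => |tau a (fun j => e.t j - e'.t j) l| / (N : ℝ) ^ l)
        (fun l _ => by positivity) hl
    have g1 := hL e1 he1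
    have g2 := hL e2 he2
    rw [EllTw.BLK_.tau_sub a e.t e1.t e2.t l] at hlt
    have g3 : |tau a (fun j => e.t j - e2.t j) l - tau a (fun j => e.t j - e1.t j) l| ≤
        |tau a (fun j => e.t j - e2.t j) l| + |tau a (fun j => e.t j - e1.t j) l| := abs_sub _ _
    have g4 : (N : ℝ) ^ l ≤ (x : ℝ) ^ l := pow_le_pow_left₀ hN0.le hNxr l
    have g5 : B0 * (N : ℝ) ^ l ≤ B0 * (x : ℝ) ^ l := mul_le_mul_of_nonneg_left g4 hB0.le
    linarith
  have := Finset.card_le_card_of_injOn G (t := Finset.univ) (fun _ _ => Finset.mem_univ _) hinj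
  rwa [Finset.card_univ] at this

end Pool.Agent.TPK.ZBL_

namespace Pool.Agent.TPK

open Pool.Agent

theorem prove_ZBL (h1 : EllTw.T_INJ) (h2 : EllTw.T_DUAL) (h3 : T_ZEX) (h4 : T_ZDC) : T_ZBL :=
  ZBL_.main h1 h2 h3 h4

end Pool.Agent.TPK
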