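import Pool.Agent.TPK.Targets7
import Pool.Agent.TPY.DCL
import Pool.Agent.Ell.KeyA

/-!
TPK, block ZDC: the distance of a product of two structured functions.
-/

set_option autoImplicit false

namespace Pool.Agent.TPK

open Finset Filter Pool.Agent.Ell Pool.Agent.TPM Pool.Agent.TPX
open scoped BigOperators ComplexConjugate

namespace ZDC_

open Pool.Agent.TPY.DCL_

theorem nit_sub (t t' : ℝ) (n : ℕ) (hn : 1 ≤ n) :
    nit (t - t') n = nit t n * conj (nit t' n) := by
  rw [KeyA.nit_eq _ n hn, KeyA.nit_eq _ n hn, KeyA.nit_eq _ n hn, KeyA.conj_ei, ← KeyA.ei_add]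
  congr 1
  ring

lemma term_nonneg {r : ℕ} (f : ℕ → ℂ) (hf : ∀ n, ‖f n‖ ≤ 1) (χ : DirichletCharacter ℂ r)
    (t : ℝ) (p : ℕ) :
    0 ≤ (1 - (f p * conj (χ (p : ZMod r) * nit t p)).re) / (p : ℝ) ∧
    (1 - (f p * conj (χ (p : ZMod r) * nit t p)).re) / (p : ℝ) ≤ 2 / p := by
  have h : ‖f p * conj (χ (p : ZMod r) * nit t p)‖ ≤ 1 := by
    rw [norm_mul, RCLike.norm_conj, norm_mul]
    exact mul_le_one₀ (hf p) (by positivity)
      (mul_le_one₀ (χ.norm_le_one _) (norm_nonneg _) (KeyA.norm_nit t p))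
  obtain ⟨h1, h2⟩ := re_le _ h
  exact ⟨div_nonneg h1 (Nat.cast_nonneg p), div_le_div_of_nonneg_right h2 (Nat.cast_nonneg p)⟩

end ZDC_

open ZDC_ in
open Pool.Agent.TPY.DCL_ in
theorem prove_ZDC : T_ZDC := by
  intro A1 hA1
  have hA0 : 0 < A1 := by linarith
  refine ⟨8 * A1, ⌈(4 * A1 ^ 2) ^ A1⌉₊ + 2, by linarith, ?_⟩
  intro x q q' χ χ' g g' t t' hX hg hg' hq hq' hlcm hd hd'
  refine ⟨MB_prod hg hg', Psi χ χ', Psi_apply χ χ', ?_⟩
  have hx2 : 2 ≤ x := by omega
  have hx1 : (1 : ℝ) < x := by exact_mod_cast (by omega : 1 < x)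
  have hx0 : (0 : ℝ) < x := by linarith
  have hxbig : (4 * A1 ^ 2) ^ A1 ≤ (x : ℝ) := by
    have h1 : (4 * A1 ^ 2) ^ A1 ≤ (⌈(4 * A1 ^ 2) ^ A1⌉₊ : ℝ) := Nat.le_ceil _
    have h2 : ((⌈(4 * A1 ^ 2) ^ A1⌉₊ : ℕ) : ℝ) ≤ x := by exact_mod_cast (by omega)
    linarith
  have hroot : 4 * A1 ^ 2 ≤ (x : ℝ) ^ (1 / A1) := by
    have h := Real.rpow_le_rpow (by positivity) hxbig (by positivity : (0:ℝ) ≤ 1 / A1)
    rwa [← Real.rpow_mul (by positivity), mul_one_div_cancel hA0.ne', Real.rpow_one] at h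
  set D : Finset ℕ := (Finset.Iic ⌊(x : ℝ)⌋₊).filter
    (fun p : ℕ => p.Prime ∧ (x : ℝ) ^ (1 / A1) < p) with hD
  set y : ℝ := (x : ℝ) ^ (1 / A1) with hy
  have hy0 : 0 < y := by positivity
  have hyA : (x : ℝ) ^ (1 / (8 * A1)) ≤ y := by
    rw [hy]
    apply Real.rpow_le_rpow_of_exponent_le hx1.le
    apply one_div_le_one_div_of_le hA0
    linarith
  have sub : ∀ {r : ℕ} (f : ℕ → ℂ) (_ : MB f) (ψ : DirichletCharacter ℂ r) (s : ℝ),
      ∑ p ∈ D, (1 - (f p * conj (ψ (p : ZMod r) * nit s p)).re) / (p : ℝ) ≤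
      dist2 f ψ s ((x : ℝ) ^ (1 / (8 * A1))) x := by
    intro r f hf ψ s
    unfold dist2
    refine Finset.sum_le_sum_of_subset_of_nonneg ?_ ?_
    · intro p hp
      rw [hD, Finset.mem_filter] at hp
      rw [Finset.mem_filter]
      exact ⟨hp.1, hp.2.1, lt_of_le_of_lt hyA hp.2.2⟩
    · intro p _ _
      exact (ZDC_.term_nonneg f hf.bd ψ s p).1
  have hprod := MB_prod hg hg'
  have split : dist2 (fun n => g n * conj (g' n)) (Psi χ χ') (t - t') y x ≤
      ∑ p ∈ D, (2 * ((1 - (g p * conj (χ (p : ZMod q) * nit t p)).re) / (p : ℝ)) +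
        2 * ((1 - (g' p * conj (χ' (p : ZMod q') * nit t' p)).re) / (p : ℝ)) +
        (if p ∣ q * q' then 2 / y else 0)) := by
    unfold dist2
    refine Finset.sum_le_sum ?_
    intro p hp
    rw [Finset.mem_filter] at hp
    obtain ⟨_, hpp, hyp⟩ := hp
    have hp0 : (0 : ℝ) < p := by exact_mod_cast hpp.pos
    have n1 := (ZDC_.term_nonneg g hg.bd χ t p).1
    have n2 := (ZDC_.term_nonneg g' hg'.bd χ' t' p).1
    by_cases hdv : p ∣ q * q'
    · rw [if_pos hdv]
      have h3 := (ZDC_.term_nonneg (fun n => g n * conj (g' n)) hprod.bd (Psi χ χ') (t - t') p).2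
      have h4 : 2 / (p : ℝ) ≤ 2 / y := div_le_div_of_nonneg_left (by norm_num) hy0 hyp.le
      linarith
    · rw [if_neg hdv, add_zero]
      have hcop : p.Coprime (q * q') := (Nat.Prime.coprime_iff_not_dvd hpp).mpr hdv
      rw [Psi_apply χ χ' p hcop, ZDC_.nit_sub t t' p hpp.pos]
      have hu : ‖g p * conj (χ (p : ZMod q) * nit t p)‖ ≤ 1 := by
        rw [norm_mul, RCLike.norm_conj, norm_mul]
        exact mul_le_one₀ (hg.bd p) (by positivity)
          (mul_le_one₀ (χ.norm_le_one _) (norm_nonneg _) (KeyA.norm_nit t p))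
      have hv : ‖conj (g' p * conj (χ' (p : ZMod q') * nit t' p))‖ ≤ 1 := by
        rw [RCLike.norm_conj, norm_mul, RCLike.norm_conj, norm_mul]
        exact mul_le_one₀ (hg'.bd p) (by positivity)
          (mul_le_one₀ (χ'.norm_le_one _) (norm_nonneg _) (KeyA.norm_nit t' p))
      have h5 := two_disc _ _ hu hv
      rw [Complex.conj_re] at h5
      have e : g p * conj (χ (p : ZMod q) * nit t p) *
          conj (g' p * conj (χ' (p : ZMod q') * nit t' p)) =
          g p * conj (g' p) * conj (χ (p : ZMod q) * conj (χ' (p : ZMod q')) *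
            (nit t p * conj (nit t' p))) := by
        simp only [map_mul, Complex.conj_conj]
        ring
      rw [e] at h5
      have h6 := div_le_div_of_nonneg_right h5 hp0.le
      calc _ ≤ _ := h6
        _ = _ := by ring
  have hcount : ∑ p ∈ D, (if p ∣ q * q' then 2 / y else 0) ≤ A1 * (2 / y) := by
    rw [← Finset.sum_filter, Finset.sum_const, nsmul_eq_mul]
    refine mul_le_mul_of_nonneg_right ?_ (by positivity)
    set D' := D.filter (fun p => p ∣ q * q') with hD'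
    have hl0 : 0 < Nat.lcm q q' := Nat.lcm_pos (by omega) (by omega)
    have hdvd : ∏ p ∈ D', p ∣ Nat.lcm q q' := by
      apply Finset.prod_primes_dvd
      · intro p hp
        simp only [hD', hD, Finset.mem_filter] at hp
        exact hp.1.2.1.prime
      · intro p hp
        simp only [hD', hD, Finset.mem_filter] at hp
        rcases (Nat.Prime.dvd_mul hp.1.2.1).mp hp.2 with h | h
        · exact h.trans (Nat.dvd_lcm_left q q')
        · exact h.trans (Nat.dvd_lcm_right q q')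
    have hle : ∏ p ∈ D', p ≤ x := (Nat.le_of_dvd hl0 hdvd).trans hlcm
    have hleR : ∏ p ∈ D', (p : ℝ) ≤ x := by
      rw [← Nat.cast_prod]
      exact Nat.cast_le.mpr hle
    have hpow : y ^ D'.card ≤ ∏ p ∈ D', (p : ℝ) := by
      rw [← Finset.prod_const]
      refine Finset.prod_le_prod (fun _ _ => hy0.le) ?_
      intro p hp
      simp only [hD', hD, Finset.mem_filter] at hp
      exact hp.1.2.2.le
    have h7 : (x : ℝ) ^ (1 / A1 * (D'.card : ℝ)) ≤ (x : ℝ) ^ (1 : ℝ) := by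
      rw [Real.rpow_one, Real.rpow_mul hx0.le, Real.rpow_natCast]
      exact hpow.trans hleR
    rw [Real.rpow_le_rpow_left_iff hx1] at h7
    rw [one_div, inv_mul_le_iff₀ hA0, mul_one] at h7
    exact h7
  have hs1 := sub g hg χ t
  have hs2 := sub g' hg' χ' t'
  have hlast : A1 * (2 / y) ≤ 1 / (2 * A1) := by
    rw [mul_div_assoc', div_le_div_iff₀ hy0 (by positivity)]
    nlinarith
  have h8 : 2 * (1 / (8 * A1)) + 2 * (1 / (8 * A1)) + 1 / (2 * A1) = 1 / A1 := by
    field_simp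
    norm_num
  refine split.trans ?_
  rw [Finset.sum_add_distrib, Finset.sum_add_distrib, ← Finset.mul_sum, ← Finset.mul_sum]
  linarith

end Pool.Agent.TPK
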