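import Pool.Agent.TPK.Targets7
import Pool.Agent.TPK.KDL
import Pool.Agent.TPY.EXN
import Pool.Agent.Ell.KeyC

set_option autoImplicit false

/-! TPK-ZEX: the cross sum of the exact functions from the block estimate and the structure
theorem, `k` structured functions. -/

namespace Pool.Agent.TPK

open Finset Filter Pool.Agent.Ell Pool.Agent.TPM Pool.Agent.TPX
open scoped BigOperators ComplexConjugate

namespace ZEX_

/-- the primitive character induces the lifted character -/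
theorem ind_prim {q M : ℕ} (χ : DirichletCharacter ℂ q) (Ψ : DirichletCharacter ℂ M)
    (h : Ind χ Ψ) : Ind χ.primitiveCharacter Ψ := by
  obtain ⟨h1, h2⟩ := h
  refine ⟨(DirichletCharacter.conductor_dvd_level χ).trans h1, fun n hn => ?_⟩
  have hq : IsCoprime n (q : ℤ) :=
    hn.of_isCoprime_of_dvd_right (Int.natCast_dvd_natCast.mpr h1)
  have h3 := KDL_.lift_int (DirichletCharacter.conductor_dvd_level χ) χ.primitiveCharacter n hq
  rw [DirichletCharacter.changeLevel_primitiveCharacter] at h3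
  rw [h2 n hn, h3]

theorem prod_sub (u v u' v' : ℂ) (hu : ‖u'‖ ≤ 1) (hv : ‖v‖ ≤ 1) :
    ‖u * conj u' - v * conj v'‖ ≤ ‖u - v‖ + ‖u' - v'‖ := by
  have h := TPY.EXN_.prod_sub u v u' v' 1 1 (by simp) (by simp) hu hv
  simpa using h

end ZEX_

theorem prove_ZEX (h1 : T_KBL6) (h2 : T_STW) (h3 : T_KDL) (h4 : T_XZ) (h5 : T_XZW) :
    T_ZEX := by
  intro k a p p' C η κ0 θ hk hinj ha hp hp' hpp hpa hpa' hC hη hκ0 hθ hθ1
  have hk0 : (0 : ℝ) < k := by exact_mod_cast hk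
  obtain ⟨s, κ, B, z0, hs, hκ, hB, hBLN⟩ :=
    h1 k a p p' (2 * C) (η / 2) (θ / 2) hk hinj ha hp hp' hpp hpa hpa' (by positivity)
      (by positivity) (by positivity) (by linarith)
  obtain ⟨z1, hSTW⟩ := h2 (η * κ0 / (16 * k)) (by positivity)
  set z := max z0 z1 with hz
  obtain ⟨V, A0, hA0, hSTW⟩ := hSTW z (le_max_right _ _)
  obtain ⟨R, N0, hBLN⟩ := hBLN z V (le_max_left _ _)
  set A := max A0 (2 * s) with hA
  have hA1 : 1 ≤ A := hA0.trans (le_max_left _ _)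
  obtain ⟨X2, hSTW⟩ := hSTW A (κ / 2) (le_max_left _ _) (by positivity)
  obtain ⟨X3, hKDL⟩ := h3 A hA1
  set N₀ : ℕ := ∑ j, (a j).natAbs with hN₀
  obtain ⟨X, hX⟩ := eventually_atTop.mp
    (((KeyE.large_x κ0 C hκ0 hC (max N0 1)).and
      ((tendsto_natCast_atTop_atTop (R := ℝ)).eventually_ge_atTop
        (32 * (N₀ : ℝ) / (η * κ0)))).and
      ((CRW_.ev_pow κ0 θ hκ0 hθ).and ((eventually_ge_atTop X2).and (eventually_ge_atTop X3))))
  refine ⟨B, 2 * A, R, X, hB, by linarith, ?_⟩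
  intro x N M q χ f t hx hκN hNx hM hMx hqM hf ht hd hRB y1 y2 hNy hyy hyN hpy hpy'
  obtain ⟨⟨⟨hx1, hx2⟩, hxa⟩, hxp, hxX, hxX3⟩ := hX x hx
  obtain ⟨m1, m2, m3⟩ := hx2 N hκN
  have hx1' : (1 : ℝ) ≤ x := by exact_mod_cast hx1
  have hwp := KeyE.w_pow x A s hx1 hs (le_max_right _ _)
  have hMx' : M ≤ x := by
    have h6 : (M : ℝ) ≤ x := by
      refine hMx.trans ?_
      calc (x : ℝ) ^ (1 - θ) ≤ (x : ℝ) ^ (1 : ℝ) :=
            Real.rpow_le_rpow_of_exponent_le hx1' (by linarith)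
        _ = x := Real.rpow_one _
    exact_mod_cast h6
  have hY : ((⌊κ / 2 * Real.log x⌋₊ : ℕ) : ℝ) ≤ κ / 2 * Real.log x :=
    Nat.floor_le (mul_nonneg (by positivity) (Real.log_natCast_nonneg x))
  have hMN : (M : ℝ) ≤ (N : ℝ) ^ (1 - θ / 2) := by
    refine hMx.trans (hxp.trans ?_)
    exact Real.rpow_le_rpow (by positivity) hκN (by linarith)
  choose Ψ hInd hdΨ using fun j =>
    hKDL x (q j) M (χ j) (f j) (t j) hxX3 (hf j) hM hMx' (hqM j) (hd j)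
  set Y := ⌊κ / 2 * Real.log x⌋₊ with hYd
  set w := ⌊(x : ℝ) ^ (1 / A)⌋₊ with hw
  have hBL := hBLN N w M Y (fun j => (χ j).conductor) (fun j => (χ j).primitiveCharacter) Ψ f t
    ((le_max_left _ _).trans m1) (hwp.trans m3) hM hMN
    (CRW_.log_le x N κ Y hx1 hκ hY m3)
    (fun j => ⟨DirichletCharacter.primitiveCharacter_isPrimitive (χ j),
      ZEX_.ind_prim (χ j) (Ψ j) (hInd j)⟩) hRB hf (fun j => (ht j).trans m2) y1 y2 hNy hyy hyN
  set D := DY z V Y M with hD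
  have hD1 : 1 ≤ D := (h5 z V Y M hM).1
  have hG : ∀ j n, ‖Gf (f j) (Ψ j) (t j) D z w n‖ ≤ 1 := fun j n =>
    (h4.2 M (Ψ j) (f j) (t j) D (hf j) hD1).2.2.1 z w n
  have hGk : ∀ n, ‖Gk f Ψ t D z w a n‖ ≤ 1 := by
    intro n
    unfold Gk
    rw [norm_prod]
    exact Finset.prod_le_one (fun _ _ => norm_nonneg _) (fun j _ => hG j _)
  have hg2 : ∀ j n, ‖f j n - Gf (f j) (Ψ j) (t j) D z w n‖ ≤ 2 := fun j n => by
    refine (norm_sub_le _ _).trans ?_
    linarith [(hf j).bd n, hG j n]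
  have hfk : ∀ n, ‖∏ j, f j (sh (a j) n)‖ ≤ 1 := by
    intro n
    rw [norm_prod]
    exact Finset.prod_le_one (fun _ _ => norm_nonneg _) (fun j _ => (hf j).bd _)
  have hS : ∀ j, ∑ n ∈ Finset.Icc 1 x, ‖f j n - Gf (f j) (Ψ j) (t j) D z w n‖ ≤
      η * κ0 / (16 * k) * x := fun j =>
    hSTW x (f j) M (Ψ j) (t j) hxX (hf j) hM hMx' (hdΨ j)
  have hsum : ∀ P : ℕ, 1 ≤ P → P * y2 ≤ x →
      ∑ m ∈ Finset.Ioc y1 y2, ‖∏ j, f j (sh (a j) (P * m)) - Gk f Ψ t D z w a (P * m)‖ ≤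
      η * κ0 / 16 * x + 2 * (N₀ : ℝ) := by
    intro P hP hPy
    have h10 : ∑ m ∈ Finset.Ioc y1 y2,
        ‖∏ j, f j (sh (a j) (P * m)) - Gk f Ψ t D z w a (P * m)‖ ≤
        ∑ m ∈ Finset.Ioc y1 y2, ∑ j, ‖f j (sh (a j) (P * m)) -
          Gf (f j) (Ψ j) (t j) D z w (sh (a j) (P * m))‖ := by
      refine Finset.sum_le_sum fun n _ => ?_
      exact KeyC.norm_prod_sub_prod _ _ _ (fun j _ => (hf j).bd _) (fun j _ => hG j _)
    rw [Finset.sum_comm] at h10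
    refine h10.trans ?_
    have h11 : ∀ j, ∑ m ∈ Finset.Ioc y1 y2, ‖f j (sh (a j) (P * m)) -
        Gf (f j) (Ψ j) (t j) D z w (sh (a j) (P * m))‖ ≤
        η * κ0 / (16 * k) * x + 2 * ((a j).natAbs : ℝ) := fun j =>
      (TPY.EXN_.prog (fun n => ‖f j n - Gf (f j) (Ψ j) (t j) D z w n‖)
        (fun _ => norm_nonneg _) (hg2 j) (a j) x P y1 y2 hP hPy).trans
        (add_le_add (hS j) le_rfl)
    refine (Finset.sum_le_sum fun j _ => h11 j).trans (le_of_eq ?_)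
    rw [Finset.sum_add_distrib, Finset.sum_const, Finset.card_univ, Fintype.card_fin,
      nsmul_eq_mul, ← Finset.mul_sum, hN₀]
    push_cast
    field_simp
  have ha4 : 4 * (N₀ : ℝ) ≤ η * κ0 / 8 * x := by
    rw [div_le_iff₀ (by positivity)] at hxa
    linarith
  have e : ∑ m ∈ Finset.Ioc y1 y2, (∏ j, f j (sh (a j) (p * m))) *
      conj (∏ j, f j (sh (a j) (p' * m))) =
      ∑ m ∈ Finset.Ioc y1 y2, Gk f Ψ t D z w a (p * m) * conj (Gk f Ψ t D z w a (p' * m)) +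
      ∑ m ∈ Finset.Ioc y1 y2, ((∏ j, f j (sh (a j) (p * m))) *
        conj (∏ j, f j (sh (a j) (p' * m))) -
        Gk f Ψ t D z w a (p * m) * conj (Gk f Ψ t D z w a (p' * m))) := by
    rw [← Finset.sum_add_distrib]
    refine Finset.sum_congr rfl fun n _ => ?_
    ring
  have h10 : ‖∑ m ∈ Finset.Ioc y1 y2, ((∏ j, f j (sh (a j) (p * m))) *
        conj (∏ j, f j (sh (a j) (p' * m))) -
        Gk f Ψ t D z w a (p * m) * conj (Gk f Ψ t D z w a (p' * m)))‖ ≤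
      ∑ m ∈ Finset.Ioc y1 y2, ‖∏ j, f j (sh (a j) (p * m)) - Gk f Ψ t D z w a (p * m)‖ +
      ∑ m ∈ Finset.Ioc y1 y2, ‖∏ j, f j (sh (a j) (p' * m)) - Gk f Ψ t D z w a (p' * m)‖ := by
    rw [← Finset.sum_add_distrib]
    refine (norm_sum_le _ _).trans (Finset.sum_le_sum fun n _ => ?_)
    exact ZEX_.prod_sub _ _ _ _ (hfk _) (hGk _)
  have hs1 := hsum p hp.one_le hpy
  have hs2 := hsum p' hp'.one_le hpy'
  rw [e]
  refine (norm_add_le _ _).trans ?_
  have h11 : η * κ0 / 4 * x ≤ η / 4 * N := by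
    have := mul_le_mul_of_nonneg_left hκN (by positivity : 0 ≤ η / 4)
    linarith
  have h12 : 0 ≤ η * N := by positivity
  linarith

end Pool.Agent.TPK
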