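import Pool.Agent.TPK.All6
import Pool.Agent.TPK.ZDC
import Pool.Agent.TPK.ZEX
import Pool.Agent.TPK.ZBL
import Pool.Agent.TPK.ZTW
import Pool.Agent.TPK.ZFI
import Pool.Agent.EllTw.INJ

set_option autoImplicit false

/-! An arbitrary sequence, an arbitrary multiplicative function and `k` structured functions,
outside boundedly many tuples of characters: assembly. -/

namespace Pool.Agent.TPK

open Pool.Agent.Ell Pool.Agent.TPM Pool.Agent.TPX

theorem all_ZEX : T_ZEX :=
  prove_ZEX all_KBL6 (prove_STW p_MERT prove_XZ prove_XZW) prove_KDL prove_XZ prove_XZW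

theorem all_ZFI : T_ZFI :=
  prove_ZFI (prove_ZTW p_KAT (prove_ZBL EllTw.p_INJ EllTw.p_DUAL all_ZEX prove_ZDC))

end Pool.Agent.TPK

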