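import Pool.Agent.TPK.Targets
import Pool.Agent.TPY.FCN

/-! # TPK-KFC: splitting an induced character at a prime -/

set_option autoImplicit false

namespace Pool.Agent.TPK

open Finset Filter Pool.Agent.Ell Pool.Agent.TPM Pool.Agent.TPX
open scoped BigOperators ComplexConjugate

theorem prove_KFC (h1 : T_FAC) : T_KFC := by
  intro ℓ κ M' q χ Ψ hℓ hM hℓM hχ hInd
  obtain ⟨hdv, hval⟩ := hInd
  have hN : ℓ ^ κ * M' ≠ 0 := Nat.mul_ne_zero (pow_ne_zero _ hℓ.ne_zero) (by omega)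
  have : NeZero (ℓ ^ κ * M') := ⟨hN⟩
  have hq0 : q ≠ 0 := fun h => hN (Nat.eq_zero_of_zero_dvd (h ▸ hdv))
  obtain ⟨c, q', hq', hq⟩ := Nat.exists_eq_pow_mul_and_not_dvd hq0 ℓ hℓ.ne_one
  have hq'0 : 1 ≤ q' := by
    rcases Nat.eq_zero_or_pos q' with h | h
    · rw [h] at hq'
      exact absurd (dvd_zero ℓ) hq'
    · exact h
  have hcs : ℓ.Coprime q' := (Nat.Prime.coprime_iff_not_dvd hℓ).2 hq'
  have hcM : ℓ.Coprime M' := (Nat.Prime.coprime_iff_not_dvd hℓ).2 hℓM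
  have hcq : ℓ ^ c ∣ q := hq ▸ Dvd.intro _ rfl
  have hck : c ≤ κ := by
    have h2 : ℓ ^ c ∣ ℓ ^ κ * M' := hcq.trans hdv
    exact (Nat.pow_dvd_pow_iff_le_right hℓ.one_lt).1
      ((hcM.pow_left c).dvd_of_dvd_mul_right h2)
  have hqM : q' ∣ M' := by
    have h2 : q' ∣ ℓ ^ κ * M' := (hq ▸ Dvd.intro_left _ rfl : q' ∣ q).trans hdv
    exact (hcs.pow_left κ).symm.dvd_of_dvd_mul_left h2
  obtain ⟨φ', χ₂, hφ, hfac⟩ := TPY.FCN_.fac' h1 hq χ
    (Nat.pos_of_ne_zero (pow_ne_zero _ hℓ.ne_zero)) hq'0 (hcs.pow_left c) hχ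
  have hpd : ℓ ^ c ∣ ℓ ^ κ := pow_dvd_pow ℓ hck
  have hlev : ∀ n : ℤ, IsCoprime n ((ℓ ^ κ : ℕ) : ℤ) →
      DirichletCharacter.changeLevel hpd φ' (n : ZMod (ℓ ^ κ)) = φ' (n : ZMod (ℓ ^ c)) :=
    fun n hn => DirichletCharacter.changeLevel_eq_cast_of_dvd' _ _ hn
  refine ⟨c, φ', DirichletCharacter.changeLevel hpd φ', DirichletCharacter.changeLevel hqM χ₂,
    hck, hcq, ?_, hφ, fun n => ?_, fun n hn => ?_⟩
  · intro h
    rw [hq, pow_succ] at h
    exact hq' (Nat.dvd_of_mul_dvd_mul_left (Nat.pos_of_ne_zero (pow_ne_zero _ hℓ.ne_zero)) h)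
  · by_cases hn : IsCoprime n ((ℓ ^ κ * M' : ℕ) : ℤ)
    · have hn2 := hn
      push_cast at hn2
      have hn' : IsCoprime n ((M' : ℕ) : ℤ) := hn2.of_mul_right_right
      have hn'' : IsCoprime n ((ℓ ^ κ : ℕ) : ℤ) := by
        push_cast
        exact hn2.of_mul_right_left
      rw [hval n hn, hfac, hlev n hn'',
        DirichletCharacter.changeLevel_eq_cast_of_dvd' _ _ hn']
    · rw [(DirichletCharacter.apply_eq_zero_iff Ψ n).2 hn]
      push_cast at hn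
      rw [IsCoprime.mul_right_iff, not_and_or] at hn
      rcases hn with hn | hn
      · have h2 : ¬ IsCoprime n ((ℓ ^ κ : ℕ) : ℤ) := by
          push_cast
          exact hn
        rw [(DirichletCharacter.apply_eq_zero_iff _ n).2 h2, zero_mul]
      · rw [(DirichletCharacter.apply_eq_zero_iff _ n).2 hn, mul_zero]
  · refine hlev n ?_
    push_cast
    refine IsCoprime.pow_right ?_
    exact ((Nat.prime_iff_prime_int.1 hℓ).coprime_iff_not_dvd.2 hn).symm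

end Pool.Agent.TPK
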