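import Pool.Agent.TPK.Targets3
import Pool.Agent.TPM.LC
import Pool.Agent.Ell.KeyC

set_option autoImplicit false

/-! TPK-KLC: the theorem with all characters mod `M` -/

namespace Pool.Agent.TPK

open Finset Filter Pool.Agent.Ell Pool.Agent.TPM Pool.Agent.TPX
open scoped BigOperators ComplexConjugate Topology

namespace KLC4_

/-- the bound for the cross sums at `x` -/
def CB (k : ℕ) (a : Fin k → ℤ) (C1 δ θ κ B : ℝ) (z V R : ℕ) (A : ℝ) (x p p' : ℕ) : Prop :=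
  ∀ (M Y : ℕ) (q : Fin k → ℕ) (χ : ∀ j, DirichletCharacter ℂ (q j))
  (Ψ : Fin k → DirichletCharacter ℂ M) (f : Fin k → ℕ → ℂ) (t : Fin k → ℝ),
  1 ≤ M → (M : ℝ) ≤ (x : ℝ) ^ (1 - θ) → (Y : ℝ) ≤ κ * Real.log x →
  (∀ j, (χ j).IsPrimitive ∧ Ind (χ j) (Ψ j)) → (BigP q R ∨ ∃ j, B * (x : ℝ) ^ k < |t j|) →
  (∀ j, MB (f j)) → (∀ j, |t j| ≤ (x : ℝ) ^ C1) → ∀ M1 : ℕ, M1 ≤ x →
  ‖∑ m ∈ Finset.Icc 1 M1, Gk f Ψ t (DY z V Y M) z ⌊(x : ℝ) ^ (1 / A)⌋₊ a (p * m) *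
    conj (Gk f Ψ t (DY z V Y M) z ⌊(x : ℝ) ^ (1 / A)⌋₊ a (p' * m))‖ ≤ δ * x

theorem crs_ev (h2 : T_KCR4) (k : ℕ) (a : Fin k → ℤ) (p p' : ℕ) (C1 δ θ : ℝ) (hk : 1 ≤ k)
    (hinj : Function.Injective a) (ha : ∀ j, a j ≠ 0) (hp : p.Prime)
    (hp' : p'.Prime) (hne : p ≠ p') (hap : ∀ j, |a j| < (p : ℤ)) (hap' : ∀ j, |a j| < (p' : ℤ))
    (hC : 0 < C1) (hδ : 0 < δ) (hθ : 0 < θ) (hθ1 : θ < 1) :
    ∀ᶠ κ : ℝ in 𝓝[>] 0, ∀ᶠ B : ℝ in atTop, ∀ᶠ z : ℕ in atTop, ∀ V : ℕ, ∀ᶠ R : ℕ in atTop,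
      ∀ᶠ A : ℝ in atTop, ∀ᶠ x : ℕ in atTop, CB k a C1 δ θ κ B z V R A x p p' := by
  obtain ⟨κ₀, B₀, z₀, hκ₀, hB₀, h⟩ :=
    h2 k a p p' C1 δ θ hk hinj ha hp hp' hne hap hap' hC hδ hθ hθ1
  filter_upwards [Ioc_mem_nhdsGT hκ₀] with κ hκ
  filter_upwards [eventually_ge_atTop B₀] with B hB
  filter_upwards [eventually_ge_atTop z₀] with z hz V
  obtain ⟨R₀, A₀, hA₀, h3⟩ := h z V hz
  filter_upwards [eventually_ge_atTop R₀] with R hR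
  filter_upwards [eventually_ge_atTop A₀] with A hA
  obtain ⟨X, hX⟩ := h3 A hA
  filter_upwards [eventually_ge_atTop X] with x hx M Y q χ Ψ f t hM hMx hY hχ hcase hf ht M1 hM1
  refine hX x M Y q χ Ψ f t hx hM hMx (hY.trans ?_) hχ ?_ hf ht M1 hM1
  · exact mul_le_mul_of_nonneg_right hκ.2 (Real.log_natCast_nonneg x)
  · refine hcase.imp (fun hb => hb.mono hR) (fun ⟨j, hj⟩ => ⟨j, lt_of_le_of_lt ?_ hj⟩)
    exact mul_le_mul_of_nonneg_right hB (by positivity)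

end KLC4_

open KLC4_ in
theorem prove_KLC4 (h1 : T_KAT) (h2 : T_KCR4) (h3 : T_STW) (h4 : T_XZ) (h5 : T_XZW) :
    T_KLC4 := by
  intro k a C1 ε θ hk hinj ha hC hε hθ hθ1
  have hk0 : (0 : ℝ) < k := by exact_mod_cast hk
  set N₀ : ℕ := ∑ j, (a j).natAbs with hN₀
  obtain ⟨P, δ, X₁, hP, hδ, hKAT⟩ := h1 (ε / 2) N₀ (by positivity)
  have hPa : ∀ p ∈ P, ∀ j, |a j| < (p : ℤ) := by
    intro p hp j
    have h5 := (hP p hp).2
    have h6 : (a j).natAbs ≤ N₀ :=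
      Finset.single_le_sum (f := fun j => (a j).natAbs) (fun _ _ => Nat.zero_le _)
        (Finset.mem_univ j)
    rw [Int.abs_eq_natAbs]
    exact_mod_cast lt_of_le_of_lt h6 h5
  obtain ⟨κ, hκ, hκ0⟩ := ((LC_.ev_pairs P fun p hp q hq hpq => crs_ev h2 k a p q C1 δ θ hk hinj
    ha (hP p hp).1 (hP q hq).1 hpq (hPa p hp) (hPa q hq) hC hδ hθ hθ1).and
    self_mem_nhdsWithin).exists
  have hκ0 : 0 < κ := hκ0
  obtain ⟨B, hB⟩ := (LC_.ev_pairs P hκ).exists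
  obtain ⟨z₁, hz₁⟩ := h3 (ε / (4 * k)) (by positivity)
  obtain ⟨z, hz, hzz⟩ := ((LC_.ev_pairs P hB).and (eventually_ge_atTop z₁)).exists
  obtain ⟨V, A₁, hA₁, hV⟩ := hz₁ z hzz
  obtain ⟨R, hR, hRB⟩ := ((LC_.ev_pairs P fun p hp q hq hpq => hz p hp q hq hpq V).and
    (eventually_ge_atTop ⌈B⌉₊)).exists
  obtain ⟨A, hA, hAA⟩ := ((LC_.ev_pairs P hR).and (eventually_ge_atTop A₁)).exists
  obtain ⟨X₂, hX₂⟩ := hV A κ hAA hκ0
  have hx := ((LC_.ev_pairs P hA).and ((eventually_ge_atTop X₁).and ((eventually_ge_atTop X₂).and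
    ((eventually_ge_atTop ⌈8 * (N₀ : ℝ) / ε⌉₊).and (eventually_ge_atTop 1)))))
  obtain ⟨X, hX⟩ := Filter.eventually_atTop.1 hx
  refine ⟨R, X, A, hA₁.trans hAA,
    fun x M q χ Ψ f g t hxX hM hMx hχ hcase hf hg ht hd => ?_⟩
  obtain ⟨hx1, hx2, hx3, hx4, hx5⟩ := hX x hxX
  have hx5' : (1 : ℝ) ≤ x := by exact_mod_cast hx5
  have hcase' : BigP q R ∨ ∃ j, B * (x : ℝ) ^ k < |t j| := by
    refine hcase.imp (fun hb => hb) (fun ⟨j, hj⟩ => ⟨j, lt_of_le_of_lt ?_ hj⟩)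
    have h7 : B ≤ R := (Nat.le_ceil B).trans (by exact_mod_cast hRB)
    exact mul_le_mul_of_nonneg_right h7 (by positivity)
  have hMx' : M ≤ x := by
    have h6 : (M : ℝ) ≤ x := by
      refine hMx.trans ?_
      calc (x : ℝ) ^ (1 - θ) ≤ (x : ℝ) ^ (1 : ℝ) :=
            Real.rpow_le_rpow_of_exponent_le hx5' (by linarith)
        _ = x := Real.rpow_one _
    exact_mod_cast h6
  have hY : ((⌊κ * Real.log x⌋₊ : ℕ) : ℝ) ≤ κ * Real.log x :=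
    Nat.floor_le (mul_nonneg hκ0.le (Real.log_natCast_nonneg x))
  set D := DY z V ⌊κ * Real.log x⌋₊ M with hD
  set w := ⌊(x : ℝ) ^ (1 / A)⌋₊ with hw
  have hD1 : 1 ≤ D := (h5 z V ⌊κ * Real.log x⌋₊ M hM).1
  have hG : ∀ j n, ‖Gf (f j) (Ψ j) (t j) D z w n‖ ≤ 1 := fun j n =>
    (h4.2 M (Ψ j) (f j) (t j) D (hf j) hD1).2.2.1 z w n
  have hGk : ∀ n, ‖Gk f Ψ t D z w a n‖ ≤ 1 := by
    intro n
    unfold Gk
    rw [norm_prod]
    exact Finset.prod_le_one (fun _ _ => norm_nonneg _) (fun j _ => hG j _)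
  have hK := hKAT x hx2 g (fun n => Gk f Ψ t D z w a n) hg hGk
    fun p hp q' hq' hpq => hx1 p hp q' hq' hpq M _ q χ Ψ f t hM hMx hY hχ hcase' hf ht
      (x / max p q') (Nat.div_le_self _ _)
  have hSj : ∀ j, ∑ n ∈ Finset.Icc 1 x,
      ‖f j (sh (a j) n) - Gf (f j) (Ψ j) (t j) D z w (sh (a j) n)‖ ≤
      ε / (4 * k) * x + 2 * ((a j).natAbs : ℝ) := by
    intro j
    have hS := hX₂ x (f j) M (Ψ j) (t j) hx3 (hf j) hM hMx' (hd j)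
    have hsh := MainAux.sum_sh (fun m => ‖f j m - Gf (f j) (Ψ j) (t j) D z w m‖)
      (fun _ => norm_nonneg _) (fun m => by
        refine (norm_sub_le _ _).trans ?_
        linarith [(hf j).bd m, hG j m]) (a j) x
    exact hsh.trans (add_le_add hS le_rfl)
  have h8 : 2 * (N₀ : ℝ) ≤ ε / 4 * x := by
    have h9 : 8 * (N₀ : ℝ) / ε ≤ x := Nat.ceil_le.1 hx4
    rw [div_le_iff₀ hε] at h9
    linarith
  have e : ∑ n ∈ Finset.Icc 1 x, g n * ∏ j, f j (sh (a j) n) =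
      ∑ n ∈ Finset.Icc 1 x, g n * Gk f Ψ t D z w a n +
        ∑ n ∈ Finset.Icc 1 x, g n * (∏ j, f j (sh (a j) n) - Gk f Ψ t D z w a n) := by
    rw [← Finset.sum_add_distrib]
    refine Finset.sum_congr rfl fun n _ => ?_
    ring
  have h10 : ‖∑ n ∈ Finset.Icc 1 x, g n * (∏ j, f j (sh (a j) n) - Gk f Ψ t D z w a n)‖ ≤
      ∑ n ∈ Finset.Icc 1 x, ∑ j, ‖f j (sh (a j) n) -
        Gf (f j) (Ψ j) (t j) D z w (sh (a j) n)‖ := by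
    refine (norm_sum_le _ _).trans (Finset.sum_le_sum fun n _ => ?_)
    rw [norm_mul]
    refine (mul_le_of_le_one_left (norm_nonneg _) (hg.bd n)).trans ?_
    exact KeyC.norm_prod_sub_prod _ _ _ (fun j _ => (hf j).bd _) (fun j _ => hG j _)
  rw [Finset.sum_comm] at h10
  have h11 : ∑ j, ∑ n ∈ Finset.Icc 1 x, ‖f j (sh (a j) n) -
      Gf (f j) (Ψ j) (t j) D z w (sh (a j) n)‖ ≤ ε / 4 * x + 2 * (N₀ : ℝ) := by
    refine (Finset.sum_le_sum fun j _ => hSj j).trans (le_of_eq ?_)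
    rw [Finset.sum_add_distrib, Finset.sum_const, Finset.card_univ, Fintype.card_fin,
      nsmul_eq_mul, ← Finset.mul_sum, hN₀]
    push_cast
    field_simp
  rw [e]
  refine (norm_add_le _ _).trans ?_
  linarith [h10.trans h11]

end Pool.Agent.TPK
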