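import Pool.Agent.TPY.Targets

set_option autoImplicit false

/-! MP_f3f922_nt: one function arbitrary, all the others structured on the large primes, conductors
up to `x ^ (1 - θ)` with bounded pairwise gcds, one of them large: targets. `Gf`, `Lm`, `xz`, `zt`
are those of `TPM`, `DY` that of `TPX`. All characters are lifted to one modulus `M`. -/

namespace Pool.Agent.TPK

open Finset Filter Pool.Agent.Ell Pool.Agent.TPM Pool.Agent.TPX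
open scoped BigOperators ComplexConjugate

/-- `Ψ` mod `M` is induced by `χ` mod `q` -/
def Ind {q M : ℕ} (χ : DirichletCharacter ℂ q) (Ψ : DirichletCharacter ℂ M) : Prop :=
  q ∣ M ∧ ∀ n : ℤ, IsCoprime n (M : ℤ) → Ψ (n : ZMod M) = χ (n : ZMod q)

/-- the periodic part of the cross product of `k` structured functions -/
noncomputable def Lk {k M : ℕ} (f : Fin k → ℕ → ℂ) (Ψ : Fin k → DirichletCharacter ℂ M)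
    (t : Fin k → ℝ) (D : ℕ) (a : Fin k → ℤ) (p p' : ℕ) (m : ℕ) : ℂ :=
  ∏ j, Lm (f j) (Ψ j) (t j) D (a j) p p' m

/-- the product of `k` structured functions at shifted arguments -/
noncomputable def Gk {k M : ℕ} (f : Fin k → ℕ → ℂ) (Ψ : Fin k → DirichletCharacter ℂ M)
    (t : Fin k → ℝ) (D z w : ℕ) (a : Fin k → ℤ) (n : ℕ) : ℂ :=
  ∏ j, Gf (f j) (Ψ j) (t j) D z w (sh (a j) n)

/-- TPK-KFC (from `T_FAC`). Splitting an induced character at a prime.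
PROOF. As `Pool/Agent/TPY/FCN.lean`. `c` = exponent of `ℓ` in `q`, `q = ℓ ^ c q'`, `c ≤ κ`,
`q' ∣ M'`. `T_FAC` for `χ` gives `φ'` primitive mod `ℓ ^ c` and `χ₂` mod `q'`; `φ`, `Ψ₂` are their
`changeLevel`s to `ℓ ^ κ` and `M'`. For `n` prime to the modulus all sides agree; if `ℓ ∣ n`,
`1 ≤ κ`, both sides are `0`; if `gcd(n, M') > 1` both are `0`. If `κ = 0` then `c = 0`. -/
def T_KFC : Prop := ∀ (ℓ κ M' q : ℕ) (χ : DirichletCharacter ℂ q)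
  (Ψ : DirichletCharacter ℂ (ℓ ^ κ * M')), ℓ.Prime → 1 ≤ M' → ¬ ℓ ∣ M' → χ.IsPrimitive → Ind χ Ψ →
  ∃ (c : ℕ) (φ' : DirichletCharacter ℂ (ℓ ^ c)) (φ : DirichletCharacter ℂ (ℓ ^ κ))
  (Ψ₂ : DirichletCharacter ℂ M'), c ≤ κ ∧ ℓ ^ c ∣ q ∧ ¬ ℓ ^ (c + 1) ∣ q ∧ φ'.IsPrimitive ∧
  (∀ n : ℤ, Ψ (n : ZMod (ℓ ^ κ * M')) = φ (n : ZMod (ℓ ^ κ)) * Ψ₂ (n : ZMod M')) ∧
  ∀ n : ℤ, ¬ (ℓ : ℤ) ∣ n → φ (n : ZMod (ℓ ^ κ)) = φ' (n : ZMod (ℓ ^ c))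

/-- TPK-KRD. Reduction of the mean to the prime `ℓ`, `k` functions.
PROOF. As `Pool/Agent/TPY/RED.lean` (`RED_.xz_prog` with `j = k = κ`, `RED_.mb_twist`,
`RED_.sum_prog`), applied to each of the `2 k` factors; the constants multiply. -/
def T_KRD : Prop := ∀ (k ℓ i κ D' M' : ℕ) (φ : Fin k → DirichletCharacter ℂ (ℓ ^ κ))
  (Ψ₂ : Fin k → DirichletCharacter ℂ M') (Ψ : Fin k → DirichletCharacter ℂ (ℓ ^ κ * M'))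
  (f : Fin k → ℕ → ℂ) (t : Fin k → ℝ) (a : Fin k → ℤ) (p p' : ℕ), ℓ.Prime → 1 ≤ κ → 1 ≤ D' →
  1 ≤ M' → ¬ ℓ ∣ D' → ¬ ℓ ∣ M' → (∀ j, MB (f j)) →
  (∀ j, ∀ n : ℤ, Ψ j (n : ZMod (ℓ ^ κ * M')) = φ j (n : ZMod (ℓ ^ κ)) * Ψ₂ j (n : ZMod M')) →
  (∀ j, MB (fun n => f j n * conj (Ψ₂ j (n : ZMod M')))) ∧
  ‖mean ((ℓ ^ i * D') * (ℓ ^ κ * M')) (Lk f Ψ t (ℓ ^ i * D') a p p')‖ ≤
    ‖mean (ℓ ^ i * ℓ ^ κ) (Lk (fun j n => f j n * conj (Ψ₂ j (n : ZMod M'))) φ t (ℓ ^ i) a p p')‖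

/-- TPK-KCA (from `EllTw.T_RAM`). The mean at a prime `ℓ ∤ p p'` if only one character is
nontrivial at `ℓ`.
PROOF. As `Pool/Agent/TPY/CA.lean`. If `ℓ` divides none of the `2 k` numbers `p m + a j`,
`p' m + a j` then every `xz = φ j (n)` (`gcd(n, ℓ ^ i) = 1`), which is `1` for `j ≠ j₁` and
`φ' (n)` for `j₁`. If `ℓ` divides one of them use `|..| ≤ 1`: at most `2 k q / ℓ` such `m` among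
`q = ℓ ^ (i + κ)`. `K = |K0| + 4 k + 1`, `K0` of `T_RAM` for `a j₁` (maximum or sum over `j₁`). -/
def T_KCA : Prop := ∀ (k : ℕ) (a : Fin k → ℤ) (p p' : ℕ), (∀ j, a j ≠ 0) → p.Prime → p'.Prime →
  p ≠ p' → ∃ K : ℝ, 0 < K ∧ ∀ (ℓ i c κ : ℕ) (φ : Fin k → DirichletCharacter ℂ (ℓ ^ κ))
  (φ' : DirichletCharacter ℂ (ℓ ^ c)) (j₁ : Fin k) (f : Fin k → ℕ → ℂ) (t : Fin k → ℝ),
  ℓ.Prime → 1 ≤ c → c ≤ κ → φ'.IsPrimitive →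
  (∀ n : ℤ, ¬ (ℓ : ℤ) ∣ n → φ j₁ (n : ZMod (ℓ ^ κ)) = φ' (n : ZMod (ℓ ^ c))) →
  (∀ j, j ≠ j₁ → ∀ n : ℤ, ¬ (ℓ : ℤ) ∣ n → φ j (n : ZMod (ℓ ^ κ)) = 1) →
  (∀ j, MB (f j)) → ¬ ℓ ∣ p → ¬ ℓ ∣ p' →
  ‖mean (ℓ ^ i * ℓ ^ κ) (Lk f φ t (ℓ ^ i) a p p')‖ ≤ K / ℓ

/-- TPK-KCB (from `T_RAM2`). The mean at a bounded prime.
PROOF. As `Pool/Agent/TPY/CB.lean`. Let `u = i + 1 + max c_j` (`j ≠ j₁`), `ℓ ^ u ≤ E ^ 2`. Fix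
`m0 < ℓ ^ u`, `m = m0 + ℓ ^ u s`. For each `j`, `n = p m + a j`, `e = gcd(n, ℓ ^ i)` does not depend
on `s`, `n / e = n0 / e + p (ℓ ^ u / e) s`, and `ℓ ∣ ℓ ^ u / e`; so for `j ≠ j₁` the factor is
constant (`ℓ ^ (c_j + 1) ∣ ℓ ^ u / e`; if `ℓ ∣ n / e` it is `0`, as `1 ≤ κ`), for `j₁` it is `0` or
`const * φ'(n0 / e + p (ℓ ^ u / e) s)`. The function has the periods `ℓ ^ (i + κ)` and
`ℓ ^ (u + c)`, so its mean is that over `ℓ ^ u * ℓ ^ c` (`EllTw.MEAN_.mean_per_dvd`), and `T_AVG`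
with `T_RAM2` (`α β' - α' β = ℓ ^ u a (p' - p) / (e e') ≠ 0`, `a = a j₁`; finitely many parameters)
gives `K / ℓ ^ c`. -/
def T_KCB : Prop := ∀ (k : ℕ) (a : Fin k → ℤ) (p p' E : ℕ), (∀ j, a j ≠ 0) → p.Prime → p'.Prime →
  p ≠ p' → ∃ K : ℝ, 0 < K ∧ ∀ (ℓ i c κ : ℕ) (φ : Fin k → DirichletCharacter ℂ (ℓ ^ κ))
  (φ' : DirichletCharacter ℂ (ℓ ^ c)) (j₁ : Fin k) (f : Fin k → ℕ → ℂ) (t : Fin k → ℝ),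
  ℓ.Prime → 1 ≤ c → c ≤ κ → φ'.IsPrimitive →
  (∀ n : ℤ, ¬ (ℓ : ℤ) ∣ n → φ j₁ (n : ZMod (ℓ ^ κ)) = φ' (n : ZMod (ℓ ^ c))) →
  (∀ j, j ≠ j₁ → ∃ (d : ℕ) (θ : DirichletCharacter ℂ (ℓ ^ d)), ℓ ^ d ≤ E ∧
    ∀ n : ℤ, ¬ (ℓ : ℤ) ∣ n → φ j (n : ZMod (ℓ ^ κ)) = θ (n : ZMod (ℓ ^ d))) →
  (∀ j, MB (f j)) → ℓ ^ (i + 1) ≤ E →
  ‖mean (ℓ ^ i * ℓ ^ κ) (Lk f φ t (ℓ ^ i) a p p')‖ ≤ K / (ℓ : ℝ) ^ c

/-- TPK-KMN (from `T_KFC`, `T_KRD`, `T_KCA`, `T_KCB`, `T_XZW`). The mean is small.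
PROOF. As `Pool/Agent/TPY/MNN.lean`. `z0 ≥ K / η, p, p', C`; given `z, V`: `K'` of `T_KCB` with
`E = Rep.Q1 z V * (z + 1) + C`, `R1 = max (⌈K' / η⌉) C + 1`, `R = R1 ^ (z + 1)`. Let `q j₁ > R`.
If a prime `ℓ > z` divides `q j₁` then it divides no other `q j` (the gcd would be `≥ ℓ > C`), so
(`T_KFC`) `φ' = 1` mod `ℓ ^ 0` for `j ≠ j₁`, and `T_KRD`, `T_KCA` give `≤ K / ℓ ≤ η`. Otherwise
some `ℓ ≤ z` has `ℓ ^ c > R1`, `ℓ ^ c` the exact power in `q j₁`, and for `j ≠ j₁` the exact power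
`ℓ ^ d` in `q j` is `≤ C` (else the gcd would be `> C`); `T_KRD`, `T_KCB` give `≤ η`. -/
def T_KMN : Prop := ∀ (k : ℕ) (a : Fin k → ℤ) (p p' C : ℕ) (η : ℝ), (∀ j, a j ≠ 0) → p.Prime →
  p'.Prime → p ≠ p' → 0 < η → ∃ z0 : ℕ, ∀ z V : ℕ, z0 ≤ z → ∃ R : ℕ,
  ∀ (Y M : ℕ) (q : Fin k → ℕ) (χ : ∀ j, DirichletCharacter ℂ (q j))
  (Ψ : Fin k → DirichletCharacter ℂ M) (f : Fin k → ℕ → ℂ) (t : Fin k → ℝ), 1 ≤ M →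
  (∀ j, (χ j).IsPrimitive ∧ Ind (χ j) (Ψ j)) → (∀ i j, i ≠ j → Nat.gcd (q i) (q j) ≤ C) →
  (∃ j, R < q j) → (∀ j, MB (f j)) →
  ‖mean (DY z V Y M * M) (Lk f Ψ t (DY z V Y M) a p p')‖ ≤ η

/-- TPK-KBL (from `T_MSW`, `T_EQW`, `T_KMN`, `T_XZ`, `T_XZW`). One dyadic block.
PROOF. Adapt `Pool/Agent/TPY/BLN.lean`, `Pool/Agent/TPX/BLW.lean`: `T_MSW` with `r = 2 k`; the
local functions are `u ℓ m = lf ℓ (al2 ℓ) (v2 ℓ) m - 1` with index type `Fin k ⊕ Fin k`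
(`al ℓ p (a j)`, `zt (f j) (Ψ j) (t j) ℓ`, and for the right part `al ℓ p' (a j)`, `conj (zt ..)`);
all of them are `1` if `ℓ ∣ M`; `z ≥ 4 k`. The product of the `nit` is `ph a t`
(`KeyA.ph_cross`), the periodic part is `Lk`. Only the alternative `R < q j` is needed. -/
def T_KBL : Prop := ∀ (k : ℕ) (a : Fin k → ℤ) (p p' C : ℕ) (C1 η θ : ℝ), 1 ≤ k →
  Function.Injective a → (∀ j, a j ≠ 0) → p.Prime → p'.Prime → p ≠ p' →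
  (∀ j, |a j| < (p : ℤ)) → (∀ j, |a j| < (p' : ℤ)) → 0 < C1 → 0 < η → 0 < θ → θ < 1 →
  ∃ (s κ : ℝ) (z0 : ℕ), 1 ≤ s ∧ 0 < κ ∧ ∀ z V : ℕ, z0 ≤ z → ∃ R N0 : ℕ,
  ∀ (N w M Y : ℕ) (q : Fin k → ℕ) (χ : ∀ j, DirichletCharacter ℂ (q j))
  (Ψ : Fin k → DirichletCharacter ℂ M) (f : Fin k → ℕ → ℂ) (t : Fin k → ℝ), N0 ≤ N →
  (w : ℝ) ^ s ≤ N → 1 ≤ M → (M : ℝ) ≤ (N : ℝ) ^ (1 - θ) → (Y : ℝ) ≤ κ * Real.log N →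
  (∀ j, (χ j).IsPrimitive ∧ Ind (χ j) (Ψ j)) → (∀ i j, i ≠ j → Nat.gcd (q i) (q j) ≤ C) →
  (∃ j, R < q j) → (∀ j, MB (f j)) → (∀ j, |t j| ≤ (N : ℝ) ^ C1) →
  ∀ x y : ℕ, N ≤ x → x ≤ y → y ≤ 2 * N →
  ‖∑ m ∈ Finset.Ioc x y, Gk f Ψ t (DY z V Y M) z w a (p * m) *
    conj (Gk f Ψ t (DY z V Y M) z w a (p' * m))‖ ≤ η * N

/-- TPK-KCR (from `T_KBL`, `T_XZ`, `T_XZW`). The cross sums up to any `M1 ≤ x`.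
PROOF. Adapt `Pool/Agent/TPX/CRW.lean`. -/
def T_KCR : Prop := ∀ (k : ℕ) (a : Fin k → ℤ) (p p' C : ℕ) (C1 η θ : ℝ), 1 ≤ k →
  Function.Injective a → (∀ j, a j ≠ 0) → p.Prime → p'.Prime → p ≠ p' →
  (∀ j, |a j| < (p : ℤ)) → (∀ j, |a j| < (p' : ℤ)) → 0 < C1 → 0 < η → 0 < θ → θ < 1 →
  ∃ (κ : ℝ) (z0 : ℕ), 0 < κ ∧ ∀ z V : ℕ, z0 ≤ z → ∃ (R : ℕ) (A0 : ℝ), 1 ≤ A0 ∧
  ∀ A : ℝ, A0 ≤ A → ∃ X : ℕ,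
  ∀ (x M Y : ℕ) (q : Fin k → ℕ) (χ : ∀ j, DirichletCharacter ℂ (q j))
  (Ψ : Fin k → DirichletCharacter ℂ M) (f : Fin k → ℕ → ℂ) (t : Fin k → ℝ), X ≤ x →
  1 ≤ M → (M : ℝ) ≤ (x : ℝ) ^ (1 - θ) → (Y : ℝ) ≤ κ * Real.log x →
  (∀ j, (χ j).IsPrimitive ∧ Ind (χ j) (Ψ j)) → (∀ i j, i ≠ j → Nat.gcd (q i) (q j) ≤ C) →
  (∃ j, R < q j) → (∀ j, MB (f j)) → (∀ j, |t j| ≤ (x : ℝ) ^ C1) → ∀ M1 : ℕ, M1 ≤ x →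
  ‖∑ m ∈ Finset.Icc 1 M1, Gk f Ψ t (DY z V Y M) z ⌊(x : ℝ) ^ (1 / A)⌋₊ a (p * m) *
    conj (Gk f Ψ t (DY z V Y M) z ⌊(x : ℝ) ^ (1 / A)⌋₊ a (p' * m))‖ ≤ η * x

/-- TPK-KLC (from `T_KAT`, `T_KCR`, `T_STW`, `T_XZ`, `T_XZW`). The theorem with all characters mod
`M`.
PROOF. Adapt `Pool/Agent/TPX/LCW.lean`: `T_STW (ε / (4 k))` for each `f j` (with `r = M`, the
character `Ψ j`), `|∏ f j (sh (a j) n) - Gk n| ≤ ∑ |f j - Gf| (sh (a j) n)`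
(`Rep.norm_prod_sub_prod`), `MainAux.sum_sh`, and `T_KAT` for `H = Gk`. -/
def T_KLC : Prop := ∀ (k C : ℕ) (a : Fin k → ℤ) (C1 ε θ : ℝ), 1 ≤ k → Function.Injective a →
  (∀ j, a j ≠ 0) → 0 < C1 → 0 < ε → 0 < θ → θ < 1 →
  ∃ (R X : ℕ) (A : ℝ), 1 ≤ A ∧
  ∀ (x M : ℕ) (q : Fin k → ℕ) (χ : ∀ j, DirichletCharacter ℂ (q j))
  (Ψ : Fin k → DirichletCharacter ℂ M) (f : Fin k → ℕ → ℂ) (g : ℕ → ℂ) (t : Fin k → ℝ), X ≤ x →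
  1 ≤ M → (M : ℝ) ≤ (x : ℝ) ^ (1 - θ) →
  (∀ j, (χ j).IsPrimitive ∧ Ind (χ j) (Ψ j)) → (∀ i j, i ≠ j → Nat.gcd (q i) (q j) ≤ C) →
  (∃ j, R < q j) → (∀ j, MB (f j)) → MB g → (∀ j, |t j| ≤ (x : ℝ) ^ C1) →
  (∀ j, dist2 (f j) (Ψ j) (t j) ((x : ℝ) ^ (1 / A)) x ≤ 1 / A) →
  ‖∑ n ∈ Finset.Icc 1 x, g n * ∏ j, f j (sh (a j) n)‖ ≤ ε * x

/-- TPK-KDL. Passing to a larger modulus.
PROOF. `Ψ = DirichletCharacter.changeLevel h χ`. For a prime `p ∤ M` the terms agree; for a prime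
`p ∣ M`, `p > x ^ (1/A)`, the term is `≤ 2 / p`, there are at most `A` such `p` (`M ≤ x`); so the
sum is `≤ 1 / (2 A) + 2 A x ^ (-1/A) ≤ 1 / A` for large `x` (`x ^ (1/(2 A)) ≤ x ^ (1/A)`). -/
def T_KDL : Prop := ∀ A : ℝ, 1 ≤ A → ∃ X : ℕ, ∀ (x q M : ℕ) (χ : DirichletCharacter ℂ q)
  (f : ℕ → ℂ) (t : ℝ), X ≤ x → MB f → 1 ≤ M → M ≤ x → q ∣ M →
  dist2 f χ t ((x : ℝ) ^ (1 / (2 * A))) x ≤ 1 / (2 * A) →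
  ∃ Ψ : DirichletCharacter ℂ M, Ind χ Ψ ∧ dist2 f Ψ t ((x : ℝ) ^ (1 / A)) x ≤ 1 / A

/-- TPK-KFI (from `T_KLC`, `T_KDL`). The final theorem.
PROOF. For each `j₀` let `a i = h (j₀.succAbove i) - h j₀`, apply `T_KLC` with `θ / 2`, `C + 1`,
`ε / 4` (maxima over `j₀`), `M = ∏ (j ≠ j₀), q j`, `Ψ` from `T_KDL`; `δ = 1 / (4 A)`; passing from
the real `x` to `N = ⌊x⌋` and from the sum over `n` to `n + h j₀` as in `Pool/Agent/TPX/FIW.lean`,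
`Pool/Agent/Ell/Final.lean`, `Pool/Agent/Ell/Main.lean` (all indices `j₀` are treated there). Wlog
`θ ≤ 1/2`. -/
def T_KFI : Prop := ∀ (k : ℕ) (h : Fin (k + 1) → ℕ), 1 ≤ k → Function.Injective h →
    ∀ (C : ℕ) (ε θ : ℝ), 0 < ε → 0 < θ →
    ∃ (δ : ℝ) (R : ℕ) (X : ℝ), 0 < δ ∧ ∀ x : ℝ, X ≤ x →
    ∀ f : Fin (k + 1) → ArithmeticFunction ℂ,
      (∀ i, (f i).IsMultiplicative) → (∀ i n, ‖f i n‖ ≤ 1) →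
      ∀ (j₀ : Fin (k + 1)) (q : Fin (k + 1) → ℕ) (χ : ∀ j, DirichletCharacter ℂ (q j))
        (t : Fin (k + 1) → ℝ),
      (∀ j, j ≠ j₀ → 1 ≤ q j ∧ (χ j).IsPrimitive ∧ |t j| ≤ x ^ C ∧
        ∑ p ∈ (Finset.Iic ⌊x⌋₊).filter (fun p : ℕ => p.Prime ∧ x ^ δ < p),
          (1 - (f j p * (starRingEnd ℂ) (χ j (p : ZMod (q j)) *
            (p : ℂ) ^ ((t j : ℂ) * Complex.I))).re) / (p : ℝ) ≤ δ) →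
      (∀ i j, i ≠ j₀ → j ≠ j₀ → i ≠ j → Nat.gcd (q i) (q j) ≤ C) →
      ((∏ j ∈ Finset.univ.erase j₀, q j : ℕ) : ℝ) ≤ x ^ (1 - θ) →
      (∃ j, j ≠ j₀ ∧ R < q j) →
      ‖∑ n ∈ Finset.Icc 1 ⌊x⌋₊, ∏ i, f i (n + h i)‖ / x ≤ ε

end Pool.Agent.TPK
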