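import Pool.Agent.TPK.Targets

set_option autoImplicit false

/-! MP_f3f922_nt: one function arbitrary, all the others structured on the large primes: the
versions with the second alternative (some `t_j` is large). -/

namespace Pool.Agent.TPK

open Finset Filter Pool.Agent.Ell Pool.Agent.TPM Pool.Agent.TPX
open scoped BigOperators ComplexConjugate

/-- one conductor is large and the gcds are bounded -/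
def Big {k : ℕ} (q : Fin k → ℕ) (C R : ℕ) : Prop :=
  (∀ i j, i ≠ j → Nat.gcd (q i) (q j) ≤ C) ∧ ∃ j, R < q j

theorem Big.mono {k : ℕ} {q : Fin k → ℕ} {C R R' : ℕ} (h : Big q C R) (hR : R' ≤ R) :
    Big q C R' := ⟨h.1, by
  obtain ⟨j, hj⟩ := h.2
  exact ⟨j, by omega⟩⟩

/-- one dyadic block -/
def T_KBL2 : Prop := ∀ (k : ℕ) (a : Fin k → ℤ) (p p' C : ℕ) (C1 η θ : ℝ), 1 ≤ k →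
  Function.Injective a → (∀ j, a j ≠ 0) → p.Prime → p'.Prime → p ≠ p' →
  (∀ j, |a j| < (p : ℤ)) → (∀ j, |a j| < (p' : ℤ)) → 0 < C1 → 0 < η → 0 < θ → θ < 1 →
  ∃ (s κ B : ℝ) (z0 : ℕ), 1 ≤ s ∧ 0 < κ ∧ 0 < B ∧ ∀ z V : ℕ, z0 ≤ z → ∃ R N0 : ℕ,
  ∀ (N w M Y : ℕ) (q : Fin k → ℕ) (χ : ∀ j, DirichletCharacter ℂ (q j))
  (Ψ : Fin k → DirichletCharacter ℂ M) (f : Fin k → ℕ → ℂ) (t : Fin k → ℝ), N0 ≤ N →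
  (w : ℝ) ^ s ≤ N → 1 ≤ M → (M : ℝ) ≤ (N : ℝ) ^ (1 - θ) → (Y : ℝ) ≤ κ * Real.log N →
  (∀ j, (χ j).IsPrimitive ∧ Ind (χ j) (Ψ j)) → (Big q C R ∨ B ≤ Lam a t N) →
  (∀ j, MB (f j)) → (∀ j, |t j| ≤ (N : ℝ) ^ C1) →
  ∀ x y : ℕ, N ≤ x → x ≤ y → y ≤ 2 * N →
  ‖∑ m ∈ Finset.Ioc x y, Gk f Ψ t (DY z V Y M) z w a (p * m) *
    conj (Gk f Ψ t (DY z V Y M) z w a (p' * m))‖ ≤ η * N

/-- the cross sums up to any `M1 ≤ x` -/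
def T_KCR2 : Prop := ∀ (k : ℕ) (a : Fin k → ℤ) (p p' C : ℕ) (C1 η θ : ℝ), 1 ≤ k →
  Function.Injective a → (∀ j, a j ≠ 0) → p.Prime → p'.Prime → p ≠ p' →
  (∀ j, |a j| < (p : ℤ)) → (∀ j, |a j| < (p' : ℤ)) → 0 < C1 → 0 < η → 0 < θ → θ < 1 →
  ∃ (κ B : ℝ) (z0 : ℕ), 0 < κ ∧ 0 < B ∧ ∀ z V : ℕ, z0 ≤ z → ∃ (R : ℕ) (A0 : ℝ), 1 ≤ A0 ∧
  ∀ A : ℝ, A0 ≤ A → ∃ X : ℕ,
  ∀ (x M Y : ℕ) (q : Fin k → ℕ) (χ : ∀ j, DirichletCharacter ℂ (q j))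
  (Ψ : Fin k → DirichletCharacter ℂ M) (f : Fin k → ℕ → ℂ) (t : Fin k → ℝ), X ≤ x →
  1 ≤ M → (M : ℝ) ≤ (x : ℝ) ^ (1 - θ) → (Y : ℝ) ≤ κ * Real.log x →
  (∀ j, (χ j).IsPrimitive ∧ Ind (χ j) (Ψ j)) →
  (Big q C R ∨ ∃ j, B * (x : ℝ) ^ k < |t j|) →
  (∀ j, MB (f j)) → (∀ j, |t j| ≤ (x : ℝ) ^ C1) → ∀ M1 : ℕ, M1 ≤ x →
  ‖∑ m ∈ Finset.Icc 1 M1, Gk f Ψ t (DY z V Y M) z ⌊(x : ℝ) ^ (1 / A)⌋₊ a (p * m) *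
    conj (Gk f Ψ t (DY z V Y M) z ⌊(x : ℝ) ^ (1 / A)⌋₊ a (p' * m))‖ ≤ η * x

/-- the theorem with all characters mod `M` -/
def T_KLC2 : Prop := ∀ (k C : ℕ) (a : Fin k → ℤ) (C1 ε θ : ℝ), 1 ≤ k → Function.Injective a →
  (∀ j, a j ≠ 0) → 0 < C1 → 0 < ε → 0 < θ → θ < 1 →
  ∃ (R X : ℕ) (A : ℝ), 1 ≤ A ∧
  ∀ (x M : ℕ) (q : Fin k → ℕ) (χ : ∀ j, DirichletCharacter ℂ (q j))
  (Ψ : Fin k → DirichletCharacter ℂ M) (f : Fin k → ℕ → ℂ) (g : ℕ → ℂ) (t : Fin k → ℝ), X ≤ x →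
  1 ≤ M → (M : ℝ) ≤ (x : ℝ) ^ (1 - θ) →
  (∀ j, (χ j).IsPrimitive ∧ Ind (χ j) (Ψ j)) →
  (Big q C R ∨ ∃ j, (R : ℝ) * (x : ℝ) ^ k < |t j|) →
  (∀ j, MB (f j)) → MB g → (∀ j, |t j| ≤ (x : ℝ) ^ C1) →
  (∀ j, dist2 (f j) (Ψ j) (t j) ((x : ℝ) ^ (1 / A)) x ≤ 1 / A) →
  ‖∑ n ∈ Finset.Icc 1 x, g n * ∏ j, f j (sh (a j) n)‖ ≤ ε * x

/-- the final theorem -/
def T_KFI2 : Prop := ∀ (k : ℕ) (h : Fin (k + 1) → ℕ), 1 ≤ k → Function.Injective h →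
    ∀ (C : ℕ) (ε θ : ℝ), 0 < ε → 0 < θ →
    ∃ (δ : ℝ) (R : ℕ) (X : ℝ), 0 < δ ∧ ∀ x : ℝ, X ≤ x →
    ∀ f : Fin (k + 1) → ArithmeticFunction ℂ,
      (∀ i, (f i).IsMultiplicative) → (∀ i n, ‖f i n‖ ≤ 1) →
      ∀ (j₀ : Fin (k + 1)) (q : Fin (k + 1) → ℕ) (χ : ∀ j, DirichletCharacter ℂ (q j))
        (t : Fin (k + 1) → ℝ),
      (∀ j, j ≠ j₀ → 1 ≤ q j ∧ (χ j).IsPrimitive ∧ |t j| ≤ x ^ C ∧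
        ∑ p ∈ (Finset.Iic ⌊x⌋₊).filter (fun p : ℕ => p.Prime ∧ x ^ δ < p),
          (1 - (f j p * (starRingEnd ℂ) (χ j (p : ZMod (q j)) *
            (p : ℂ) ^ ((t j : ℂ) * Complex.I))).re) / (p : ℝ) ≤ δ) →
      ((∏ j ∈ Finset.univ.erase j₀, q j : ℕ) : ℝ) ≤ x ^ (1 - θ) →
      (((∀ i j, i ≠ j₀ → j ≠ j₀ → i ≠ j → Nat.gcd (q i) (q j) ≤ C) ∧ ∃ j, j ≠ j₀ ∧ R < q j) ∨
        ∃ j, j ≠ j₀ ∧ R * x ^ k < |t j|) →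
      ‖∑ n ∈ Finset.Icc 1 ⌊x⌋₊, ∏ i, f i (n + h i)‖ / x ≤ ε

end Pool.Agent.TPK
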