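import Pool.Agent.TPK.Targets2

set_option autoImplicit false

/-! MP_f3f922_nt: one function arbitrary, all the others structured on the large primes: the mean
is small if some conductor is divisible by a large prime power `ℓ ^ c` with `c ≥ 2` (shared with
the other conductors or not), or with `ℓ` not dividing the other conductors. -/

namespace Pool.Agent.TPK

open Finset Filter Pool.Agent.Ell Pool.Agent.TPM Pool.Agent.TPX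
open scoped BigOperators ComplexConjugate

/-- some `q j` is divisible by a prime power `ℓ ^ c > R` with `c ≥ 2` or with `ℓ` private -/
def BigP {k : ℕ} (q : Fin k → ℕ) (R : ℕ) : Prop :=
  ∃ (j : Fin k) (ℓ c : ℕ), ℓ.Prime ∧ R < ℓ ^ c ∧ ℓ ^ c ∣ q j ∧ (2 ≤ c ∨ ∀ i, i ≠ j → ¬ ℓ ∣ q i)

theorem BigP.mono {k : ℕ} {q : Fin k → ℕ} {R R' : ℕ} (h : BigP q R) (hR : R' ≤ R) :
    BigP q R' := by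
  obtain ⟨j, ℓ, c, h1, h2, h3, h4⟩ := h
  exact ⟨j, ℓ, c, h1, lt_of_le_of_lt hR h2, h3, h4⟩

/-- the polynomial `∑ κ_j a_j (p - p') ∏ (i ≠ j), (p X + a_i) (p' X + a_i)` -/
noncomputable def PP {k : ℕ} (κ a : Fin k → ℤ) (p p' : ℤ) : Polynomial ℤ :=
  ∑ j, Polynomial.C (κ j * (a j * (p - p'))) * ∏ i ∈ Finset.univ.erase j,
    ((Polynomial.C p * Polynomial.X + Polynomial.C (a i)) *
      (Polynomial.C p' * Polynomial.X + Polynomial.C (a i)))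

/-- TPK-VLI. A character mod `ℓ ^ (u + w)`, `w ≤ u`, is additive on `1 + ℓ ^ u y`.
PROOF. `(1 + ℓ^u y) (1 + ℓ^u y') = 1 + ℓ^u (y + y')` mod `ℓ ^ (u + w)` as `2 u ≥ u + w`. So
`y ↦ ψ(1 + ℓ^u y)` is a homomorphism from `ℤ` to the units, its value at `1` is a root of unity of
order dividing `ℓ ^ w` (`y = ℓ ^ w` gives `1`), so it is `exp(2 π i κ / ℓ ^ w)`
(`Complex.isPrimitiveRoot_exp`, `IsPrimitiveRoot.eq_pow_of_pow_eq_one`). If `ℓ ∣ κ` then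
`ψ(1 + ℓ ^ (u + w - 1) y) = 1` for all `y`, so `ψ` factors through `ℓ ^ (u + w - 1)`
(`DirichletCharacter.factorsThrough_iff_ker_unitsMap`), not primitive. -/
def T_VLI : Prop := ∀ (ℓ u w : ℕ) (ψ : DirichletCharacter ℂ (ℓ ^ (u + w))), ℓ.Prime → 1 ≤ w →
  w ≤ u → ∃ κ : ℤ, (∀ y : ℤ, ψ ((1 + (ℓ : ℤ) ^ u * y : ℤ) : ZMod (ℓ ^ (u + w))) =
    Complex.exp (2 * Real.pi * Complex.I * ((κ : ℂ) * y / (ℓ : ℂ) ^ w))) ∧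
  (ψ.IsPrimitive → ¬ (ℓ : ℤ) ∣ κ)

/-- TPK-VCO (from `T_VLI`). The sum over a progression vanishes unless `PP` is divisible by a high
power of `ℓ`.
PROOF. `κ j` from `T_VLI` for `θ j`. Let `ν⁻ j` be an integer inverse of `ν j` mod `ℓ ^ (u + w)`.
`θ_j(ν_j + p ℓ^(u+2i-ε_j) s) = θ_j(ν_j) θ_j(1 + ℓ^u (p ℓ^(2i-ε_j) ν⁻_j s)) =
θ_j(ν_j) e(κ_j p ℓ^(2i-ε_j) ν⁻_j s / ℓ^w)`, similarly for the other factor, so the product is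
`const * e(Z s / ℓ^w)`, `Z = ∑ κ_j (p ℓ^(2i-ε_j) ν⁻_j - p' ℓ^(2i-ε'_j) ν'⁻_j)`; the sum over `s`
is `0` unless `ℓ^w ∣ Z` (geometric sum). With `n_j = p m + a_j`, `n'_j = p' m + a_j`: mod `ℓ^w`,
`p ℓ^(2i-ε_j) ν⁻_j n_j = p ℓ^(2i)`, so `Z ∏ n_i n'_i = ∑ κ_j ℓ^(2i) (p n'_j - p' n_j)
∏ (i ≠ j), n_i n'_i = ℓ^(2i) PP(m)` as `p n'_j - p' n_j = a_j (p - p')`. -/
def T_VCO : Prop := ∀ (k ℓ u w i : ℕ) (p p' : ℤ) (a : Fin k → ℤ)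
  (θ : Fin k → DirichletCharacter ℂ (ℓ ^ (u + w))) (j₁ : Fin k), ℓ.Prime → 1 ≤ w → w ≤ u →
  (θ j₁).IsPrimitive → ∃ κ : Fin k → ℤ, ¬ (ℓ : ℤ) ∣ κ j₁ ∧
  ∀ (m : ℤ) (ε ε' : Fin k → ℕ) (ν ν' : Fin k → ℤ),
  (∀ j, p * m + a j = (ℓ : ℤ) ^ ε j * ν j ∧ p' * m + a j = (ℓ : ℤ) ^ ε' j * ν' j ∧
    ¬ (ℓ : ℤ) ∣ ν j ∧ ¬ (ℓ : ℤ) ∣ ν' j ∧ ε j ≤ i ∧ ε' j ≤ i) →
  ¬ (ℓ : ℤ) ^ w ∣ (ℓ : ℤ) ^ (2 * i) * (PP κ a p p').eval m →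
  ∑ s ∈ Finset.range (ℓ ^ w), ∏ j,
    (θ j ((ν j + p * (ℓ : ℤ) ^ (u + 2 * i - ε j) * (s : ℤ) : ℤ) : ZMod (ℓ ^ (u + w))) *
      conj (θ j ((ν' j + p' * (ℓ : ℤ) ^ (u + 2 * i - ε' j) * (s : ℤ) : ℤ) :
        ZMod (ℓ ^ (u + w))))) = 0

/-- TPK-VPC. Polynomial congruences.
PROOF. Claim (induction on `D`): if `natDegree P ≤ D` and `m_0, ..., m_D` are pairwise incongruent
mod `ℓ ^ g` with `ℓ ^ w ∣ P(m_i)`, `D (g - 1) ≤ w`, then `ℓ ^ (w - D (g - 1)) ∣ P(m)` for all `m`: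
`P - P(m_0) = (X - m_0) Q`, `natDegree Q ≤ D - 1`, and for `i ≥ 1`
`ℓ ^ w ∣ P(m_i) - P(m_0) = (m_i - m_0) Q(m_i)`, `ℓ ^ g ∤ m_i - m_0`, so `ℓ ^ (w - (g - 1)) ∣ Q(m_i)`.
With the hypothesis at `m₀` (as `w - D (g - 1) ≥ b + 1`) the set of the `m` meets at most `D`
classes mod `ℓ ^ g`, each has `N / ℓ ^ g` elements in `range N`. -/
def T_VPC : Prop := ∀ (P : Polynomial ℤ) (D ℓ b g w : ℕ) (m₀ : ℤ), ℓ.Prime → P.natDegree ≤ D →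
  ¬ (ℓ : ℤ) ^ (b + 1) ∣ P.eval m₀ → 1 ≤ g → b + D * (g - 1) < w → ∀ N : ℕ, ℓ ^ g ∣ N →
  ((Finset.range N).filter (fun m : ℕ => (ℓ : ℤ) ^ w ∣ P.eval (m : ℤ))).card * ℓ ^ g ≤ D * N

/-- TPK-VPV. `PP` is not divisible by a high power of `ℓ` at one point.
PROOF. `ℓ ∤ p` or `ℓ ∤ p'`; say `ℓ ∤ p` (the other case is symmetric). Choose `m` with
`p m + a_{j₁} = 0` mod `ℓ ^ (b + 1)`. Only the term `j₁` of `PP(m)` survives; multiply by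
`p ^ (k - 1)` and use `p m + a_i = a_i - a_{j₁}`, `p (p' m + a_i) = p a_i - p' a_{j₁}`: if
`ℓ ^ (b + 1) ∣ PP(m)` then `ℓ ^ (b + 1)` divides `κ_{j₁} W`, so `W`, where
`W = a_{j₁} (p - p') ∏ (i ≠ j₁), (a_i - a_{j₁}) (p a_i - p' a_{j₁})` is not `0`
(`p a_i = p' a_{j₁}` would give `p ∣ a_{j₁}`, but `0 < |a_{j₁}| < p`). `B0` = the sum of all these
`|W|` (both orders of `p, p'`, all `j₁`). `natDegree (PP) ≤ 2 k`: each factor has degree `≤ 1`. -/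
def T_VPV : Prop := ∀ (k : ℕ) (a : Fin k → ℤ) (p p' : ℕ), Function.Injective a → (∀ j, a j ≠ 0) →
  p.Prime → p'.Prime → p ≠ p' → (∀ j, |a j| < (p : ℤ)) → (∀ j, |a j| < (p' : ℤ)) →
  (∀ κ : Fin k → ℤ, (PP κ a p p').natDegree ≤ 2 * k) ∧
  ∃ B0 : ℕ, ∀ (ℓ b : ℕ) (κ : Fin k → ℤ) (j₁ : Fin k), ℓ.Prime → ¬ (ℓ : ℤ) ∣ κ j₁ →
  B0 < ℓ ^ (b + 1) → ∃ m : ℤ, ¬ (ℓ : ℤ) ^ (b + 1) ∣ (PP κ a p p').eval m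

/-- TPK-VSH. A mean is small if the sums over progressions vanish outside a small set.
PROOF. For each `s`, `∑ (m < q), F(m + h s) = ∑ (m < q), F m` (period `q`). So
`L ∑ (m < q), F m = ∑ (m < q), ∑ (s < L), F(m + h s)`, of norm `≤ L card S`. -/
def T_VSH : Prop := ∀ (q h L : ℕ) (F : ℕ → ℂ) (S : Finset ℕ), 1 ≤ q → 1 ≤ L → Per q F →
  (∀ m, ‖F m‖ ≤ 1) → (∀ m < q, m ∉ S → ∑ s ∈ Finset.range L, F (m + h * s) = 0) →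
  ‖mean q F‖ ≤ (S.card : ℝ) / q

/-- TPK-VA (from `T_VCO`, `T_VPC`, `T_VPV`, `T_VSH`). The mean at a large prime whose square divides
one of the conductors.
PROOF. `T_VSH` with `q = ℓ^i ℓ^κ`, `h = ℓ^(c-1)`, `L = ℓ`; `S` = the `m < q` such that `ℓ` divides
one of the `2 k` numbers `p m + a_j`, `p' m + a_j` (at most `2 k q / ℓ`, `ℓ ∤ p p'`; see
`KCA_.core`), or `ℓ ∣ PP(m)` (at most `2 k q / ℓ` by `T_VPC` with `D = 2 k`, `b = 0`, `g = w = 1` and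
`T_VPV`, `B0 < ℓ`). For the other `m` the numbers `n = p m + a_j` are prime to `ℓ`, so
`gcd(n, ℓ^i) = 1`, `xz = φ_j(n) = θ_j(n)`, the same for `m + h s`, and `T_VCO` with `i = 0`,
`u = c - 1`, `w = 1`, `ε = ε' = 0` gives `0`. `K = 4 k + 1`, `z0 = B0 + p + p'`. -/
def T_VA : Prop := ∀ (k : ℕ) (a : Fin k → ℤ) (p p' : ℕ), Function.Injective a → (∀ j, a j ≠ 0) →
  p.Prime → p'.Prime → p ≠ p' → (∀ j, |a j| < (p : ℤ)) → (∀ j, |a j| < (p' : ℤ)) →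
  ∃ (K : ℝ) (z0 : ℕ), 0 < K ∧ ∀ (ℓ i c κ : ℕ) (φ : Fin k → DirichletCharacter ℂ (ℓ ^ κ))
  (θ : Fin k → DirichletCharacter ℂ (ℓ ^ c)) (j₁ : Fin k) (f : Fin k → ℕ → ℂ) (t : Fin k → ℝ),
  ℓ.Prime → z0 < ℓ → 2 ≤ c → c ≤ κ → (θ j₁).IsPrimitive →
  (∀ j, ∀ n : ℤ, ¬ (ℓ : ℤ) ∣ n → φ j (n : ZMod (ℓ ^ κ)) = θ j (n : ZMod (ℓ ^ c))) →
  (∀ j, MB (f j)) → ‖mean (ℓ ^ i * ℓ ^ κ) (Lk f φ t (ℓ ^ i) a p p')‖ ≤ K / ℓ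

/-- TPK-VB (from `T_VCO`, `T_VPC`, `T_VPV`, `T_VSH`). The mean at a bounded prime if one conductor
is divisible by a high power of it.
PROOF. Choose `g ≥ 1` with `2 k / 2 ^ g ≤ η`, `b = B0` (`B0 < 2 ^ (B0 + 1)`), and `R1` such that
`ℓ ^ (i+1) ≤ E`, `R1 < ℓ ^ c` imply `c ≥ 2 (b + 2 k g + 2 E + g + 2)`, e.g.
`R1 = E ^ (2 (b + 2 k g + 2 E + g + 2))` (`2 ≤ ℓ ≤ E`, `i ≤ E`). Let `w = c / 2`, `u = c - w ≥ w`.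
`T_VSH` with `q = ℓ^i ℓ^κ`, `h = ℓ^(u+2i)`, `L = ℓ^w`, `S` = the `m < q` with `ℓ^(w-2i) ∣ PP(m)`;
`T_VPC` with `D = 2 k`, `w - 2 i` gives `card S ≤ 2 k q / ℓ^g ≤ η q`. For `m ∉ S`: let
`n = p m + a_j`, `e = gcd(n, ℓ^i) = ℓ^ε`, `ε ≤ i`, `ν = n / e`. As `ℓ^(i+1) ∣ h`, `e` is the same for
`m + h s`, and `(n + p h s) / e = ν + p ℓ^(u+2i-ε) s`. If `ℓ ∣ ν` for one of the `2 k` numbers, then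
this factor is `0` for all `s` (`κ ≥ 1`, `KCB_.chi_zero`). Otherwise all factors are
`const * θ_j(ν + p ℓ^(u+2i-ε) s)` and `T_VCO` gives `0`. (`T_XZ`, last part, or `KCB_.xz_per`.) -/
def T_VB : Prop := ∀ (k : ℕ) (a : Fin k → ℤ) (p p' E : ℕ) (η : ℝ), Function.Injective a →
  (∀ j, a j ≠ 0) → p.Prime → p'.Prime → p ≠ p' → (∀ j, |a j| < (p : ℤ)) →
  (∀ j, |a j| < (p' : ℤ)) → 0 < η →
  ∃ R1 : ℕ, ∀ (ℓ i c κ : ℕ) (φ : Fin k → DirichletCharacter ℂ (ℓ ^ κ))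
  (θ : Fin k → DirichletCharacter ℂ (ℓ ^ c)) (j₁ : Fin k) (f : Fin k → ℕ → ℂ) (t : Fin k → ℝ),
  ℓ.Prime → R1 < ℓ ^ c → c ≤ κ → (θ j₁).IsPrimitive →
  (∀ j, ∀ n : ℤ, ¬ (ℓ : ℤ) ∣ n → φ j (n : ZMod (ℓ ^ κ)) = θ j (n : ZMod (ℓ ^ c))) →
  (∀ j, MB (f j)) → ℓ ^ (i + 1) ≤ E →
  ‖mean (ℓ ^ i * ℓ ^ κ) (Lk f φ t (ℓ ^ i) a p p')‖ ≤ η

/-- TPK-KM4 (from `T_KFC`, `T_KRD`, `T_KCA`, `T_VA`, `T_VB`, `T_XZW`). The mean is small.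
PROOF. As `Pool/Agent/TPK/KMN.lean` (`KMN_.red`). Let `ℓ ^ c ∣ q j`. Let `j₁` maximize the exponent
`c_j` of `ℓ` in `q j`; `θ_j` = lift of `φ'_j` to `ℓ ^ c_{j₁}`. If `ℓ ≤ z` use `T_VB`; if `ℓ > z` and
`ℓ` divides no other `q i` use `T_KCA`, else `c_{j₁} ≥ c ≥ 2` and `T_VA`. -/
def T_KM4 : Prop := ∀ (k : ℕ) (a : Fin k → ℤ) (p p' : ℕ) (η : ℝ), Function.Injective a →
  (∀ j, a j ≠ 0) → p.Prime → p'.Prime → p ≠ p' → (∀ j, |a j| < (p : ℤ)) →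
  (∀ j, |a j| < (p' : ℤ)) → 0 < η → ∃ z0 : ℕ, ∀ z V : ℕ, z0 ≤ z → ∃ R : ℕ,
  ∀ (Y M : ℕ) (q : Fin k → ℕ) (χ : ∀ j, DirichletCharacter ℂ (q j))
  (Ψ : Fin k → DirichletCharacter ℂ M) (f : Fin k → ℕ → ℂ) (t : Fin k → ℝ), 1 ≤ M →
  (∀ j, (χ j).IsPrimitive ∧ Ind (χ j) (Ψ j)) → BigP q R → (∀ j, MB (f j)) →
  ‖mean (DY z V Y M * M) (Lk f Ψ t (DY z V Y M) a p p')‖ ≤ η

/-- one dyadic block -/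
def T_KBL4 : Prop := ∀ (k : ℕ) (a : Fin k → ℤ) (p p' : ℕ) (C1 η θ : ℝ), 1 ≤ k →
  Function.Injective a → (∀ j, a j ≠ 0) → p.Prime → p'.Prime → p ≠ p' →
  (∀ j, |a j| < (p : ℤ)) → (∀ j, |a j| < (p' : ℤ)) → 0 < C1 → 0 < η → 0 < θ → θ < 1 →
  ∃ (s κ B : ℝ) (z0 : ℕ), 1 ≤ s ∧ 0 < κ ∧ 0 < B ∧ ∀ z V : ℕ, z0 ≤ z → ∃ R N0 : ℕ,
  ∀ (N w M Y : ℕ) (q : Fin k → ℕ) (χ : ∀ j, DirichletCharacter ℂ (q j))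
  (Ψ : Fin k → DirichletCharacter ℂ M) (f : Fin k → ℕ → ℂ) (t : Fin k → ℝ), N0 ≤ N →
  (w : ℝ) ^ s ≤ N → 1 ≤ M → (M : ℝ) ≤ (N : ℝ) ^ (1 - θ) → (Y : ℝ) ≤ κ * Real.log N →
  (∀ j, (χ j).IsPrimitive ∧ Ind (χ j) (Ψ j)) → (BigP q R ∨ B ≤ Lam a t N) →
  (∀ j, MB (f j)) → (∀ j, |t j| ≤ (N : ℝ) ^ C1) →
  ∀ x y : ℕ, N ≤ x → x ≤ y → y ≤ 2 * N →
  ‖∑ m ∈ Finset.Ioc x y, Gk f Ψ t (DY z V Y M) z w a (p * m) *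
    conj (Gk f Ψ t (DY z V Y M) z w a (p' * m))‖ ≤ η * N

/-- the cross sums up to any `M1 ≤ x` -/
def T_KCR4 : Prop := ∀ (k : ℕ) (a : Fin k → ℤ) (p p' : ℕ) (C1 η θ : ℝ), 1 ≤ k →
  Function.Injective a → (∀ j, a j ≠ 0) → p.Prime → p'.Prime → p ≠ p' →
  (∀ j, |a j| < (p : ℤ)) → (∀ j, |a j| < (p' : ℤ)) → 0 < C1 → 0 < η → 0 < θ → θ < 1 →
  ∃ (κ B : ℝ) (z0 : ℕ), 0 < κ ∧ 0 < B ∧ ∀ z V : ℕ, z0 ≤ z → ∃ (R : ℕ) (A0 : ℝ), 1 ≤ A0 ∧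
  ∀ A : ℝ, A0 ≤ A → ∃ X : ℕ,
  ∀ (x M Y : ℕ) (q : Fin k → ℕ) (χ : ∀ j, DirichletCharacter ℂ (q j))
  (Ψ : Fin k → DirichletCharacter ℂ M) (f : Fin k → ℕ → ℂ) (t : Fin k → ℝ), X ≤ x →
  1 ≤ M → (M : ℝ) ≤ (x : ℝ) ^ (1 - θ) → (Y : ℝ) ≤ κ * Real.log x →
  (∀ j, (χ j).IsPrimitive ∧ Ind (χ j) (Ψ j)) →
  (BigP q R ∨ ∃ j, B * (x : ℝ) ^ k < |t j|) →
  (∀ j, MB (f j)) → (∀ j, |t j| ≤ (x : ℝ) ^ C1) → ∀ M1 : ℕ, M1 ≤ x →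
  ‖∑ m ∈ Finset.Icc 1 M1, Gk f Ψ t (DY z V Y M) z ⌊(x : ℝ) ^ (1 / A)⌋₊ a (p * m) *
    conj (Gk f Ψ t (DY z V Y M) z ⌊(x : ℝ) ^ (1 / A)⌋₊ a (p' * m))‖ ≤ η * x

/-- the theorem with all characters mod `M` -/
def T_KLC4 : Prop := ∀ (k : ℕ) (a : Fin k → ℤ) (C1 ε θ : ℝ), 1 ≤ k → Function.Injective a →
  (∀ j, a j ≠ 0) → 0 < C1 → 0 < ε → 0 < θ → θ < 1 →
  ∃ (R X : ℕ) (A : ℝ), 1 ≤ A ∧
  ∀ (x M : ℕ) (q : Fin k → ℕ) (χ : ∀ j, DirichletCharacter ℂ (q j))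
  (Ψ : Fin k → DirichletCharacter ℂ M) (f : Fin k → ℕ → ℂ) (g : ℕ → ℂ) (t : Fin k → ℝ), X ≤ x →
  1 ≤ M → (M : ℝ) ≤ (x : ℝ) ^ (1 - θ) →
  (∀ j, (χ j).IsPrimitive ∧ Ind (χ j) (Ψ j)) →
  (BigP q R ∨ ∃ j, (R : ℝ) * (x : ℝ) ^ k < |t j|) →
  (∀ j, MB (f j)) → MB g → (∀ j, |t j| ≤ (x : ℝ) ^ C1) →
  (∀ j, dist2 (f j) (Ψ j) (t j) ((x : ℝ) ^ (1 / A)) x ≤ 1 / A) →
  ‖∑ n ∈ Finset.Icc 1 x, g n * ∏ j, f j (sh (a j) n)‖ ≤ ε * x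

/-- the final theorem -/
def T_KFI4 : Prop := ∀ (k : ℕ) (h : Fin (k + 1) → ℕ), 1 ≤ k → Function.Injective h →
    ∀ (C : ℕ) (ε θ : ℝ), 0 < ε → 0 < θ →
    ∃ (δ : ℝ) (R : ℕ) (X : ℝ), 0 < δ ∧ ∀ x : ℝ, X ≤ x →
    ∀ f : Fin (k + 1) → ArithmeticFunction ℂ,
      (∀ i, (f i).IsMultiplicative) → (∀ i n, ‖f i n‖ ≤ 1) →
      ∀ (j₀ : Fin (k + 1)) (q : Fin (k + 1) → ℕ) (χ : ∀ j, DirichletCharacter ℂ (q j))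
        (t : Fin (k + 1) → ℝ),
      (∀ j, j ≠ j₀ → 1 ≤ q j ∧ (χ j).IsPrimitive ∧ |t j| ≤ x ^ C ∧
        ∑ p ∈ (Finset.Iic ⌊x⌋₊).filter (fun p : ℕ => p.Prime ∧ x ^ δ < p),
          (1 - (f j p * (starRingEnd ℂ) (χ j (p : ZMod (q j)) *
            (p : ℂ) ^ ((t j : ℂ) * Complex.I))).re) / (p : ℝ) ≤ δ) →
      (((Finset.univ.erase j₀).lcm q : ℕ) : ℝ) ≤ x ^ (1 - θ) →
      (∃ j, j ≠ j₀ ∧ (R * x ^ k < |t j| ∨ ∃ ℓ c : ℕ, ℓ.Prime ∧ R < ℓ ^ c ∧ ℓ ^ c ∣ q j ∧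
        (2 ≤ c ∨ ∀ i, i ≠ j₀ → i ≠ j → ¬ ℓ ∣ q i))) →
      ‖∑ n ∈ Finset.Icc 1 ⌊x⌋₊, ∏ i, f i (n + h i)‖ / x ≤ ε

end Pool.Agent.TPK
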