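import Pool.Agent.TPK.Targets3

set_option autoImplicit false

/-! MP_f3f922_nt: one function arbitrary, all the others structured on the large primes: a large
prime which divides exactly two of the conductors (once). The character sum has four linear
factors, `U ^ 3` norms of multiplicative characters give an elementary bound. -/

namespace Pool.Agent.TPK

open Finset Filter Pool.Agent.Ell Pool.Agent.TPM Pool.Agent.TPX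
open scoped BigOperators ComplexConjugate

/-- some `q j` is divisible by a prime power `ℓ ^ c > R`, `c ≥ 2` or `ℓ` divides at most one other
`q i` -/
def BigP5 {k : ℕ} (q : Fin k → ℕ) (R : ℕ) : Prop :=
  ∃ (j : Fin k) (ℓ c : ℕ), ℓ.Prime ∧ R < ℓ ^ c ∧ ℓ ^ c ∣ q j ∧
    (2 ≤ c ∨ ∃ i₀, ∀ i, i ≠ j → i ≠ i₀ → ¬ ℓ ∣ q i)

theorem BigP5.mono {k : ℕ} {q : Fin k → ℕ} {R R' : ℕ} (h : BigP5 q R) (hR : R' ≤ R) :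
    BigP5 q R' := by
  obtain ⟨j, ℓ, c, h1, h2, h3, h4⟩ := h
  exact ⟨j, ℓ, c, h1, lt_of_le_of_lt hR h2, h3, h4⟩

/-- TPK-GA. Fourier coefficients of `χ(m + 1) conj χ(m)` (Gowers' additive quadruples).
PROOF. `e(x) = stdAddChar x`, `S = ∑ χ(m+1) conj χ(m) e(ξ m)`. If `ξ = 0` then `|S| = 1` (`χ ≠ 1`:
`∑ (m ≠ 0), χ(1 + 1/m) = - 1`). Let `ξ ≠ 0`, `α = |S|^2`. Dilation `m = m' / u`: for every `u ≠ 0`,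
`|∑ χ(m+u) conj χ(m) e(ξ m / u)|^2 = α`. Expand the square with `m + v`:
`(ℓ - 1) α = ∑ (m, v), conj (D_v m) ∑ (u ≠ 0), D_v(m+u) e(ξ v / u)`, `D_v m = χ(m+v) conj χ(m)`.
Cauchy-Schwarz over `(m, v)`: `((ℓ-1) α)^2 ≤ ℓ^2 ∑_v ∑_m |∑_u D_v(m+u) e(ξ v/u)|^2`. Parseval for
fixed `v`: `∑_m |..|^2 = (1/ℓ) ∑_η |D~_v(η)|^2 |W_v(η)|^2`, `W_v(η) = ∑ (u ≠ 0), e(ξ v / u + η u)` (up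
to signs), `≤ (1/ℓ) (∑_η |D~_v|^4)^(1/2) (∑_η |W_v|^4)^(1/2)`, `∑_η |D~_v(η)|^4 ≤ ℓ^2 ℓ^2` (as
`|D~| ≤ ℓ`, `∑_η |D~|^2 ≤ ℓ^2`). Cauchy-Schwarz over `v`:
`∑_v (∑_η |W_v|^4)^(1/2) ≤ ℓ^(1/2) (∑ (v, η), |W_v(η)|^4)^(1/2)`, and
`∑ (v, η), |W_v(η)|^4 = ℓ^2 Q`, `Q` = number of `(u1,u2,u3,u4)` nonzero with `u1 + u2 = u3 + u4`,
`1/u1 + 1/u2 = 1/u3 + 1/u4`; then `u1 u2 = u3 u4` or `u1 + u2 = 0`, so `Q ≤ 3 ℓ^2`. Together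
`((ℓ-1) α)^2 ≤ ℓ^2 (1/ℓ) ℓ^2 ℓ^(1/2) (3 ℓ^4)^(1/2) = 3^(1/2) ℓ^(11/2)`, so
`α^4 ≤ 3 ℓ^11 / (ℓ-1)^4 ≤ 48 ℓ^7`. -/
def T_GA : Prop := ∃ C : ℝ, 0 < C ∧ ∀ (ℓ : ℕ) [Fact ℓ.Prime] (χ : DirichletCharacter ℂ ℓ)
  (ξ : ZMod ℓ), χ ≠ 1 →
  ‖∑ m : ZMod ℓ, χ (m + 1) * conj (χ m) * ZMod.stdAddChar (ξ * m)‖ ^ 8 ≤ C * (ℓ : ℝ) ^ 7

/-- TPK-GB (from `T_GA`). The `U ^ 3` norm of a nontrivial character.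
PROOF. For fixed `u` let `F(m) = χ(m+u) conj χ(m)`; the inner sum is `∑ F(m+v) conj F(m)`, and by
Parseval `∑_v |..|^2 = (1/ℓ) ∑_η |F~(η)|^4 ≤ (sup |F~|)^2 ∑ |F|^2 ≤ ℓ (sup |F~|)^2`. For `u ≠ 0` the
dilation `m = u m'` gives `F~(η) = ∑ χ(m'+1) conj χ(m') e(η u m')`, so `(sup |F~|)^8 ≤ C ℓ^7`. The
term `u = 0` is `≤ ℓ^3`. So the total is `N ≤ ℓ^3 + ℓ^2 (C ℓ^7)^(1/4)`, `N^4 ≤ 8 (1 + C) ℓ^15`. -/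
def T_GB : Prop := ∃ C : ℝ, 0 < C ∧ ∀ (ℓ : ℕ) [Fact ℓ.Prime] (χ : DirichletCharacter ℂ ℓ), χ ≠ 1 →
  (∑ u : ZMod ℓ, ∑ v : ZMod ℓ, ‖∑ m : ZMod ℓ, χ (m + u + v) * conj (χ (m + u)) *
    conj (χ (m + v)) * χ m‖ ^ 2) ^ 4 ≤ C * (ℓ : ℝ) ^ 15

/-- TPK-GC (from `T_GB`). Three linear factors.
PROOF. `S` = the sum, `A(h) = conj (ψ χ₁ χ₂)(h)`. For `h ≠ 0`, `n = h n'` gives
`∑_n ψ(n) χ₁(n + b h) χ₂(n + c h) = (ψ χ₁ χ₂)(h) S`, so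
`T = ∑ (n, h), A(h) ψ(n) χ₁(n + b h) χ₂(n + c h) = (ℓ - 1) S`. Write `Δ_u f(n) = f(n+u) conj f(n)`.
Cauchy-Schwarz over `h`: `|T|^2 ≤ ℓ ∑ (h, n, u), Δ_u ψ(n) Δ_u χ₁(n + b h) Δ_u χ₂(n + c h)`.
Cauchy-Schwarz over `(n, u)`: `|T|^4 ≤ ℓ^2 ℓ^2 ∑ (n, u), |∑_h Δ_u χ₁(n+bh) Δ_u χ₂(n+ch)|^2 =
ℓ^4 ∑ (n, u, h, v), Δ_{u, b v} χ₁(n + b h) Δ_{u, c v} χ₂(n + c h)`. As `b ≠ c`, `(n, h)` and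
`(n + b h, n + c h)` correspond: `= ℓ^4 ∑ (u, v), (∑_m Δ_{u,bv} χ₁(m)) (∑_m Δ_{u,cv} χ₂(m))
≤ ℓ^4 (ℓ^4)^(1/2) N^(1/2)`, `N` = the sum in `T_GB` for `χ₂` (`c ≠ 0`, replace `c v` by `v`). So
`|T|^32 ≤ ℓ^48 N^4 ≤ C ℓ^63`, `|S|^32 ≤ 2^32 C ℓ^31`. -/
def T_GC : Prop := ∃ C : ℝ, 0 < C ∧ ∀ (ℓ : ℕ) [Fact ℓ.Prime] (ψ χ₁ χ₂ : DirichletCharacter ℂ ℓ)
  (b c : ZMod ℓ), χ₂ ≠ 1 → c ≠ 0 → b ≠ c →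
  ‖∑ n : ZMod ℓ, ψ n * χ₁ (n + b) * χ₂ (n + c)‖ ^ 32 ≤ C * (ℓ : ℝ) ^ 31

/-- TPK-GD (from `T_GC`). Four linear factors with trivial product.
PROOF. `y = (p m + a₁) / (p' m + a₁)` maps the `m` with `p' m + a₁ ≠ 0` bijectively to the
`y ≠ p / p'`, `m = a₁ (1 - y) / (p' y - p)`, and `(p m + a₂) / (p' m + a₂) = (A y + B) / (A' y + B')`,
`A = p' a₂ - p a₁`, `B = p (a₁ - a₂)`, `A' = p' (a₂ - a₁)`, `B' = p' a₁ - p a₂`. So the sum is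
`∑ (y ≠ p/p'), χ₁(y) χ₂(A y + B) conj χ₂(A' y + B')`, which differs by at most `1` from the sum over
all `y`, a unimodular multiple of the sum of `T_GC` with `ψ = χ₁`, `χ₁ = χ₂`, `χ₂ = χ₂⁻¹`,
`b = B / A`, `c = B' / A'`; `c ≠ 0`, and `b ≠ c` as `B' A - B A' = a₁ a₂ (p - p')^2 ≠ 0`. -/
def T_GD : Prop := ∃ C : ℝ, 0 < C ∧ ∀ (ℓ : ℕ) [Fact ℓ.Prime] (χ₁ χ₂ : DirichletCharacter ℂ ℓ)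
  (p p' a₁ a₂ : ZMod ℓ), χ₂ ≠ 1 → p ≠ 0 → p' ≠ 0 → a₁ ≠ 0 → a₂ ≠ 0 → p ≠ p' → a₁ ≠ a₂ →
  p' * a₂ ≠ p * a₁ → p' * a₁ ≠ p * a₂ →
  ‖∑ m : ZMod ℓ, χ₁ (p * m + a₁) * conj (χ₁ (p' * m + a₁)) * (χ₂ (p * m + a₂) *
    conj (χ₂ (p' * m + a₂)))‖ ^ 32 ≤ C * (ℓ : ℝ) ^ 31

/-- TPK-KC2 (from `T_GD`). The mean at a large prime where at most two characters are ramified,
with conductor `ℓ`.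
PROOF. As `Pool/Agent/TPK/KCA.lean`: if `ℓ` divides none of the `2 k` numbers `p m + a_j`,
`p' m + a_j`, then `gcd(n, ℓ^i) = 1` and `Lk = ∏ θ_j(p m + a_j) conj θ_j(p' m + a_j)`, the factors
`j ≠ j₁, j₂` are `1`. So `|mean - (1/ℓ) (sum of T_GD with χ₂ = θ_{j₁}, χ₁ = θ_{j₂})| ≤ 4 k / ℓ`
(`ℓ ∤ p p'`). For `ℓ > z0` the conditions of `T_GD` hold: `p, p', a_j, p - p', a_{j₁} - a_{j₂}`,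
`p' a_{j₁} - p a_{j₂}`, `p' a_{j₂} - p a_{j₁}` are nonzero integers (`p ∤ a_j`). A primitive character
mod `ℓ ^ 1` is not `1`. `(x + y)^32 ≤ 2^31 (x^32 + y^32)`. -/
def T_KC2 : Prop := ∀ (k : ℕ) (a : Fin k → ℤ) (p p' : ℕ), Function.Injective a → (∀ j, a j ≠ 0) →
  p.Prime → p'.Prime → p ≠ p' → (∀ j, |a j| < (p : ℤ)) → (∀ j, |a j| < (p' : ℤ)) →
  ∃ (K : ℝ) (z0 : ℕ), 0 < K ∧ ∀ (ℓ i c κ : ℕ) (φ : Fin k → DirichletCharacter ℂ (ℓ ^ κ))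
  (θ : Fin k → DirichletCharacter ℂ (ℓ ^ c)) (j₁ j₂ : Fin k) (f : Fin k → ℕ → ℂ)
  (t : Fin k → ℝ), ℓ.Prime → z0 < ℓ → c = 1 → 1 ≤ κ → j₁ ≠ j₂ → (θ j₁).IsPrimitive →
  (∀ j, ∀ n : ℤ, ¬ (ℓ : ℤ) ∣ n → φ j (n : ZMod (ℓ ^ κ)) = θ j (n : ZMod (ℓ ^ c))) →
  (∀ j, j ≠ j₁ → j ≠ j₂ → ∀ n : ℤ, ¬ (ℓ : ℤ) ∣ n → φ j (n : ZMod (ℓ ^ κ)) = 1) →
  (∀ j, MB (f j)) → ‖mean (ℓ ^ i * ℓ ^ κ) (Lk f φ t (ℓ ^ i) a p p')‖ ^ 32 ≤ K / ℓ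

/-- the mean is small -/
def T_KM5 : Prop := ∀ (k : ℕ) (a : Fin k → ℤ) (p p' : ℕ) (η : ℝ), Function.Injective a →
  (∀ j, a j ≠ 0) → p.Prime → p'.Prime → p ≠ p' → (∀ j, |a j| < (p : ℤ)) →
  (∀ j, |a j| < (p' : ℤ)) → 0 < η → ∃ z0 : ℕ, ∀ z V : ℕ, z0 ≤ z → ∃ R : ℕ,
  ∀ (Y M : ℕ) (q : Fin k → ℕ) (χ : ∀ j, DirichletCharacter ℂ (q j))
  (Ψ : Fin k → DirichletCharacter ℂ M) (f : Fin k → ℕ → ℂ) (t : Fin k → ℝ), 1 ≤ M →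
  (∀ j, (χ j).IsPrimitive ∧ Ind (χ j) (Ψ j)) → BigP5 q R → (∀ j, MB (f j)) →
  ‖mean (DY z V Y M * M) (Lk f Ψ t (DY z V Y M) a p p')‖ ≤ η

/-- one dyadic block -/
def T_KBL5 : Prop := ∀ (k : ℕ) (a : Fin k → ℤ) (p p' : ℕ) (C1 η θ : ℝ), 1 ≤ k →
  Function.Injective a → (∀ j, a j ≠ 0) → p.Prime → p'.Prime → p ≠ p' →
  (∀ j, |a j| < (p : ℤ)) → (∀ j, |a j| < (p' : ℤ)) → 0 < C1 → 0 < η → 0 < θ → θ < 1 →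
  ∃ (s κ B : ℝ) (z0 : ℕ), 1 ≤ s ∧ 0 < κ ∧ 0 < B ∧ ∀ z V : ℕ, z0 ≤ z → ∃ R N0 : ℕ,
  ∀ (N w M Y : ℕ) (q : Fin k → ℕ) (χ : ∀ j, DirichletCharacter ℂ (q j))
  (Ψ : Fin k → DirichletCharacter ℂ M) (f : Fin k → ℕ → ℂ) (t : Fin k → ℝ), N0 ≤ N →
  (w : ℝ) ^ s ≤ N → 1 ≤ M → (M : ℝ) ≤ (N : ℝ) ^ (1 - θ) → (Y : ℝ) ≤ κ * Real.log N →
  (∀ j, (χ j).IsPrimitive ∧ Ind (χ j) (Ψ j)) → (BigP5 q R ∨ B ≤ Lam a t N) →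
  (∀ j, MB (f j)) → (∀ j, |t j| ≤ (N : ℝ) ^ C1) →
  ∀ x y : ℕ, N ≤ x → x ≤ y → y ≤ 2 * N →
  ‖∑ m ∈ Finset.Ioc x y, Gk f Ψ t (DY z V Y M) z w a (p * m) *
    conj (Gk f Ψ t (DY z V Y M) z w a (p' * m))‖ ≤ η * N

/-- the cross sums up to any `M1 ≤ x` -/
def T_KCR5 : Prop := ∀ (k : ℕ) (a : Fin k → ℤ) (p p' : ℕ) (C1 η θ : ℝ), 1 ≤ k →
  Function.Injective a → (∀ j, a j ≠ 0) → p.Prime → p'.Prime → p ≠ p' →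
  (∀ j, |a j| < (p : ℤ)) → (∀ j, |a j| < (p' : ℤ)) → 0 < C1 → 0 < η → 0 < θ → θ < 1 →
  ∃ (κ B : ℝ) (z0 : ℕ), 0 < κ ∧ 0 < B ∧ ∀ z V : ℕ, z0 ≤ z → ∃ (R : ℕ) (A0 : ℝ), 1 ≤ A0 ∧
  ∀ A : ℝ, A0 ≤ A → ∃ X : ℕ,
  ∀ (x M Y : ℕ) (q : Fin k → ℕ) (χ : ∀ j, DirichletCharacter ℂ (q j))
  (Ψ : Fin k → DirichletCharacter ℂ M) (f : Fin k → ℕ → ℂ) (t : Fin k → ℝ), X ≤ x →
  1 ≤ M → (M : ℝ) ≤ (x : ℝ) ^ (1 - θ) → (Y : ℝ) ≤ κ * Real.log x →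
  (∀ j, (χ j).IsPrimitive ∧ Ind (χ j) (Ψ j)) →
  (BigP5 q R ∨ ∃ j, B * (x : ℝ) ^ k < |t j|) →
  (∀ j, MB (f j)) → (∀ j, |t j| ≤ (x : ℝ) ^ C1) → ∀ M1 : ℕ, M1 ≤ x →
  ‖∑ m ∈ Finset.Icc 1 M1, Gk f Ψ t (DY z V Y M) z ⌊(x : ℝ) ^ (1 / A)⌋₊ a (p * m) *
    conj (Gk f Ψ t (DY z V Y M) z ⌊(x : ℝ) ^ (1 / A)⌋₊ a (p' * m))‖ ≤ η * x

/-- the theorem with all characters mod `M` -/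
def T_KLC5 : Prop := ∀ (k : ℕ) (a : Fin k → ℤ) (C1 ε θ : ℝ), 1 ≤ k → Function.Injective a →
  (∀ j, a j ≠ 0) → 0 < C1 → 0 < ε → 0 < θ → θ < 1 →
  ∃ (R X : ℕ) (A : ℝ), 1 ≤ A ∧
  ∀ (x M : ℕ) (q : Fin k → ℕ) (χ : ∀ j, DirichletCharacter ℂ (q j))
  (Ψ : Fin k → DirichletCharacter ℂ M) (f : Fin k → ℕ → ℂ) (g : ℕ → ℂ) (t : Fin k → ℝ), X ≤ x →
  1 ≤ M → (M : ℝ) ≤ (x : ℝ) ^ (1 - θ) →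
  (∀ j, (χ j).IsPrimitive ∧ Ind (χ j) (Ψ j)) →
  (BigP5 q R ∨ ∃ j, (R : ℝ) * (x : ℝ) ^ k < |t j|) →
  (∀ j, MB (f j)) → MB g → (∀ j, |t j| ≤ (x : ℝ) ^ C1) →
  (∀ j, dist2 (f j) (Ψ j) (t j) ((x : ℝ) ^ (1 / A)) x ≤ 1 / A) →
  ‖∑ n ∈ Finset.Icc 1 x, g n * ∏ j, f j (sh (a j) n)‖ ≤ ε * x

/-- the final theorem -/
def T_KFI5 : Prop := ∀ (k : ℕ) (h : Fin (k + 1) → ℕ), 1 ≤ k → Function.Injective h →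
    ∀ (C : ℕ) (ε θ : ℝ), 0 < ε → 0 < θ →
    ∃ (δ : ℝ) (R : ℕ) (X : ℝ), 0 < δ ∧ ∀ x : ℝ, X ≤ x →
    ∀ f : Fin (k + 1) → ArithmeticFunction ℂ,
      (∀ i, (f i).IsMultiplicative) → (∀ i n, ‖f i n‖ ≤ 1) →
      ∀ (j₀ : Fin (k + 1)) (q : Fin (k + 1) → ℕ) (χ : ∀ j, DirichletCharacter ℂ (q j))
        (t : Fin (k + 1) → ℝ),
      (∀ j, j ≠ j₀ → 1 ≤ q j ∧ (χ j).IsPrimitive ∧ |t j| ≤ x ^ C ∧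
        ∑ p ∈ (Finset.Iic ⌊x⌋₊).filter (fun p : ℕ => p.Prime ∧ x ^ δ < p),
          (1 - (f j p * (starRingEnd ℂ) (χ j (p : ZMod (q j)) *
            (p : ℂ) ^ ((t j : ℂ) * Complex.I))).re) / (p : ℝ) ≤ δ) →
      (((Finset.univ.erase j₀).lcm q : ℕ) : ℝ) ≤ x ^ (1 - θ) →
      (∃ j, j ≠ j₀ ∧ (R * x ^ k < |t j| ∨ ∃ ℓ c : ℕ, ℓ.Prime ∧ R < ℓ ^ c ∧ ℓ ^ c ∣ q j ∧
        (2 ≤ c ∨ ∃ i₀, ∀ i, i ≠ j₀ → i ≠ j → i ≠ i₀ → ¬ ℓ ∣ q i))) →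
      ‖∑ n ∈ Finset.Icc 1 ⌊x⌋₊, ∏ i, f i (n + h i)‖ / x ≤ ε

end Pool.Agent.TPK
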