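import Pool.Agent.TPK.Targets6

set_option autoImplicit false

/-! MP_f3f922_nt: a fixed arbitrary sequence `D`, one arbitrary multiplicative function and `k`
structured functions, for all but boundedly many tuples of characters: targets (the version of
`Pool/Agent/TPY` with `k` structured functions). -/

namespace Pool.Agent.TPK

open Finset Filter Pool.Agent.Ell Pool.Agent.TPM Pool.Agent.TPX
open scoped BigOperators ComplexConjugate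

/-- TPK-ZEX (from `T_KBL6`, `T_STW`, `T_KDL`, `T_XZ`, `T_XZW`). The cross sum of the exact
functions.
PROOF. Adapt `Pool/Agent/TPY/EXN.lean`. `T_KBL6` with `2 C`, `η / 2`, `θ / 2` gives `s, κ, B, z0`;
`T_STW` with `η κ0 / (16 k)` gives `z1`; `z = max z0 z1`; `T_STW` gives `V`, `A0`; then `R`, `N0`;
`A1 = max A0 (2 s)`, `A = 2 A1`. Lift each `χ j` to `Ψ j` mod `M` by `T_KDL` (`A1`; `M ≤ x`); for
`T_KBL6` use the primitive characters `(χ j).primitiveCharacter` of modulus `(χ j).conductor`, which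
induce `χ j` and so `Ψ j`. Replacing each of the `2 k` factors `f j (sh (a j) (p m))` by `Gf` costs
`∑ ‖f - Gf‖ + 4 |a j|` (`KeyC.norm_prod_sub_prod` for the products, all factors bounded by `1`). -/
def T_ZEX : Prop := ∀ (k : ℕ) (a : Fin k → ℤ) (p p' : ℕ) (C η κ0 θ : ℝ), 1 ≤ k →
  Function.Injective a → (∀ j, a j ≠ 0) → p.Prime → p'.Prime → p ≠ p' →
  (∀ j, |a j| < (p : ℤ)) → (∀ j, |a j| < (p' : ℤ)) → 0 < C → 0 < η → 0 < κ0 → 0 < θ → θ < 1 →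
  ∃ (B A : ℝ) (R X : ℕ), 0 < B ∧ 1 ≤ A ∧
  ∀ (x N M : ℕ) (q : Fin k → ℕ) (χ : ∀ j, DirichletCharacter ℂ (q j)) (f : Fin k → ℕ → ℂ)
  (t : Fin k → ℝ), X ≤ x → κ0 * x ≤ N → N ≤ x → 1 ≤ M → (M : ℝ) ≤ (x : ℝ) ^ (1 - θ) →
  (∀ j, q j ∣ M) → (∀ j, MB (f j)) → (∀ j, |t j| ≤ (x : ℝ) ^ C) →
  (∀ j, dist2 (f j) (χ j) (t j) ((x : ℝ) ^ (1 / A)) x ≤ 1 / A) →
  ((∃ j, R < (χ j).conductor) ∨ B ≤ Lam a t N) →
  ∀ y1 y2 : ℕ, N ≤ y1 → y1 ≤ y2 → y2 ≤ 2 * N → p * y2 ≤ x → p' * y2 ≤ x →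
  ‖∑ m ∈ Finset.Ioc y1 y2, (∏ j, f j (sh (a j) (p * m))) *
    conj (∏ j, f j (sh (a j) (p' * m)))‖ ≤ η * N

/-- TPK-ZDC. The product of two structured functions.
PROOF. As `Pool/Agent/TPY/DCL.lean`, now with `t`, `t'`: `nit t p conj (nit t' p) = nit (t - t') p`
for `p ≥ 1`; `u = g p conj(χ p nit t p)`, `v = conj(g' p conj(χ' p nit t' p))`. -/
def T_ZDC : Prop := ∀ A1 : ℝ, 1 ≤ A1 → ∃ (A : ℝ) (X : ℕ), A1 ≤ A ∧ ∀ (x q q' : ℕ)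
  (χ : DirichletCharacter ℂ q) (χ' : DirichletCharacter ℂ q') (g g' : ℕ → ℂ) (t t' : ℝ), X ≤ x →
  MB g → MB g' → 1 ≤ q → 1 ≤ q' → Nat.lcm q q' ≤ x →
  dist2 g χ t ((x : ℝ) ^ (1 / A)) x ≤ 1 / A → dist2 g' χ' t' ((x : ℝ) ^ (1 / A)) x ≤ 1 / A →
  MB (fun n => g n * conj (g' n)) ∧ ∃ Ψ : DirichletCharacter ℂ (Nat.lcm q q'),
  (∀ n : ℕ, n.Coprime (q * q') → Ψ n = χ n * conj (χ' n)) ∧
  dist2 (fun n => g n * conj (g' n)) Ψ (t - t') ((x : ℝ) ^ (1 / A1)) x ≤ 1 / A1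

/-- a tuple of characters and frequencies -/
structure PK (k : ℕ) : Type where
  q : Fin k → ℕ
  χ : ∀ j, DirichletCharacter ℂ (q j)
  t : Fin k → ℝ

/-- `∏ g_j(n + a_j)` -/
noncomputable def Wk {k : ℕ} (a : Fin k → ℤ) (g : Fin k → ℕ → ℂ) (n : ℕ) : ℂ :=
  ∏ j, g j (sh (a j) n)

/-- TPK-ZBL (from `EllTw.T_INJ`, `EllTw.T_DUAL`, `T_ZEX`, `T_ZDC`). The number of separated tuples
that correlate with a fixed function on one block.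
PROOF. Adapt `Pool/Agent/TPY/YBL.lean`: the vectors are `w_e m = Wk a (g e) (p m) conj (Wk a (g e)
(p' m))`. For two points with `d N < ‖∑ w_e m conj (w_e' m)‖` apply `T_ZEX` (`C + 1`, `η = d / 2`) to
`f j = g e j conj (g e' j)`, `t - t'`, the characters `Ψ j` mod `lcm (e.q j) (e'.q j)` of `T_ZDC` and
`M = lcm (lcm e.q) (lcm e'.q)` (a multiple of all of them): it follows that all
`(Ψ j).conductor ≤ R` and `Lam a (t - t') N < B0`. So for every `j`, `χ_j n conj(χ'_j n) =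
(Ψ j).primitiveCharacter n` for `n` prime to `q_j q'_j`. For fixed `e` the `e'` are classified by the
tuples of these primitive characters (modulus `≤ R`, finitely many); two `e'`, `e''` in the same
class have `Same (e'.χ j) (e''.χ j)` for all `j` (`T_INJ`), and `|tau (t' - t'')| ≤ 2 B0 N ^ l`, so
`e' = e''` if `B ≥ 2 B0`. `A` is that of `T_ZDC` for `A1` of `T_ZEX`. Wlog `θ ≤ 1 / 2`. -/
def T_ZBL : Prop := ∀ (k : ℕ) (a : Fin k → ℤ) (p p' : ℕ) (C δ κ0 θ : ℝ), 1 ≤ k →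
  Function.Injective a → (∀ j, a j ≠ 0) → p.Prime → p'.Prime → p ≠ p' →
  (∀ j, |a j| < (p : ℤ)) → (∀ j, |a j| < (p' : ℤ)) → 0 < C → 0 < δ → 0 < κ0 → 0 < θ →
  ∃ (K X : ℕ) (B A : ℝ), 0 ≤ B ∧ 1 ≤ A ∧ ∀ x N : ℕ, X ≤ x → κ0 * x ≤ N → N ≤ x →
  ∀ y1 y2 : ℕ, N ≤ y1 → y1 ≤ y2 → y2 ≤ 2 * N → p * y2 ≤ x → p' * y2 ≤ x →
  ∀ (β : ℕ → ℂ) (S : Finset (PK k)) (g : PK k → Fin k → ℕ → ℂ), (∀ m, ‖β m‖ ≤ 1) →
  (∀ e ∈ S, (∀ j, 1 ≤ e.q j ∧ |e.t j| ≤ (x : ℝ) ^ C ∧ MB (g e j) ∧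
    dist2 (g e j) (e.χ j) (e.t j) ((x : ℝ) ^ (1 / A)) x ≤ 1 / A) ∧
    δ * x < ‖∑ m ∈ Finset.Ioc y1 y2, β m * (Wk a (g e) (p * m) *
      conj (Wk a (g e) (p' * m)))‖) →
  (∀ e ∈ S, ∀ e' ∈ S, ((Nat.lcm (Finset.univ.lcm e.q) (Finset.univ.lcm e'.q) : ℕ) : ℝ) ≤
    (x : ℝ) ^ (1 - θ)) →
  (∀ e ∈ S, ∀ e' ∈ S, e ≠ e' → (∀ j, EllTw.Same (e.χ j) (e'.χ j)) →
    ∃ l ∈ Finset.Icc 1 k, B * (x : ℝ) ^ l < |tau a (fun j => e.t j - e'.t j) l|) →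
  S.card ≤ K

/-- TPK-ZTW (from `T_KAT`, `T_ZBL`). The theorem for natural numbers `x`.
PROOF. Adapt `Pool/Agent/TPY/YTW.lean`. -/
def T_ZTW : Prop := ∀ (k : ℕ) (a : Fin k → ℤ) (C ε θ : ℝ), 1 ≤ k →
  Function.Injective a → (∀ j, a j ≠ 0) → 0 < C → 0 < ε → 0 < θ →
  ∃ (J X : ℕ) (B A : ℝ), 1 ≤ A ∧ ∀ x : ℕ, X ≤ x → ∀ D : ℕ → ℂ, (∀ n, ‖D n‖ ≤ 1) →
  ∀ S : Finset (PK k),
  (∀ e ∈ S, (∀ j, 1 ≤ e.q j ∧ |e.t j| ≤ (x : ℝ) ^ C) ∧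
    ∃ (f : ℕ → ℂ) (g : Fin k → ℕ → ℂ), MB f ∧ (∀ j, MB (g j) ∧
      dist2 (g j) (e.χ j) (e.t j) ((x : ℝ) ^ (1 / A)) x ≤ 1 / A) ∧
      ε * x < ‖∑ m ∈ Finset.Icc 1 x, f m * (D m * Wk a g m)‖) →
  (∀ e ∈ S, ∀ e' ∈ S, ((Nat.lcm (Finset.univ.lcm e.q) (Finset.univ.lcm e'.q) : ℕ) : ℝ) ≤
    (x : ℝ) ^ (1 - θ)) →
  (∀ e ∈ S, ∀ e' ∈ S, e ≠ e' → (∀ j, EllTw.Same (e.χ j) (e'.χ j)) →
    ∃ l ∈ Finset.Icc 1 k, B * (x : ℝ) ^ l < |tau a (fun j => e.t j - e'.t j) l|) →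
  S.card ≤ J

/-- TPK-ZFI (from `T_ZTW`). The final theorem.
PROOF. Adapt `Pool/Agent/TPY/YFI.lean`. -/
def T_ZFI : Prop := ∀ (k : ℕ) (h : Fin (k + 1) → ℕ), 1 ≤ k → Function.Injective h →
    ∀ (C ε θ : ℝ), 0 < ε → 0 < θ →
    ∃ (δ : ℝ) (J : ℕ) (B X : ℝ), 0 < δ ∧ ∀ x : ℝ, X ≤ x → ∀ Q : Set (Fin k → ℕ),
    (∀ q ∈ Q, ∀ q' ∈ Q,
      (Nat.lcm (Finset.univ.lcm q) (Finset.univ.lcm q') : ℝ) ≤ x ^ (1 - θ)) →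
    ∀ D : ℕ → ℂ, (∀ n, ‖D n‖ ≤ 1) →
    ∃ S : Finset (Σ r : Fin k → ℕ, (∀ j, DirichletCharacter ℂ (r j)) × (Fin k → ℝ)),
      S.card ≤ J ∧ (∀ e ∈ S, e.1 ∈ Q ∧ ∀ j, 1 ≤ e.1 j) ∧
      ∀ (q : Fin k → ℕ) (χ : ∀ j, DirichletCharacter ℂ (q j)) (t : Fin k → ℝ), q ∈ Q →
        (∀ j, 1 ≤ q j) → (∀ j, |t j| ≤ x ^ C) →
        (∃ e ∈ S, (∀ j, ∀ n : ℕ, n.Coprime (q j * e.1 j) → χ j n = e.2.1 j n) ∧
          ∀ l ∈ Finset.Icc 1 k,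
            |∑ j, (t j - e.2.2 j) * ((h j.succ : ℝ) - h 0) ^ l| ≤ B * x ^ l) ∨
        ∀ (f : ArithmeticFunction ℂ) (g : Fin k → ArithmeticFunction ℂ), f.IsMultiplicative →
          (∀ j, (g j).IsMultiplicative) → (∀ n, ‖f n‖ ≤ 1) → (∀ j n, ‖g j n‖ ≤ 1) →
          (∀ j, ∑ p ∈ (Finset.Iic ⌊x⌋₊).filter (fun p : ℕ => p.Prime ∧ x ^ δ < p),
            (1 - (g j p * (starRingEnd ℂ) (χ j (p : ZMod (q j)) *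
              (p : ℂ) ^ ((t j : ℂ) * Complex.I))).re) / (p : ℝ) ≤ δ) →
          ‖∑ n ∈ Finset.Icc 1 ⌊x⌋₊, D n * f (n + h 0) * ∏ j, g j (n + h j.succ)‖ / x ≤ ε

end Pool.Agent.TPK
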