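import Pool.Agent.TPK.Targets6

set_option autoImplicit false

/-! MP_f3f922_nt, project TPK, block WP4: the auxiliary polynomial is not zero. -/

namespace Pool.Agent.TPK

open Finset Filter Pool.Agent.Ell Pool.Agent.TPM Pool.Agent.TPX
open scoped BigOperators ComplexConjugate Polynomial

namespace WP4_

open Polynomial

variable {K : Type} [Field K]

/-- Polynomials with distinct orders at `0` and sum `0` vanish. -/
theorem all_zero {ι : Type} (s : Finset ι) (T : ι → K[X])
    (h : ∀ i ∈ s, ∀ i' ∈ s, T i ≠ 0 → T i' ≠ 0 →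
      (T i).natTrailingDegree = (T i').natTrailingDegree → i = i')
    (h0 : ∑ i ∈ s, T i = 0) : ∀ i ∈ s, T i = 0 := by
  classical
  by_contra hc
  push Not at hc
  obtain ⟨a, ha, haT⟩ := hc
  obtain ⟨i, hi, hmin⟩ := Finset.exists_min_image (s.filter (fun i => T i ≠ 0))
    (fun i => (T i).natTrailingDegree) ⟨a, Finset.mem_filter.2 ⟨ha, haT⟩⟩
  obtain ⟨his, hiT⟩ := Finset.mem_filter.1 hi
  have h1 : (∑ b ∈ s, T b).coeff (T i).natTrailingDegree = 0 := by
    rw [h0, coeff_zero]
  rw [finsetSum_coeff, Finset.sum_eq_single_of_mem i his] at h1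
  · exact coeff_natTrailingDegree_ne_zero.2 hiT h1
  · intro b hb hbi
    by_cases hbT : T b = 0
    · rw [hbT, coeff_zero]
    · have h2 := hmin b (Finset.mem_filter.2 ⟨hb, hbT⟩)
      have h3 : (T i).natTrailingDegree ≠ (T b).natTrailingDegree := fun e =>
        hbi (h i his b hb hiT hbT e).symm
      exact coeff_eq_zero_of_lt_natTrailingDegree (lt_of_le_of_ne h2 h3)

/-- All exponents are `< K0` modulo `q`. -/
def Good (q K0 : ℕ) (P : K[X]) : Prop := ∀ n, P.coeff n ≠ 0 → n % q < K0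

theorem Good.sum {q K0 : ℕ} {ι : Type} (s : Finset ι) (P : ι → K[X])
    (h : ∀ i ∈ s, Good q K0 (P i)) : Good q K0 (∑ i ∈ s, P i) := by
  intro n hn
  rw [finsetSum_coeff] at hn
  obtain ⟨i, hi, hin⟩ := Finset.exists_ne_zero_of_sum_ne_zero hn
  exact h i hi n hin

theorem Good.mul {q K0 : ℕ} {P : K[X]} (h : Good q K0 P) (b : K) :
    Good q K0 (P * (X ^ q - C b)) := by
  intro n hn
  rw [mul_sub, coeff_sub, coeff_mul_X_pow', coeff_mul_C] at hn
  by_cases h1 : P.coeff n = 0
  · rw [h1, zero_mul, sub_zero] at hn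
    split_ifs at hn with hq
    · have := h (n - q) hn
      rwa [← Nat.mod_eq_sub_mod hq] at this
    · exact absurd rfl hn
  · exact h n h1

theorem Good.mul_pow {q K0 : ℕ} {P : K[X]} (h : Good q K0 P) (b : K) (j : ℕ) :
    Good q K0 (P * (X ^ q - C b) ^ j) := by
  induction j with
  | zero => simpa using h
  | succ j ih =>
    rw [pow_succ, ← mul_assoc]
    exact ih.mul b

theorem coeff_kp_comp {K0 : ℕ} (k : Fin K0 → K) (b : K) (n : ℕ) (hn : K0 ≤ n) :
    ((kp k).comp (X - C b)).coeff n = 0 := by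
  by_cases hp : kp k = 0
  · rw [hp, zero_comp, coeff_zero]
  · refine coeff_eq_zero_of_natDegree_lt ?_
    rw [natDegree_comp, natDegree_X_sub_C, mul_one]
    have h1 : (kp k).degree < K0 := degree_sum_fin_lt k
    have := (natDegree_lt_iff_degree_lt hp).2 h1
    omega

theorem good_kp {q K0 : ℕ} (hK : K0 ≤ q) (k : Fin K0 → K) (b : K) :
    Good q K0 ((kp k).comp (X - C b)) := by
  intro n hn
  have h1 : n < K0 := by
    by_contra h
    exact hn (coeff_kp_comp k b n (not_lt.1 h))
  rw [Nat.mod_eq_of_lt (by omega)]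
  exact h1

theorem coeff_kp {K0 : ℕ} (k : Fin K0 → K) (n : ℕ) :
    (kp k).coeff n = if h : n < K0 then k ⟨n, h⟩ else 0 := by
  unfold kp
  rw [finsetSum_coeff]
  simp only [coeff_C_mul, coeff_X_pow, mul_ite, mul_one, mul_zero]
  split_ifs with h
  · rw [Finset.sum_eq_single (⟨n, h⟩ : Fin K0)]
    · simp
    · intro b _ hb
      rw [if_neg]
      intro e
      exact hb (Fin.ext e.symm)
    · intro h'
      exact absurd (Finset.mem_univ _) h'
  · refine Finset.sum_eq_zero fun b _ => ?_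
    rw [if_neg]
    intro e
    have := b.isLt
    omega

/-- The coefficients of `∑ k_j X ^ (q j)`. -/
theorem zero_of {q J K0 : ℕ} (hK : K0 ≤ q) (k : Fin J → Fin K0 → K)
    (h : ∑ j : Fin J, kp (k j) * X ^ (q * (j : ℕ)) = 0) : k = 0 := by
  funext j t
  have h1 : (∑ j : Fin J, kp (k j) * X ^ (q * (j : ℕ))).coeff (q * (j : ℕ) + t) = 0 := by
    rw [h, coeff_zero]
  rw [finsetSum_coeff, Finset.sum_eq_single j] at h1
  · rw [coeff_mul_X_pow', if_pos (by omega), Nat.add_sub_cancel_left, coeff_kp,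
      dif_pos t.isLt] at h1
    exact h1
  · intro j' _ hj'
    rw [coeff_mul_X_pow']
    split_ifs with h2
    · rw [coeff_kp, dif_neg]
      intro h3
      have ht := t.isLt
      have h4 : (q * (j : ℕ) + t) / q = j := by
        rw [Nat.mul_add_div (by omega), Nat.div_eq_of_lt (by omega), add_zero]
      have h5 : (q * (j : ℕ) + t) / q = j' := by
        have e : q * (j : ℕ) + t = q * (j' : ℕ) + (q * (j : ℕ) + t - q * (j' : ℕ)) := by omega
        rw [e, Nat.mul_add_div (by omega), Nat.div_eq_of_lt (by omega), add_zero]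
      exact hj' (Fin.ext (h5.symm.trans h4))
    · rfl
  · intro h'
    exact absurd (Finset.mem_univ _) h'

/-- Arithmetic of the orders. -/
theorem arith {q d A e K0 i i' n n' : ℕ} (hq : d * A + 1 = q) (hd : 2 ≤ d) (he : e ≤ d)
    (hcop : Nat.Coprime e d) (hK : K0 + d ≤ A) (hi : i < d) (hi' : i' < d)
    (hn : n % q < K0) (hn' : n' % q < K0) (h : i * e * A + n = i' * e * A + n') : i = i' := by
  have he0 : 0 < e := by
    rcases Nat.eq_zero_or_pos e with h0 | h0
    · subst h0
      rw [Nat.coprime_zero_left] at hcop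
      omega
    · exact h0
  have ht : ∀ x, x < d → x * e / d < e := fun x hx => by
    rw [Nat.div_lt_iff_lt_mul (by omega)]
    rw [mul_comm]
    exact Nat.mul_lt_mul_of_pos_left hx he0
  have hr : ∀ x, x * e % d < d := fun x => Nat.mod_lt _ (by omega)
  have hdm : ∀ x, d * (x * e / d) + x * e % d = x * e := fun x => Nat.div_add_mod _ _
  -- the order modulo `q`
  have key : ∀ x m : ℕ, ((x * e * A + m : ℕ) : ℤ) =
      (q : ℤ) * ((x * e / d : ℕ) + (m / q : ℕ) : ℤ) +
        (((x * e % d : ℕ) : ℤ) * A - ((x * e / d : ℕ) : ℤ) + ((m % q : ℕ) : ℤ)) := by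
    intro x m
    have e1 : ((x * e : ℕ) : ℤ) = (d : ℤ) * ((x * e / d : ℕ) : ℤ) + ((x * e % d : ℕ) : ℤ) := by
      exact_mod_cast (hdm x).symm
    have e2 : (m : ℤ) = (q : ℤ) * ((m / q : ℕ) : ℤ) + ((m % q : ℕ) : ℤ) := by
      exact_mod_cast (Nat.div_add_mod m q).symm
    have e3 : (q : ℤ) = d * A + 1 := by exact_mod_cast hq.symm
    have e4 : ((x * e * A + m : ℕ) : ℤ) = ((x * e : ℕ) : ℤ) * A + m := by push_cast; ring
    rw [e4, e1]
    generalize ((x * e / d : ℕ) : ℤ) = t at *
    generalize ((x * e % d : ℕ) : ℤ) = r at *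
    rw [e2]
    generalize ((m / q : ℕ) : ℤ) = u at *
    generalize ((m % q : ℕ) : ℤ) = v at *
    rw [e3]
    ring
  have hz : (q : ℤ) ∣ ((((i * e % d : ℕ) : ℤ) * A - ((i * e / d : ℕ) : ℤ) + ((n % q : ℕ) : ℤ)) -
      (((i' * e % d : ℕ) : ℤ) * A - ((i' * e / d : ℕ) : ℤ) + ((n' % q : ℕ) : ℤ))) := by
    have h1 := key i n
    have h2 := key i' n'
    rw [h] at h1
    rw [h1] at h2
    refine ⟨((i' * e / d : ℕ) + (n' / q : ℕ) : ℤ) - ((i * e / d : ℕ) + (n / q : ℕ) : ℤ), ?_⟩
    linear_combination h2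
  -- equal residues
  have hlt : ∀ r r' t t' o o' : ℕ, r < d → r' < d → t < e → t' < e → o < K0 → o' < K0 →
      (q : ℤ) ∣ (((r : ℤ) * A - t + o) - ((r' : ℤ) * A - t' + o')) → r ≤ r' := by
    intro r r' t t' o o' hr1 hr2 ht1 ht2 ho1 ho2 hdv
    by_contra hc
    push Not at hc
    obtain ⟨c, hc1⟩ := Nat.exists_eq_add_of_lt hc
    have hc2 : c + 1 < d := by omega
    have hcA : (c + 1) * A ≤ (d - 1) * A := Nat.mul_le_mul_right _ (by omega)
    have hcA1 : A ≤ (c + 1) * A := Nat.le_mul_of_pos_left _ (by omega)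
    have hdA : (d - 1) * A + A = d * A := by
      have : d = (d - 1) + 1 := by omega
      calc (d - 1) * A + A = ((d - 1) + 1) * A := by ring
        _ = d * A := by rw [← this]
    have e1 : ((r : ℤ) * A - t + o) - ((r' : ℤ) * A - t' + o') =
        (((c + 1) * A : ℕ) : ℤ) + (o - o') + (t' - t) := by
      rw [hc1]
      push_cast
      ring
    rw [e1] at hdv
    have h3 : (0 : ℤ) < (((c + 1) * A : ℕ) : ℤ) + (o - o') + (t' - t) := by
      generalize (c + 1) * A = y at *
      omega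
    have h4 : (((c + 1) * A : ℕ) : ℤ) + (o - o') + (t' - t) < q := by
      generalize (c + 1) * A = y at *
      generalize (d - 1) * A = y2 at *
      generalize d * A = y3 at *
      omega
    exact absurd (Int.le_of_dvd h3 hdv) (not_le.2 h4)
  have hle := hlt _ _ _ _ _ _ (hr i) (hr i') (ht i hi) (ht i' hi') hn hn' hz
  have hge := hlt _ _ _ _ _ _ (hr i') (hr i) (ht i' hi') (ht i hi) hn' hn (by
    have := (dvd_neg (α := ℤ)).2 hz
    rwa [neg_sub] at this)
  have hmod : i * e ≡ i' * e [MOD d] := le_antisymm hle hge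
  have h5 : i ≡ i' [MOD d] := Nat.ModEq.cancel_right_of_coprime (by
    rw [Nat.gcd_comm]
    exact hcop) hmod
  exact Nat.ModEq.eq_of_lt_of_lt h5 hi hi'

/-- `F` after the substitution. -/
theorem FF_comp {R : ℕ} (e : Fin R → ℕ) (β : Fin R → K) (s₀ : Fin R)
    (hβ : Function.Injective β) : ∃ U : K[X], U.coeff 0 ≠ 0 ∧
      (FF e β).comp (X - C (β s₀)) = X ^ e s₀ * U := by
  refine ⟨∏ s ∈ Finset.univ.erase s₀, (X + C (β s - β s₀)) ^ e s, ?_, ?_⟩
  · rw [coeff_zero_eq_eval_zero, eval_prod]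
    refine Finset.prod_ne_zero_iff.2 fun s hs => ?_
    rw [eval_pow, eval_add, eval_X, eval_C, zero_add]
    refine pow_ne_zero _ ?_
    rw [sub_ne_zero]
    exact fun h => (Finset.ne_of_mem_erase hs) (hβ h)
  · unfold FF
    rw [Polynomial.prod_comp, ← Finset.mul_prod_erase _ _ (Finset.mem_univ s₀)]
    congr 1
    · simp
    · refine Finset.prod_congr rfl fun s _ => ?_
      rw [pow_comp, add_comp, X_comp, C_comp, C_sub]
      ring

end WP4_

open WP4_ Polynomial in
theorem prove_WP4 : T_WP4 := by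
  intro ℓ μ hℓ K _ _ _ R d J K0 m0 e β s₀ k hcard hdm hd hβ hcop hed hK hRR
  set M := ℓ ^ μ with hM
  set q := M ^ 2 with hq
  set A := m0 * (M + 1) with hA
  have hqA : d * A + 1 = q := by
    rw [hq, hA, ← hdm]
    ring
  have hKq : K0 ≤ q := by
    have : A ≤ d * A := Nat.le_mul_of_pos_left _ (by omega)
    omega
  obtain ⟨U, hU0, hFU⟩ := FF_comp e β s₀ hβ
  set b := β s₀ with hb
  -- the substitution
  have hXq : (X - C b : K[X]) ^ q = X ^ q - C b := by
    have e1 : q = ℓ ^ (μ * 2) := by rw [hq, hM, ← pow_mul]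
    have e2 : (C b : K[X]) ^ q = C b := by
      rw [← C_pow, ← hcard, FiniteField.pow_card]
    have e3 : (X - C b : K[X]) ^ q = X ^ q - (C b) ^ q := by
      rw [e1]
      exact sub_pow_char_pow _ _ _
    rw [e3, e2]
  set H : Fin d → K[X] := fun i => ∑ j : Fin J, (kp (k i j)).comp (X - C b) *
    (X ^ q - C b) ^ (j : ℕ) with hH
  have hH2 : ∀ i, H i = (∑ j : Fin J, kp (k i j) * X ^ (q * (j : ℕ))).comp (X - C b) := by
    intro i
    rw [hH, Polynomial.sum_comp]
    refine Finset.sum_congr rfl fun j _ => ?_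
    rw [mul_comp, pow_comp, X_comp, pow_mul, hXq]
  have hsum : ∑ i : Fin d, X ^ ((i : ℕ) * e s₀ * A) * (U ^ ((i : ℕ) * A) * H i) = 0 := by
    have h1 : (RR e β M m0 k).comp (X - C b) = 0 := by rw [hRR, zero_comp]
    rw [← h1]
    unfold RR
    rw [Polynomial.sum_comp]
    refine Finset.sum_congr rfl fun i _ => ?_
    rw [Polynomial.sum_comp, hH]
    simp only
    rw [Finset.mul_sum, Finset.mul_sum]
    refine Finset.sum_congr rfl fun j _ => ?_
    rw [mul_comp, mul_comp, pow_comp, pow_comp, X_comp, hFU, ← hq, ← hA, pow_mul (X - C b), hXq,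
      mul_pow, ← pow_mul, mul_comm (e s₀) ((i : ℕ) * A),
      show (i : ℕ) * e s₀ * A = (i : ℕ) * A * e s₀ by ring]
    ring
  have hH0 : ∀ i, H i = 0 := by
    intro i
    by_contra hne
    have hU : U ≠ 0 := by
      intro h
      rw [h] at hU0
      exact hU0 (coeff_zero _)
    have hT : ∀ i : Fin d, H i ≠ 0 →
        (X ^ ((i : ℕ) * e s₀ * A) * (U ^ ((i : ℕ) * A) * H i)).natTrailingDegree =
          (i : ℕ) * e s₀ * A + (H i).natTrailingDegree := by
      intro i hi
      have hUn : U ^ ((i : ℕ) * A) ≠ 0 := pow_ne_zero _ hU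
      have hU2 : (U ^ ((i : ℕ) * A)).natTrailingDegree = 0 := by
        refine natTrailingDegree_eq_zero.2 (Or.inr ?_)
        rw [coeff_zero_eq_eval_zero, eval_pow, ← coeff_zero_eq_eval_zero]
        exact pow_ne_zero _ hU0
      rw [natTrailingDegree_mul (pow_ne_zero _ X_ne_zero) (mul_ne_zero hUn hi),
        natTrailingDegree_mul hUn hi, natTrailingDegree_X_pow, hU2, zero_add]
    have hgood : ∀ i : Fin d, H i ≠ 0 → (H i).natTrailingDegree % q < K0 := by
      intro i hi
      have hg : Good q K0 (H i) := by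
        rw [hH]
        exact Good.sum _ _ fun j _ => (good_kp hKq _ _).mul_pow _ _
      exact hg _ (coeff_natTrailingDegree_ne_zero.2 hi)
    have hz := all_zero Finset.univ
      (fun i : Fin d => X ^ ((i : ℕ) * e s₀ * A) * (U ^ ((i : ℕ) * A) * H i)) (by
      intro i _ i' _ h1 h2 h3
      have h1' : H i ≠ 0 := right_ne_zero_of_mul (right_ne_zero_of_mul h1)
      have h2' : H i' ≠ 0 := right_ne_zero_of_mul (right_ne_zero_of_mul h2)
      rw [hT i h1', hT i' h2'] at h3
      exact Fin.ext (arith hqA hd hed hcop hK i.isLt i'.isLt (hgood i h1') (hgood i' h2') h3))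
      hsum i (Finset.mem_univ i)
    exact mul_ne_zero (pow_ne_zero _ X_ne_zero) (mul_ne_zero (pow_ne_zero _ hU) hne) hz
  funext i
  refine zero_of hKq (k i) ?_
  have h1 := hH0 i
  rw [hH2 i] at h1
  have h2 : ((∑ j : Fin J, kp (k i j) * X ^ (q * (j : ℕ))).comp (X - C b)).comp (X + C b) = 0 := by
    rw [h1, zero_comp]
  rw [comp_assoc, sub_comp, X_comp, C_comp, add_sub_cancel_right, comp_X] at h2
  exact h2

end Pool.Agent.TPK
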